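import Pool.Agent.Helper22.AE.Defs

/-!
# AlmostEveryCentre (MP_fb29e9_nt): definitions

Plan: /team-store/h22_AC_plan.md. Base notation: `Pool.Agent.Helper22.AE` (`ee`, `nk`, `tk`, `zk`, `xk`, `blk`, `arcSet`, `ft`, `fhat`, `gph`,
`k0`, `rho`, `dom`, `area`, `IsSupp`, `IsBump`).
-/

open MeasureTheory Real Set Filter Topology

set_option autoImplicit false

namespace Pool.Agent.Helper22.AC

open Pool.Agent.Helper22.AE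

/-- the number of integer points in `c + R · dom H` -/
noncomputable def cntc (H : ℝ → ℝ) (c : ℝ × ℝ) (R : ℝ) : ℝ :=
  (Nat.card {k : ℤ × ℤ // ∀ θ : ℝ, ((k.1 : ℝ) - c.1) * cos θ + ((k.2 : ℝ) - c.2) * sin θ ≤ R * H θ} : ℝ)

/-- the bound with exponent `θ` for the centre `c` -/
def Bd (H : ℝ → ℝ) (c : ℝ × ℝ) (θ : ℝ) : Prop :=
  ∃ C : ℝ, ∀ R : ℝ, 1 ≤ R → |cntc H c R - area H * R ^ 2| ≤ C * R ^ θ

/-- the block sum with centre `c` -/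
noncomputable def VKc (φ : ℝ × ℝ → ℝ) (G : ℝ → ℝ) (δ : ℝ) (n : ℕ) (c : ℝ × ℝ) : ℂ :=
  ∑ k ∈ blk n, ft G k * fhat φ (δ * k.1) (δ * k.2) * ee (-((k.1 : ℝ) * c.1 + (k.2 : ℝ) * c.2))

/-- `γ + γ''` lies between `c₁` and `c₂` -/
structure Adm (c₁ c₂ : ℝ) (γ : ℝ → ℝ) : Prop where
  smooth : ContDiff ℝ 2 γ
  per : Function.Periodic γ (2 * π)
  lo : ∀ θ, c₁ ≤ rho γ θ
  hi : ∀ θ, rho γ θ ≤ c₂

/-- the phase function at the angle `α` (`gph H k α = ga H α (tk k)`) -/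
noncomputable def ga (H : ℝ → ℝ) (α t : ℝ) : ℝ := H (t + α) * cos α - deriv H (t + α) * sin α

/-- the homogeneous phase -/
noncomputable def Fk (γ : ℝ → ℝ) (k : ℤ × ℤ) : ℝ := nk k * γ (tk k)

/-- the exponential sum in the variables `q = (c, R)` -/
noncomputable def cs (B : Finset (ℤ × ℤ)) (a : ℤ × ℤ → ℂ) (γ : ℝ → ℝ) (q : (ℝ × ℝ) × ℝ) : ℂ :=
  ∑ k ∈ B, a k * ee (-((k.1 : ℝ) * q.1.1 + (k.2 : ℝ) * q.1.2 + q.2 * Fk γ k))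

/-- the square of the `L⁶` norm -/
noncomputable def n6 {Ω : Type} [MeasurableSpace Ω] (μ : Measure Ω) (f : Ω → ℂ) : ℝ :=
  (∫ ω, ‖f ω‖ ^ 6 ∂μ) ^ (1 / 3 : ℝ)

/-- distance at least two -/
def sep (i j : ℕ) : Prop := i + 2 ≤ j ∨ j + 2 ≤ i

/-- an `M`-adic system of depth `m` with the orthogonality relations -/
structure Sys {Ω : Type} [MeasurableSpace Ω] (μ : Measure Ω) (M m : ℕ) (g : ℕ → ℕ → Ω → ℂ) : Prop where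
  meas : ∀ s j, Measurable (g s j)
  bdd : ∀ s j, ∃ B : ℝ, ∀ ω, ‖g s j ω‖ ≤ B
  add : ∀ s < m, ∀ j < M ^ s, ∀ ω, g s j ω = ∑ r ∈ Finset.range M, g (s + 1) (M * j + r) ω
  orth : ∀ a b c : ℕ, c + 1 ≤ 2 * b → a + 1 + b ≤ m → a + 1 + c ≤ m →
    ∀ j < M ^ (a + 1 + b), ∀ i < M ^ (a + 1 + c), ∀ i' < M ^ (a + 1 + c),
      j / M ^ (b + 1) = i / M ^ (c + 1) → i / M ^ c = i' / M ^ c → sep (i / M ^ c) (j / M ^ b) → sep i i' →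
        ∫ ω, g (a + 1 + c) i ω * (starRingEnd ℂ) (g (a + 1 + c) i' ω) *
          ((‖g (a + 1 + b) j ω‖ ^ 4 : ℝ) : ℂ) ∂μ = 0

/-- sum of `n6` over the descendants of the arc `(s, j)` at the last level `m` -/
noncomputable def SS {Ω : Type} [MeasurableSpace Ω] (μ : Measure Ω) (M m : ℕ) (g : ℕ → ℕ → Ω → ℂ) (s j : ℕ) : ℝ :=
  ∑ r ∈ Finset.range (M ^ (m - s)), n6 μ (g m (M ^ (m - s) * j + r))

/-- the decoupling inequality with exponent `lam` for all arcs of the system -/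
def Dec {Ω : Type} [MeasurableSpace Ω] (μ : Measure Ω) (M m : ℕ) (g : ℕ → ℕ → Ω → ℂ) (lam C : ℝ) : Prop :=
  ∀ s ≤ m, ∀ j < M ^ s, n6 μ (g s j) ≤ C * (M : ℝ) ^ (lam * ((m : ℝ) - s)) * SS μ M m g s j

/-- the bilinear inequality between the levels `a + 1 + b₁` and `a + 1 + b₂` inside one arc of level `a` -/
def Bil {Ω : Type} [MeasurableSpace Ω] (μ : Measure Ω) (M m : ℕ) (g : ℕ → ℕ → Ω → ℂ) (a b₁ b₂ : ℕ) (A : ℝ) : Prop :=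
  ∀ i < M ^ (a + 1 + b₁), ∀ j < M ^ (a + 1 + b₂), i / M ^ (b₁ + 1) = j / M ^ (b₂ + 1) →
    sep (i / M ^ b₁) (j / M ^ b₂) →
      ∫ ω, ‖g (a + 1 + b₁) i ω‖ ^ 2 * ‖g (a + 1 + b₂) j ω‖ ^ 4 ∂μ ≤
        A * SS μ M m g (a + 1 + b₁) i * SS μ M m g (a + 1 + b₂) j ^ 2

/-- a weight on the radii whose Fourier transform vanishes outside `(-1/X, 1/X)` -/
structure IsWt (X : ℝ) (v : ℝ → ℝ) : Prop where
  cont : Continuous v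
  nonneg : ∀ R, 0 ≤ v R
  int_one : ∫ R, v R = 1
  four : ∀ ξ : ℝ, 1 / X ≤ |ξ| → ∫ R, ((v R : ℝ) : ℂ) * ee (-(ξ * R)) = 0

/-- the measure `dc · v(R) dR` on `[0,1]² × ℝ` -/
noncomputable def mu (v : ℝ → ℝ) : Measure ((ℝ × ℝ) × ℝ) :=
  (volume.restrict (Icc (0 : ℝ) 1 ×ˢ Icc (0 : ℝ) 1)).prod (volume.withDensity fun R => ENNReal.ofReal (v R))

/-- squares of side `2^(-n)` -/
def sq (n : ℕ) (p : ℕ × ℕ) : Set (ℝ × ℝ) :=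
  Icc ((p.1 : ℝ) / 2 ^ n) (((p.1 : ℝ) + 1) / 2 ^ n) ×ˢ Icc ((p.2 : ℝ) / 2 ^ n) (((p.2 : ℝ) + 1) / 2 ^ n)

end Pool.Agent.Helper22.AC
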