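import Pool.Agent.Helper22.AC.D1a
import Pool.Agent.Helper22.AE.P4

/-!
# AC-D1b: the error term with centre and a general smoothing `δ = R₀^(-τ)`

PROOF: copy of `err_le_poisson` (AE.P4) with `δ = R₀^(-τ) ≤ 1` instead of `R₀^(-1/2)` (`area_bound` gives `≤ C R δ ≤ 2 C R₀^(1-τ)`), `smcc` instead
of `smc`, `poisson_c` instead of `poisson_dom`; the term `k = 0` is the area (`ee 0 = 1`). `cntc H c R` is by definition the number of `k` with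
`(k.1 - c.1, k.2 - c.2) ∈ dom (R H)`. The constants `C`, `R₁` do not depend on `c`.
-/

open MeasureTheory Real Set Filter Topology

set_option autoImplicit false

namespace Pool.Agent.Helper22.AC

open Pool.Agent.Helper22.AE

private lemma ft_zero_h12 (G : ℝ → ℝ) : ft G 0 = (((volume (dom G)).toReal : ℝ) : ℂ) := by
  unfold ft
  have h : ∀ p : ℝ × ℝ, ee (-((((0 : ℤ × ℤ).1 : ℤ) : ℝ) * p.1 + (((0 : ℤ × ℤ).2 : ℤ) : ℝ) * p.2)) = 1 := by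
    intro p
    simp [ee_zero]
  simp only [h]
  rw [MeasureTheory.setIntegral_const]
  simp [Measure.real]

private lemma fhat_zero_h12 {φ : ℝ × ℝ → ℝ} (hφ : IsBump φ) : fhat φ 0 0 = 1 := by
  unfold fhat
  have h : ∀ p : ℝ × ℝ, ee (-((0 : ℝ) * p.1 + 0 * p.2)) * (φ p : ℂ) = ((φ p : ℝ) : ℂ) := by
    intro p
    simp [ee_zero]
  simp only [h]
  rw [integral_complex_ofReal, hφ.int_one]
  simp

/-- the smoothed count is the area plus the nonzero frequencies -/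
private lemma smcc_eq_h12 {G : ℝ → ℝ} (hG : IsSupp G) {φ : ℝ × ℝ → ℝ} (hφ : IsBump φ) {δ : ℝ} (hδ : 0 < δ)
    (c : ℝ × ℝ) :
    ((smcc φ δ G c : ℝ) : ℂ) = (((volume (dom G)).toReal : ℝ) : ℂ) +
      ∑' k : {k : ℤ × ℤ // k ≠ 0}, ft G k * fhat φ (δ * (k : ℤ × ℤ).1) (δ * (k : ℤ × ℤ).2) *
        ee (-(((k : ℤ × ℤ).1 : ℝ) * c.1 + ((k : ℤ × ℤ).2 : ℝ) * c.2)) := by
  have h1 := poisson_c hG hφ hδ c
  have h2 := h1.summable.sum_add_tsum_compl (s := {0})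
  rw [h1.tsum_eq, Finset.sum_singleton, ft_zero_h12] at h2
  have h3 : fhat φ (δ * (((0 : ℤ × ℤ).1 : ℤ) : ℝ)) (δ * (((0 : ℤ × ℤ).2 : ℤ) : ℝ)) = 1 := by
    rw [← fhat_zero_h12 hφ]
    simp
  have h4 : ee (-((((0 : ℤ × ℤ).1 : ℤ) : ℝ) * c.1 + (((0 : ℤ × ℤ).2 : ℤ) : ℝ) * c.2)) = 1 := by
    simp [ee_zero]
  rw [h3, h4, mul_one, mul_one] at h2
  rw [← h2]
  congr 1
  refine (Equiv.tsum_eq (Equiv.subtypeEquivRight (fun k => ?_))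
    (fun k : {k : ℤ × ℤ // k ≠ 0} => ft G k * fhat φ (δ * (k : ℤ × ℤ).1) (δ * (k : ℤ × ℤ).2) *
      ee (-(((k : ℤ × ℤ).1 : ℝ) * c.1 + ((k : ℤ × ℤ).2 : ℝ) * c.2))))
  simp

private lemma smcc_re_h12 {G : ℝ → ℝ} (hG : IsSupp G) {φ : ℝ × ℝ → ℝ} (hφ : IsBump φ) {δ : ℝ} (hδ : 0 < δ)
    (c : ℝ × ℝ) :
    |smcc φ δ G c - (volume (dom G)).toReal| ≤
      ‖∑' k : {k : ℤ × ℤ // k ≠ 0}, ft G k * fhat φ (δ * (k : ℤ × ℤ).1) (δ * (k : ℤ × ℤ).2) *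
        ee (-(((k : ℤ × ℤ).1 : ℝ) * c.1 + ((k : ℤ × ℤ).2 : ℝ) * c.2))‖ := by
  have h1 := smcc_eq_h12 hG hφ hδ c
  have h2 : ∑' k : {k : ℤ × ℤ // k ≠ 0}, ft G k * fhat φ (δ * (k : ℤ × ℤ).1) (δ * (k : ℤ × ℤ).2) *
        ee (-(((k : ℤ × ℤ).1 : ℝ) * c.1 + ((k : ℤ × ℤ).2 : ℝ) * c.2)) =
      ((smcc φ δ G c - (volume (dom G)).toReal : ℝ) : ℂ) := by
    push_cast
    rw [h1]
    ring
  rw [h2, Complex.norm_real, Real.norm_eq_abs]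

theorem errc_le_poisson {H : ℝ → ℝ} (hH : IsSupp H) {φ : ℝ × ℝ → ℝ} (hφ : IsBump φ) {τ : ℝ} (h0 : 0 < τ) :
    ∃ C R₁ : ℝ, 0 < R₁ ∧ ∀ R₀ : ℝ, R₁ ≤ R₀ → ∀ R ∈ Icc R₀ (2 * R₀), ∀ c : ℝ × ℝ, ∃ σ : ℝ, (σ = 1 ∨ σ = -1) ∧
      IsSupp (fun θ => R * H θ + σ * R₀ ^ (-τ)) ∧
      |cntc H c R - area H * R ^ 2| ≤ C * R₀ ^ (1 - τ) +
        ‖∑' k : {k : ℤ × ℤ // k ≠ 0}, ft (fun θ => R * H θ + σ * R₀ ^ (-τ)) k *
          fhat φ (R₀ ^ (-τ) * (k : ℤ × ℤ).1) (R₀ ^ (-τ) * (k : ℤ × ℤ).2) *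
            ee (-(((k : ℤ × ℤ).1 : ℝ) * c.1 + ((k : ℤ × ℤ).2 : ℝ) * c.2))‖ := by
  obtain ⟨C, R₁, hR₁, hC⟩ := area_bound hH
  obtain ⟨R₂, hR₂, hS⟩ := supp_affine hH
  refine ⟨2 * |C|, max R₁ (max R₂ 1), lt_max_of_lt_left hR₁, ?_⟩
  intro R₀ hR₀ R hR c
  have hR₀1 : R₁ ≤ R₀ := (le_max_left _ _).trans hR₀
  have hR₀2 : R₂ ≤ R₀ := ((le_max_left _ _).trans (le_max_right _ _)).trans hR₀
  have hR₀3 : 1 ≤ R₀ := ((le_max_right _ _).trans (le_max_right _ _)).trans hR₀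
  have hR₀p : 0 < R₀ := by linarith
  have hRp : 0 < R := by linarith [hR.1]
  set δ : ℝ := R₀ ^ (-τ) with hδdef
  have hδ0 : 0 < δ := Real.rpow_pos_of_pos hR₀p _
  have hδ1 : δ ≤ 1 := Real.rpow_le_one_of_one_le_of_nonpos hR₀3 (by linarith)
  have hδR : R₀ * δ = R₀ ^ (1 - τ) := by
    rw [hδdef]
    nth_rewrite 1 [← Real.rpow_one R₀]
    rw [← Real.rpow_add hR₀p]
    congr 1
  have habs : ∀ σ : ℝ, (σ = 1 ∨ σ = -1) → |σ * δ| = δ := by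
    rintro σ (rfl | rfl)
    · rw [one_mul, abs_of_pos hδ0]
    · rw [neg_one_mul, abs_neg, abs_of_pos hδ0]
  have hsupp : ∀ σ : ℝ, (σ = 1 ∨ σ = -1) → IsSupp (fun θ => R * H θ + σ * δ) := by
    intro σ hσ
    exact hS R (hR₀2.trans hR.1) _ (by rw [habs σ hσ]; exact hδ1)
  have hsupp0 : IsSupp (fun θ => R * H θ) := by
    have h := hS R (hR₀2.trans hR.1) 0 (by norm_num)
    simpa using h
  have harea : ∀ σ : ℝ, (σ = 1 ∨ σ = -1) →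
      |(volume (dom (fun θ => R * H θ + σ * δ))).toReal - R ^ 2 * area H| ≤
        2 * |C| * R₀ ^ (1 - τ) := by
    intro σ hσ
    have h := hC R (hR₀1.trans hR.1) (σ * δ) (by rw [habs σ hσ]; exact hδ1)
    rw [habs σ hσ] at h
    refine h.trans ?_
    have h1 : C * R * δ ≤ |C| * (2 * R₀) * δ := by
      have h2 : C * R ≤ |C| * (2 * R₀) :=
        mul_le_mul (le_abs_self C) hR.2 hRp.le (abs_nonneg C)
      exact mul_le_mul_of_nonneg_right h2 hδ0.le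
    refine h1.trans (le_of_eq ?_)
    rw [← hδR]
    ring
  have hcnt : cntc H c R =
      (Nat.card {k : ℤ × ℤ // ((k.1 : ℝ) - c.1, (k.2 : ℝ) - c.2) ∈ dom (fun θ => R * H θ)} : ℝ) := rfl
  rcases le_total 0 (cntc H c R - area H * R ^ 2) with h0 | h0
  · refine ⟨1, Or.inl rfl, hsupp 1 (Or.inl rfl), ?_⟩
    have h1 : cntc H c R ≤ smcc φ δ (fun θ => R * H θ + 1 * δ) c := by
      rw [hcnt]
      exact le_smcc hsupp0 (hsupp 1 (Or.inl rfl)) hφ hδ0 (fun θ => by rw [one_mul]) c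
    have h2 := smcc_re_h12 (hsupp 1 (Or.inl rfl)) hφ hδ0 c
    have h3 := harea 1 (Or.inl rfl)
    rw [abs_of_nonneg h0]
    have h4 := le_abs_self (smcc φ δ (fun θ => R * H θ + 1 * δ) c -
      (volume (dom (fun θ => R * H θ + 1 * δ))).toReal)
    have h5 := le_abs_self ((volume (dom (fun θ => R * H θ + 1 * δ))).toReal - R ^ 2 * area H)
    linarith
  · refine ⟨-1, Or.inr rfl, hsupp (-1) (Or.inr rfl), ?_⟩
    have h1 : smcc φ δ (fun θ => R * H θ + -1 * δ) c ≤ cntc H c R := by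
      rw [hcnt]
      exact smcc_le (hsupp (-1) (Or.inr rfl)) hsupp0 hφ hδ0 (fun θ => by linarith) c
    have h2 := smcc_re_h12 (hsupp (-1) (Or.inr rfl)) hφ hδ0 c
    have h3 := harea (-1) (Or.inr rfl)
    rw [abs_of_nonpos h0]
    have h4 := neg_abs_le (smcc φ δ (fun θ => R * H θ + -1 * δ) c -
      (volume (dom (fun θ => R * H θ + -1 * δ))).toReal)
    have h5 := neg_abs_le ((volume (dom (fun θ => R * H θ + -1 * δ))).toReal - R ^ 2 * area H)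
    linarith

end Pool.Agent.Helper22.AC
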