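import Pool.Agent.Helper22.AC.Defs

/-!
# AC-A0: descendants in an `M`-adic system

PROOF of `desc_sum`: induction on `t` with `Sys.add` (`M ^ (t+1) * j + (M * r + r') = M * (M ^ t * j + r) + r'`; regroup the sum over
`range (M ^ (t+1)) = range (M ^ t * M)` as a double sum: `Finset.sum_range` / `Finset.range_mul`... e.g. `Finset.sum_nat_mod`/
`Finset.sum_product'` or `Finset.sum_range_mul`, or prove the splitting `∑ x ∈ range (a * b), f x = ∑ i ∈ range a, ∑ j ∈ range b, f (b * i + j)`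
by induction on `a` once and use it for `desc_sum` and `SS_split`).
`SS_split`: for `s + t ≤ m` write `M ^ (m - s) = M ^ t * M ^ (m - s - t)`.
-/

open MeasureTheory Real Set Filter Topology

set_option autoImplicit false

namespace Pool.Agent.Helper22.AC

open Pool.Agent.Helper22.AE

theorem sum_range_mul' {β : Type*} [AddCommMonoid β] (a b : ℕ) (f : ℕ → β) :
    ∑ x ∈ Finset.range (a * b), f x = ∑ i ∈ Finset.range a, ∑ j ∈ Finset.range b, f (b * i + j) := by
  induction a with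
  | zero => simp
  | succ a ih =>
    rw [Nat.succ_mul, Finset.sum_range_add, ih, Finset.sum_range_succ, Nat.mul_comm b a]

theorem desc_lt {M s t j r : ℕ} (hj : j < M ^ s) (hr : r < M ^ t) : M ^ t * j + r < M ^ (s + t) := by
  have h1 : M ^ t * j + r < M ^ t * (j + 1) := by
    rw [Nat.mul_succ]
    omega
  have h2 : M ^ t * (j + 1) ≤ M ^ t * M ^ s := Nat.mul_le_mul_left _ hj
  have h3 : M ^ (s + t) = M ^ t * M ^ s := by rw [pow_add, mul_comm]
  rw [h3]
  exact lt_of_lt_of_le h1 h2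

theorem desc_div {M t j r : ℕ} (hr : r < M ^ t) : (M ^ t * j + r) / M ^ t = j := by
  have h1 : 0 < M ^ t := lt_of_le_of_lt (Nat.zero_le _) hr
  rw [Nat.mul_add_div h1, Nat.div_eq_of_lt hr, add_zero]

theorem desc_sum {Ω : Type} [MeasurableSpace Ω] {μ : Measure Ω} {M m : ℕ} {g : ℕ → ℕ → Ω → ℂ} (hg : Sys μ M m g)
    {s t j : ℕ} (h : s + t ≤ m) (hj : j < M ^ s) (ω : Ω) :
    g s j ω = ∑ r ∈ Finset.range (M ^ t), g (s + t) (M ^ t * j + r) ω := by
  induction t with
  | zero => simp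
  | succ t ih =>
    rw [ih (by omega), pow_succ, sum_range_mul']
    refine Finset.sum_congr rfl fun r hr => ?_
    rw [hg.add (s + t) (by omega) _ (desc_lt hj (Finset.mem_range.1 hr)) ω]
    refine Finset.sum_congr rfl fun r' _ => ?_
    have e1 : M * (M ^ t * j + r) + r' = M ^ t * M * j + (M * r + r') := by ring
    rw [e1, add_assoc]

theorem SS_split {Ω : Type} [MeasurableSpace Ω] (μ : Measure Ω) (M m : ℕ) (g : ℕ → ℕ → Ω → ℂ) {s t : ℕ} (j : ℕ)
    (h : s + t ≤ m) : SS μ M m g s j = ∑ r ∈ Finset.range (M ^ t), SS μ M m g (s + t) (M ^ t * j + r) := by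
  unfold SS
  obtain ⟨u, hu⟩ : ∃ u, m = s + t + u := ⟨m - (s + t), by omega⟩
  have h1 : m - s = t + u := by omega
  have h2 : m - (s + t) = u := by omega
  rw [h1, h2, pow_add, sum_range_mul']
  refine Finset.sum_congr rfl fun r _ => Finset.sum_congr rfl fun r' _ => ?_
  have e1 : M ^ t * M ^ u * j + (M ^ u * r + r') = M ^ u * (M ^ t * j + r) + r' := by ring
  rw [e1]

theorem SS_nonneg {Ω : Type} [MeasurableSpace Ω] (μ : Measure Ω) (M m : ℕ) (g : ℕ → ℕ → Ω → ℂ) (s j : ℕ) :
    0 ≤ SS μ M m g s j := by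
  unfold SS n6
  refine Finset.sum_nonneg fun r _ => Real.rpow_nonneg (integral_nonneg fun ω => ?_) _
  positivity

theorem SS_last {Ω : Type} [MeasurableSpace Ω] (μ : Measure Ω) (M m : ℕ) (g : ℕ → ℕ → Ω → ℂ) (j : ℕ) :
    SS μ M m g m j = n6 μ (g m j) := by
  unfold SS
  simp

end Pool.Agent.Helper22.AC
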