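import Pool.Agent.Helper22.AC.Defs

/-!
# AC-A1: inequalities for the sixth moment

All functions are measurable and bounded on a finite measure space, so all integrals exist (`Integrable.of_bound` or
`Integrable.mono'` with a constant).
-/

open MeasureTheory Real Set Filter Topology

set_option autoImplicit false

namespace Pool.Agent.Helper22.AC

theorem n6_nonneg {Ω : Type} [MeasurableSpace Ω] (μ : Measure Ω) (f : Ω → ℂ) : 0 ≤ n6 μ f := by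
  unfold n6
  exact Real.rpow_nonneg (integral_nonneg fun ω => by positivity) _

theorem n6_cube {Ω : Type} [MeasurableSpace Ω] (μ : Measure Ω) (f : Ω → ℂ) : n6 μ f ^ 3 = ∫ ω, ‖f ω‖ ^ 6 ∂μ := by
  unfold n6
  have h : 0 ≤ ∫ ω, ‖f ω‖ ^ 6 ∂μ := integral_nonneg fun ω => by positivity
  rw [← Real.rpow_natCast, ← Real.rpow_mul h]
  norm_num

private theorem int43 {Ω : Type} [MeasurableSpace Ω] (μ : Measure Ω) [IsFiniteMeasure μ] {u : Ω → ℝ}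
    (hu : Measurable u) (hb : ∃ B : ℝ, ∀ ω, |u ω| ≤ B) : Integrable u μ := by
  obtain ⟨B, hB⟩ := hb
  exact Integrable.of_bound hu.aestronglyMeasurable B (Eventually.of_forall fun ω => by
    rw [Real.norm_eq_abs]; exact hB ω)

private theorem pow_bdd43 {Ω : Type} {f : Ω → ℂ} (hb : ∃ B : ℝ, ∀ ω, ‖f ω‖ ≤ B) (n : ℕ) :
    ∃ B : ℝ, 0 ≤ B ∧ ∀ ω, ‖f ω‖ ^ n ≤ B := by
  obtain ⟨B, hB⟩ := hb
  refine ⟨|B| ^ n, by positivity, fun ω => ?_⟩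
  exact pow_le_pow_left₀ (norm_nonneg _) ((hB ω).trans (le_abs_self B)) n

private theorem mul_bdd43 {Ω : Type} {f g : Ω → ℂ} (hf : ∃ B : ℝ, ∀ ω, ‖f ω‖ ≤ B)
    (hg : ∃ B : ℝ, ∀ ω, ‖g ω‖ ≤ B) (m n : ℕ) :
    ∃ B : ℝ, ∀ ω, |‖f ω‖ ^ m * ‖g ω‖ ^ n| ≤ B := by
  obtain ⟨B, hB0, hB⟩ := pow_bdd43 hf m
  obtain ⟨C, hC0, hC⟩ := pow_bdd43 hg n
  refine ⟨B * C, fun ω => ?_⟩
  rw [abs_of_nonneg (by positivity)]
  exact mul_le_mul (hB ω) (hC ω) (by positivity) hB0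

private theorem cs43 {Ω : Type} [MeasurableSpace Ω] (μ : Measure Ω) [IsFiniteMeasure μ] {u v : Ω → ℝ}
    (hu : Measurable u) (hv : Measurable v) (hu0 : ∀ ω, 0 ≤ u ω) (hv0 : ∀ ω, 0 ≤ v ω)
    (hub : ∃ B : ℝ, ∀ ω, |u ω| ≤ B) (hvb : ∃ B : ℝ, ∀ ω, |v ω| ≤ B) :
    ∫ ω, u ω * v ω ∂μ ≤ √(∫ ω, u ω ^ 2 ∂μ) * √(∫ ω, v ω ^ 2 ∂μ) := by
  obtain ⟨B, hB⟩ := hub
  obtain ⟨C, hC⟩ := hvb
  have h := integral_mul_le_Lp_mul_Lq_of_nonneg (μ := μ) Real.HolderConjugate.two_two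
    (f := u) (g := v) (Eventually.of_forall hu0) (Eventually.of_forall hv0)
    (MemLp.of_bound hu.aestronglyMeasurable B (Eventually.of_forall fun ω => by
      rw [Real.norm_eq_abs]; exact hB ω))
    (MemLp.of_bound hv.aestronglyMeasurable C (Eventually.of_forall fun ω => by
      rw [Real.norm_eq_abs]; exact hC ω))
  rw [← Real.sqrt_eq_rpow, ← Real.sqrt_eq_rpow] at h
  have e1 : ∀ w : Ω → ℝ, ∫ ω, w ω ^ (2 : ℝ) ∂μ = ∫ ω, w ω ^ 2 ∂μ := by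
    intro w
    congr 1
    funext ω
    exact Real.rpow_two (w ω)
  rw [e1, e1] at h
  exact h

theorem n6_sum_le {Ω : Type} [MeasurableSpace Ω] (μ : Measure Ω) [IsFiniteMeasure μ] (N : ℕ) (f : ℕ → Ω → ℂ)
    (hm : ∀ r, Measurable (f r)) (hb : ∀ r, ∃ B : ℝ, ∀ ω, ‖f r ω‖ ≤ B) :
    n6 μ (fun ω => ∑ r ∈ Finset.range N, f r ω) ≤ (N : ℝ) ^ (5 / 3 : ℝ) * ∑ r ∈ Finset.range N, n6 μ (f r) := by
  have hint : ∀ r, Integrable (fun ω => ‖f r ω‖ ^ 6) μ := fun r => by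
    obtain ⟨B, -, hB⟩ := pow_bdd43 (hb r) 6
    exact int43 μ ((hm r).norm.pow_const 6) ⟨B, fun ω => by
      rw [abs_of_nonneg (by positivity)]; exact hB ω⟩
  have hpt : ∀ ω, ‖∑ r ∈ Finset.range N, f r ω‖ ^ 6 ≤
      (N : ℝ) ^ 5 * ∑ r ∈ Finset.range N, ‖f r ω‖ ^ 6 := by
    intro ω
    rcases Nat.eq_zero_or_pos N with h0 | hN
    · subst h0
      simp
    have h1 : ‖∑ r ∈ Finset.range N, f r ω‖ ^ 6 ≤ (∑ r ∈ Finset.range N, ‖f r ω‖) ^ 6 :=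
      pow_le_pow_left₀ (norm_nonneg _) (norm_sum_le _ _) 6
    have h2 := pow_sum_div_card_le_sum_pow (s := Finset.range N) (f := fun r => ‖f r ω‖)
      (fun r _ => norm_nonneg _) 5
    rw [Finset.card_range, div_le_iff₀ (by positivity)] at h2
    calc ‖∑ r ∈ Finset.range N, f r ω‖ ^ 6 ≤ (∑ r ∈ Finset.range N, ‖f r ω‖) ^ 6 := h1
      _ ≤ (∑ r ∈ Finset.range N, ‖f r ω‖ ^ 6) * (N : ℝ) ^ 5 := h2
      _ = (N : ℝ) ^ 5 * ∑ r ∈ Finset.range N, ‖f r ω‖ ^ 6 := mul_comm _ _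
  have hS0 : 0 ≤ ∑ r ∈ Finset.range N, n6 μ (f r) :=
    Finset.sum_nonneg fun r _ => n6_nonneg μ (f r)
  have h3 : ∫ ω, ‖∑ r ∈ Finset.range N, f r ω‖ ^ 6 ∂μ ≤
      (N : ℝ) ^ 5 * (∑ r ∈ Finset.range N, n6 μ (f r)) ^ 3 := by
    calc ∫ ω, ‖∑ r ∈ Finset.range N, f r ω‖ ^ 6 ∂μ ≤
        ∫ ω, (N : ℝ) ^ 5 * ∑ r ∈ Finset.range N, ‖f r ω‖ ^ 6 ∂μ := by
          refine integral_mono_of_nonneg (Eventually.of_forall fun ω => by positivity) ?_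
            (Eventually.of_forall hpt)
          exact (integrable_finsetSum _ fun r _ => hint r).const_mul _
      _ = (N : ℝ) ^ 5 * ∑ r ∈ Finset.range N, ∫ ω, ‖f r ω‖ ^ 6 ∂μ := by
          rw [integral_const_mul, integral_finsetSum _ fun r _ => hint r]
      _ = (N : ℝ) ^ 5 * ∑ r ∈ Finset.range N, n6 μ (f r) ^ 3 := by
          congr 1
          exact Finset.sum_congr rfl fun r _ => (n6_cube μ (f r)).symm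
      _ ≤ (N : ℝ) ^ 5 * (∑ r ∈ Finset.range N, n6 μ (f r)) ^ 3 := by
          refine mul_le_mul_of_nonneg_left ?_ (by positivity)
          have h4 : ∀ r ∈ Finset.range N, n6 μ (f r) ^ 3 ≤
              n6 μ (f r) * (∑ r ∈ Finset.range N, n6 μ (f r)) ^ 2 := by
            intro r hr
            have h5 : n6 μ (f r) ≤ ∑ r ∈ Finset.range N, n6 μ (f r) :=
              Finset.single_le_sum (f := fun r => n6 μ (f r)) (fun i _ => n6_nonneg μ (f i)) hr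
            have h6 : n6 μ (f r) ^ 2 ≤ (∑ r ∈ Finset.range N, n6 μ (f r)) ^ 2 :=
              pow_le_pow_left₀ (n6_nonneg μ _) h5 2
            calc n6 μ (f r) ^ 3 = n6 μ (f r) * n6 μ (f r) ^ 2 := by ring
              _ ≤ n6 μ (f r) * (∑ r ∈ Finset.range N, n6 μ (f r)) ^ 2 :=
                mul_le_mul_of_nonneg_left h6 (n6_nonneg μ _)
          calc ∑ r ∈ Finset.range N, n6 μ (f r) ^ 3 ≤
              ∑ r ∈ Finset.range N, n6 μ (f r) * (∑ r ∈ Finset.range N, n6 μ (f r)) ^ 2 :=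
                Finset.sum_le_sum h4
            _ = (∑ r ∈ Finset.range N, n6 μ (f r)) ^ 3 := by
                rw [← Finset.sum_mul]
                ring
  have h0 : 0 ≤ ∫ ω, ‖∑ r ∈ Finset.range N, f r ω‖ ^ 6 ∂μ :=
    integral_nonneg fun ω => by positivity
  calc n6 μ (fun ω => ∑ r ∈ Finset.range N, f r ω)
      = (∫ ω, ‖∑ r ∈ Finset.range N, f r ω‖ ^ 6 ∂μ) ^ (1 / 3 : ℝ) := rfl
    _ ≤ ((N : ℝ) ^ 5 * (∑ r ∈ Finset.range N, n6 μ (f r)) ^ 3) ^ (1 / 3 : ℝ) :=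
        Real.rpow_le_rpow h0 h3 (by norm_num)
    _ = (N : ℝ) ^ (5 / 3 : ℝ) * ∑ r ∈ Finset.range N, n6 μ (f r) := by
        rw [Real.mul_rpow (by positivity) (by positivity), ← Real.rpow_natCast,
          ← Real.rpow_natCast, ← Real.rpow_mul (Nat.cast_nonneg _), ← Real.rpow_mul hS0]
        norm_num

theorem holder24 {Ω : Type} [MeasurableSpace Ω] (μ : Measure Ω) [IsFiniteMeasure μ] {f g : Ω → ℂ} (hf : Measurable f)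
    (hg : Measurable g) (hfb : ∃ B : ℝ, ∀ ω, ‖f ω‖ ≤ B) (hgb : ∃ B : ℝ, ∀ ω, ‖g ω‖ ≤ B) :
    ∫ ω, ‖f ω‖ ^ 2 * ‖g ω‖ ^ 4 ∂μ ≤ n6 μ f * n6 μ g ^ 2 := by
  obtain ⟨B, -, hB⟩ := pow_bdd43 hfb 2
  obtain ⟨C, -, hC⟩ := pow_bdd43 hgb 4
  have hpq : (3 : ℝ).HolderConjugate (3 / 2) := by
    rw [Real.holderConjugate_iff]
    norm_num
  have h := integral_mul_le_Lp_mul_Lq_of_nonneg (μ := μ) hpq
    (f := fun ω => ‖f ω‖ ^ 2) (g := fun ω => ‖g ω‖ ^ 4)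
    (Eventually.of_forall fun ω => by positivity) (Eventually.of_forall fun ω => by positivity)
    (MemLp.of_bound (hf.norm.pow_const 2).aestronglyMeasurable B (Eventually.of_forall fun ω => by
      rw [Real.norm_eq_abs, abs_of_nonneg (by positivity)]; exact hB ω))
    (MemLp.of_bound (hg.norm.pow_const 4).aestronglyMeasurable C (Eventually.of_forall fun ω => by
      rw [Real.norm_eq_abs, abs_of_nonneg (by positivity)]; exact hC ω))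
  have e1 : ∫ ω, (‖f ω‖ ^ 2) ^ (3 : ℝ) ∂μ = ∫ ω, ‖f ω‖ ^ 6 ∂μ := by
    congr 1
    funext ω
    rw [← Real.rpow_natCast, ← Real.rpow_natCast, ← Real.rpow_mul (norm_nonneg _)]
    norm_num
  have e2 : ∫ ω, (‖g ω‖ ^ 4) ^ (3 / 2 : ℝ) ∂μ = ∫ ω, ‖g ω‖ ^ 6 ∂μ := by
    congr 1
    funext ω
    rw [← Real.rpow_natCast, ← Real.rpow_natCast, ← Real.rpow_mul (norm_nonneg _)]
    norm_num
  have hg0 : 0 ≤ ∫ ω, ‖g ω‖ ^ 6 ∂μ := integral_nonneg fun ω => by positivity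
  have e3 : n6 μ g ^ 2 = (∫ ω, ‖g ω‖ ^ 6 ∂μ) ^ (1 / (3 / 2) : ℝ) := by
    unfold n6
    rw [← Real.rpow_natCast, ← Real.rpow_mul hg0]
    norm_num
  rw [e3]
  unfold n6
  rw [e1, e2] at h
  exact h

theorem holder24' {Ω : Type} [MeasurableSpace Ω] (μ : Measure Ω) [IsFiniteMeasure μ] {f g : Ω → ℂ} (hf : Measurable f)
    (hg : Measurable g) (hfb : ∃ B : ℝ, ∀ ω, ‖f ω‖ ≤ B) (hgb : ∃ B : ℝ, ∀ ω, ‖g ω‖ ≤ B) :
    ∫ ω, ‖f ω‖ ^ 2 * ‖g ω‖ ^ 4 ∂μ ≤ √(∫ ω, ‖g ω‖ ^ 2 * ‖f ω‖ ^ 4 ∂μ) * √(n6 μ g ^ 3) := by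
  obtain ⟨B, hB⟩ := mul_bdd43 hgb hfb 1 2
  obtain ⟨C, -, hC⟩ := pow_bdd43 hgb 3
  have h := cs43 μ (u := fun ω => ‖g ω‖ ^ 1 * ‖f ω‖ ^ 2) (v := fun ω => ‖g ω‖ ^ 3)
    ((hg.norm.pow_const 1).mul (hf.norm.pow_const 2)) (hg.norm.pow_const 3)
    (fun ω => by positivity) (fun ω => by positivity) ⟨B, hB⟩
    ⟨C, fun ω => by rw [abs_of_nonneg (by positivity)]; exact hC ω⟩
  rw [n6_cube]
  have e0 : ∫ ω, ‖g ω‖ ^ 1 * ‖f ω‖ ^ 2 * ‖g ω‖ ^ 3 ∂μ = ∫ ω, ‖f ω‖ ^ 2 * ‖g ω‖ ^ 4 ∂μ := by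
    congr 1
    funext ω
    ring
  have e1 : ∫ ω, (‖g ω‖ ^ 1 * ‖f ω‖ ^ 2) ^ 2 ∂μ = ∫ ω, ‖g ω‖ ^ 2 * ‖f ω‖ ^ 4 ∂μ := by
    congr 1
    funext ω
    ring
  have e2 : ∫ ω, (‖g ω‖ ^ 3) ^ 2 ∂μ = ∫ ω, ‖g ω‖ ^ 6 ∂μ := by
    congr 1
    funext ω
    ring
  rw [e0, e1, e2] at h
  exact h

theorem holder33 {Ω : Type} [MeasurableSpace Ω] (μ : Measure Ω) [IsFiniteMeasure μ] {f g : Ω → ℂ} (hf : Measurable f)
    (hg : Measurable g) (hfb : ∃ B : ℝ, ∀ ω, ‖f ω‖ ≤ B) (hgb : ∃ B : ℝ, ∀ ω, ‖g ω‖ ≤ B) :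
    ∫ ω, ‖f ω‖ ^ 3 * ‖g ω‖ ^ 3 ∂μ ≤
      √((∫ ω, ‖f ω‖ ^ 2 * ‖g ω‖ ^ 4 ∂μ) * ∫ ω, ‖g ω‖ ^ 2 * ‖f ω‖ ^ 4 ∂μ) := by
  obtain ⟨B, hB⟩ := mul_bdd43 hfb hgb 1 2
  obtain ⟨C, hC⟩ := mul_bdd43 hgb hfb 1 2
  have h := cs43 μ (u := fun ω => ‖f ω‖ ^ 1 * ‖g ω‖ ^ 2) (v := fun ω => ‖g ω‖ ^ 1 * ‖f ω‖ ^ 2)
    ((hf.norm.pow_const 1).mul (hg.norm.pow_const 2)) ((hg.norm.pow_const 1).mul (hf.norm.pow_const 2))
    (fun ω => by positivity) (fun ω => by positivity) ⟨B, hB⟩ ⟨C, hC⟩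
  have e0 : ∫ ω, ‖f ω‖ ^ 1 * ‖g ω‖ ^ 2 * (‖g ω‖ ^ 1 * ‖f ω‖ ^ 2) ∂μ =
      ∫ ω, ‖f ω‖ ^ 3 * ‖g ω‖ ^ 3 ∂μ := by
    congr 1
    funext ω
    ring
  have e1 : ∫ ω, (‖f ω‖ ^ 1 * ‖g ω‖ ^ 2) ^ 2 ∂μ = ∫ ω, ‖f ω‖ ^ 2 * ‖g ω‖ ^ 4 ∂μ := by
    congr 1
    funext ω
    ring
  have e2 : ∫ ω, (‖g ω‖ ^ 1 * ‖f ω‖ ^ 2) ^ 2 ∂μ = ∫ ω, ‖g ω‖ ^ 2 * ‖f ω‖ ^ 4 ∂μ := by
    congr 1
    funext ω
    ring
  rw [e0, e1, e2] at h
  rw [Real.sqrt_mul (integral_nonneg fun ω => by positivity)]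
  exact h

end Pool.Agent.Helper22.AC
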