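import Pool.Agent.Helper22.AC.A1
import Pool.Agent.Helper22.AC.A2

/-!
# AC-A4: the chain of bilinear inequalities

PROOF of `bil_swap`. For `i`, `j` as in `Bil a b₁ b₂`: `holder24'` with `f = g_i`, `g = g_j`; `∫ ‖g_j‖² ‖g_i‖⁴ ≤ A S(j) S(i)²` by the hypothesis
with the roles exchanged (`sep` is symmetric), `n6(g_j)³ ≤ D³ S(j)³`: the product of the square roots is
`√(A S(j) S(i)²) √(D³ S(j)³) = √A √(D³) S(i) S(j)²`.

PROOF of `bil_chain`. `L = m - a - 1` (real), `b i = 2^i (b₀ - 1) + 1`, so `b 0 = b₀`, `b (i+1) = 2 b i - 1`, `b N + a + 1 ≤ m`.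
`U i = 9 C³ M^(3 lam L - (3/2) lam (N - i) 2^i (b₀ - 1))`.
CLAIM: for `i ≤ N` and all `b' ≤ b i`: `Bil a b' (b i) (U i)`. (`i = 0`, `b' = b₀` is the theorem.) Downward induction (write `i = N - l`,
induction on `l`).
`i = N`: `holder24`, `Dec`: `∫ ≤ n6(g_i) n6(g_j)² ≤ C³ M^(lam (L - b') + 2 lam (L - b N)) S S² ≤ C³ M^(3 lam L) S S²`.
`i + 1 → i`: `Bil a (b i) (b (i+1)) (U (i+1))` (as `b i ≤ b (i+1)`), `bil_swap` with `b₁ = b (i+1)`, `b₂ = b i`, `D = C M^(lam (L - b i))`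
(`Dec` at level `a + 1 + b i`) gives `Bil a (b (i+1)) (b i) V`, `V = √(U (i+1)) √(D³)`; `bil_key` with `b = b i`, `c = b (i+1)`, `c + 1 = 2 b i`,
gives `Bil a b' (b i) (3 V)` for all `b' ≤ b (i+1)`. `3 V ≤ U i`: `3 √(9 C³) √(C³) = 9 C³`, and for the exponents
`(1/2)(3 lam L - (3/2) lam (N-i-1) 2^(i+1) (b₀-1)) + (3/2) lam (L - b i) ≤ 3 lam L - (3/2) lam (N-i) 2^i (b₀-1)` because `b i ≥ 2^i (b₀-1)`.
(`Bil` is monotone in the constant: `SS_nonneg`.)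
-/

open MeasureTheory Real Set Filter Topology

set_option autoImplicit false

namespace Pool.Agent.Helper22.AC

open Pool.Agent.Helper22.AE

private theorem sep_symm_h12 {i j : ℕ} (h : sep i j) : sep j i := Or.symm h

private theorem bil_mono_h12 {Ω : Type} [MeasurableSpace Ω] {μ : Measure Ω} {M m : ℕ}
    {g : ℕ → ℕ → Ω → ℂ} {a b₁ b₂ : ℕ} {A A' : ℝ} (h : Bil μ M m g a b₁ b₂ A) (hA : A ≤ A') :
    Bil μ M m g a b₁ b₂ A' := by
  intro i hi j hj hij hs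
  refine (h i hi j hj hij hs).trans ?_
  have h1 := SS_nonneg μ M m g (a + 1 + b₁) i
  gcongr

theorem bil_swap {Ω : Type} [MeasurableSpace Ω] {μ : Measure Ω} [IsFiniteMeasure μ] {M m : ℕ} {g : ℕ → ℕ → Ω → ℂ}
    (hg : Sys μ M m g) {a b₁ b₂ : ℕ} {A D : ℝ} (hA : 0 ≤ A) (hD : 0 ≤ D) (h : Bil μ M m g a b₂ b₁ A)
    (hn : ∀ j < M ^ (a + 1 + b₂), n6 μ (g (a + 1 + b₂) j) ≤ D * SS μ M m g (a + 1 + b₂) j) :
    Bil μ M m g a b₁ b₂ (√A * √(D ^ 3)) := by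
  intro i hi j hj hij hs
  set Si := SS μ M m g (a + 1 + b₁) i with hSi
  set Sj := SS μ M m g (a + 1 + b₂) j with hSj
  have hSi0 : 0 ≤ Si := SS_nonneg _ _ _ _ _ _
  have hSj0 : 0 ≤ Sj := SS_nonneg _ _ _ _ _ _
  have h1 := holder24' μ (hg.meas (a + 1 + b₁) i) (hg.meas (a + 1 + b₂) j) (hg.bdd _ _) (hg.bdd _ _)
  have h2 := h j hj i hi hij.symm (sep_symm_h12 hs)
  have h3 : n6 μ (g (a + 1 + b₂) j) ^ 3 ≤ (D * Sj) ^ 3 :=
    pow_le_pow_left₀ (n6_nonneg _ _) (hn j hj) 3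
  refine h1.trans ((mul_le_mul (Real.sqrt_le_sqrt h2) (Real.sqrt_le_sqrt h3) (Real.sqrt_nonneg _)
    (Real.sqrt_nonneg _)).trans_eq ?_)
  rw [← Real.sqrt_mul (by positivity), ← Real.sqrt_mul hA]
  have h4 : A * Sj * Si ^ 2 * (D * Sj) ^ 3 = (A * D ^ 3) * (Si * Sj ^ 2) ^ 2 := by ring
  rw [h4, Real.sqrt_mul (by positivity), Real.sqrt_sq (by positivity)]
  ring

private theorem chain_num_h12 {C x lam e e' d : ℝ} (hC : 1 ≤ C) (hx : 1 ≤ x)
    (he : e' + 3 * d ≤ 2 * e) :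
    3 * (√(9 * C ^ 3 * x ^ e') * √((C * x ^ d) ^ 3)) ≤ 9 * C ^ 3 * x ^ e := by
  have hx0 : 0 < x := zero_lt_one.trans_le hx
  have hC0 : 0 < C := zero_lt_one.trans_le hC
  have h1 : 9 * C ^ 3 * x ^ e' * (C * x ^ d) ^ 3 ≤ (3 * C ^ 3 * x ^ e) ^ 2 := by
    have e1 : (x ^ d) ^ 3 = x ^ (3 * d) := by
      rw [← Real.rpow_natCast, ← Real.rpow_mul hx0.le, mul_comm]
      norm_num
    have e2 : (x ^ e) ^ 2 = x ^ (2 * e) := by
      rw [← Real.rpow_natCast, ← Real.rpow_mul hx0.le, mul_comm]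
      norm_num
    have e3 : 9 * C ^ 3 * x ^ e' * (C * x ^ d) ^ 3 = 9 * C ^ 6 * x ^ (e' + 3 * d) := by
      rw [Real.rpow_add hx0, mul_pow, e1]
      ring
    have e4 : (3 * C ^ 3 * x ^ e) ^ 2 = 9 * C ^ 6 * x ^ (2 * e) := by
      rw [mul_pow, e2]
      ring
    rw [e3, e4]
    have e5 := Real.rpow_le_rpow_of_exponent_le hx he
    gcongr
  rw [← Real.sqrt_mul (by positivity)]
  have h2 : √(9 * C ^ 3 * x ^ e' * (C * x ^ d) ^ 3) ≤ 3 * C ^ 3 * x ^ e :=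
    Real.sqrt_le_iff.2 ⟨by positivity, h1⟩
  linarith

theorem bil_chain {Ω : Type} [MeasurableSpace Ω] {μ : Measure Ω} [IsFiniteMeasure μ] {M m : ℕ} {g : ℕ → ℕ → Ω → ℂ}
    (hg : Sys μ M m g) (hM : 1 ≤ M) {lam C : ℝ} (hlam : 0 ≤ lam) (hC : 1 ≤ C) (hdec : Dec μ M m g lam C) {a N b₀ : ℕ}
    (hb₀ : 1 ≤ b₀) (hN : a + 1 + (2 ^ N * (b₀ - 1) + 1) ≤ m) :
    Bil μ M m g a b₀ b₀
      (9 * C ^ 3 * (M : ℝ) ^ (3 * lam * ((m : ℝ) - a - 1) - 3 / 2 * lam * N * ((b₀ : ℝ) - 1))) := by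
  have hx : (1 : ℝ) ≤ M := by exact_mod_cast hM
  have hx0 : (0 : ℝ) < M := zero_lt_one.trans_le hx
  have hC0 : 0 < C := zero_lt_one.trans_le hC
  have hb0r : ((b₀ - 1 : ℕ) : ℝ) = (b₀ : ℝ) - 1 := by
    rw [Nat.cast_sub hb₀, Nat.cast_one]
  have hb0n : (0 : ℝ) ≤ (b₀ : ℝ) - 1 := by
    rw [← hb0r]
    exact Nat.cast_nonneg _
  have hmon : ∀ i k, i ≤ k → 2 ^ i * (b₀ - 1) + 1 ≤ 2 ^ k * (b₀ - 1) + 1 := fun i k h =>
    Nat.add_le_add_right (Nat.mul_le_mul_right _ (Nat.pow_le_pow_right (by norm_num) h)) _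
  have key : ∀ l i, i + l = N → ∀ b' ≤ 2 ^ i * (b₀ - 1) + 1,
      Bil μ M m g a b' (2 ^ i * (b₀ - 1) + 1)
        (9 * C ^ 3 * (M : ℝ) ^ (3 * lam * ((m : ℝ) - a - 1) -
          3 / 2 * lam * l * (2 ^ i * ((b₀ : ℝ) - 1)))) := by
    intro l
    induction l with
    | zero =>
      intro i hi b' hb'
      have hi' : i = N := by omega
      subst hi'
      set b := 2 ^ i * (b₀ - 1) + 1 with hb
      intro i' hi' j hj hij hs
      have h1 := holder24 μ (hg.meas (a + 1 + b') i') (hg.meas (a + 1 + b) j) (hg.bdd _ _)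
        (hg.bdd _ _)
      have hdec' : ∀ c, a + 1 + c ≤ m → ∀ k < M ^ (a + 1 + c), n6 μ (g (a + 1 + c) k) ≤
          C * (M : ℝ) ^ (lam * ((m : ℝ) - a - 1)) * SS μ M m g (a + 1 + c) k := by
        intro c hc k hk
        refine (hdec (a + 1 + c) hc k hk).trans ?_
        have e1 : lam * ((m : ℝ) - ((a + 1 + c : ℕ) : ℝ)) ≤ lam * ((m : ℝ) - a - 1) := by
          refine mul_le_mul_of_nonneg_left ?_ hlam
          push_cast
          have : (0 : ℝ) ≤ c := Nat.cast_nonneg c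
          linarith
        have e2 := Real.rpow_le_rpow_of_exponent_le hx e1
        have e3 := SS_nonneg μ M m g (a + 1 + c) k
        gcongr
      have h2 := hdec' b' (by omega) i' hi'
      have h3 := hdec' b (by omega) j hj
      have hSi0 := SS_nonneg μ M m g (a + 1 + b') i'
      have hSj0 := SS_nonneg μ M m g (a + 1 + b) j
      have h4 : n6 μ (g (a + 1 + b) j) ^ 2 ≤
          (C * (M : ℝ) ^ (lam * ((m : ℝ) - a - 1)) * SS μ M m g (a + 1 + b) j) ^ 2 :=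
        pow_le_pow_left₀ (n6_nonneg _ _) h3 2
      refine h1.trans ((mul_le_mul h2 h4 (by positivity) (by positivity)).trans ?_)
      have e5 : ((M : ℝ) ^ (lam * ((m : ℝ) - a - 1))) ^ 3 =
          (M : ℝ) ^ (3 * lam * ((m : ℝ) - a - 1) -
            3 / 2 * lam * (0 : ℕ) * (2 ^ i * ((b₀ : ℝ) - 1))) := by
        rw [← Real.rpow_natCast, ← Real.rpow_mul hx0.le]
        congr 1
        push_cast
        ring
      rw [← e5]
      set y := (M : ℝ) ^ (lam * ((m : ℝ) - a - 1)) with hy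
      have hy0 : 0 < y := Real.rpow_pos_of_pos hx0 _
      have e6 : C * y * SS μ M m g (a + 1 + b') i' * (C * y * SS μ M m g (a + 1 + b) j) ^ 2 =
          C ^ 3 * y ^ 3 * SS μ M m g (a + 1 + b') i' * SS μ M m g (a + 1 + b) j ^ 2 := by ring
      rw [e6]
      have e7 : C ^ 3 * y ^ 3 ≤ 9 * C ^ 3 * y ^ 3 := by
        have : 0 ≤ C ^ 3 * y ^ 3 := by positivity
        linarith
      gcongr
    | succ l ih =>
      intro i hi b' hb'
      have hi1 : (i + 1) + l = N := by omega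
      have hbb : 2 ^ (i + 1) * (b₀ - 1) + 1 + 1 = 2 * (2 ^ i * (b₀ - 1) + 1) := by
        rw [pow_succ]
        ring
      have hle : 2 ^ i * (b₀ - 1) + 1 ≤ 2 ^ (i + 1) * (b₀ - 1) + 1 := hmon i (i + 1) (by omega)
      have hleN : 2 ^ (i + 1) * (b₀ - 1) + 1 ≤ 2 ^ N * (b₀ - 1) + 1 := hmon (i + 1) N (by omega)
      have ih1 := ih (i + 1) hi1 (2 ^ i * (b₀ - 1) + 1) hle
      set b := 2 ^ i * (b₀ - 1) + 1 with hb
      set c := 2 ^ (i + 1) * (b₀ - 1) + 1 with hc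
      have hbm : a + 1 + b ≤ m := by omega
      have hcm : a + 1 + c ≤ m := by omega
      have h1 := bil_swap hg (a := a) (b₁ := c) (b₂ := b)
        (D := C * (M : ℝ) ^ (lam * ((m : ℝ) - ((a + 1 + b : ℕ) : ℝ)))) (by positivity)
        (by positivity) ih1 (fun j hj => hdec (a + 1 + b) hbm j hj)
      have h2 := bil_key hg hM (b₁ := b') (by omega : c + 1 ≤ 2 * b) (by omega) hbm hcm h1
      refine bil_mono_h12 h2 (chain_num_h12 (lam := lam) hC hx ?_)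
      have hbr : (b : ℝ) = 2 ^ i * ((b₀ : ℝ) - 1) + 1 := by
        rw [hb]
        push_cast [hb0r]
        ring
      have hl0 : (0 : ℝ) ≤ l := Nat.cast_nonneg l
      push_cast
      rw [hbr]
      have e1 : (2 : ℝ) ^ (i + 1) = 2 * 2 ^ i := by rw [pow_succ]; ring
      rw [e1]
      nlinarith
  have hfin := key N 0 (by omega) b₀ (by omega)
  have e0 : 2 ^ 0 * (b₀ - 1) + 1 = b₀ := by omega
  rw [e0] at hfin
  have e1 : 3 / 2 * lam * N * (2 ^ 0 * ((b₀ : ℝ) - 1)) = 3 / 2 * lam * N * ((b₀ : ℝ) - 1) := by ring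
  rw [e1] at hfin
  exact hfin

end Pool.Agent.Helper22.AC
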