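import Pool.Agent.Helper22.AC.A4
import Pool.Agent.Helper22.AE.D4

/-!
# AC-A5: the bilinear reduction at one level

PROOF of `bn6`. `bn_one` (AE.D4) with `J = 2`, `D = max_r ‖z r‖`: `‖∑ z‖ ≤ 8 D + 2 M Y^(1/4)`, `Y = ∑_{I ∈ gapT 2 M} ‖z (I 0)‖² ‖z (I 1)‖²`.
Sixth power: `(u + w)^6 ≤ 32 (u^6 + w^6)`: `‖∑ z‖^6 ≤ 32·8^6 D^6 + 32·64 M^6 Y^(3/2)`, `32·8^6 = 2^23`, `D^6 ≤ ∑ ‖z r‖^6`;
`Y^(3/2) ≤ (#gapT)^(1/2) ∑_I (‖z (I 0)‖ ‖z (I 1)‖)^3 ≤ M ∑_{sep r r'} ‖z r‖³ ‖z r'‖³` (power mean with at most `M²` terms).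
PROOF of `one_level`. Integrate `bn6` for `z r = g (a+1) (M j + r)` (`Sys.add`). First part: `∑ n6^3` by `n6_cube`. Second part: for `sep r r'`
`∫ ‖z r‖³‖z r'‖³ ≤ √(Q(r,r') Q(r',r))`, `Q(r,r') = ∫ ‖z r‖²‖z r'‖⁴` (`holder33`). By `desc_sum` (t = b₀) and Cauchy / power mean
`‖z r‖² ≤ M^b₀ ∑_I ‖g_I‖²`, `‖z r'‖⁴ ≤ M^(3 b₀) ∑_J ‖g_J‖⁴` over the descendants at level `a+1+b₀`, so by `Bil a b₀ b₀ U`
(`I / M^(b₀+1) = j = J / M^(b₀+1)`, `sep (I / M^b₀) (J / M^b₀)`)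
`Q(r,r') ≤ M^(4 b₀) U ∑_I S(I) ∑_J S(J)² ≤ M^(4 b₀) U S(r) S(r')² ≤ M^(4 b₀) U S(a,j)³` (`SS_split`; `∑ x² ≤ (∑ x)²`). At most `M²` pairs.
-/

open MeasureTheory Real Set Filter Topology

set_option autoImplicit false

namespace Pool.Agent.Helper22.AC

open Pool.Agent.Helper22.AE

theorem a5_pm {ι : Type*} (s : Finset ι) (p : ι → ℝ) (hp : ∀ i ∈ s, 0 ≤ p i) :
    (∑ i ∈ s, p i ^ 2) ^ 3 ≤ (s.card : ℝ) * (∑ i ∈ s, p i ^ 3) ^ 2 := by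
  have h1 : (∑ i ∈ s, p i ^ 2) ^ 2 ≤ (∑ i ∈ s, p i) * ∑ i ∈ s, p i ^ 3 :=
    Finset.sum_sq_le_sum_mul_sum_of_sq_le_mul s hp (fun i hi => pow_nonneg (hp i hi) 3)
      (fun i _ => le_of_eq (by ring))
  have h2 : (∑ i ∈ s, p i) ^ 2 ≤ (s.card : ℝ) * ∑ i ∈ s, p i ^ 2 := sq_sum_le_card_mul_sum_sq
  set A := ∑ i ∈ s, p i ^ 2 with hA
  set B := ∑ i ∈ s, p i with hB
  set C := ∑ i ∈ s, p i ^ 3 with hC
  have hA0 : 0 ≤ A := Finset.sum_nonneg fun i _ => sq_nonneg _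
  have hB0 : 0 ≤ B := Finset.sum_nonneg hp
  have hC0 : 0 ≤ C := Finset.sum_nonneg fun i hi => pow_nonneg (hp i hi) 3
  rcases hA0.eq_or_lt with h | h
  · have h6 : (0 : ℝ) ≤ (s.card : ℝ) * C ^ 2 := by positivity
    rw [← h]
    simpa using h6
  · have h3 : (A ^ 2) ^ 2 ≤ (B * C) ^ 2 := pow_le_pow_left₀ (by positivity) h1 2
    have h4 : (B * C) ^ 2 ≤ ((s.card : ℝ) * A) * C ^ 2 := by
      rw [mul_pow]
      exact mul_le_mul_of_nonneg_right h2 (by positivity)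
    have h5 : A * A ^ 3 ≤ A * ((s.card : ℝ) * C ^ 2) := by
      calc A * A ^ 3 = (A ^ 2) ^ 2 := by ring
        _ ≤ (B * C) ^ 2 := h3
        _ ≤ ((s.card : ℝ) * A) * C ^ 2 := h4
        _ = A * ((s.card : ℝ) * C ^ 2) := by ring
    exact le_of_mul_le_mul_left h5 h

theorem a5_sq {ι : Type*} (s : Finset ι) (x : ι → ℝ) (hx : ∀ i ∈ s, 0 ≤ x i) :
    ∑ i ∈ s, x i ^ 2 ≤ (∑ i ∈ s, x i) ^ 2 := by
  rw [pow_two (∑ i ∈ s, x i), Finset.sum_mul]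
  refine Finset.sum_le_sum fun i hi => ?_
  rw [pow_two]
  exact mul_le_mul_of_nonneg_left (Finset.single_le_sum hx hi) (hx i hi)

theorem a5_six (u w : ℝ) (hu : 0 ≤ u) (hw : 0 ≤ w) : (u + w) ^ 6 ≤ 32 * (u ^ 6 + w ^ 6) := by
  have := add_pow_le hu hw 6
  norm_num at this
  exact this

open Classical in
theorem bn6 {M : ℕ} (hM : 1 ≤ M) (z : ℕ → ℂ) :
    ‖∑ r ∈ Finset.range M, z r‖ ^ 6 ≤ 2 ^ 23 * ∑ r ∈ Finset.range M, ‖z r‖ ^ 6 +
      2 ^ 11 * (M : ℝ) ^ 7 * ∑ r ∈ Finset.range M, ∑ r' ∈ Finset.range M,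
        (if sep r r' then ‖z r‖ ^ 3 * ‖z r'‖ ^ 3 else 0) := by
  obtain ⟨i₀, hi₀, hmax⟩ := Finset.exists_max_image (Finset.range M) (fun i => ‖z i‖)
    ⟨0, Finset.mem_range.2 hM⟩
  have hb := bn_one (J := 2) hM (by norm_num) z (D := ‖z i₀‖)
    (fun i hi => hmax i (Finset.mem_range.2 hi))
  set P : (Fin 2 → Fin M) → ℝ := fun I => ‖z (I 0)‖ * ‖z (I 1)‖ with hP
  have hY : (∑ I ∈ gapT 2 M, ∏ t, ‖z (I t)‖ ^ 2) = ∑ I ∈ gapT 2 M, P I ^ 2 := by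
    refine Finset.sum_congr rfl fun I _ => ?_
    rw [Fin.prod_univ_two, hP]
    ring
  rw [hY] at hb
  set Y := ∑ I ∈ gapT 2 M, P I ^ 2 with hYd
  have hY0 : 0 ≤ Y := Finset.sum_nonneg fun I _ => sq_nonneg _
  set w := Y ^ (1 / (2 * ((2 : ℕ) : ℝ))) with hw
  have hw0 : 0 ≤ w := Real.rpow_nonneg hY0 _
  have hw4 : w ^ 4 = Y := by
    rw [hw, ← Real.rpow_natCast, ← Real.rpow_mul hY0]
    norm_num
  have hP0 : ∀ I, 0 ≤ P I := fun I => by rw [hP]; positivity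
  have hcard : ((gapT 2 M).card : ℝ) ≤ (M : ℝ) ^ 2 := by
    have h1 : (gapT 2 M).card ≤ Fintype.card (Fin 2 → Fin M) := Finset.card_le_univ _
    rw [Fintype.card_fun, Fintype.card_fin, Fintype.card_fin] at h1
    exact_mod_cast h1
  have hpm := a5_pm (gapT 2 M) P (fun I _ => hP0 I)
  set Z := ∑ I ∈ gapT 2 M, P I ^ 3 with hZ
  have hZ0 : 0 ≤ Z := Finset.sum_nonneg fun I _ => pow_nonneg (hP0 I) 3
  have hM0 : (0 : ℝ) ≤ M := Nat.cast_nonneg M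
  have hw6 : w ^ 6 ≤ M * Z := by
    have h1 : (w ^ 6) ^ 2 ≤ (M * Z) ^ 2 := by
      calc (w ^ 6) ^ 2 = (w ^ 4) ^ 3 := by ring
        _ = Y ^ 3 := by rw [hw4]
        _ ≤ ((gapT 2 M).card : ℝ) * Z ^ 2 := hpm
        _ ≤ (M : ℝ) ^ 2 * Z ^ 2 := mul_le_mul_of_nonneg_right hcard (by positivity)
        _ = (M * Z) ^ 2 := by ring
    exact (pow_le_pow_iff_left₀ (by positivity) (by positivity) (by norm_num)).1 h1
  have hZle : Z ≤ ∑ r ∈ Finset.range M, ∑ r' ∈ Finset.range M,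
        (if sep r r' then ‖z r‖ ^ 3 * ‖z r'‖ ^ 3 else 0) := by
    have h1 : Z ≤ ∑ I : Fin 2 → Fin M,
        (if sep (I 0) (I 1) then ‖z (I 0)‖ ^ 3 * ‖z (I 1)‖ ^ 3 else 0) := by
      have h2 : Z = ∑ I ∈ gapT 2 M,
          (if sep (I 0) (I 1) then ‖z (I 0)‖ ^ 3 * ‖z (I 1)‖ ^ 3 else 0) := by
        refine Finset.sum_congr rfl fun I hI => ?_
        have h3 : sep (I 0) (I 1) := (Finset.mem_filter.1 hI).2 0 1 (by decide)
        rw [if_pos h3, hP]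
        ring
      rw [h2]
      refine Finset.sum_le_sum_of_subset_of_nonneg (Finset.subset_univ _) (fun I _ _ => ?_)
      split_ifs
      · positivity
      · exact le_rfl
    refine h1.trans (le_of_eq ?_)
    rw [← Equiv.sum_comp (finTwoArrowEquiv (Fin M)).symm, Fintype.sum_prod_type]
    simp only [finTwoArrowEquiv_symm_apply, Matrix.cons_val_zero, Matrix.cons_val_one]
    rw [← Fin.sum_univ_eq_sum_range (fun r => ∑ r' ∈ Finset.range M,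
        (if sep r r' then ‖z r‖ ^ 3 * ‖z r'‖ ^ 3 else 0)) M]
    refine Finset.sum_congr rfl fun r _ => ?_
    rw [← Fin.sum_univ_eq_sum_range (fun r' =>
        (if sep r r' then ‖z r‖ ^ 3 * ‖z r'‖ ^ 3 else 0)) M]
  have hD6 : ‖z i₀‖ ^ 6 ≤ ∑ r ∈ Finset.range M, ‖z r‖ ^ 6 :=
    Finset.single_le_sum (f := fun r => ‖z r‖ ^ 6) (fun r _ => by positivity) hi₀
  have hb' : ‖∑ r ∈ Finset.range M, z r‖ ≤ 8 * ‖z i₀‖ + 2 * M * w := by
    refine hb.trans (le_of_eq ?_)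
    push_cast
    ring
  calc ‖∑ r ∈ Finset.range M, z r‖ ^ 6 ≤ (8 * ‖z i₀‖ + 2 * M * w) ^ 6 :=
        pow_le_pow_left₀ (norm_nonneg _) hb' 6
    _ ≤ 32 * ((8 * ‖z i₀‖) ^ 6 + (2 * M * w) ^ 6) := a5_six _ _ (by positivity) (by positivity)
    _ = 2 ^ 23 * ‖z i₀‖ ^ 6 + 2 ^ 11 * (M : ℝ) ^ 6 * w ^ 6 := by ring
    _ ≤ 2 ^ 23 * ∑ r ∈ Finset.range M, ‖z r‖ ^ 6 + 2 ^ 11 * (M : ℝ) ^ 6 * (M * Z) := by gcongr
    _ = 2 ^ 23 * ∑ r ∈ Finset.range M, ‖z r‖ ^ 6 + 2 ^ 11 * (M : ℝ) ^ 7 * Z := by ring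
    _ ≤ _ := by gcongr

theorem a5_intg {Ω : Type} [MeasurableSpace Ω] {μ : Measure Ω} [IsFiniteMeasure μ] {f g : Ω → ℂ}
    (hf : Measurable f) (hg : Measurable g) (hfb : ∃ B : ℝ, ∀ ω, ‖f ω‖ ≤ B)
    (hgb : ∃ B : ℝ, ∀ ω, ‖g ω‖ ≤ B) (p q : ℕ) :
    Integrable (fun ω => ‖f ω‖ ^ p * ‖g ω‖ ^ q) μ := by
  obtain ⟨B, hB⟩ := hfb
  obtain ⟨C, hC⟩ := hgb
  refine Integrable.of_bound (((hf.norm.pow_const p).mul (hg.norm.pow_const q)).aestronglyMeasurable)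
    (B ^ p * C ^ q) (Eventually.of_forall fun ω => ?_)
  rw [Real.norm_of_nonneg (by positivity)]
  have h1 : 0 ≤ B := (norm_nonneg _).trans (hB ω)
  have h2 := hB ω
  have h3 := hC ω
  gcongr

theorem a5_four {ι : Type*} (s : Finset ι) (x : ι → ℝ) :
    (∑ i ∈ s, x i) ^ 4 ≤ (s.card : ℝ) ^ 3 * ∑ i ∈ s, x i ^ 4 := by
  have h1 : (∑ i ∈ s, x i) ^ 2 ≤ (s.card : ℝ) * ∑ i ∈ s, x i ^ 2 := sq_sum_le_card_mul_sum_sq
  have h2 : (∑ i ∈ s, x i ^ 2) ^ 2 ≤ (s.card : ℝ) * ∑ i ∈ s, (x i ^ 2) ^ 2 :=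
    sq_sum_le_card_mul_sum_sq
  calc (∑ i ∈ s, x i) ^ 4 = ((∑ i ∈ s, x i) ^ 2) ^ 2 := by ring
    _ ≤ ((s.card : ℝ) * ∑ i ∈ s, x i ^ 2) ^ 2 := pow_le_pow_left₀ (sq_nonneg _) h1 2
    _ = (s.card : ℝ) ^ 2 * (∑ i ∈ s, x i ^ 2) ^ 2 := by ring
    _ ≤ (s.card : ℝ) ^ 2 * ((s.card : ℝ) * ∑ i ∈ s, (x i ^ 2) ^ 2) := by gcongr
    _ = (s.card : ℝ) ^ 3 * ∑ i ∈ s, x i ^ 4 := by
      have : ∀ i, (x i ^ 2) ^ 2 = x i ^ 4 := fun i => by ring
      simp only [this]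
      ring

theorem a5_Q {Ω : Type} [MeasurableSpace Ω] {μ : Measure Ω} [IsFiniteMeasure μ] {M m : ℕ}
    {g : ℕ → ℕ → Ω → ℂ} (hg : Sys μ M m g) (hM : 1 ≤ M) {a b₀ j : ℕ} (hj : j < M ^ a)
    (hb : a + 1 + b₀ ≤ m) {U : ℝ} (hU : 0 ≤ U) (h : Bil μ M m g a b₀ b₀ U) {r r' : ℕ}
    (hr : r < M) (hr' : r' < M) (hs : sep r r') :
    ∫ ω, ‖g (a + 1) (M * j + r) ω‖ ^ 2 * ‖g (a + 1) (M * j + r') ω‖ ^ 4 ∂μ ≤
      (M : ℝ) ^ (4 * b₀) * U * SS μ M m g a j ^ 3 := by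
  set N : ℕ := M ^ b₀ with hN
  have hlt : ∀ x < M, M * j + x < M ^ (a + 1) := by
    intro x hx
    have := desc_lt (M := M) (s := a) (t := 1) (j := j) (r := x) hj (by rwa [pow_one])
    rwa [pow_one] at this
  have hdesc : ∀ x < M, ∀ ω, g (a + 1) (M * j + x) ω =
      ∑ k ∈ Finset.range N, g (a + 1 + b₀) (N * (M * j + x) + k) ω := fun x hx ω =>
    desc_sum hg hb (hlt x hx) ω
  have hsplit : ∀ x, SS μ M m g (a + 1) (M * j + x) =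
      ∑ k ∈ Finset.range N, SS μ M m g (a + 1 + b₀) (N * (M * j + x) + k) := fun x =>
    SS_split μ M m g _ hb
  have hSle : ∀ x < M, SS μ M m g (a + 1) (M * j + x) ≤ SS μ M m g a j := by
    intro x hx
    have h1 := SS_split μ M m g (s := a) (t := 1) j (by omega)
    rw [pow_one] at h1
    rw [h1]
    exact Finset.single_le_sum (f := fun r => SS μ M m g (a + 1) (M * j + r))
      (fun r _ => SS_nonneg μ M m g _ _) (Finset.mem_range.2 hx)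
  have hdiv : ∀ x < M, ∀ k < N, (N * (M * j + x) + k) / M ^ (b₀ + 1) = j := by
    intro x hx k hk
    have h1 : (N * (M * j + x) + k) / M ^ b₀ = M * j + x := desc_div hk
    rw [pow_succ, ← Nat.div_div_eq_div_mul, h1]
    have h2 := desc_div (M := M) (t := 1) (j := j) (r := x) (by rwa [pow_one])
    rwa [pow_one] at h2
  have hNcard : ((Finset.range N).card : ℝ) = (M : ℝ) ^ b₀ := by
    rw [Finset.card_range, hN]
    push_cast
    rfl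
  have hpt : ∀ ω, ‖g (a + 1) (M * j + r) ω‖ ^ 2 * ‖g (a + 1) (M * j + r') ω‖ ^ 4 ≤
      (M : ℝ) ^ (4 * b₀) * ∑ k ∈ Finset.range N, ∑ l ∈ Finset.range N,
        ‖g (a + 1 + b₀) (N * (M * j + r) + k) ω‖ ^ 2 *
          ‖g (a + 1 + b₀) (N * (M * j + r') + l) ω‖ ^ 4 := by
    intro ω
    have h1 : ‖g (a + 1) (M * j + r) ω‖ ^ 2 ≤ (M : ℝ) ^ b₀ *
        ∑ k ∈ Finset.range N, ‖g (a + 1 + b₀) (N * (M * j + r) + k) ω‖ ^ 2 := by
      rw [hdesc r hr]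
      refine (pow_le_pow_left₀ (norm_nonneg _) (norm_sum_le _ _) 2).trans ?_
      rw [← hNcard]
      exact sq_sum_le_card_mul_sum_sq
    have h2 : ‖g (a + 1) (M * j + r') ω‖ ^ 4 ≤ ((M : ℝ) ^ b₀) ^ 3 *
        ∑ k ∈ Finset.range N, ‖g (a + 1 + b₀) (N * (M * j + r') + k) ω‖ ^ 4 := by
      rw [hdesc r' hr']
      refine (pow_le_pow_left₀ (norm_nonneg _) (norm_sum_le _ _) 4).trans ?_
      rw [← hNcard]
      exact a5_four _ _
    calc ‖g (a + 1) (M * j + r) ω‖ ^ 2 * ‖g (a + 1) (M * j + r') ω‖ ^ 4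
        ≤ ((M : ℝ) ^ b₀ * ∑ k ∈ Finset.range N, ‖g (a + 1 + b₀) (N * (M * j + r) + k) ω‖ ^ 2) *
          (((M : ℝ) ^ b₀) ^ 3 *
            ∑ k ∈ Finset.range N, ‖g (a + 1 + b₀) (N * (M * j + r') + k) ω‖ ^ 4) :=
          mul_le_mul h1 h2 (by positivity) (by positivity)
      _ = (M : ℝ) ^ (4 * b₀) * ((∑ k ∈ Finset.range N,
            ‖g (a + 1 + b₀) (N * (M * j + r) + k) ω‖ ^ 2) *
            ∑ l ∈ Finset.range N, ‖g (a + 1 + b₀) (N * (M * j + r') + l) ω‖ ^ 4) := by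
          ring
      _ = _ := by rw [Finset.sum_mul_sum]
  have hint : ∀ s k s' k', Integrable (fun ω => ‖g s k ω‖ ^ 2 * ‖g s' k' ω‖ ^ 4) μ := fun s k s' k' =>
    a5_intg (hg.meas s k) (hg.meas s' k') (hg.bdd s k) (hg.bdd s' k') 2 4
  have h1 : ∫ ω, ‖g (a + 1) (M * j + r) ω‖ ^ 2 * ‖g (a + 1) (M * j + r') ω‖ ^ 4 ∂μ ≤
      (M : ℝ) ^ (4 * b₀) * ∑ k ∈ Finset.range N, ∑ l ∈ Finset.range N,
        ∫ ω, ‖g (a + 1 + b₀) (N * (M * j + r) + k) ω‖ ^ 2 *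
          ‖g (a + 1 + b₀) (N * (M * j + r') + l) ω‖ ^ 4 ∂μ := by
    refine (integral_mono (hint _ _ _ _) ?_ hpt).trans (le_of_eq ?_)
    · refine Integrable.const_mul ?_ _
      refine integrable_finsetSum _ fun k _ => integrable_finsetSum _ fun l _ => hint _ _ _ _
    · rw [integral_const_mul, integral_finsetSum _ (fun k _ =>
        integrable_finsetSum _ fun l _ => hint _ _ _ _)]
      congr 1
      refine Finset.sum_congr rfl fun k _ => ?_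
      rw [integral_finsetSum _ (fun l _ => hint _ _ _ _)]
  have h2 : ∀ k ∈ Finset.range N, ∀ l ∈ Finset.range N,
      ∫ ω, ‖g (a + 1 + b₀) (N * (M * j + r) + k) ω‖ ^ 2 *
          ‖g (a + 1 + b₀) (N * (M * j + r') + l) ω‖ ^ 4 ∂μ ≤
        U * SS μ M m g (a + 1 + b₀) (N * (M * j + r) + k) *
          SS μ M m g (a + 1 + b₀) (N * (M * j + r') + l) ^ 2 := by
    intro k hk l hl
    rw [Finset.mem_range] at hk hl
    refine h _ (desc_lt (hlt r hr) hk) _ (desc_lt (hlt r' hr') hl) ?_ ?_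
    · rw [hdiv r hr k hk, hdiv r' hr' l hl]
    · rw [desc_div hk, desc_div hl]
      rcases hs with hs | hs
      · left; omega
      · right; omega
  have hS0 : ∀ s k, 0 ≤ SS μ M m g s k := fun s k => SS_nonneg μ M m g s k
  have h3 : ∑ k ∈ Finset.range N, ∑ l ∈ Finset.range N,
        ∫ ω, ‖g (a + 1 + b₀) (N * (M * j + r) + k) ω‖ ^ 2 *
          ‖g (a + 1 + b₀) (N * (M * j + r') + l) ω‖ ^ 4 ∂μ ≤
      U * SS μ M m g (a + 1) (M * j + r) * SS μ M m g (a + 1) (M * j + r') ^ 2 := by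
    calc _ ≤ ∑ k ∈ Finset.range N, ∑ l ∈ Finset.range N,
          U * SS μ M m g (a + 1 + b₀) (N * (M * j + r) + k) *
          SS μ M m g (a + 1 + b₀) (N * (M * j + r') + l) ^ 2 :=
          Finset.sum_le_sum fun k hk => Finset.sum_le_sum fun l hl => h2 k hk l hl
      _ = (U * ∑ k ∈ Finset.range N, SS μ M m g (a + 1 + b₀) (N * (M * j + r) + k)) *
          ∑ l ∈ Finset.range N, SS μ M m g (a + 1 + b₀) (N * (M * j + r') + l) ^ 2 := by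
          rw [← Finset.sum_mul_sum, ← Finset.mul_sum]
      _ ≤ (U * ∑ k ∈ Finset.range N, SS μ M m g (a + 1 + b₀) (N * (M * j + r) + k)) *
          (∑ l ∈ Finset.range N, SS μ M m g (a + 1 + b₀) (N * (M * j + r') + l)) ^ 2 := by
          apply mul_le_mul_of_nonneg_left
          · exact a5_sq _ _ (fun l _ => hS0 _ _)
          · exact mul_nonneg hU (Finset.sum_nonneg fun k _ => hS0 _ _)
      _ = _ := by rw [← hsplit, ← hsplit]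
  have h4 : U * SS μ M m g (a + 1) (M * j + r) * SS μ M m g (a + 1) (M * j + r') ^ 2 ≤
      U * SS μ M m g a j ^ 3 := by
    have e1 := hSle r hr
    have e2 := hSle r' hr'
    have e3 := hS0 (a + 1) (M * j + r)
    have e4 := hS0 (a + 1) (M * j + r')
    have e5 := hS0 a j
    calc U * SS μ M m g (a + 1) (M * j + r) * SS μ M m g (a + 1) (M * j + r') ^ 2
        ≤ U * SS μ M m g a j * SS μ M m g a j ^ 2 := by gcongr
      _ = U * SS μ M m g a j ^ 3 := by ring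
  calc _ ≤ _ := h1
    _ ≤ (M : ℝ) ^ (4 * b₀) * (U * SS μ M m g a j ^ 3) :=
        mul_le_mul_of_nonneg_left (h3.trans h4) (by positivity)
    _ = _ := by ring

theorem one_level {Ω : Type} [MeasurableSpace Ω] {μ : Measure Ω} [IsFiniteMeasure μ] {M m : ℕ} {g : ℕ → ℕ → Ω → ℂ}
    (hg : Sys μ M m g) (hM : 1 ≤ M) {a b₀ j : ℕ} (hj : j < M ^ a) (hb : a + 1 + b₀ ≤ m) {U : ℝ} (hU : 0 ≤ U)
    (h : Bil μ M m g a b₀ b₀ U) :
    n6 μ (g a j) ^ 3 ≤ 2 ^ 23 * ∑ r ∈ Finset.range M, n6 μ (g (a + 1) (M * j + r)) ^ 3 +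
      2 ^ 11 * (M : ℝ) ^ (9 + 4 * b₀) * U * SS μ M m g a j ^ 3 := by
  classical
  set W : ℝ := (M : ℝ) ^ (4 * b₀) * U * SS μ M m g a j ^ 3 with hW
  have hS0 : 0 ≤ SS μ M m g a j := SS_nonneg μ M m g a j
  have hW0 : 0 ≤ W := by positivity
  have hint : ∀ k k', Integrable (fun ω => ‖g (a + 1) k ω‖ ^ 3 * ‖g (a + 1) k' ω‖ ^ 3) μ :=
    fun k k' => a5_intg (hg.meas _ k) (hg.meas _ k') (hg.bdd _ k) (hg.bdd _ k') 3 3
  have hint6 : ∀ s k, Integrable (fun ω => ‖g s k ω‖ ^ 6) μ := by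
    intro s k
    have := a5_intg (μ := μ) (hg.meas s k) (hg.meas s k) (hg.bdd s k) (hg.bdd s k) 6 0
    simpa using this
  have hpair : ∀ r ∈ Finset.range M, ∀ r' ∈ Finset.range M, sep r r' →
      ∫ ω, ‖g (a + 1) (M * j + r) ω‖ ^ 3 * ‖g (a + 1) (M * j + r') ω‖ ^ 3 ∂μ ≤ W := by
    intro r hr r' hr' hs
    rw [Finset.mem_range] at hr hr'
    have hs' : sep r' r := hs.symm
    have h1 := holder33 μ (hg.meas (a + 1) (M * j + r)) (hg.meas (a + 1) (M * j + r'))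
      (hg.bdd _ _) (hg.bdd _ _)
    refine h1.trans ?_
    have h2 := a5_Q hg hM hj hb hU h hr hr' hs
    have h3 := a5_Q hg hM hj hb hU h hr' hr hs'
    rw [← hW] at h2 h3
    rw [show W = √(W * W) from (Real.sqrt_mul_self hW0).symm]
    apply Real.sqrt_le_sqrt
    exact mul_le_mul h2 h3 (integral_nonneg fun ω => by positivity) hW0
  have hint_ite : ∀ r r', Integrable (fun ω => if sep r r' then
      ‖g (a + 1) (M * j + r) ω‖ ^ 3 * ‖g (a + 1) (M * j + r') ω‖ ^ 3 else 0) μ := by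
    intro r r'
    by_cases hs : sep r r'
    · simp only [if_pos hs]
      exact hint _ _
    · simp only [if_neg hs]
      exact integrable_zero _ _ _
  rw [n6_cube]
  have hpt : ∀ ω, ‖g a j ω‖ ^ 6 ≤ 2 ^ 23 * ∑ r ∈ Finset.range M, ‖g (a + 1) (M * j + r) ω‖ ^ 6 +
      2 ^ 11 * (M : ℝ) ^ 7 * ∑ r ∈ Finset.range M, ∑ r' ∈ Finset.range M,
        (if sep r r' then ‖g (a + 1) (M * j + r) ω‖ ^ 3 * ‖g (a + 1) (M * j + r') ω‖ ^ 3 else 0) := by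
    intro ω
    rw [hg.add a (by omega) j hj ω]
    exact bn6 hM (fun r => g (a + 1) (M * j + r) ω)
  have hI1 : Integrable (fun ω => (2 : ℝ) ^ 23 * ∑ r ∈ Finset.range M,
      ‖g (a + 1) (M * j + r) ω‖ ^ 6) μ :=
    (integrable_finsetSum _ fun r _ => hint6 _ _).const_mul _
  have hI2 : Integrable (fun ω => (2 : ℝ) ^ 11 * (M : ℝ) ^ 7 * ∑ r ∈ Finset.range M,
      ∑ r' ∈ Finset.range M, (if sep r r' then
        ‖g (a + 1) (M * j + r) ω‖ ^ 3 * ‖g (a + 1) (M * j + r') ω‖ ^ 3 else 0)) μ :=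
    (integrable_finsetSum _ fun r _ => integrable_finsetSum _ fun r' _ =>
      hint_ite r r').const_mul _
  refine (integral_mono (hint6 a j) (hI1.add hI2) hpt).trans ?_
  have e1 : ∫ ω, ((fun ω => (2 : ℝ) ^ 23 * ∑ r ∈ Finset.range M,
      ‖g (a + 1) (M * j + r) ω‖ ^ 6) + fun ω => (2 : ℝ) ^ 11 * (M : ℝ) ^ 7 * ∑ r ∈ Finset.range M,
      ∑ r' ∈ Finset.range M, (if sep r r' then
        ‖g (a + 1) (M * j + r) ω‖ ^ 3 * ‖g (a + 1) (M * j + r') ω‖ ^ 3 else 0)) ω ∂μ =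
      2 ^ 23 * ∑ r ∈ Finset.range M, n6 μ (g (a + 1) (M * j + r)) ^ 3 +
      2 ^ 11 * (M : ℝ) ^ 7 * ∑ r ∈ Finset.range M, ∑ r' ∈ Finset.range M,
        (if sep r r' then ∫ ω, ‖g (a + 1) (M * j + r) ω‖ ^ 3 *
          ‖g (a + 1) (M * j + r') ω‖ ^ 3 ∂μ else 0) := by
    rw [integral_add' hI1 hI2, integral_const_mul, integral_const_mul,
      integral_finsetSum _ (fun r _ => hint6 _ _),
      integral_finsetSum _ (fun r _ => integrable_finsetSum _ fun r' _ => hint_ite r r')]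
    congr 1
    · congr 1
      exact Finset.sum_congr rfl fun r _ => (n6_cube μ _).symm
    · congr 1
      refine Finset.sum_congr rfl fun r _ => ?_
      rw [integral_finsetSum _ (fun r' _ => hint_ite r r')]
      refine Finset.sum_congr rfl fun r' _ => ?_
      by_cases hs : sep r r'
      · simp only [if_pos hs]
      · simp only [if_neg hs, integral_zero]
  rw [e1]
  have e2 : ∑ r ∈ Finset.range M, ∑ r' ∈ Finset.range M,
        (if sep r r' then ∫ ω, ‖g (a + 1) (M * j + r) ω‖ ^ 3 *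
          ‖g (a + 1) (M * j + r') ω‖ ^ 3 ∂μ else 0) ≤ (M : ℝ) ^ 2 * W := by
    calc _ ≤ ∑ r ∈ Finset.range M, ∑ r' ∈ Finset.range M, W := by
          refine Finset.sum_le_sum fun r hr => Finset.sum_le_sum fun r' hr' => ?_
          split_ifs with hs
          · exact hpair r hr r' hr' hs
          · exact hW0
      _ = (M : ℝ) ^ 2 * W := by
          rw [Finset.sum_const, Finset.sum_const, Finset.card_range, nsmul_eq_mul, nsmul_eq_mul]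
          ring
  have e3 : 2 ^ 11 * (M : ℝ) ^ (9 + 4 * b₀) * U * SS μ M m g a j ^ 3 =
      2 ^ 11 * (M : ℝ) ^ 7 * ((M : ℝ) ^ 2 * W) := by
    rw [hW, pow_add]
    ring
  rw [e3]
  gcongr

end Pool.Agent.Helper22.AC
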