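import Pool.Agent.Helper22.AC.A5

/-!
# AC-A6: the exponent can be decreased

PROOF. `lam' = max (lam - 2^(-N)/3) ε`, `K₀ = 9 · 2^11 M^15 C³ ≥ 1`. CLAIM: `n6(g a j)³ ≤ K₀ M^(3 lam' (m - a)) S(a,j)³` for all `a ≤ m`
(then take cube roots). Downward induction on `a`. `a = m`: `SS_last`. `a = m - 1`: `n6_sum_le` with `N = M` gives
`n6(g a j)³ ≤ M^5 (∑ n6(g_r))³ = M^5 S(a,j)³ ≤ K₀ S³` (`SS_split` with `t = 1`, `SS_last`).
`a + 1 < m`: `L = m - a - 1 ≥ 1`, `B = (L - 1) / 2^N` (natural division), `b₀ = B + 1`; `2^N B ≤ L - 1`, so `bil_chain` applies,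
`U = 9 C³ M^(3 lam L - (3/2) lam N B)`; `one_level` (`a + 1 + b₀ ≤ m`) gives
`n6³ ≤ 2^23 ∑_r n6(g_r)³ + 2^11 M^(13 + 4B) U S³`. By induction and `∑_r S(r)³ ≤ (∑_r S(r))³ = S³` the first term is
`≤ 2^23 K₀ M^(3 lam' L) S³`. Second: `(3/2) lam N ≥ 5` (as `lam ≥ ε`, `N ≥ 10/(3ε)`), so the exponent of `M` is
`13 + 4B + 3 lam L - (3/2) lam N B ≤ 13 + 3 lam L - B ≤ 15 + 3 lam L - 2^(-N) L` (`B ≥ (L-1)/2^N - 1 ≥ L/2^N - 2`), hence the second term is
`≤ K₀ M^((3 lam - 2^(-N)) L) S³ ≤ K₀ M^(3 lam' L) S³`. Sum: `(2^23 + 1) K₀ M^(3 lam' L) ≤ K₀ M^(3 lam' (L+1))` since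
`M^(3 lam') ≥ M^(3 ε) ≥ 2^24`.
-/

open MeasureTheory Real Set Filter Topology

set_option autoImplicit false

namespace Pool.Agent.Helper22.AC

open Pool.Agent.Helper22.AE

private lemma sum_cube_le80 {ι : Type*} (s : Finset ι) (x : ι → ℝ) (hx : ∀ i ∈ s, 0 ≤ x i) :
    ∑ i ∈ s, x i ^ 3 ≤ (∑ i ∈ s, x i) ^ 3 := by
  have h1 : ∀ i ∈ s, x i ^ 3 ≤ x i * (∑ i ∈ s, x i) ^ 2 := by
    intro i hi
    have h2 : x i ≤ ∑ i ∈ s, x i := Finset.single_le_sum hx hi
    have h3 : x i ^ 2 ≤ (∑ i ∈ s, x i) ^ 2 := pow_le_pow_left₀ (hx i hi) h2 2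
    calc x i ^ 3 = x i * x i ^ 2 := by ring
      _ ≤ x i * (∑ i ∈ s, x i) ^ 2 := mul_le_mul_of_nonneg_left h3 (hx i hi)
  calc ∑ i ∈ s, x i ^ 3 ≤ ∑ i ∈ s, x i * (∑ i ∈ s, x i) ^ 2 := Finset.sum_le_sum h1
    _ = (∑ i ∈ s, x i) ^ 3 := by rw [← Finset.sum_mul]; ring

theorem dec_step {Ω : Type} [MeasurableSpace Ω] {μ : Measure Ω} [IsFiniteMeasure μ] {M m : ℕ} {g : ℕ → ℕ → Ω → ℂ}
    (hg : Sys μ M m g) (hM : 1 ≤ M) {ε lam C : ℝ} (hε : 0 < ε) (hMε : (2 : ℝ) ^ 24 ≤ (M : ℝ) ^ (3 * ε)) (hlam : ε ≤ lam)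
    (hC : 1 ≤ C) {N : ℕ} (hN : 10 / (3 * ε) ≤ N) (hdec : Dec μ M m g lam C) :
    Dec μ M m g (max (lam - 1 / (3 * 2 ^ N)) ε) ((9 * 2 ^ 11 * (M : ℝ) ^ 15 * C ^ 3) ^ (1 / 3 : ℝ)) := by
  set lam' : ℝ := max (lam - 1 / (3 * 2 ^ N)) ε with hlam'
  set K₀ : ℝ := 9 * 2 ^ 11 * (M : ℝ) ^ 15 * C ^ 3 with hK₀
  have hM' : (1 : ℝ) ≤ M := by exact_mod_cast hM
  have hM0 : (0 : ℝ) < M := by linarith
  have hM15 : (1 : ℝ) ≤ (M : ℝ) ^ 15 := one_le_pow₀ hM'
  have hC3 : (1 : ℝ) ≤ C ^ 3 := one_le_pow₀ hC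
  have hC30 : (0 : ℝ) ≤ C ^ 3 := by linarith
  have hK15 : (M : ℝ) ^ 15 ≤ K₀ := by
    have h1 : (M : ℝ) ^ 15 * 1 ≤ (M : ℝ) ^ 15 * C ^ 3 := mul_le_mul_of_nonneg_left hC3 (by linarith)
    have h2 : (0 : ℝ) ≤ (M : ℝ) ^ 15 * C ^ 3 := mul_nonneg (by linarith) hC30
    rw [hK₀]
    nlinarith [h1, h2]
  have hK₀1 : 1 ≤ K₀ := hM15.trans hK15
  have hK₀0 : 0 ≤ K₀ := by linarith
  have hl1 : ε ≤ lam' := le_max_right _ _
  have hl2 : lam - 1 / (3 * 2 ^ N) ≤ lam' := le_max_left _ _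
  have hl0 : 0 < lam' := lt_of_lt_of_le hε hl1
  have hMl : (2 : ℝ) ^ 24 ≤ (M : ℝ) ^ (3 * lam') :=
    hMε.trans (Real.rpow_le_rpow_of_exponent_le hM' (by linarith))
  have claim : ∀ l a : ℕ, a + l = m → ∀ j < M ^ a,
      n6 μ (g a j) ^ 3 ≤ K₀ * (M : ℝ) ^ (3 * lam' * (l : ℝ)) * SS μ M m g a j ^ 3 := by
    intro l
    induction l with
    | zero =>
      intro a ha j hj
      have ha' : a = m := by omega
      subst ha'
      rw [SS_last, Nat.cast_zero, mul_zero, Real.rpow_zero, mul_one]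
      have h1 : 0 ≤ n6 μ (g a j) ^ 3 := pow_nonneg (n6_nonneg _ _) 3
      nlinarith
    | succ l ih =>
      intro a ha j hj
      have hS : SS μ M m g a j = ∑ r ∈ Finset.range M, SS μ M m g (a + 1) (M * j + r) := by
        have h := SS_split μ M m g (s := a) (t := 1) j (by omega)
        rwa [pow_one] at h
      have hS0 : 0 ≤ SS μ M m g a j ^ 3 := pow_nonneg (SS_nonneg _ _ _ _ _ _) 3
      rcases Nat.eq_zero_or_pos l with hl | hl
      · subst hl
        have ham : a + 1 = m := by omega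
        have hadd : g a j = fun ω => ∑ r ∈ Finset.range M, g (a + 1) (M * j + r) ω :=
          funext (hg.add a (by omega) j hj)
        have h1 := n6_sum_le μ M (fun r => g (a + 1) (M * j + r)) (fun r => hg.meas _ _)
          (fun r => hg.bdd _ _)
        have h2 : ∑ r ∈ Finset.range M, n6 μ (g (a + 1) (M * j + r)) = SS μ M m g a j := by
          rw [hS]
          apply Finset.sum_congr rfl
          intro r _
          rw [ham, SS_last]
        rw [← hadd, h2] at h1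
        have h3 : n6 μ (g a j) ^ 3 ≤ ((M : ℝ) ^ (5 / 3 : ℝ) * SS μ M m g a j) ^ 3 :=
          pow_le_pow_left₀ (n6_nonneg _ _) h1 3
        have h4 : ((M : ℝ) ^ (5 / 3 : ℝ)) ^ 3 = (M : ℝ) ^ 5 := by
          rw [← Real.rpow_natCast, ← Real.rpow_mul hM0.le, ← Real.rpow_natCast]
          norm_num
        rw [mul_pow, h4] at h3
        have h5 : (M : ℝ) ^ 5 ≤ K₀ := (pow_le_pow_right₀ hM' (by norm_num)).trans hK15
        have h6 : (1 : ℝ) ≤ (M : ℝ) ^ (3 * lam' * ((0 + 1 : ℕ) : ℝ)) := by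
          apply Real.one_le_rpow hM'
          positivity
        have h7 : (M : ℝ) ^ 5 ≤ K₀ * (M : ℝ) ^ (3 * lam' * ((0 + 1 : ℕ) : ℝ)) := by
          nlinarith
        exact h3.trans (mul_le_mul_of_nonneg_right h7 hS0)
      · obtain ⟨B, hB⟩ : ∃ B : ℕ, B = (l - 1) / 2 ^ N := ⟨_, rfl⟩
        have hpow : 0 < 2 ^ N := by positivity
        have hB1 : 2 ^ N * B ≤ l - 1 := by
          rw [hB]
          exact Nat.mul_div_le _ _
        have hB2 : B ≤ l - 1 := by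
          rw [hB]
          exact Nat.div_le_self _ _
        have hB3 : l ≤ 2 ^ N * (B + 1) := by
          have h1 := Nat.lt_mul_div_succ (l - 1) hpow
          rw [← hB] at h1
          omega
        clear hB
        have hbil := bil_chain hg hM (le_trans hε.le hlam) hC hdec (a := a) (N := N) (b₀ := B + 1) (by omega)
          (by rw [Nat.add_sub_cancel]; omega)
        have hone := one_level hg hM (a := a) (b₀ := B + 1) hj (by omega) (by positivity) hbil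
        have hcast : (m : ℝ) - a - 1 = l := by
          have : (m : ℝ) = a + (l + 1 : ℕ) := by
            rw [← ha]
            push_cast
            ring
          rw [this]
          push_cast
          ring
        have hcastB : (((B + 1 : ℕ) : ℝ)) - 1 = B := by
          push_cast
          ring
        rw [hcast, hcastB] at hone
        -- first term
        have hfirst : ∑ r ∈ Finset.range M, n6 μ (g (a + 1) (M * j + r)) ^ 3 ≤
            K₀ * (M : ℝ) ^ (3 * lam' * (l : ℝ)) * SS μ M m g a j ^ 3 := by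
          have h1 : ∀ r ∈ Finset.range M, n6 μ (g (a + 1) (M * j + r)) ^ 3 ≤
              K₀ * (M : ℝ) ^ (3 * lam' * (l : ℝ)) * SS μ M m g (a + 1) (M * j + r) ^ 3 := by
            intro r hr
            apply ih (a + 1) (by omega)
            have h2 := desc_lt (M := M) (s := a) (t := 1) (r := r) hj (by rw [pow_one]; exact Finset.mem_range.1 hr)
            rwa [pow_one] at h2
          refine (Finset.sum_le_sum h1).trans ?_
          rw [← Finset.mul_sum, hS]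
          apply mul_le_mul_of_nonneg_left _ (by positivity)
          exact sum_cube_le80 _ _ fun r _ => SS_nonneg _ _ _ _ _ _
        -- second term
        have hlN : 5 ≤ 3 / 2 * lam * N := by
          have h1 : 10 / (3 * ε) * (3 * ε) = 10 := by field_simp
          have h2 : 10 / (3 * ε) * (3 * ε) ≤ N * (3 * lam) :=
            mul_le_mul hN (by linarith) (by positivity) (by positivity)
          rw [h1] at h2
          linarith
        have hBr : (l : ℝ) / 2 ^ N ≤ B + 1 := by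
          rw [div_le_iff₀ (by positivity)]
          have : ((l : ℕ) : ℝ) ≤ ((2 ^ N * (B + 1) : ℕ) : ℝ) := by exact_mod_cast hB3
          push_cast at this
          linarith
        have hexp : (13 + 4 * (B : ℝ)) + (3 * lam * l - 3 / 2 * lam * N * B) ≤ 15 + 3 * lam' * l := by
          have h1 : (0 : ℝ) ≤ B := Nat.cast_nonneg B
          have h2 : 5 * (B : ℝ) ≤ 3 / 2 * lam * N * B := mul_le_mul_of_nonneg_right hlN h1
          have h3 : (lam - 1 / (3 * 2 ^ N)) * (3 * l) ≤ lam' * (3 * l) :=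
            mul_le_mul_of_nonneg_right hl2 (by positivity)
          have h4 : (lam - 1 / (3 * 2 ^ N)) * (3 * l) = 3 * lam * l - (l : ℝ) / 2 ^ N := by
            field_simp
          rw [h4] at h3
          nlinarith
        have hsecond : 2 ^ 11 * (M : ℝ) ^ (9 + 4 * (B + 1)) *
            (9 * C ^ 3 * (M : ℝ) ^ (3 * lam * l - 3 / 2 * lam * N * B)) ≤
            K₀ * (M : ℝ) ^ (3 * lam' * (l : ℝ)) := by
          have h1 : (M : ℝ) ^ (9 + 4 * (B + 1)) * (M : ℝ) ^ (3 * lam * l - 3 / 2 * lam * N * B) ≤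
              (M : ℝ) ^ 15 * (M : ℝ) ^ (3 * lam' * (l : ℝ)) := by
            rw [← Real.rpow_natCast, ← Real.rpow_natCast, ← Real.rpow_add hM0, ← Real.rpow_add hM0]
            apply Real.rpow_le_rpow_of_exponent_le hM'
            push_cast
            linarith
          calc 2 ^ 11 * (M : ℝ) ^ (9 + 4 * (B + 1)) *
              (9 * C ^ 3 * (M : ℝ) ^ (3 * lam * l - 3 / 2 * lam * N * B))
              = (9 * 2 ^ 11 * C ^ 3) * ((M : ℝ) ^ (9 + 4 * (B + 1)) *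
                (M : ℝ) ^ (3 * lam * l - 3 / 2 * lam * N * B)) := by ring
            _ ≤ (9 * 2 ^ 11 * C ^ 3) * ((M : ℝ) ^ 15 * (M : ℝ) ^ (3 * lam' * (l : ℝ))) :=
                mul_le_mul_of_nonneg_left h1 (by positivity)
            _ = K₀ * (M : ℝ) ^ (3 * lam' * (l : ℝ)) := by rw [hK₀]; ring
        have hsum : K₀ * (M : ℝ) ^ (3 * lam' * ((l + 1 : ℕ) : ℝ)) =
            K₀ * (M : ℝ) ^ (3 * lam' * (l : ℝ)) * (M : ℝ) ^ (3 * lam') := by
          rw [mul_assoc K₀ ((M : ℝ) ^ (3 * lam' * (l : ℝ))), ← Real.rpow_add hM0]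
          congr 2
          push_cast
          ring
        have hX : 0 ≤ K₀ * (M : ℝ) ^ (3 * lam' * (l : ℝ)) * SS μ M m g a j ^ 3 := by positivity
        calc n6 μ (g a j) ^ 3 ≤ 2 ^ 23 * ∑ r ∈ Finset.range M, n6 μ (g (a + 1) (M * j + r)) ^ 3 +
              2 ^ 11 * (M : ℝ) ^ (9 + 4 * (B + 1)) *
                (9 * C ^ 3 * (M : ℝ) ^ (3 * lam * l - 3 / 2 * lam * N * B)) * SS μ M m g a j ^ 3 := hone
          _ ≤ 2 ^ 23 * (K₀ * (M : ℝ) ^ (3 * lam' * (l : ℝ)) * SS μ M m g a j ^ 3) +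
              K₀ * (M : ℝ) ^ (3 * lam' * (l : ℝ)) * SS μ M m g a j ^ 3 :=
                add_le_add (mul_le_mul_of_nonneg_left hfirst (by positivity))
                  (mul_le_mul_of_nonneg_right hsecond hS0)
          _ = (K₀ * (M : ℝ) ^ (3 * lam' * (l : ℝ)) * SS μ M m g a j ^ 3) * (2 ^ 23 + 1) := by ring
          _ ≤ (K₀ * (M : ℝ) ^ (3 * lam' * (l : ℝ)) * SS μ M m g a j ^ 3) * (M : ℝ) ^ (3 * lam') :=
                mul_le_mul_of_nonneg_left (le_trans (by norm_num) hMl) hX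
          _ = K₀ * (M : ℝ) ^ (3 * lam' * ((l + 1 : ℕ) : ℝ)) * SS μ M m g a j ^ 3 := by
                rw [hsum]
                ring
  intro s hs j hj
  have h1 := claim (m - s) s (by omega) j hj
  have h2 : ((m - s : ℕ) : ℝ) = (m : ℝ) - s := by
    rw [Nat.cast_sub hs]
  rw [h2] at h1
  have hR : 0 ≤ K₀ ^ (1 / 3 : ℝ) * (M : ℝ) ^ (lam' * ((m : ℝ) - s)) * SS μ M m g s j :=
    mul_nonneg (by positivity) (SS_nonneg _ _ _ _ _ _)
  rw [← pow_le_pow_iff_left₀ (n6_nonneg _ _) hR (by norm_num : (3 : ℕ) ≠ 0)]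
  refine h1.trans (le_of_eq ?_)
  rw [mul_pow, mul_pow]
  congr 2
  · rw [← Real.rpow_natCast, ← Real.rpow_mul hK₀0]
    norm_num
  · rw [← Real.rpow_natCast, ← Real.rpow_mul hM0.le]
    congr 1
    push_cast
    ring

end Pool.Agent.Helper22.AC
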