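import Pool.Agent.Helper22.AC.A6

/-!
# AC-A7: decoupling from orthogonality

PROOF. `M0` with `M0^(3ε) ≥ 2^24`, `N = ⌈10/(3ε)⌉₊`. `Dec μ M m g (max (5/3) ε) 1` by `n6_sum_le` applied to `desc_sum` with `t = m - s`
(`n6 (g s j) ≤ (M^(m-s))^(5/3) ∑ n6 = M^((5/3)(m-s)) SS`). Iterate `dec_step` `k` times: `Dec (max (5/3 - k/(3·2^N)) ε) (C k)` (if `5/3 < ε` nothing
to do; use `max (max (x - d) ε - d) ε = max (x - 2d) ε`), `C (k+1) = (9·2^11 M^15 (C k)³)^(1/3) ≥ 1`, depending on `M`, `ε`, `k` only. For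
`k = 5·2^N` the exponent is `ε`. Take `s = 0`, `j = 0`. (`C` must not depend on `Ω`, `μ`, `m`, `g`: define `C k` by recursion on `k` before
introducing them, or prove by induction on `k` the statement `∃ C ≥ 1, ∀ Ω μ m g, Sys → Dec ...`.)
-/

open MeasureTheory Real Set Filter Topology

set_option autoImplicit false

namespace Pool.Agent.Helper22.AC

open Pool.Agent.Helper22.AE

private lemma dec_zero53 {Ω : Type} [MeasurableSpace Ω] {μ : Measure Ω} [IsFiniteMeasure μ] {M m : ℕ}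
    {g : ℕ → ℕ → Ω → ℂ} (hg : Sys μ M m g) (hM : 1 ≤ M) {lam : ℝ} (hlam : 5 / 3 ≤ lam) :
    Dec μ M m g lam 1 := by
  intro s hs j hj
  have hM' : (1 : ℝ) ≤ M := by exact_mod_cast hM
  have h1 : g s j = fun ω => ∑ r ∈ Finset.range (M ^ (m - s)), g m (M ^ (m - s) * j + r) ω := by
    funext ω
    rw [desc_sum hg (s := s) (t := m - s) (by omega) hj ω]
    simp only [Nat.add_sub_cancel' hs]
  have h2 := n6_sum_le μ (M ^ (m - s)) (fun r => g m (M ^ (m - s) * j + r)) (fun r => hg.meas _ _)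
    (fun r => hg.bdd _ _)
  rw [h1]
  refine h2.trans ?_
  rw [one_mul]
  have h3 : (((M ^ (m - s) : ℕ) : ℝ)) ^ (5 / 3 : ℝ) ≤ (M : ℝ) ^ (lam * ((m : ℝ) - s)) := by
    rw [Nat.cast_pow, ← Real.rpow_natCast, ← Real.rpow_mul (by positivity), Nat.cast_sub hs]
    apply Real.rpow_le_rpow_of_exponent_le hM'
    have h4 : (0 : ℝ) ≤ (m : ℝ) - s := by
      rw [sub_nonneg]
      exact_mod_cast hs
    nlinarith
  exact mul_le_mul_of_nonneg_right h3 (Finset.sum_nonneg fun r _ => n6_nonneg _ _)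

private lemma dec_iter53 {ε : ℝ} (hε : 0 < ε) {M : ℕ} (hM : 1 ≤ M)
    (hMε : (2 : ℝ) ^ 24 ≤ (M : ℝ) ^ (3 * ε)) {N : ℕ} (hN : 10 / (3 * ε) ≤ N) (k : ℕ) :
    ∃ C : ℝ, 1 ≤ C ∧ ∀ (Ω : Type) [MeasurableSpace Ω] (μ : Measure Ω) [IsFiniteMeasure μ] (m : ℕ)
      (g : ℕ → ℕ → Ω → ℂ), Sys μ M m g →
      Dec μ M m g (max (5 / 3 - (k : ℝ) * (1 / (3 * 2 ^ N))) ε) C := by
  induction k with
  | zero =>
    refine ⟨1, le_rfl, fun Ω _ μ _ m g hg => dec_zero53 hg hM ?_⟩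
    rw [Nat.cast_zero, zero_mul, sub_zero]
    exact le_max_left _ _
  | succ k ih =>
    obtain ⟨C, hC, h⟩ := ih
    have hM' : (1 : ℝ) ≤ M := by exact_mod_cast hM
    refine ⟨(9 * 2 ^ 11 * (M : ℝ) ^ 15 * C ^ 3) ^ (1 / 3 : ℝ), ?_, fun Ω _ μ _ m g hg => ?_⟩
    · apply Real.one_le_rpow _ (by norm_num)
      have h1 : (1 : ℝ) ≤ (M : ℝ) ^ 15 := one_le_pow₀ hM'
      have h2 : (1 : ℝ) ≤ C ^ 3 := one_le_pow₀ hC
      have h3 : (1 : ℝ) ≤ (M : ℝ) ^ 15 * C ^ 3 := one_le_mul_of_one_le_of_one_le h1 h2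
      nlinarith
    · have h1 := dec_step hg hM hε hMε (le_max_right _ _) hC hN (h Ω μ m g hg)
      have hd : (0 : ℝ) < 1 / (3 * 2 ^ N) := by positivity
      have h2 : max (max (5 / 3 - (k : ℝ) * (1 / (3 * 2 ^ N))) ε - 1 / (3 * 2 ^ N)) ε =
          max (5 / 3 - ((k + 1 : ℕ) : ℝ) * (1 / (3 * 2 ^ N))) ε := by
        push_cast
        rcases le_total (5 / 3 - (k : ℝ) * (1 / (3 * 2 ^ N))) ε with h3 | h3
        · rw [max_eq_right h3, max_eq_right (by linarith), max_eq_right (by linarith)]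
        · rw [max_eq_left h3]
          congr 1
          ring
      rwa [h2] at h1

theorem decoupling {ε : ℝ} (hε : 0 < ε) : ∃ M0 : ℕ, 1 ≤ M0 ∧ ∀ M : ℕ, M0 ≤ M → ∃ C : ℝ, 1 ≤ C ∧
    ∀ (Ω : Type) [MeasurableSpace Ω] (μ : Measure Ω) [IsFiniteMeasure μ] (m : ℕ) (g : ℕ → ℕ → Ω → ℂ), Sys μ M m g →
      n6 μ (g 0 0) ≤ C * (M : ℝ) ^ (ε * (m : ℝ)) * ∑ r ∈ Finset.range (M ^ m), n6 μ (g m r) := by
  obtain ⟨N, hN⟩ : ∃ N : ℕ, 10 / (3 * ε) ≤ N := exists_nat_ge _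
  obtain ⟨K, hK⟩ : ∃ K : ℕ, ((2 : ℝ) ^ 24) ^ (1 / (3 * ε)) ≤ K := exists_nat_ge _
  refine ⟨K + 1, by omega, fun M hM => ?_⟩
  have hM1 : 1 ≤ M := by omega
  have hMε : (2 : ℝ) ^ 24 ≤ (M : ℝ) ^ (3 * ε) := by
    have h1 : ((2 : ℝ) ^ 24) ^ (1 / (3 * ε)) ≤ M := hK.trans (by exact_mod_cast (by omega : K ≤ M))
    have h2 : (((2 : ℝ) ^ 24) ^ (1 / (3 * ε))) ^ (3 * ε) ≤ (M : ℝ) ^ (3 * ε) :=
      Real.rpow_le_rpow (by positivity) h1 (by positivity)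
    rwa [← Real.rpow_mul (by positivity), one_div_mul_cancel (by positivity), Real.rpow_one] at h2
  obtain ⟨C, hC, h⟩ := dec_iter53 hε hM1 hMε hN (5 * 2 ^ N)
  refine ⟨C, hC, fun Ω _ μ _ m g hg => ?_⟩
  have h1 := h Ω μ m g hg 0 (Nat.zero_le m) 0 (by simp)
  have h2 : max (5 / 3 - ((5 * 2 ^ N : ℕ) : ℝ) * (1 / (3 * 2 ^ N))) ε = ε := by
    apply max_eq_right
    have h3 : ((5 * 2 ^ N : ℕ) : ℝ) * (1 / (3 * 2 ^ N)) = 5 / 3 := by
      push_cast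
      field_simp
    rw [h3, sub_self]
    exact hε.le
  rw [h2] at h1
  unfold SS at h1
  simpa using h1

end Pool.Agent.Helper22.AC
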