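import Pool.Agent.Helper22.AC.Defs
import Pool.Agent.Helper92.EO.Ker

/-!
# AC-B1: the weights

PROOF. `exists_ker_smooth` (Helper92.EO.Ker) gives `w ≥ 0` continuous, `∫ w = 1`, `∫ w u ee (-(x u)) = W x`, `W x = 0` for `|x| ≥ 1`. Since `∫ w = 1`
there is `u₀` with `w u₀ > 0`, and `c' > 0`, `0 < r ≤ 1/2` with `w ≥ c'` on `[u₀ - r, u₀ + r]`. Given `X > 0`, `R₁` put `Y = X / (2 r) ≥ X` and
`v R = (1/Y) w (u₀ + (R - R₁ - X/2) / Y)`. For `R ∈ [R₁, R₁ + X]`: `|(R - R₁ - X/2)/Y| ≤ (X/2)/Y = r`, so `v R ≥ c'/Y = 2 r c'/X`.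
`∫ v = 1` and `∫ v(R) ee(-(ξ R)) dR = (unimodular) W(Y ξ)` by the substitution `u = u₀ + (R - R₁ - X/2)/Y` (`integral_comp_div`,
`integral_add_right_eq_self`...; e.g. `MeasureTheory.Measure.integral_comp_mul_left`), and `|Y ξ| ≥ 1` if `|ξ| ≥ 1/X`.
`mu_prob`: both factors are probability measures.
-/

open MeasureTheory Real Set Filter Topology

set_option autoImplicit false

namespace Pool.Agent.Helper22.AC

open Pool.Agent.Helper22.AE

private theorem ee_add88 (x y : ℝ) : ee (x + y) = ee x * ee y := by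
  unfold ee
  rw [← Complex.exp_add]
  congr 1
  push_cast
  ring

theorem exists_wt : ∃ c₀ : ℝ, 0 < c₀ ∧ ∀ X : ℝ, 0 < X → ∀ R₁ : ℝ, ∃ v : ℝ → ℝ, IsWt X v ∧
    ∀ R ∈ Icc R₁ (R₁ + X), c₀ / X ≤ v R := by
  obtain ⟨w, W, hwc, hw0, _, _, _, hw1, hwW, _, hWz, _, _⟩ := Pool.Agent.Helper92.EO.exists_ker_smooth
  obtain ⟨u₀, hu₀⟩ : ∃ u, 0 < w u := by
    by_contra hcon
    push Not at hcon
    have h : w = fun _ => 0 := funext fun u => le_antisymm (hcon u) (hw0 u)
    rw [h, integral_zero] at hw1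
    exact zero_ne_one hw1
  obtain ⟨r, hr, hr2, hwr⟩ : ∃ r : ℝ, 0 < r ∧ r ≤ 1 / 2 ∧ ∀ u, |u - u₀| ≤ r → w u₀ / 2 ≤ w u := by
    have h1 : ∀ᶠ u in 𝓝 u₀, w u₀ / 2 < w u := hwc.continuousAt.eventually (lt_mem_nhds (half_lt_self hu₀))
    obtain ⟨ε, hε, h2⟩ := Metric.eventually_nhds_iff.1 h1
    refine ⟨min (ε / 2) (1 / 2), by positivity, min_le_right _ _, fun u hu => (h2 ?_).le⟩
    rw [Real.dist_eq]
    exact lt_of_le_of_lt (hu.trans (min_le_left _ _)) (half_lt_self hε)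
  refine ⟨2 * r * (w u₀ / 2), by positivity, fun X hX R₁ => ?_⟩
  obtain ⟨Y, hY⟩ : ∃ Y : ℝ, Y = X / (2 * r) := ⟨_, rfl⟩
  have hYpos : 0 < Y := by
    rw [hY]
    positivity
  have hXY : X ≤ Y := by
    rw [hY, le_div_iff₀ (by positivity)]
    nlinarith
  obtain ⟨a, ha⟩ : ∃ a : ℝ, a = u₀ - (R₁ + X / 2) / Y := ⟨_, rfl⟩
  refine ⟨fun R => 1 / Y * w (R / Y + a), ⟨?_, ?_, ?_, ?_⟩, ?_⟩
  · exact continuous_const.mul (hwc.comp (by fun_prop))
  · intro R
    exact mul_nonneg (by positivity) (hw0 _)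
  · rw [integral_const_mul, Measure.integral_comp_div (fun u => w (u + a)) Y,
      integral_add_right_eq_self w a, hw1, abs_of_pos hYpos, smul_eq_mul, mul_one]
    exact one_div_mul_cancel hYpos.ne'
  · intro ξ hξ
    obtain ⟨g, hg⟩ : ∃ g : ℝ → ℂ, g = fun u : ℝ => ((1 / Y : ℝ) : ℂ) * ee (ξ * Y * a) *
          (((w (u + a) : ℝ) : ℂ) * ee (-(ξ * Y * (u + a)))) := ⟨_, rfl⟩
    have h1 : (fun R : ℝ => (((1 / Y * w (R / Y + a) : ℝ)) : ℂ) * ee (-(ξ * R))) =
        fun R : ℝ => g (R / Y) := by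
      funext R
      have h2 : ee (-(ξ * R)) = ee (ξ * Y * a) * ee (-(ξ * Y * (R / Y + a))) := by
        rw [← ee_add88]
        congr 1
        field_simp
        ring
      rw [h2, hg]
      push_cast
      ring
    have h3 : ∫ u : ℝ, g u = 0 := by
      rw [hg, integral_const_mul,
        integral_add_right_eq_self (fun u : ℝ => ((w u : ℝ) : ℂ) * ee (-(ξ * Y * u))) a, hwW, hWz,
        Complex.ofReal_zero, mul_zero]
      rw [abs_mul, abs_of_pos hYpos]
      calc (1 : ℝ) = 1 / X * X := by field_simp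
        _ ≤ |ξ| * Y := mul_le_mul hξ hXY hX.le (abs_nonneg _)
    rw [h1, Measure.integral_comp_div g Y, h3, smul_zero]
  · intro R hR
    have h1 : |R / Y + a - u₀| ≤ r := by
      have h2 : R / Y + a - u₀ = (R - R₁ - X / 2) / Y := by
        rw [ha]
        ring
      have h3 : r * Y = X / 2 := by
        rw [hY]
        field_simp
      rw [h2, abs_div, abs_of_pos hYpos, div_le_iff₀ hYpos, h3, abs_le]
      constructor <;> linarith [hR.1, hR.2]
    have h4 := hwr _ h1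
    have h5 : 2 * r * (w u₀ / 2) / X = 1 / Y * (w u₀ / 2) := by
      rw [hY]
      field_simp
    rw [h5]
    exact mul_le_mul_of_nonneg_left h4 (by positivity)

theorem mu_prob {X : ℝ} {v : ℝ → ℝ} (hv : IsWt X v) : IsProbabilityMeasure (mu v) := by
  have h1 : IsProbabilityMeasure
      ((volume : Measure (ℝ × ℝ)).restrict (Icc (0 : ℝ) 1 ×ˢ Icc (0 : ℝ) 1)) := by
    constructor
    rw [Measure.restrict_apply_univ, Measure.volume_eq_prod, Measure.prod_prod, Real.volume_Icc,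
      sub_zero, ENNReal.ofReal_one, mul_one]
  have hint : Integrable v := by
    by_contra hcon
    have h2 := hv.int_one
    rw [integral_undef hcon] at h2
    exact zero_ne_one h2
  have h3 : IsProbabilityMeasure ((volume : Measure ℝ).withDensity fun R => ENNReal.ofReal (v R)) := by
    constructor
    rw [withDensity_apply _ MeasurableSet.univ, Measure.restrict_univ,
      ← ofReal_integral_eq_lintegral_ofReal hint (Eventually.of_forall hv.nonneg), hv.int_one,
      ENNReal.ofReal_one]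
  unfold mu
  infer_instance

end Pool.Agent.Helper22.AC
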