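import Pool.Agent.Helper22.AC.Defs
import Pool.Agent.Helper22.AE.D3
import Pool.Agent.Helper22.AE.G5

/-!
# AC-B2: the curve at a point

`qf γ t θ` is the difference between the curve and its tangent. `q'' + q = rho γ`, `q(t) = q'(t) = 0`, so
`q θ = ∫_t^θ sin (θ - s) rho γ s ds`, `q' θ = ∫_t^θ cos (θ - s) rho γ s ds`.

PROOF of `qf_bounds` and `qf_incr`, `qf_decr` (`|θ - t| ≤ 1`). Either these integral formulas, or without integrals: for fixed `θ > t` and
`W u = q u * cos (θ - u) + q' u * sin (θ - u)` one has `W' u = rho γ u * sin (θ - u)`, `W t = 0`, `W θ = q θ`; compare with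
`c (1 - cos (θ - t))` (derivative `c sin (θ - u)` of `u ↦ c cos (θ - u)`): `c₁ (1 - cos (θ-t)) ≤ q θ ≤ c₂ (1 - cos (θ-t)) ≤ c₂ (θ-t)²/2`.
For `q'`: `V u = -q u * sin (θ - u) + q' u * cos (θ - u)`, `V' u = rho γ u * cos (θ - u)`, `V t = 0`, `V θ = q' θ`, so
`q' θ ≥ c₁ sin (θ - t) ≥ (c₁/2)(θ - t)` for `0 ≤ θ - t ≤ 1` and `q' θ ≤ (c₁/2)(θ - t)` for `-1 ≤ θ - t ≤ 0`. Integrate `q'` (mean value theorem,
`image_sub_le_mul_sub_of_deriv_le`/`Convex.mul_sub_le_image_sub_of_le_deriv`) between the two points.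
`Fk_eq`: `k.1 = nk k cos θ`, `k.2 = nk k sin θ` (`lem_cos`, `lem_sin` of AE.G5) with `θ = tk k`; `2 π xk k = tk k + 2 π (integer)` (`xk` is the
fractional part), and `γ`, `cos`, `sin` are `2π`-periodic.
-/

open MeasureTheory Real Set Filter Topology

set_option autoImplicit false

namespace Pool.Agent.Helper22.AC

open Pool.Agent.Helper22.AE

/-- distance of the curve to its tangent at `t` -/
noncomputable def qf (γ : ℝ → ℝ) (t θ : ℝ) : ℝ := γ θ - γ t * cos (θ - t) - deriv γ t * sin (θ - t)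

private lemma mono38 {f f' : ℝ → ℝ} (hf : ∀ u, HasDerivAt f (f' u) u) {a b : ℝ} (hab : a ≤ b)
    (h : ∀ u, a ≤ u → u ≤ b → 0 ≤ f' u) : f a ≤ f b := by
  have h1 : MonotoneOn f (Icc a b) := by
    apply monotoneOn_of_deriv_nonneg (convex_Icc a b)
    · exact fun u _ => (hf u).continuousAt.continuousWithinAt
    · exact fun u _ => (hf u).differentiableAt.differentiableWithinAt
    · intro u hu
      rw [(hf u).deriv]
      have h2 := interior_subset hu
      exact h u h2.1 h2.2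
  exact h1 (left_mem_Icc.2 hab) (right_mem_Icc.2 hab) hab

/-- the derivative of `qf` -/
private noncomputable def q38 (γ : ℝ → ℝ) (t θ : ℝ) : ℝ :=
  deriv γ θ + γ t * sin (θ - t) - deriv γ t * cos (θ - t)

private lemma dcos38 (t θ : ℝ) : HasDerivAt (fun x : ℝ => cos (x - t)) (-sin (θ - t)) θ := by
  have h := (hasDerivAt_id θ).sub_const t
  simpa using h.cos

private lemma dsin38 (t θ : ℝ) : HasDerivAt (fun x : ℝ => sin (x - t)) (cos (θ - t)) θ := by
  have h := (hasDerivAt_id θ).sub_const t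
  simpa using h.sin

private lemma dcos38' (θ u : ℝ) : HasDerivAt (fun x : ℝ => cos (θ - x)) (sin (θ - u)) u := by
  have h := (hasDerivAt_id u).const_sub θ
  simpa using h.cos

private lemma dsin38' (θ u : ℝ) : HasDerivAt (fun x : ℝ => sin (θ - x)) (-cos (θ - u)) u := by
  have h := (hasDerivAt_id u).const_sub θ
  simpa using h.sin

private lemma d1_38 {c₁ c₂ : ℝ} {γ : ℝ → ℝ} (h : Adm c₁ c₂ γ) (t θ : ℝ) :
    HasDerivAt (qf γ t) (q38 γ t θ) θ := by
  have h1 : HasDerivAt γ (deriv γ θ) θ :=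
    (h.smooth.differentiable (by norm_num) θ).hasDerivAt
  have h2 := (h1.sub ((dcos38 t θ).const_mul (γ t))).sub ((dsin38 t θ).const_mul (deriv γ t))
  refine h2.congr_deriv ?_
  unfold q38
  ring

private lemma d2_38 {c₁ c₂ : ℝ} {γ : ℝ → ℝ} (h : Adm c₁ c₂ γ) (t θ : ℝ) :
    HasDerivAt (q38 γ t) (rho γ θ - qf γ t θ) θ := by
  have hd : Differentiable ℝ (deriv γ) := by
    have h0 : ContDiff ℝ 1 (deriv γ) := by
      have := h.smooth
      rw [show (2 : WithTop ℕ∞) = 1 + 1 by norm_num, contDiff_succ_iff_deriv] at this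
      exact this.2.2
    exact h0.differentiable (by norm_num)
  have h1 : HasDerivAt (deriv γ) (deriv (deriv γ) θ) θ := (hd θ).hasDerivAt
  have h2 := (h1.add ((dsin38 t θ).const_mul (γ t))).sub ((dcos38 t θ).const_mul (deriv γ t))
  refine h2.congr_deriv ?_
  unfold rho qf
  ring

private lemma z0_38 (γ : ℝ → ℝ) (t : ℝ) : qf γ t t = 0 := by
  unfold qf
  simp

private lemma z1_38 (γ : ℝ → ℝ) (t : ℝ) : q38 γ t t = 0 := by
  unfold q38
  simp

/-- the derivative of the auxiliary function `V` -/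
private lemma dV38 {c₁ c₂ : ℝ} {γ : ℝ → ℝ} (h : Adm c₁ c₂ γ) (t θ u : ℝ) :
    HasDerivAt (fun u => -(qf γ t u) * sin (θ - u) + q38 γ t u * cos (θ - u) + c₁ * sin (θ - u))
      ((rho γ u - c₁) * cos (θ - u)) u := by
  have h1 := ((d1_38 h t u).neg.mul (dsin38' θ u)).add ((d2_38 h t u).mul (dcos38' θ u))
  have h2 := h1.add ((dsin38' θ u).const_mul c₁)
  refine h2.congr_deriv ?_
  simp only [Pi.neg_apply]
  ring

/-- the derivative of the auxiliary function `W` -/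
private lemma dW38 {c₁ c₂ : ℝ} {γ : ℝ → ℝ} (h : Adm c₁ c₂ γ) (t θ u : ℝ) :
    HasDerivAt (fun u => qf γ t u * cos (θ - u) + q38 γ t u * sin (θ - u) - c₂ * cos (θ - u))
      ((rho γ u - c₂) * sin (θ - u)) u := by
  have h1 := ((d1_38 h t u).mul (dcos38' θ u)).add ((d2_38 h t u).mul (dsin38' θ u))
  have h2 := h1.sub ((dcos38' θ u).const_mul c₂)
  refine h2.congr_deriv ?_
  ring

private lemma cosnn38 {x : ℝ} (h : |x| ≤ 1) : 0 ≤ cos x := by
  apply cos_nonneg_of_mem_Icc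
  have h1 := abs_le.1 h
  constructor <;> linarith [Real.pi_gt_three]

private lemma sin38 {x : ℝ} (h0 : 0 ≤ x) (h1 : x ≤ 1) : x / 2 ≤ sin x := by
  have h2 := mul_le_sin h0 (by linarith [Real.pi_gt_three] : x ≤ π / 2)
  have h3 : (1 : ℝ) / 2 ≤ 2 / π := by
    rw [div_le_div_iff₀ (by norm_num) Real.pi_pos]
    linarith [Real.pi_le_four]
  nlinarith

private lemma q1pos38 {c₁ c₂ : ℝ} {γ : ℝ → ℝ} (h : Adm c₁ c₂ γ) (hc₁ : 0 < c₁) {t θ : ℝ}
    (h0 : t ≤ θ) (h1 : θ ≤ t + 1) : c₁ / 2 * (θ - t) ≤ q38 γ t θ := by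
  have h2 := mono38 (dV38 h t θ) h0 (fun u hu hu' => mul_nonneg (sub_nonneg.2 (h.lo u))
    (cosnn38 (abs_le.2 ⟨by linarith, by linarith⟩)))
  simp only [z0_38, z1_38, sub_self, sin_zero, cos_zero] at h2
  have h3 := sin38 (sub_nonneg.2 h0) (by linarith : θ - t ≤ 1)
  nlinarith

private lemma q1neg38 {c₁ c₂ : ℝ} {γ : ℝ → ℝ} (h : Adm c₁ c₂ γ) (hc₁ : 0 < c₁) {t θ : ℝ}
    (h0 : θ ≤ t) (h1 : t - 1 ≤ θ) : q38 γ t θ ≤ c₁ / 2 * (θ - t) := by
  have h2 := mono38 (dV38 h t θ) h0 (fun u hu hu' => mul_nonneg (sub_nonneg.2 (h.lo u))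
    (cosnn38 (abs_le.2 ⟨by linarith, by linarith⟩)))
  simp only [z0_38, z1_38, sub_self, sin_zero, cos_zero] at h2
  have h3 := sin38 (sub_nonneg.2 h0) (by linarith : t - θ ≤ 1)
  have h4 : sin (θ - t) = -sin (t - θ) := by rw [← sin_neg, neg_sub]
  rw [h4] at h2
  nlinarith

theorem qf_bounds {c₁ c₂ : ℝ} {γ : ℝ → ℝ} (h : Adm c₁ c₂ γ) (hc₁ : 0 < c₁) {t θ : ℝ} (hθ : |θ - t| ≤ 1) :
    0 ≤ qf γ t θ ∧ qf γ t θ ≤ c₂ * (θ - t) ^ 2 / 2 := by
  have hb := abs_le.1 hθ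
  have hc₂ : 0 ≤ c₂ := by linarith [h.lo 0, h.hi 0]
  have hcos := one_sub_sq_div_two_le_cos (x := θ - t)
  rcases le_total t θ with h0 | h0
  · constructor
    · have h1 := mono38 (d1_38 h t) h0 (fun u hu hu' => by
        have h2 := q1pos38 h hc₁ hu (by linarith : u ≤ t + 1)
        have h3 : 0 ≤ c₁ / 2 * (u - t) := mul_nonneg (by linarith) (by linarith)
        linarith)
      rwa [z0_38] at h1
    · have h1 := mono38 (fun u => (dW38 h t θ u).neg) h0 (fun u hu hu' => by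
        have h2 : 0 ≤ sin (θ - u) :=
          sin_nonneg_of_nonneg_of_le_pi (by linarith) (by linarith [Real.pi_gt_three])
        have h3 := h.hi u
        nlinarith)
      simp only [Pi.neg_apply, z0_38, z1_38, sub_self, sin_zero, cos_zero] at h1
      nlinarith
  · constructor
    · have h1 := mono38 (fun u => (d1_38 h t u).neg) h0 (fun u hu hu' => by
        have h2 := q1neg38 h hc₁ hu' (by linarith : t - 1 ≤ u)
        have h3 : c₁ / 2 * (u - t) ≤ 0 := mul_nonpos_of_nonneg_of_nonpos (by linarith) (by linarith)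
        linarith)
      simp only [Pi.neg_apply, z0_38] at h1
      linarith
    · have h1 := mono38 (dW38 h t θ) h0 (fun u hu hu' => by
        have h2 : sin (θ - u) ≤ 0 :=
          sin_nonpos_of_nonpos_of_neg_pi_le (by linarith) (by linarith [Real.pi_gt_three])
        have h3 := h.hi u
        nlinarith)
      simp only [z0_38, z1_38, sub_self, sin_zero, cos_zero] at h1
      nlinarith

theorem qf_incr {c₁ c₂ : ℝ} {γ : ℝ → ℝ} (h : Adm c₁ c₂ γ) (hc₁ : 0 < c₁) {t d θ₁ θ₂ : ℝ} (hd : 0 ≤ d)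
    (h1 : t + d ≤ θ₁) (h2 : θ₁ ≤ θ₂) (h3 : θ₂ ≤ t + 1) : c₁ / 2 * d * (θ₂ - θ₁) ≤ qf γ t θ₂ - qf γ t θ₁ := by
  have h4 := mono38 (fun u => (d1_38 h t u).sub ((hasDerivAt_id u).const_mul (c₁ / 2 * d))) h2
    (fun u hu hu' => by
      have h5 := q1pos38 h hc₁ (by linarith : t ≤ u) (by linarith : u ≤ t + 1)
      have h6 : c₁ / 2 * d ≤ c₁ / 2 * (u - t) := by
        apply mul_le_mul_of_nonneg_left _ (by linarith)
        linarith
      linarith)
  simp only [Pi.sub_apply, id] at h4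
  linarith

theorem qf_decr {c₁ c₂ : ℝ} {γ : ℝ → ℝ} (h : Adm c₁ c₂ γ) (hc₁ : 0 < c₁) {t d θ₁ θ₂ : ℝ} (hd : 0 ≤ d)
    (h1 : θ₁ ≤ t - d) (h2 : θ₂ ≤ θ₁) (h3 : t - 1 ≤ θ₂) : c₁ / 2 * d * (θ₁ - θ₂) ≤ qf γ t θ₂ - qf γ t θ₁ := by
  have h4 := mono38 (fun u => ((d1_38 h t u).neg).sub ((hasDerivAt_id u).const_mul (c₁ / 2 * d))) h2
    (fun u hu hu' => by
      have h5 := q1neg38 h hc₁ (by linarith : u ≤ t) (by linarith : t - 1 ≤ u)
      have h6 : c₁ / 2 * d ≤ c₁ / 2 * (t - u) := by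
        apply mul_le_mul_of_nonneg_left _ (by linarith)
        linarith
      linarith)
  simp only [Pi.sub_apply, Pi.neg_apply, id] at h4
  linarith

theorem Fk_eq {γ : ℝ → ℝ} (hper : Function.Periodic γ (2 * π)) (k : ℤ × ℤ) (t : ℝ) :
    Fk γ k = (k.1 : ℝ) * (γ t * cos t - deriv γ t * sin t) + (k.2 : ℝ) * (γ t * sin t + deriv γ t * cos t) +
      nk k * qf γ t (2 * π * xk k) := by
  have hx : 2 * π * xk k = tk k - ⌊tk k / (2 * π)⌋ * (2 * π) := by
    unfold xk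
    rw [Int.fract]
    have : (2 * π) ≠ 0 := by positivity
    field_simp
  have h1 : γ (2 * π * xk k) = γ (tk k) := by
    rw [hx]
    exact hper.sub_int_mul_eq _
  have h2 : cos (2 * π * xk k - t) = cos (tk k - t) := by
    rw [hx, show tk k - (⌊tk k / (2 * π)⌋ : ℝ) * (2 * π) - t =
      tk k - t - (⌊tk k / (2 * π)⌋ : ℝ) * (2 * π) by ring]
    exact cos_sub_int_mul_two_pi _ _
  have h3 : sin (2 * π * xk k - t) = sin (tk k - t) := by
    rw [hx, show tk k - (⌊tk k / (2 * π)⌋ : ℝ) * (2 * π) - t =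
      tk k - t - (⌊tk k / (2 * π)⌋ : ℝ) * (2 * π) by ring]
    exact sin_sub_int_mul_two_pi _ _
  unfold Fk qf
  rw [h1, h2, h3, cos_sub, sin_sub]
  have h4 := lem_cos k
  have h5 := lem_sin k
  linear_combination (-(γ t * cos t - deriv γ t * sin t)) * h4 -
    (γ t * sin t + deriv γ t * cos t) * h5

end Pool.Agent.Helper22.AC
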