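import Pool.Agent.Helper22.AC.B2

/-!
# AC-B3: transversality (plan B3)

Arcs of level `s`: `8 M^s` arcs of length `W_s = 2π/(8 M^s) ≤ 2π/8 ≤ 1` of the circle; `k` is in the arc `i` of level `s` iff
`⌊8 M^s xk k⌋₊ = i`.

PROOF. `K = 2^n`, `W = 2π/(8M^s)`, `ω = 2π/(8M^(s+1+b)) = W/M^(b+1)`, `t = 2π j/(8M^(s+1+b))` (left end of the arc `J`). For the `y`'s
`θ_y = 2π xk y ∈ [t, t + ω)`. `x, x'` lie in the arc `u = i/M^c = i'/M^c` of level `s+1`, `J` in the arc `v = j/M^b` of level `s+1`, `|u - v| ≥ 2`, and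
all are in the same arc `j/M^(b+1) = i/M^(c+1)` of level `s`, so `|θ - t| ≤ W ≤ 1` for all angles, and (`d = W/M`) either `θ_x, θ_x' ≥ t + d`
(`u ≥ v+2`: `θ_x ≥ 2πu/(8M^(s+1))`, `t < 2π(v+1)/(8M^(s+1))`) or `θ_x, θ_x' ≤ t - d`. `sep i i'` gives `|θ_x - θ_x'| ≥ 2π/(8M^(s+1+c)) = W/M^(c+1)`.
Suppose `|ΔF| < 1/X`, `ΔF` the sum in the claim. By `Fk_eq` (the linear forms cancel because of `hsum`)
`nk x q(θ_x) - nk x' q(θ_x') = ΔF - (nk y₁ q + nk y₂ q - nk y₃ q - nk y₄ q)`, with `0 ≤ nk y q(θ_y) ≤ 2K c₂ ω²/2 = K c₂ ω²` (`qf_bounds`), so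
`|nk x q(θ_x) - nk x' q(θ_x')| < 1/X + 2 K c₂ ω² ≤ 3 K c₂ ω²` (`hKX`). On the other hand (`qf_incr`/`qf_decr`, `q(θ_x') ≤ c₂ W²/2`)
`≥ nk x |q(θ_x) - q(θ_x')| - |nk x - nk x'| q(θ_x') ≥ K (c₁/2) (W/M)(W/M^(c+1)) - η K c₂ W²/2`. With `ω = W/M^(b+1)`, `η ≤ M^(-2(b+1))`:
`(c₁/2) M^(-2-c) < 3.5 c₂ M^(-2-2b)`; but `c + 1 ≤ 2b` gives `M^(-2-c) ≥ M · M^(-2-2b)` and `M ≥ 8 c₂/c₁`: contradiction.
-/

open MeasureTheory Real Set Filter Topology

set_option autoImplicit false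

namespace Pool.Agent.Helper22.AC

open Pool.Agent.Helper22.AE

private lemma h31_fl {m : ℝ} (hm : 0 < m) {s e i : ℕ} {x : ℝ} (hx : 0 ≤ x)
    (h : ⌊(8 * m ^ (s + 1 + e)) * x⌋₊ = i) :
    (i : ℝ) / m ^ e * (2 * π / (8 * m ^ (s + 1))) ≤ 2 * π * x ∧
      2 * π * x < ((i : ℝ) + 1) / m ^ e * (2 * π / (8 * m ^ (s + 1))) := by
  have h0 : 0 ≤ (8 * m ^ (s + 1 + e)) * x := by positivity
  rw [Nat.floor_eq_iff h0] at h
  have hp : 0 < 2 * π / (8 * m ^ (s + 1 + e)) := by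
    have := pi_pos
    positivity
  have e1 : (i : ℝ) / m ^ e * (2 * π / (8 * m ^ (s + 1))) = i * (2 * π / (8 * m ^ (s + 1 + e))) := by
    rw [pow_add m (s + 1) e]
    field_simp
  have e2 : ((i : ℝ) + 1) / m ^ e * (2 * π / (8 * m ^ (s + 1))) =
      (i + 1) * (2 * π / (8 * m ^ (s + 1 + e))) := by
    rw [pow_add m (s + 1) e]
    field_simp
  have e3 : 2 * π * x = ((8 * m ^ (s + 1 + e)) * x) * (2 * π / (8 * m ^ (s + 1 + e))) := by
    field_simp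
  rw [e1, e2, e3]
  exact ⟨mul_le_mul_of_nonneg_right h.1 hp.le, mul_lt_mul_of_pos_right h.2 hp⟩

private lemma h31_dv {M : ℕ} (hM : 1 ≤ M) {e i u : ℕ} (h : i / M ^ e = u) :
    (u : ℝ) ≤ (i : ℝ) / (M : ℝ) ^ e ∧ ((i : ℝ) + 1) / (M : ℝ) ^ e ≤ u + 1 := by
  have hp : 0 < M ^ e := pow_pos hM e
  have hpr : (0 : ℝ) < (M : ℝ) ^ e := by exact_mod_cast hp
  rw [le_div_iff₀ hpr, div_le_iff₀ hpr]
  constructor
  · have : u * M ^ e ≤ i := by rw [← h]; exact Nat.div_mul_le_self _ _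
    exact_mod_cast this
  · have : i + 1 ≤ (u + 1) * M ^ e := by
      exact (Nat.div_lt_iff_lt_mul hp).1 (by omega)
    exact_mod_cast this

theorem geo {c₁ c₂ : ℝ} {γ : ℝ → ℝ} (hA : Adm c₁ c₂ γ) (hc₁ : 0 < c₁) {M : ℕ} (hM1 : 1 ≤ M) (hM : 8 * c₂ / c₁ ≤ M)
    {n s b c : ℕ} {X η : ℝ} (hX : 0 < X) (hcb : c + 1 ≤ 2 * b) (hη : η ≤ (1 / (M : ℝ)) ^ (2 * (b + 1)))
    (hKX : 1 / (2 ^ n * X) ≤ c₂ * (2 * π / (8 * (M : ℝ) ^ (s + 1 + b))) ^ 2) {j i i' : ℕ}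
    (hji : j / M ^ (b + 1) = i / M ^ (c + 1)) (hii : i / M ^ c = i' / M ^ c) (hsep : sep (i / M ^ c) (j / M ^ b))
    (hs : sep i i') {x x' y₁ y₂ y₃ y₄ : ℤ × ℤ} (hx : (2 : ℝ) ^ n ≤ nk x) (hslab : |nk x - nk x'| ≤ η * 2 ^ n)
    (hxi : ⌊(8 * (M : ℝ) ^ (s + 1 + c)) * xk x⌋₊ = i) (hxi' : ⌊(8 * (M : ℝ) ^ (s + 1 + c)) * xk x'⌋₊ = i')
    (hy : ∀ y ∈ ({y₁, y₂, y₃, y₄} : Set (ℤ × ℤ)), nk y ≤ 2 ^ (n + 1) ∧
      ⌊(8 * (M : ℝ) ^ (s + 1 + b)) * xk y⌋₊ = j)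
    (hsum : x - x' + y₁ + y₂ - y₃ - y₄ = 0) :
    1 / X ≤ |Fk γ x - Fk γ x' + Fk γ y₁ + Fk γ y₂ - Fk γ y₃ - Fk γ y₄| := by
  have hxk0 : ∀ k : ℤ × ℤ, 0 ≤ xk k := fun k => Int.fract_nonneg _
  have hnk0 : ∀ k : ℤ × ℤ, 0 ≤ nk k := fun k => norm_nonneg _
  have hpi := pi_pos
  have hm1 : (1 : ℝ) ≤ (M : ℝ) := by exact_mod_cast hM1
  have hc12 : c₁ ≤ c₂ := (hA.lo 0).trans (hA.hi 0)
  have hc₂ : 0 < c₂ := hc₁.trans_le hc12
  rw [div_le_iff₀ hc₁] at hM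
  -- the integer data
  obtain ⟨u, hu⟩ : ∃ u, i / M ^ c = u := ⟨_, rfl⟩
  obtain ⟨v, hv⟩ : ∃ v, j / M ^ b = v := ⟨_, rfl⟩
  obtain ⟨q, hq⟩ : ∃ q, i / M ^ (c + 1) = q := ⟨_, rfl⟩
  have hq' : i' / M ^ (c + 1) = q := by
    rw [pow_succ, ← Nat.div_div_eq_div_mul, ← hii, Nat.div_div_eq_div_mul, ← pow_succ, hq]
  have hqj : j / M ^ (b + 1) = q := hji.trans hq
  have hu' : i' / M ^ c = u := hii.symm.trans hu
  rw [hu, hv] at hsep
  obtain ⟨u1, u2⟩ := h31_dv hM1 hu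
  obtain ⟨u1', u2'⟩ := h31_dv hM1 hu'
  obtain ⟨v1, v2⟩ := h31_dv hM1 hv
  obtain ⟨q1, q2⟩ := h31_dv hM1 hq
  obtain ⟨q1', q2'⟩ := h31_dv hM1 hq'
  obtain ⟨q1j, q2j⟩ := h31_dv hM1 hqj
  set m : ℝ := (M : ℝ) with hm
  have hm0 : 0 < m := by linarith
  obtain ⟨d, hd⟩ : ∃ d, d = 2 * π / (8 * m ^ (s + 1)) := ⟨_, rfl⟩
  have hd0 : 0 < d := by rw [hd]; positivity
  have hω : 2 * π / (8 * m ^ (s + 1 + b)) = d / m ^ b := by
    rw [hd, pow_add m (s + 1) b]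
    field_simp
  have hmb : 1 ≤ m ^ b := one_le_pow₀ hm1
  have hdm : m * d ≤ 1 := by
    have h1 : m * d = 2 * π / (8 * m ^ s) := by
      rw [hd, pow_succ]
      field_simp
    rw [h1, div_le_one (by positivity)]
    have h2 : 1 ≤ m ^ s := one_le_pow₀ hm1
    have h3 := pi_lt_d2
    nlinarith
  have hdb : d / m ^ b ≤ d := div_le_self hd0.le hmb
  have hd1 : d ≤ m * d := by nlinarith
  -- division by the next power
  have hdiv : ∀ (a : ℝ) (e : ℕ), a / m ^ e = a / m ^ (e + 1) * m := by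
    intro a e
    rw [pow_succ]
    field_simp
  have w1 : q * m ≤ i / m ^ c := by rw [hdiv]; exact mul_le_mul_of_nonneg_right q1 hm0.le
  have w2 : ((i : ℝ) + 1) / m ^ c ≤ (q + 1) * m := by
    rw [hdiv]; exact mul_le_mul_of_nonneg_right q2 hm0.le
  have w1' : q * m ≤ i' / m ^ c := by rw [hdiv]; exact mul_le_mul_of_nonneg_right q1' hm0.le
  have w2' : ((i' : ℝ) + 1) / m ^ c ≤ (q + 1) * m := by
    rw [hdiv]; exact mul_le_mul_of_nonneg_right q2' hm0.le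
  have w1j : q * m ≤ j / m ^ b := by rw [hdiv]; exact mul_le_mul_of_nonneg_right q1j hm0.le
  have w2j : ((j : ℝ) + 1) / m ^ b ≤ (q + 1) * m := by
    rw [hdiv]; exact mul_le_mul_of_nonneg_right q2j hm0.le
  -- the angles
  obtain ⟨f1, f2⟩ := h31_fl hm0 (hxk0 x) hxi
  obtain ⟨f1', f2'⟩ := h31_fl hm0 (hxk0 x') hxi'
  rw [← hd] at f1 f2 f1' f2'
  obtain ⟨t, ht⟩ : ∃ t, t = (j : ℝ) / m ^ b * d := ⟨_, rfl⟩
  have hjt : ((j : ℝ) + 1) / m ^ b * d = t + d / m ^ b := by rw [ht]; field_simp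
  set θ : ℝ := 2 * π * xk x with hθ
  set θ' : ℝ := 2 * π * xk x' with hθ'
  have ht1 : q * m * d ≤ t := by rw [ht]; exact mul_le_mul_of_nonneg_right w1j hd0.le
  have ht2 : t ≤ (q + 1) * m * d := by
    have : t + d / m ^ b ≤ (q + 1) * m * d := by
      rw [← hjt]; exact mul_le_mul_of_nonneg_right w2j hd0.le
    have h2 : 0 < d / m ^ b := by positivity
    linarith
  have hθ1 : q * m * d ≤ θ := (mul_le_mul_of_nonneg_right w1 hd0.le).trans f1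
  have hθ2 : θ ≤ (q + 1) * m * d := f2.le.trans (mul_le_mul_of_nonneg_right w2 hd0.le)
  have hθ1' : q * m * d ≤ θ' := (mul_le_mul_of_nonneg_right w1' hd0.le).trans f1'
  have hθ2' : θ' ≤ (q + 1) * m * d := f2'.le.trans (mul_le_mul_of_nonneg_right w2' hd0.le)
  have hqq : (q + 1) * m * d = q * m * d + m * d := by ring
  have hab : |θ - t| ≤ m * d := by rw [abs_le]; constructor <;> linarith
  have hab' : |θ' - t| ≤ m * d := by rw [abs_le]; constructor <;> linarith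
  have hv1 : v * d ≤ t := by rw [ht]; exact mul_le_mul_of_nonneg_right v1 hd0.le
  have hv2 : t + d / m ^ b ≤ (v + 1) * d := by
    rw [← hjt]; exact mul_le_mul_of_nonneg_right v2 hd0.le
  have hdbp : 0 < d / m ^ b := by positivity
  have hu1 : u * d ≤ θ := (mul_le_mul_of_nonneg_right u1 hd0.le).trans f1
  have hu2 : θ ≤ (u + 1) * d := f2.le.trans (mul_le_mul_of_nonneg_right u2 hd0.le)
  have hu1' : u * d ≤ θ' := (mul_le_mul_of_nonneg_right u1' hd0.le).trans f1'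
  have hu2' : θ' ≤ (u + 1) * d := f2'.le.trans (mul_le_mul_of_nonneg_right u2' hd0.le)
  -- the two angles are separated
  have hmc : 0 < m ^ c := pow_pos hm0 c
  have hgap : d / m ^ c ≤ |θ - θ'| := by
    have key : ∀ {a a' : ℕ} {φ φ' : ℝ}, a + 2 ≤ a' → φ < ((a : ℝ) + 1) / m ^ c * d →
        (a' : ℝ) / m ^ c * d ≤ φ' → d / m ^ c ≤ φ' - φ := by
      intro a a' φ φ' h1 h2 h3
      have h4 : (a : ℝ) + 2 ≤ a' := by exact_mod_cast h1
      have h5 : ((a : ℝ) + 2) / m ^ c * d ≤ a' / m ^ c * d := by gcongr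
      have h6 : ((a : ℝ) + 2) / m ^ c * d = ((a : ℝ) + 1) / m ^ c * d + d / m ^ c := by
        field_simp
        ring
      linarith
    rcases hs with h1 | h1
    · have := key h1 f2 f1'
      rw [abs_sub_comm]
      exact this.trans (le_abs_self _)
    · have := key h1 f2' f1
      exact this.trans (le_abs_self _)
  -- increments of `qf`
  have hQ : c₁ / 2 * d * |θ - θ'| ≤ |qf γ t θ - qf γ t θ'| := by
    rcases hsep with h1 | h1
    · -- left side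
      have h2 : (u : ℝ) + 2 ≤ v := by exact_mod_cast h1
      have h3 : ((u : ℝ) + 2) * d ≤ v * d := mul_le_mul_of_nonneg_right h2 hd0.le
      have h4 : θ ≤ t - d := by linarith
      have h4' : θ' ≤ t - d := by linarith
      rcases le_total θ θ' with h5 | h5
      · have h6 := qf_decr hA hc₁ hd0.le h4' h5 (by linarith [(abs_le.1 hab).1])
        rw [abs_of_nonpos (by linarith : θ - θ' ≤ 0), neg_sub]
        exact h6.trans (le_abs_self _)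
      · have h6 := qf_decr hA hc₁ hd0.le h4 h5 (by linarith [(abs_le.1 hab').1])
        rw [abs_of_nonneg (by linarith : 0 ≤ θ - θ'), abs_sub_comm]
        exact h6.trans (le_abs_self _)
    · -- right side
      have h2 : (v : ℝ) + 2 ≤ u := by exact_mod_cast h1
      have h3 : ((v : ℝ) + 2) * d ≤ u * d := mul_le_mul_of_nonneg_right h2 hd0.le
      have h4 : t + d ≤ θ := by linarith
      have h4' : t + d ≤ θ' := by linarith
      rcases le_total θ θ' with h5 | h5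
      · have h6 := qf_incr hA hc₁ hd0.le h4 h5 (by linarith [(abs_le.1 hab').2])
        rw [abs_of_nonpos (by linarith : θ - θ' ≤ 0), neg_sub, abs_sub_comm]
        exact h6.trans (le_abs_self _)
      · have h6 := qf_incr hA hc₁ hd0.le h4' h5 (by linarith [(abs_le.1 hab).2])
        rw [abs_of_nonneg (by linarith : 0 ≤ θ - θ')]
        exact h6.trans (le_abs_self _)
  have hQ2 : c₁ / 2 * d * (d / m ^ c) ≤ |qf γ t θ - qf γ t θ'| :=
    (mul_le_mul_of_nonneg_left hgap (by positivity)).trans hQ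
  obtain ⟨b1, b2⟩ := qf_bounds hA hc₁ (t := t) (θ := θ') (hab'.trans hdm)
  have b3 : qf γ t θ' ≤ c₂ * (m * d) ^ 2 / 2 := by
    refine b2.trans ?_
    have h1 : (θ' - t) ^ 2 ≤ (m * d) ^ 2 := sq_le_sq' (by linarith [(abs_le.1 hab').1])
      (by linarith [(abs_le.1 hab').2])
    have h2 := mul_le_mul_of_nonneg_left h1 hc₂.le
    linarith
  -- the points `y`
  set K : ℝ := 2 ^ n with hK
  have hK0 : 0 < K := by positivity
  have hyb : ∀ y ∈ ({y₁, y₂, y₃, y₄} : Set (ℤ × ℤ)), 0 ≤ nk y * qf γ t (2 * π * xk y) ∧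
      nk y * qf γ t (2 * π * xk y) ≤ K * c₂ * (d / m ^ b) ^ 2 := by
    intro y hyy
    obtain ⟨h1, h2⟩ := hy y hyy
    obtain ⟨g1, g2⟩ := h31_fl hm0 (hxk0 y) h2
    rw [← hd, ← ht] at g1
    rw [← hd, hjt] at g2
    have h3 : |2 * π * xk y - t| ≤ d / m ^ b := by rw [abs_le]; constructor <;> linarith
    obtain ⟨p1, p2⟩ := qf_bounds hA hc₁ (t := t) (θ := 2 * π * xk y)
      (h3.trans (hdb.trans (hd1.trans hdm)))
    refine ⟨mul_nonneg (hnk0 y) p1, ?_⟩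
    have h4 : (2 * π * xk y - t) ^ 2 ≤ (d / m ^ b) ^ 2 :=
      sq_le_sq' (by linarith [(abs_le.1 h3).1]) (by linarith [(abs_le.1 h3).2])
    have h5 : qf γ t (2 * π * xk y) ≤ c₂ * (d / m ^ b) ^ 2 / 2 := by
      have := mul_le_mul_of_nonneg_left h4 hc₂.le
      linarith
    calc nk y * qf γ t (2 * π * xk y) ≤ 2 ^ (n + 1) * (c₂ * (d / m ^ b) ^ 2 / 2) :=
          mul_le_mul h1 h5 p1 (by positivity)
      _ = K * c₂ * (d / m ^ b) ^ 2 := by rw [hK, pow_succ]; ring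
  obtain ⟨y11, y12⟩ := hyb y₁ (by simp)
  obtain ⟨y21, y22⟩ := hyb y₂ (by simp)
  obtain ⟨y31, y32⟩ := hyb y₃ (by simp)
  obtain ⟨y41, y42⟩ := hyb y₄ (by simp)
  -- the linear forms cancel
  have hs1 : (x.1 : ℝ) - x'.1 + y₁.1 + y₂.1 - y₃.1 - y₄.1 = 0 := by
    have := congrArg Prod.fst hsum
    simp only [Prod.fst_sub, Prod.fst_add, Prod.fst_zero] at this
    exact_mod_cast this
  have hs2 : (x.2 : ℝ) - x'.2 + y₁.2 + y₂.2 - y₃.2 - y₄.2 = 0 := by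
    have := congrArg Prod.snd hsum
    simp only [Prod.snd_sub, Prod.snd_add, Prod.snd_zero] at this
    exact_mod_cast this
  rw [Fk_eq hA.per x t, Fk_eq hA.per x' t, Fk_eq hA.per y₁ t, Fk_eq hA.per y₂ t, Fk_eq hA.per y₃ t,
    Fk_eq hA.per y₄ t, ← hθ, ← hθ']
  set P1 := γ t * cos t - deriv γ t * sin t
  set P2 := γ t * sin t + deriv γ t * cos t
  have hlin : (x.1 : ℝ) * P1 + x.2 * P2 + nk x * qf γ t θ - (x'.1 * P1 + x'.2 * P2 + nk x' * qf γ t θ') +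
      (y₁.1 * P1 + y₁.2 * P2 + nk y₁ * qf γ t (2 * π * xk y₁)) +
      (y₂.1 * P1 + y₂.2 * P2 + nk y₂ * qf γ t (2 * π * xk y₂)) -
      (y₃.1 * P1 + y₃.2 * P2 + nk y₃ * qf γ t (2 * π * xk y₃)) -
      (y₄.1 * P1 + y₄.2 * P2 + nk y₄ * qf γ t (2 * π * xk y₄)) =
      (nk x * qf γ t θ - nk x' * qf γ t θ') + (nk y₁ * qf γ t (2 * π * xk y₁) +
        nk y₂ * qf γ t (2 * π * xk y₂) - nk y₃ * qf γ t (2 * π * xk y₃) -
        nk y₄ * qf γ t (2 * π * xk y₄)) := by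
    linear_combination P1 * hs1 + P2 * hs2
  rw [hlin]
  set D := nk x * qf γ t θ - nk x' * qf γ t θ' with hD
  set E := nk y₁ * qf γ t (2 * π * xk y₁) + nk y₂ * qf γ t (2 * π * xk y₂) -
    nk y₃ * qf γ t (2 * π * xk y₃) - nk y₄ * qf γ t (2 * π * xk y₄) with hE
  obtain ⟨w, hw⟩ : ∃ w, w = K * c₂ * (d / m ^ b) ^ 2 := ⟨_, rfl⟩
  rw [← hw] at y12 y22 y32 y42
  have hEb : |E| ≤ 2 * w := by rw [abs_le]; constructor <;> linarith
  have hXw : 1 / X ≤ w := by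
    rw [hω] at hKX
    have h1 : 1 / X = K * (1 / (K * X)) := by field_simp
    rw [h1, hw, mul_assoc]
    exact mul_le_mul_of_nonneg_left hKX hK0.le
  -- lower bound for `D`
  have hD1 : K * (c₁ / 2 * d * (d / m ^ c)) - η * K * (c₂ * (m * d) ^ 2 / 2) ≤ |D| := by
    have h1 : D = nk x * (qf γ t θ - qf γ t θ') + (nk x - nk x') * qf γ t θ' := by rw [hD]; ring
    have h2 : |nk x * (qf γ t θ - qf γ t θ')| - |(nk x - nk x') * qf γ t θ'| ≤ |D| := by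
      rw [h1]
      have := abs_sub_abs_le_abs_sub (nk x * (qf γ t θ - qf γ t θ')) (-((nk x - nk x') * qf γ t θ'))
      rw [abs_neg, sub_neg_eq_add] at this
      exact this
    rw [abs_mul, abs_mul, abs_of_nonneg (hnk0 x), abs_of_nonneg b1] at h2
    have h3 : K * (c₁ / 2 * d * (d / m ^ c)) ≤ nk x * |qf γ t θ - qf γ t θ'| :=
      mul_le_mul hx hQ2 (by positivity) (hnk0 x)
    have h4 : |nk x - nk x'| * qf γ t θ' ≤ η * K * (c₂ * (m * d) ^ 2 / 2) :=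
      mul_le_mul hslab b3 b1 ((abs_nonneg _).trans hslab)
    linarith
  have hη2 : η * K * (c₂ * (m * d) ^ 2 / 2) ≤ w / 2 := by
    have h1 : (1 / m) ^ (2 * (b + 1)) * m ^ 2 = 1 / (m ^ b) ^ 2 := by
      rw [show 2 * (b + 1) = 2 * b + 2 by ring, pow_add, one_div, inv_pow, inv_pow, ← pow_mul,
        mul_comm b 2]
      field_simp
    have h2 : η * m ^ 2 ≤ 1 / (m ^ b) ^ 2 := by
      rw [← h1]
      exact mul_le_mul_of_nonneg_right hη (by positivity)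
    have h3 : η * K * (c₂ * (m * d) ^ 2 / 2) = (η * m ^ 2) * (K * c₂ * d ^ 2 / 2) := by ring
    have h4 : w / 2 = (1 / (m ^ b) ^ 2) * (K * c₂ * d ^ 2 / 2) := by rw [hw, div_pow]; ring
    rw [h3, h4]
    exact mul_le_mul_of_nonneg_right h2 (by positivity)
  have hmain : 4 * w ≤ K * (c₁ / 2 * d * (d / m ^ c)) := by
    have h1 : m ^ (c + 1) ≤ (m ^ b) ^ 2 := by
      rw [← pow_mul, mul_comm b 2]
      exact pow_le_pow_right₀ hm1 hcb
    have h2 : m / (m ^ b) ^ 2 ≤ 1 / m ^ c := by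
      rw [div_le_div_iff₀ (by positivity) hmc, one_mul, mul_comm, ← pow_succ]
      exact h1
    have h3 : 4 * w = (4 * c₂) * (K * d ^ 2 / (m ^ b) ^ 2) := by rw [hw, div_pow]; ring
    have h4 : K * (c₁ / 2 * d * (d / m ^ c)) = (1 / m ^ c) * (K * d ^ 2 * (c₁ / 2)) := by ring
    rw [h3, h4]
    calc (4 * c₂) * (K * d ^ 2 / (m ^ b) ^ 2) ≤ (c₁ / 2 * m) * (K * d ^ 2 / (m ^ b) ^ 2) := by
          refine mul_le_mul_of_nonneg_right ?_ (by positivity)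
          linarith
      _ = m / (m ^ b) ^ 2 * (K * d ^ 2 * (c₁ / 2)) := by ring
      _ ≤ (1 / m ^ c) * (K * d ^ 2 * (c₁ / 2)) := mul_le_mul_of_nonneg_right h2 (by positivity)
  have hw0 : 0 ≤ w := y11.trans y12
  have hfin : |D| - |E| ≤ |D + E| := by
    have := abs_sub_abs_le_abs_sub D (-E)
    rw [abs_neg, sub_neg_eq_add] at this
    exact this
  linarith

end Pool.Agent.Helper22.AC
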