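import Pool.Agent.Helper22.AC.B1

/-!
# AC-B4: vanishing of the sixfold integrals

PROOF of `cs_cont`, `cs_norm_le`: finite sums of continuous functions of norm `≤ ‖a k‖`.
`char_int`: for `k ∈ ℤ²` and `ξ : ℝ`: `∫ ee (-(k.1 c.1 + k.2 c.2 + R ξ)) d(mu v) = (∫_{[0,1]²} ee(-(k·c)) dc) (∫ v(R) ee(-(ξ R)) dR)`
(`integral_prod_mul`; `volume.restrict (Icc 0 1 ×ˢ Icc 0 1)` is the product of the two restrictions, `Measure.prod_restrict`); the first factor is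
zero if `k ≠ 0` (an integral of `ee (-(m x))` over `[0,1]` is zero for an integer `m ≠ 0`: `integral_exp_mul_complex` or the derivative
`ee_hasDerivAt`), the second is zero if `1/X ≤ |ξ|` (`IsWt.four`; `withDensity`: `integral_withDensity_eq_integral_toReal_smul`).
`orth_int`: expand the product `cs B₁ · conj (cs B₂) · cs J · cs J · conj (cs J) · conj (cs J)` (`‖z‖⁴ = z z conj z conj z`) into a finite sum of
constants times such characters with `k = x - x' + y₁ + y₂ - y₃ - y₄`, `ξ = Fk x - Fk x' + Fk y₁ + Fk y₂ - Fk y₃ - Fk y₄`; every integral is zero by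
`hne`. (Exchange of integral and finite sums: `integral_finset_sum`, all terms are bounded continuous and `mu v` is finite, `mu_prob`.)
-/

open MeasureTheory Real Set Filter Topology

set_option autoImplicit false

namespace Pool.Agent.Helper22.AC

open Pool.Agent.Helper22.AE

theorem cs_cont (B : Finset (ℤ × ℤ)) (a : ℤ × ℤ → ℂ) (γ : ℝ → ℝ) : Continuous (cs B a γ) := by
  unfold cs
  refine continuous_finsetSum _ fun k _ => continuous_const.mul (ee_cont.comp ?_)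
  fun_prop

theorem cs_norm_le (B : Finset (ℤ × ℤ)) {a : ℤ × ℤ → ℂ} (ha : ∀ k, ‖a k‖ ≤ 1) (γ : ℝ → ℝ) (q : (ℝ × ℝ) × ℝ) :
    ‖cs B a γ q‖ ≤ B.card := by
  unfold cs
  refine (norm_sum_le _ _).trans ?_
  have h : ∀ k ∈ B, ‖a k * ee (-((k.1 : ℝ) * q.1.1 + (k.2 : ℝ) * q.1.2 + q.2 * Fk γ k))‖ ≤ 1 := by
    intro k _
    rw [norm_mul, ee_norm, mul_one]
    exact ha k
  refine (Finset.sum_le_card_nsmul _ _ _ h).trans ?_
  rw [nsmul_eq_mul, mul_one]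

private theorem ee_int_h75 (m : ℤ) : ee (-(m : ℝ)) = 1 := by
  unfold ee
  have h : (((2 * π * (-(m : ℝ)) : ℝ) : ℂ) * Complex.I) = ((-m : ℤ) : ℂ) * (2 * π * Complex.I) := by
    push_cast
    ring
  rw [h]
  exact Complex.exp_int_mul_two_pi_mul_I _

private theorem int01_h75 (m : ℤ) (hm : m ≠ 0) :
    ∫ x in Icc (0 : ℝ) 1, ee (-((m : ℝ) * x)) = 0 := by
  rw [integral_Icc_eq_integral_Ioc, ← intervalIntegral.integral_of_le zero_le_one]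
  have hm' : (2 * π * Complex.I * (-(m : ℂ))) ≠ 0 := by
    have h1 : (m : ℂ) ≠ 0 := by exact_mod_cast hm
    exact mul_ne_zero Complex.two_pi_I_ne_zero (neg_ne_zero.2 h1)
  have hd : ∀ x ∈ uIcc (0 : ℝ) 1, HasDerivAt
      (fun x : ℝ => ee (-((m : ℝ) * x)) / (2 * π * Complex.I * (-(m : ℂ)))) (ee (-((m : ℝ) * x))) x := by
    intro x _
    have h1 : HasDerivAt (fun x : ℝ => -((m : ℝ) * x)) (-(m : ℝ)) x := by
      have h0 := ((hasDerivAt_id x).const_mul (m : ℝ)).neg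
      rw [mul_one] at h0
      exact h0
    have h2 := (HasDerivAt.scomp x (ee_hasDerivAt (-((m : ℝ) * x))) h1).div_const
      (2 * π * Complex.I * (-(m : ℂ)))
    refine h2.congr_deriv ?_
    rw [Complex.real_smul]
    push_cast
    rw [div_eq_iff hm']
    ring
  rw [intervalIntegral.integral_eq_sub_of_hasDerivAt hd]
  · simp only [mul_one, mul_zero, neg_zero, ee_zero]
    rw [ee_int_h75, sub_self]
  · apply Continuous.intervalIntegrable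
    exact ee_cont.comp (by fun_prop)

theorem char_int {X : ℝ} {v : ℝ → ℝ} (hv : IsWt X v) (k : ℤ × ℤ) (ξ : ℝ) (h : k ≠ 0 ∨ 1 / X ≤ |ξ|) :
    ∫ q, ee (-((k.1 : ℝ) * q.1.1 + (k.2 : ℝ) * q.1.2 + q.2 * ξ)) ∂(mu v) = 0 := by
  have e1 : (fun q : (ℝ × ℝ) × ℝ => ee (-((k.1 : ℝ) * q.1.1 + (k.2 : ℝ) * q.1.2 + q.2 * ξ))) =
      fun q => (fun c : ℝ × ℝ => ee (-((k.1 : ℝ) * c.1)) * ee (-((k.2 : ℝ) * c.2))) q.1 *
        (fun R : ℝ => ee (-(ξ * R))) q.2 := by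
    funext q
    change _ = ee (-((k.1 : ℝ) * q.1.1)) * ee (-((k.2 : ℝ) * q.1.2)) * ee (-(ξ * q.2))
    rw [← ee_add, ← ee_add]
    congr 1
    ring
  unfold mu
  rw [e1, integral_prod_mul (fun c : ℝ × ℝ => ee (-((k.1 : ℝ) * c.1)) * ee (-((k.2 : ℝ) * c.2)))
    (fun R : ℝ => ee (-(ξ * R)))]
  rcases h with h | h
  · have h0 : ∫ c, (fun c : ℝ × ℝ => ee (-((k.1 : ℝ) * c.1)) * ee (-((k.2 : ℝ) * c.2))) c
        ∂(volume.restrict (Icc (0 : ℝ) 1 ×ˢ Icc (0 : ℝ) 1)) = 0 := by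
      rw [Measure.volume_eq_prod, ← Measure.prod_restrict,
        integral_prod_mul (fun x : ℝ => ee (-((k.1 : ℝ) * x))) (fun x : ℝ => ee (-((k.2 : ℝ) * x)))]
      by_cases h1 : k.1 = 0
      · have h2 : k.2 ≠ 0 := fun h2 => h (Prod.ext h1 h2)
        rw [int01_h75 k.2 h2, mul_zero]
      · rw [int01_h75 k.1 h1, zero_mul]
    rw [h0, zero_mul]
  · have h0 : ∫ R, (fun R : ℝ => ee (-(ξ * R))) R
        ∂(volume.withDensity fun R => ENNReal.ofReal (v R)) = 0 := by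
      rw [integral_withDensity_eq_integral_toReal_smul
        (hv.cont.measurable.ennreal_ofReal) (Filter.Eventually.of_forall fun _ => ENNReal.ofReal_lt_top)]
      rw [← hv.four ξ h]
      congr 1
      funext R
      rw [ENNReal.toReal_ofReal (hv.nonneg R), Complex.real_smul]
    rw [h0, mul_zero]

/-- the character -/
private noncomputable def Eh75 (k : ℤ × ℤ) (ξ : ℝ) (q : (ℝ × ℝ) × ℝ) : ℂ :=
  ee (-((k.1 : ℝ) * q.1.1 + (k.2 : ℝ) * q.1.2 + q.2 * ξ))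

/-- bounded continuous -/
private def BCh75 (f : (ℝ × ℝ) × ℝ → ℂ) : Prop := Continuous f ∧ ∃ B : ℝ, ∀ q, ‖f q‖ ≤ B

private theorem BC_mul_h75 {f g : (ℝ × ℝ) × ℝ → ℂ} (hf : BCh75 f) (hg : BCh75 g) :
    BCh75 (fun q => f q * g q) := by
  obtain ⟨hf1, B, hB⟩ := hf
  obtain ⟨hg1, B', hB'⟩ := hg
  refine ⟨hf1.mul hg1, B * B', fun q => ?_⟩
  rw [norm_mul]
  exact mul_le_mul (hB q) (hB' q) (norm_nonneg _) ((norm_nonneg _).trans (hB q))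

private theorem BC_conj_h75 {f : (ℝ × ℝ) × ℝ → ℂ} (hf : BCh75 f) :
    BCh75 (fun q => (starRingEnd ℂ) (f q)) := by
  obtain ⟨hf1, B, hB⟩ := hf
  refine ⟨Complex.continuous_conj.comp hf1, B, fun q => ?_⟩
  rw [RCLike.norm_conj]
  exact hB q

private theorem BC_cs_h75 (B : Finset (ℤ × ℤ)) {a : ℤ × ℤ → ℂ} (ha : ∀ k, ‖a k‖ ≤ 1) (γ : ℝ → ℝ) :
    BCh75 (cs B a γ) := ⟨cs_cont B a γ, B.card, cs_norm_le B ha γ⟩

private theorem BC_E_h75 (k : ℤ × ℤ) (ξ : ℝ) : BCh75 (Eh75 k ξ) := by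
  refine ⟨ee_cont.comp (by fun_prop), 1, fun q => ?_⟩
  exact (ee_norm _).le

private theorem BC_int_h75 {X : ℝ} {v : ℝ → ℝ} (hv : IsWt X v) {f : (ℝ × ℝ) × ℝ → ℂ}
    (hf : BCh75 f) : Integrable f (mu v) := by
  have := mu_prob hv
  obtain ⟨hf1, B, hB⟩ := hf
  exact Integrable.of_bound hf1.aestronglyMeasurable B (Filter.Eventually.of_forall hB)

private theorem E_mul_h75 (k y : ℤ × ℤ) (ξ η : ℝ) (q : (ℝ × ℝ) × ℝ) :
    Eh75 k ξ q * Eh75 y η q = Eh75 (k + y) (ξ + η) q := by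
  unfold Eh75
  rw [← ee_add]
  congr 1
  rw [Prod.fst_add, Prod.snd_add]
  push_cast
  ring

private theorem E_conj_h75 (y : ℤ × ℤ) (η : ℝ) (q : (ℝ × ℝ) × ℝ) :
    (starRingEnd ℂ) (Eh75 y η q) = Eh75 (-y) (-η) q := by
  unfold Eh75
  rw [← ee_neg]
  congr 1
  rw [Prod.fst_neg, Prod.snd_neg]
  push_cast
  ring

private theorem step_h75 {X : ℝ} {v : ℝ → ℝ} (hv : IsWt X v) {G : (ℝ × ℝ) × ℝ → ℂ} (hG : BCh75 G)
    {C : ℤ × ℤ → ℝ → Prop} (hC : ∀ k ξ, C k ξ → ∫ q, Eh75 k ξ q * G q ∂(mu v) = 0)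
    (B : Finset (ℤ × ℤ)) (a : ℤ × ℤ → ℂ) (γ : ℝ → ℝ) (k : ℤ × ℤ) (ξ : ℝ)
    (h : ∀ y ∈ B, C (k + y) (ξ + Fk γ y)) :
    ∫ q, Eh75 k ξ q * (cs B a γ q * G q) ∂(mu v) = 0 := by
  have e1 : (fun q => Eh75 k ξ q * (cs B a γ q * G q)) =
      fun q => ∑ y ∈ B, a y * (Eh75 (k + y) (ξ + Fk γ y) q * G q) := by
    funext q
    have h1 : cs B a γ q = ∑ y ∈ B, a y * Eh75 y (Fk γ y) q := rfl
    rw [h1, Finset.sum_mul, Finset.mul_sum]
    refine Finset.sum_congr rfl fun y _ => ?_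
    rw [← E_mul_h75]
    ring
  rw [e1, integral_finset_sum]
  · refine Finset.sum_eq_zero fun y hy => ?_
    rw [integral_const_mul, hC _ _ (h y hy), mul_zero]
  · intro y _
    exact (BC_int_h75 hv (BC_mul_h75 (BC_E_h75 _ _) hG)).const_mul _

private theorem stepc_h75 {X : ℝ} {v : ℝ → ℝ} (hv : IsWt X v) {G : (ℝ × ℝ) × ℝ → ℂ} (hG : BCh75 G)
    {C : ℤ × ℤ → ℝ → Prop} (hC : ∀ k ξ, C k ξ → ∫ q, Eh75 k ξ q * G q ∂(mu v) = 0)
    (B : Finset (ℤ × ℤ)) (a : ℤ × ℤ → ℂ) (γ : ℝ → ℝ) (k : ℤ × ℤ) (ξ : ℝ)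
    (h : ∀ y ∈ B, C (k - y) (ξ - Fk γ y)) :
    ∫ q, Eh75 k ξ q * ((starRingEnd ℂ) (cs B a γ q) * G q) ∂(mu v) = 0 := by
  have e1 : (fun q => Eh75 k ξ q * ((starRingEnd ℂ) (cs B a γ q) * G q)) =
      fun q => ∑ y ∈ B, (starRingEnd ℂ) (a y) * (Eh75 (k - y) (ξ - Fk γ y) q * G q) := by
    funext q
    have h1 : cs B a γ q = ∑ y ∈ B, a y * Eh75 y (Fk γ y) q := rfl
    rw [h1, map_sum, Finset.sum_mul, Finset.mul_sum]
    refine Finset.sum_congr rfl fun y _ => ?_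
    rw [map_mul, E_conj_h75, sub_eq_add_neg, sub_eq_add_neg, ← E_mul_h75]
    ring
  rw [e1, integral_finset_sum]
  · refine Finset.sum_eq_zero fun y hy => ?_
    rw [integral_const_mul, hC _ _ (h y hy), mul_zero]
  · intro y _
    exact (BC_int_h75 hv (BC_mul_h75 (BC_E_h75 _ _) hG)).const_mul _

theorem orth_int {X : ℝ} {v : ℝ → ℝ} (hv : IsWt X v) {B₁ B₂ J : Finset (ℤ × ℤ)} {a : ℤ × ℤ → ℂ}
    (ha : ∀ k, ‖a k‖ ≤ 1) {γ : ℝ → ℝ}
    (hne : ∀ x ∈ B₁, ∀ x' ∈ B₂, ∀ y₁ ∈ J, ∀ y₂ ∈ J, ∀ y₃ ∈ J, ∀ y₄ ∈ J, x - x' + y₁ + y₂ - y₃ - y₄ = 0 →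
      1 / X ≤ |Fk γ x - Fk γ x' + Fk γ y₁ + Fk γ y₂ - Fk γ y₃ - Fk γ y₄|) :
    ∫ q, cs B₁ a γ q * (starRingEnd ℂ) (cs B₂ a γ q) * ((‖cs J a γ q‖ ^ 4 : ℝ) : ℂ) ∂(mu v) = 0 := by
  have hJ := BC_cs_h75 J ha γ
  have hJc := BC_conj_h75 hJ
  have hB2 := BC_conj_h75 (BC_cs_h75 B₂ ha γ)
  have b0 : BCh75 (fun _ => 1) := ⟨continuous_const, 1, fun q => by rw [norm_one]⟩
  have h0 : ∀ (k : ℤ × ℤ) (ξ : ℝ), (k ≠ 0 ∨ 1 / X ≤ |ξ|) →
      ∫ q, Eh75 k ξ q * (fun _ => (1 : ℂ)) q ∂(mu v) = 0 := by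
    intro k ξ h
    simp only [mul_one]
    exact char_int hv k ξ h
  have b1 := BC_mul_h75 hJc b0
  have h1 := stepc_h75 hv b0 (C := fun k ξ => k ≠ 0 ∨ 1 / X ≤ |ξ|) h0 J a γ
  have b2 := BC_mul_h75 hJc b1
  have h2 := stepc_h75 hv b1 h1 J a γ
  have b3 := BC_mul_h75 hJ b2
  have h3 := step_h75 hv b2 h2 J a γ
  have b4 := BC_mul_h75 hJ b3
  have h4 := step_h75 hv b3 h3 J a γ
  have b5 := BC_mul_h75 hB2 b4
  have h5 := stepc_h75 hv b4 h4 B₂ a γ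
  have h6 := step_h75 hv b5 h5 B₁ a γ 0 0
  rw [← h6]
  · congr 1
    funext q
    have hE : Eh75 0 0 q = 1 := by
      unfold Eh75
      simp [ee_zero]
    have hz : ((‖cs J a γ q‖ ^ 4 : ℝ) : ℂ) = cs J a γ q * (cs J a γ q *
        ((starRingEnd ℂ) (cs J a γ q) * (starRingEnd ℂ) (cs J a γ q))) := by
      have h7 : cs J a γ q * (starRingEnd ℂ) (cs J a γ q) = ((‖cs J a γ q‖ ^ 2 : ℝ) : ℂ) := by
        rw [Complex.mul_conj, Complex.normSq_eq_norm_sq]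
      have h8 : ((‖cs J a γ q‖ ^ 4 : ℝ) : ℂ) =
          ((‖cs J a γ q‖ ^ 2 : ℝ) : ℂ) * ((‖cs J a γ q‖ ^ 2 : ℝ) : ℂ) := by
        push_cast
        ring
      rw [h8, ← h7]
      ring
    rw [hE, hz]
    ring
  · intro x hx x' hx' y₁ hy₁ y₂ hy₂ y₃ hy₃ y₄ hy₄
    by_cases hk : x - x' + y₁ + y₂ - y₃ - y₄ = 0
    · right
      have h9 := hne x hx x' hx' y₁ hy₁ y₂ hy₂ y₃ hy₃ y₄ hy₄ hk
      rw [zero_add]
      exact h9
    · left
      rw [zero_add]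
      exact hk

end Pool.Agent.Helper22.AC
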