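import Pool.Agent.Helper22.AC.B3
import Pool.Agent.Helper22.AC.B4
import Pool.Agent.Helper22.AE.D4

/-!
# AC-B5: the sums over the arcs of a slab form a system

PROOF. `meas`: `cs_cont`. `bdd`: `cs_norm_le`. `add`: `cs_split`: the arc `(8 M^s, j)` is the disjoint union of the arcs `(8 M^(s+1), M j + r)`, `r < M`
(`⌊8M^s x⌋ = ⌊8M^(s+1) x⌋ / M`, see the proof of `multiscale` in AE.D4), and `M^(s+1) j₀ + (M j + r) = M (M^s j₀ + j) + r`.
`orth`: `a, b, c` as in `Sys` (`c + 1 ≤ 2b`, `a+1+b ≤ m`, `a+1+c ≤ m`). Apply `orth_int` with `B₁, B₂` the arcs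
`M^(a+1+c) j₀ + i`, `M^(a+1+c) j₀ + i'` of level `s₀+a+1+c` and `J` the arc `M^(a+1+b) j₀ + j` of level `s₀+a+1+b`; `hne` is `geo` with
`s = s₀ + a`: the index conditions are invariant under the shift by the base arc (`(M^(a+1+b) j₀ + j)/M^(b+1) = M^a j₀ + j/M^(b+1)`, and so on,
`Nat.add_mul_div_left`), `η ≤ M^(-2m) ≤ M^(-2(b+1))`, and `hKX` for `s₀ + a + 1 + b ≤ s₀ + m` follows from the one for `s₀ + m`. Members of `blk n`
satisfy `2^n ≤ nk < 2^(n+1)`.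
-/

open MeasureTheory Real Set Filter Topology

set_option autoImplicit false

namespace Pool.Agent.Helper22.AC

open Pool.Agent.Helper22.AE

theorem cs_split (B : Finset (ℤ × ℤ)) (a : ℤ × ℤ → ℂ) (γ : ℝ → ℝ) {M : ℕ} (hM : 1 ≤ M) (s j : ℕ) (q : (ℝ × ℝ) × ℝ) :
    cs (arcSet B (8 * M ^ s) j) a γ q = ∑ r ∈ Finset.range M, cs (arcSet B (8 * M ^ (s + 1)) (M * j + r)) a γ q := by
  have hNe : 8 * M ^ s * M = 8 * M ^ (s + 1) := by ring
  unfold cs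
  rw [d4_arc_split B _ hM (8 * M ^ s) j, hNe]

theorem cs_eight (B : Finset (ℤ × ℤ)) (a : ℤ × ℤ → ℂ) (γ : ℝ → ℝ) (q : (ℝ × ℝ) × ℝ) :
    cs B a γ q = ∑ j ∈ Finset.range 8, cs (arcSet B 8 j) a γ q := by
  classical
  have hmap : ∀ k ∈ B, ⌊((8 : ℕ) : ℝ) * xk k⌋₊ ∈ Finset.range 8 := by
    intro k _
    rw [Finset.mem_range, Nat.floor_lt (by have := d4_xk_nonneg k; positivity)]
    have := d4_xk_lt k
    push_cast
    linarith
  unfold cs
  rw [← Finset.sum_fiberwise_of_maps_to hmap]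
  rfl

private lemma shift_div (M l b j₀ j : ℕ) (hM : 1 ≤ M) :
    (M ^ (l + b) * j₀ + j) / M ^ b = M ^ l * j₀ + j / M ^ b := by
  have h : M ^ (l + b) * j₀ + j = M ^ b * (M ^ l * j₀) + j := by
    rw [pow_add]
    ring
  rw [h, Nat.mul_add_div (pow_pos hM b)]

private lemma sep_shift {x i j : ℕ} (h : sep i j) : sep (x + i) (x + j) := by
  unfold sep at *
  omega

theorem sys_cone {c₁ c₂ : ℝ} {γ : ℝ → ℝ} (hA : Adm c₁ c₂ γ) (hc₁ : 0 < c₁) {M : ℕ} (hM1 : 1 ≤ M)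
    (hM : 8 * c₂ / c₁ ≤ M) {n s₀ m j₀ : ℕ} {X η : ℝ} (hX : 0 < X) {v : ℝ → ℝ} (hv : IsWt X v) {a : ℤ × ℤ → ℂ}
    (ha : ∀ k, ‖a k‖ ≤ 1) {B : Finset (ℤ × ℤ)} (hB : B ⊆ blk n)
    (hslab : ∀ k ∈ B, ∀ k' ∈ B, |nk k - nk k'| ≤ η * 2 ^ n) (hη : η ≤ (1 / (M : ℝ)) ^ (2 * m))
    (hKX : 1 / (2 ^ n * X) ≤ c₂ * (2 * π / (8 * (M : ℝ) ^ (s₀ + m))) ^ 2) :
    Sys (mu v) M m (fun s j => cs (arcSet B (8 * M ^ (s₀ + s)) (M ^ s * j₀ + j)) a γ) := by
  have hMpos : (0 : ℝ) < M := by exact_mod_cast hM1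
  have hM1' : (1 : ℝ) ≤ M := by exact_mod_cast hM1
  have hc₂ : 0 ≤ c₂ := hc₁.le.trans ((hA.lo 0).trans (hA.hi 0))
  have hsub : ∀ N i, arcSet B N i ⊆ B := fun N i => Finset.filter_subset _ _
  have hblk : ∀ k ∈ B, (2 : ℝ) ^ n ≤ nk k ∧ nk k < 2 ^ (n + 1) := fun k hk =>
    (Finset.mem_filter.1 (hB hk)).2
  refine ⟨fun s j => (cs_cont _ a γ).measurable, fun s j => ⟨_, cs_norm_le _ ha γ⟩, ?_, ?_⟩
  · intro s _ j _ ω
    change cs (arcSet B (8 * M ^ (s₀ + s)) (M ^ s * j₀ + j)) a γ ω = ∑ r ∈ Finset.range M,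
      cs (arcSet B (8 * M ^ (s₀ + s + 1)) (M ^ (s + 1) * j₀ + (M * j + r))) a γ ω
    rw [cs_split B a γ hM1]
    refine Finset.sum_congr rfl fun r _ => ?_
    have e : M * (M ^ s * j₀ + j) + r = M ^ (s + 1) * j₀ + (M * j + r) := by
      rw [pow_succ]
      ring
    rw [e]
  · intro l b c hcb hlb hlc j hj i hi i' hi' hji hii hsep hs
    refine orth_int hv ha ?_
    intro x hx x' hx' y₁ hy₁ y₂ hy₂ y₃ hy₃ y₄ hy₄ hsum
    have hfl : ∀ (t N J : ℕ) (y : ℤ × ℤ), y ∈ arcSet B (8 * M ^ (s₀ + (l + 1 + t))) J →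
        ⌊(8 * (M : ℝ) ^ (s₀ + l + 1 + t)) * xk y⌋₊ = J := by
      intro t N J y hy
      have h1 := (Finset.mem_filter.1 hy).2
      have e1 : s₀ + (l + 1 + t) = s₀ + l + 1 + t := by ring
      rw [e1] at h1
      push_cast at h1
      exact h1
    have hyy : ∀ y ∈ ({y₁, y₂, y₃, y₄} : Set (ℤ × ℤ)),
        y ∈ arcSet B (8 * M ^ (s₀ + (l + 1 + b))) (M ^ (l + 1 + b) * j₀ + j) := by
      intro y hy
      simp only [Set.mem_insert_iff, Set.mem_singleton_iff] at hy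
      rcases hy with rfl | rfl | rfl | rfl
      · exact hy₁
      · exact hy₂
      · exact hy₃
      · exact hy₄
    refine geo hA hc₁ hM1 hM (s := s₀ + l) (b := b) (c := c) (n := n) (η := η)
      (j := M ^ (l + 1 + b) * j₀ + j) (i := M ^ (l + 1 + c) * j₀ + i)
      (i' := M ^ (l + 1 + c) * j₀ + i') hX hcb ?_ ?_ ?_ ?_ ?_ ?_ (hblk x (hsub _ _ hx)).1 ?_ ?_ ?_
      ?_ hsum
    · refine hη.trans (pow_le_pow_of_le_one (by positivity) ?_ (by omega))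
      rw [div_le_one hMpos]
      exact hM1'
    · refine hKX.trans (mul_le_mul_of_nonneg_left ?_ hc₂)
      have h1 : (M : ℝ) ^ (s₀ + l + 1 + b) ≤ (M : ℝ) ^ (s₀ + m) :=
        pow_le_pow_right₀ hM1' (by omega)
      have h2 : 2 * π / (8 * (M : ℝ) ^ (s₀ + m)) ≤ 2 * π / (8 * (M : ℝ) ^ (s₀ + l + 1 + b)) := by
        apply div_le_div_of_nonneg_left (by positivity) (by positivity)
        linarith
      exact pow_le_pow_left₀ (by positivity) h2 2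
    · have e1 := shift_div M l (b + 1) j₀ j hM1
      have e2 := shift_div M l (c + 1) j₀ i hM1
      have e3 : l + (b + 1) = l + 1 + b := by ring
      have e4 : l + (c + 1) = l + 1 + c := by ring
      rw [e3] at e1
      rw [e4] at e2
      rw [e1, e2, hji]
    · rw [shift_div M (l + 1) c j₀ i hM1, shift_div M (l + 1) c j₀ i' hM1, hii]
    · rw [shift_div M (l + 1) c j₀ i hM1, shift_div M (l + 1) b j₀ j hM1]
      exact sep_shift hsep
    · exact sep_shift hs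
    · exact hslab x (hsub _ _ hx) x' (hsub _ _ hx')
    · exact hfl c 0 _ x hx
    · exact hfl c 0 _ x' hx'
    · intro y hy
      have h1 := hyy y hy
      exact ⟨(hblk y (hsub _ _ h1)).2.le, hfl b 0 _ y h1⟩

end Pool.Agent.Helper22.AC
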