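import Pool.Agent.Helper22.AC.A7
import Pool.Agent.Helper22.AC.B5
import Pool.Agent.Helper22.AC.A0

/-!
# AC-B6: decoupling for a slab through `N₁` blocks of `m` levels

PROOF. `M0` from `decoupling hε`, `M = max M0 (max 2 ⌈8 c₂/c₁⌉₊)`, `C` from `decoupling`. Induction on `N₁` (for all `j < 8`; more generally prove
for `i ≤ N₁`: `n6 (arc (0, j)) ≤ (C M^(ε m))^i ∑_{r < M^(i m)} n6 (arc (i m, M^(i m) j + r))`). Step: for each arc `j₀` of level `s₀ = i m` apply
`decoupling` to the system of `sys_cone` (finite measure: `mu_prob`), whose hypothesis at level `s₀ + m ≤ N₁ m` follows from the one at `N₁ m`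
(`M ≥ 1`, `c₂ ≥ c₁ > 0` is `Adm`; the right side of `hKX` decreases with the level): `n6 (arc (s₀, j₀)) ≤ C M^(ε m) ∑_{r<M^m} n6 (arc (s₀+m, M^m j₀ + r))`
(`g 0 0` is the arc `(8 M^(s₀ + 0), M^0 j₀ + 0)`). Regroup the double sum with `sum_range_mul'` (A0).
-/

open MeasureTheory Real Set Filter Topology

set_option autoImplicit false

namespace Pool.Agent.Helper22.AC

open Pool.Agent.Helper22.AE

theorem slab_dec {c₁ c₂ ε : ℝ} (hc₁ : 0 < c₁) (hε : 0 < ε) : ∃ M : ℕ, 2 ≤ M ∧ ∃ C : ℝ, 1 ≤ C ∧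
    ∀ (n m N₁ : ℕ) (X η : ℝ) (v γ : ℝ → ℝ) (a : ℤ × ℤ → ℂ) (B : Finset (ℤ × ℤ)), 0 < X → IsWt X v → Adm c₁ c₂ γ →
      (∀ k, ‖a k‖ ≤ 1) → B ⊆ blk n → (∀ k ∈ B, ∀ k' ∈ B, |nk k - nk k'| ≤ η * 2 ^ n) →
      η ≤ (1 / (M : ℝ)) ^ (2 * m) → 1 / (2 ^ n * X) ≤ c₂ * (2 * π / (8 * (M : ℝ) ^ (N₁ * m))) ^ 2 →
      ∀ j < 8, n6 (mu v) (cs (arcSet B 8 j) a γ) ≤ C ^ N₁ * (M : ℝ) ^ (ε * ((N₁ * m : ℕ) : ℝ)) *
        ∑ r ∈ Finset.range (M ^ (N₁ * m)), n6 (mu v) (cs (arcSet B (8 * M ^ (N₁ * m)) (M ^ (N₁ * m) * j + r)) a γ) := by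
  obtain ⟨M0, hM0, hdec⟩ := decoupling hε
  set M : ℕ := max M0 (max 2 ⌈8 * c₂ / c₁⌉₊) with hMdef
  have hM2 : 2 ≤ M := le_trans (le_max_left _ _) (le_max_right _ _)
  have hMc : 8 * c₂ / c₁ ≤ (M : ℝ) := by
    refine (Nat.le_ceil _).trans ?_
    exact_mod_cast le_trans (le_max_right 2 ⌈8 * c₂ / c₁⌉₊) (le_max_right M0 _)
  obtain ⟨C, hC, hd⟩ := hdec M (le_max_left _ _)
  refine ⟨M, hM2, C, hC, ?_⟩
  intro n m N₁ X η v γ a B hX hv hA ha hB hslab hη hKX
  have hM1 : 1 ≤ M := by omega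
  have hMr : (1 : ℝ) ≤ M := by exact_mod_cast hM1
  have hMpos : (0 : ℝ) < M := by linarith
  have hc₂ : 0 ≤ c₂ := by
    have h1 := hA.lo 0
    have h2 := hA.hi 0
    linarith
  have hprob := mu_prob hv
  have key : ∀ i : ℕ, i ≤ N₁ → ∀ j < 8, n6 (mu v) (cs (arcSet B 8 j) a γ) ≤
      C ^ i * (M : ℝ) ^ (ε * ((i * m : ℕ) : ℝ)) *
        ∑ r ∈ Finset.range (M ^ (i * m)),
          n6 (mu v) (cs (arcSet B (8 * M ^ (i * m)) (M ^ (i * m) * j + r)) a γ) := by
    intro i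
    induction i with
    | zero =>
      intro _ j _
      simp
    | succ i ih =>
      intro hi j hj
      have h1 := ih (by omega) j hj
      refine h1.trans ?_
      have hlev : i * m + m ≤ N₁ * m := by
        have h2 : (i + 1) * m ≤ N₁ * m := Nat.mul_le_mul_right m hi
        rwa [Nat.succ_mul] at h2
      have hKX' : 1 / (2 ^ n * X) ≤ c₂ * (2 * π / (8 * (M : ℝ) ^ (i * m + m))) ^ 2 := by
        refine hKX.trans ?_
        have h2 : (M : ℝ) ^ (i * m + m) ≤ (M : ℝ) ^ (N₁ * m) := pow_le_pow_right₀ hMr hlev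
        have h3 : (0 : ℝ) < (M : ℝ) ^ (i * m + m) := pow_pos hMpos _
        gcongr
      have hstep : ∀ r : ℕ, n6 (mu v) (cs (arcSet B (8 * M ^ (i * m)) (M ^ (i * m) * j + r)) a γ) ≤
          C * (M : ℝ) ^ (ε * (m : ℝ)) * ∑ r' ∈ Finset.range (M ^ m),
            n6 (mu v) (cs (arcSet B (8 * M ^ ((i + 1) * m))
              (M ^ m * (M ^ (i * m) * j + r) + r')) a γ) := by
        intro r
        have h2 := hd _ (mu v) m _ (sys_cone hA hc₁ hM1 hMc hX hv ha hB hslab hη hKX'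
          (j₀ := M ^ (i * m) * j + r))
        simp only [add_zero, pow_zero, one_mul] at h2
        rw [show (i + 1) * m = i * m + m from Nat.succ_mul i m]
        exact h2
      calc C ^ i * (M : ℝ) ^ (ε * ((i * m : ℕ) : ℝ)) * ∑ r ∈ Finset.range (M ^ (i * m)),
              n6 (mu v) (cs (arcSet B (8 * M ^ (i * m)) (M ^ (i * m) * j + r)) a γ)
          ≤ C ^ i * (M : ℝ) ^ (ε * ((i * m : ℕ) : ℝ)) * ∑ r ∈ Finset.range (M ^ (i * m)),
              (C * (M : ℝ) ^ (ε * (m : ℝ)) * ∑ r' ∈ Finset.range (M ^ m),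
                n6 (mu v) (cs (arcSet B (8 * M ^ ((i + 1) * m))
                  (M ^ m * (M ^ (i * m) * j + r) + r')) a γ)) := by
            apply mul_le_mul_of_nonneg_left (Finset.sum_le_sum fun r _ => hstep r)
            positivity
        _ = C ^ (i + 1) * (M : ℝ) ^ (ε * (((i + 1) * m : ℕ) : ℝ)) *
              ∑ r ∈ Finset.range (M ^ (i * m)), ∑ r' ∈ Finset.range (M ^ m),
                n6 (mu v) (cs (arcSet B (8 * M ^ ((i + 1) * m))
                  (M ^ m * (M ^ (i * m) * j + r) + r')) a γ) := by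
            rw [← Finset.mul_sum, pow_succ]
            have h3 : (M : ℝ) ^ (ε * (((i + 1) * m : ℕ) : ℝ)) =
                (M : ℝ) ^ (ε * ((i * m : ℕ) : ℝ)) * (M : ℝ) ^ (ε * (m : ℝ)) := by
              rw [← Real.rpow_add hMpos]
              congr 1
              push_cast
              ring
            rw [h3]
            ring
        _ = _ := by
            congr 1
            have h4 : M ^ ((i + 1) * m) = M ^ (i * m) * M ^ m := by
              rw [← pow_add, Nat.succ_mul]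
            rw [show Finset.range (M ^ ((i + 1) * m)) = Finset.range (M ^ (i * m) * M ^ m) by
              rw [h4], sum_range_mul']
            refine Finset.sum_congr rfl fun r _ => Finset.sum_congr rfl fun r' _ => ?_
            have h5 : M ^ m * (M ^ (i * m) * j + r) + r' =
                M ^ ((i + 1) * m) * j + (M ^ m * r + r') := by
              rw [h4]
              ring
            rw [h5]
  exact key N₁ le_rfl

end Pool.Agent.Helper22.AC
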