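import Pool.Agent.Helper22.AC.B4
import Pool.Agent.Helper22.AC.A1

/-!
# AC-C1: the trivial bound for one arc

PROOF. `‖cs‖^6 ≤ card^4 ‖cs‖²` (`cs_norm_le`), and `∫ ‖cs‖² d(mu v) = ∑_k ‖a k‖² ≤ card`: expand `‖cs‖² = cs conj cs`; the terms `k ≠ k'` vanish
(`char_int` with `k - k' ≠ 0`), the diagonal ones give `‖a k‖²` (`mu v` is a probability measure). So `∫ ‖cs‖^6 ≤ card^5`; take the power `1/3`.
-/

open MeasureTheory Real Set Filter Topology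

set_option autoImplicit false

namespace Pool.Agent.Helper22.AC

open Pool.Agent.Helper22.AE

private noncomputable def Ec1 (k : ℤ × ℤ) (ξ : ℝ) (q : (ℝ × ℝ) × ℝ) : ℂ :=
  ee (-((k.1 : ℝ) * q.1.1 + (k.2 : ℝ) * q.1.2 + q.2 * ξ))

private theorem Ec1_mul (k y : ℤ × ℤ) (ξ η : ℝ) (q : (ℝ × ℝ) × ℝ) :
    Ec1 k ξ q * (starRingEnd ℂ) (Ec1 y η q) = Ec1 (k - y) (ξ - η) q := by
  unfold Ec1
  rw [← ee_neg, ← ee_add]
  congr 1
  rw [Prod.fst_sub, Prod.snd_sub]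
  push_cast
  ring

private theorem Ec1_cont (k : ℤ × ℤ) (ξ : ℝ) : Continuous (Ec1 k ξ) := by
  unfold Ec1
  exact ee_cont.comp (by fun_prop)

private theorem l2_c1 {X : ℝ} {v : ℝ → ℝ} (hv : IsWt X v) (τ : Finset (ℤ × ℤ)) {a : ℤ × ℤ → ℂ}
    (ha : ∀ k, ‖a k‖ ≤ 1) (γ : ℝ → ℝ) : ∫ q, ‖cs τ a γ q‖ ^ 2 ∂(mu v) ≤ (τ.card : ℝ) := by
  have := mu_prob hv
  have hE : ∀ (c : ℂ) (k : ℤ × ℤ) (ξ : ℝ), Integrable (fun q => c * Ec1 k ξ q) (mu v) := by
    intro c k ξ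
    refine Integrable.of_bound (C := ‖c‖) (continuous_const.mul (Ec1_cont k ξ)).aestronglyMeasurable
      (Filter.Eventually.of_forall fun q => ?_)
    rw [norm_mul]
    unfold Ec1
    rw [ee_norm, mul_one]
  have e1 : ∀ q, (((‖cs τ a γ q‖ ^ 2 : ℝ)) : ℂ) =
      ∑ k ∈ τ, ∑ k' ∈ τ, (a k * (starRingEnd ℂ) (a k')) * Ec1 (k - k') (Fk γ k - Fk γ k') q := by
    intro q
    rw [← Complex.normSq_eq_norm_sq, ← Complex.mul_conj]
    have h1 : cs τ a γ q = ∑ k ∈ τ, a k * Ec1 k (Fk γ k) q := rfl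
    rw [h1, map_sum, Finset.sum_mul_sum]
    refine Finset.sum_congr rfl fun k _ => Finset.sum_congr rfl fun k' _ => ?_
    rw [map_mul, ← Ec1_mul]
    ring
  have e2 : ((∫ q, ‖cs τ a γ q‖ ^ 2 ∂(mu v) : ℝ) : ℂ) = ((∑ k ∈ τ, ‖a k‖ ^ 2 : ℝ) : ℂ) := by
    have e0 : ((∫ q, ‖cs τ a γ q‖ ^ 2 ∂(mu v) : ℝ) : ℂ) = ∫ q, ((‖cs τ a γ q‖ ^ 2 : ℝ) : ℂ) ∂(mu v) :=
      integral_complex_ofReal.symm
    have e3 : ∫ q, ((‖cs τ a γ q‖ ^ 2 : ℝ) : ℂ) ∂(mu v) = ∫ q, (∑ k ∈ τ, ∑ k' ∈ τ,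
        (a k * (starRingEnd ℂ) (a k')) * Ec1 (k - k') (Fk γ k - Fk γ k') q) ∂(mu v) :=
      integral_congr_ae (Filter.Eventually.of_forall fun q => e1 q)
    refine e0.trans (e3.trans ?_)
    rw [integral_finsetSum]
    · rw [Complex.ofReal_sum]
      refine Finset.sum_congr rfl fun k hk => ?_
      rw [integral_finsetSum]
      · rw [Finset.sum_eq_single_of_mem k hk]
        · rw [integral_const_mul]
          have h0 : (fun q => Ec1 (k - k) (Fk γ k - Fk γ k) q) = fun _ => (1 : ℂ) := by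
            funext q
            unfold Ec1
            simp [ee_zero]
          rw [h0]
          simp only [integral_const, probReal_univ, one_smul, mul_one]
          rw [Complex.mul_conj, Complex.normSq_eq_norm_sq]
        · intro k' _ hne
          rw [integral_const_mul]
          have h0 := char_int hv (k - k') (Fk γ k - Fk γ k') (Or.inl (sub_ne_zero.2 (Ne.symm hne)))
          have h1 : ∫ q, Ec1 (k - k') (Fk γ k - Fk γ k') q ∂(mu v) = 0 := h0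
          rw [h1, mul_zero]
      · intro k' _
        exact hE _ _ _
    · intro k _
      exact integrable_finsetSum _ fun k' _ => hE _ _ _
  have e4 : ∫ q, ‖cs τ a γ q‖ ^ 2 ∂(mu v) = ∑ k ∈ τ, ‖a k‖ ^ 2 := by exact_mod_cast e2
  rw [e4]
  refine (Finset.sum_le_card_nsmul _ _ 1 fun k _ => ?_).trans (by simp)
  exact pow_le_one₀ (norm_nonneg _) (ha k)

theorem n6_card {X : ℝ} {v : ℝ → ℝ} (hv : IsWt X v) (τ : Finset (ℤ × ℤ)) {a : ℤ × ℤ → ℂ} (ha : ∀ k, ‖a k‖ ≤ 1)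
    (γ : ℝ → ℝ) : n6 (mu v) (cs τ a γ) ≤ (τ.card : ℝ) ^ (5 / 3 : ℝ) := by
  have := mu_prob hv
  have h1 := l2_c1 hv τ ha γ
  have hint : Integrable (fun q => ‖cs τ a γ q‖ ^ 2) (mu v) := by
    refine Integrable.of_bound (C := (τ.card : ℝ) ^ 2)
      ((cs_cont τ a γ).norm.pow 2).aestronglyMeasurable (Filter.Eventually.of_forall fun q => ?_)
    rw [Real.norm_of_nonneg (by positivity)]
    exact pow_le_pow_left₀ (norm_nonneg _) (cs_norm_le τ ha γ q) 2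
  have h2 : ∫ q, ‖cs τ a γ q‖ ^ 6 ∂(mu v) ≤ (τ.card : ℝ) ^ 5 := by
    have h3 : ∫ q, ‖cs τ a γ q‖ ^ 6 ∂(mu v) ≤ ∫ q, (τ.card : ℝ) ^ 4 * ‖cs τ a γ q‖ ^ 2 ∂(mu v) := by
      refine integral_mono_of_nonneg (Filter.Eventually.of_forall fun q => by positivity)
        (hint.const_mul _) (Filter.Eventually.of_forall fun q => ?_)
      have h4 : ‖cs τ a γ q‖ ^ 6 = ‖cs τ a γ q‖ ^ 4 * ‖cs τ a γ q‖ ^ 2 := by ring
      change ‖cs τ a γ q‖ ^ 6 ≤ _
      rw [h4]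
      exact mul_le_mul_of_nonneg_right (pow_le_pow_left₀ (norm_nonneg _) (cs_norm_le τ ha γ q) 4)
        (by positivity)
    rw [integral_const_mul] at h3
    refine h3.trans ?_
    have h5 : (τ.card : ℝ) ^ 5 = (τ.card : ℝ) ^ 4 * τ.card := by ring
    rw [h5]
    exact mul_le_mul_of_nonneg_left h1 (by positivity)
  unfold n6
  have h6 := Real.rpow_le_rpow (integral_nonneg fun q => by positivity) h2 (by norm_num : (0 : ℝ) ≤ 1 / 3)
  refine h6.trans (le_of_eq ?_)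
  rw [← Real.rpow_natCast, ← Real.rpow_mul (by positivity)]
  norm_num

end Pool.Agent.Helper22.AC
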