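import Pool.Agent.Helper22.AC.Defs
import Pool.Agent.Helper22.AE.D3

/-!
# AC-C2: arcs and pairs of lattice points

PROOF. `c j = #(arcSet (blk n) N j)`. Hölder: `∑ c^(5/3) = ∑ c^(1/3) (c²)^(2/3) ≤ (∑ c)^(1/3) (∑ c²)^(2/3)` (`Real.inner_le_Lp_mul_Lq` with exponents
`3`, `3/2`), so the cube is `≤ (∑ c)(∑ c²)²`. `∑ c ≤ #blk n ≤ 25·4^n` (`blk_card`; the arcs are disjoint subsets). `∑ c²` is the number of pairs
`(k, k')` in a common arc (the disjoint union of the products `arc × arc`); for such a pair `|xk k - xk k'| < 1/N`, hence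
`|k.1 k'.2 - k.2 k'.1| = nk k nk k' |sin (2π(xk k' - xk k))| ≤ (2·2^n)² 2π/N` (as in `arc_card`, AE.D3, where exactly this is proved).
-/

open MeasureTheory Real Set Filter Topology

set_option autoImplicit false

namespace Pool.Agent.Helper22.AC

open Pool.Agent.Helper22.AE

open Classical in
/-- pairs of lattice points of the block with a small determinant -/
noncomputable def pairs (n : ℕ) (T : ℝ) : Finset ((ℤ × ℤ) × (ℤ × ℤ)) :=
  (blk n ×ˢ blk n).filter (fun p => |((p.1.1 : ℝ) * p.2.2 - (p.1.2 : ℝ) * p.2.1)| ≤ T)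

private lemma nk_zk_h75 (k : ℤ × ℤ) : (nk k : ℂ) * zk k = cz k := by
  unfold nk zk tk
  exact Complex.norm_mul_exp_arg_mul_I (cz k)

private lemma cross_h75 (k k' : ℤ × ℤ) :
    ((k.1 : ℝ) * k'.2 - k.2 * k'.1) = nk k * nk k' * sin (2 * π * (xk k' - xk k)) := by
  have h1 := nk_zk_h75 k
  have h2 := nk_zk_h75 k'
  rw [zk_xk] at h1 h2
  have e1 : (k.1 : ℝ) = nk k * cos (2 * π * xk k) := by
    have := congrArg Complex.re h1
    rw [Complex.re_ofReal_mul, Complex.exp_ofReal_mul_I_re] at this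
    simpa [cz] using this.symm
  have e2 : (k.2 : ℝ) = nk k * sin (2 * π * xk k) := by
    have := congrArg Complex.im h1
    rw [Complex.im_ofReal_mul, Complex.exp_ofReal_mul_I_im] at this
    simpa [cz] using this.symm
  have e3 : (k'.1 : ℝ) = nk k' * cos (2 * π * xk k') := by
    have := congrArg Complex.re h2
    rw [Complex.re_ofReal_mul, Complex.exp_ofReal_mul_I_re] at this
    simpa [cz] using this.symm
  have e4 : (k'.2 : ℝ) = nk k' * sin (2 * π * xk k') := by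
    have := congrArg Complex.im h2
    rw [Complex.im_ofReal_mul, Complex.exp_ofReal_mul_I_im] at this
    simpa [cz] using this.symm
  rw [e1, e2, e3, e4]
  have : 2 * π * (xk k' - xk k) = 2 * π * xk k' - 2 * π * xk k := by ring
  rw [this, sin_sub]
  ring

private lemma cross_le_h75 {n N j : ℕ} (hN : 8 ≤ N) {k k' : ℤ × ℤ} (hk : k ∈ arcSet (blk n) N j)
    (hk' : k' ∈ arcSet (blk n) N j) :
    |(k.1 : ℝ) * k'.2 - k.2 * k'.1| ≤ 4 * 4 ^ n * (2 * π / N) := by
  have hN0 : (0 : ℝ) < N := by exact_mod_cast (by omega : 0 < N)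
  unfold arcSet at hk hk'
  rw [Finset.mem_filter] at hk hk'
  unfold blk at hk hk'
  rw [Finset.mem_filter] at hk hk'
  obtain ⟨⟨-, -, h1⟩, h2⟩ := hk
  obtain ⟨⟨-, -, h1'⟩, h2'⟩ := hk'
  have hx0 : 0 ≤ xk k := Int.fract_nonneg _
  have hx0' : 0 ≤ xk k' := Int.fract_nonneg _
  have f1 := Nat.floor_le (mul_nonneg hN0.le hx0)
  have f2 := Nat.lt_floor_add_one ((N : ℝ) * xk k)
  have f1' := Nat.floor_le (mul_nonneg hN0.le hx0')
  have f2' := Nat.lt_floor_add_one ((N : ℝ) * xk k')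
  rw [h2] at f1 f2
  rw [h2'] at f1' f2'
  rw [cross_h75]
  have g1 : |xk k' - xk k| ≤ 1 / N := by
    rw [le_div_iff₀ hN0, ← abs_of_pos hN0, ← abs_mul, abs_le]
    constructor <;> nlinarith
  have g2 : |sin (2 * π * (xk k' - xk k))| ≤ 2 * π / N := by
    refine (abs_sin_le_abs).trans ?_
    rw [abs_mul, abs_of_pos Real.two_pi_pos]
    calc 2 * π * |xk k' - xk k| ≤ 2 * π * (1 / N) := by
          apply mul_le_mul_of_nonneg_left g1 Real.two_pi_pos.le
      _ = 2 * π / N := by ring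
  have n0 : 0 ≤ nk k := norm_nonneg _
  have n0' : 0 ≤ nk k' := norm_nonneg _
  rw [abs_mul, abs_of_nonneg (mul_nonneg n0 n0')]
  have h4 : nk k * nk k' ≤ 4 * 4 ^ n := by
    calc nk k * nk k' ≤ 2 ^ (n + 1) * 2 ^ (n + 1) := mul_le_mul h1.le h1'.le n0' (by positivity)
      _ = 4 * 4 ^ n := by
        rw [← mul_pow]
        norm_num
        ring
  exact mul_le_mul h4 g2 (abs_nonneg _) (by positivity)

theorem arcs_count (n : ℕ) {N : ℕ} (hN : 8 ≤ N) :
    (∑ j ∈ Finset.range N, ((arcSet (blk n) N j).card : ℝ) ^ (5 / 3 : ℝ)) ^ 3 ≤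
      25 * 4 ^ n * ((pairs n (4 * 4 ^ n * (2 * π / N))).card : ℝ) ^ 2 := by
  classical
  have hN0 : (0 : ℝ) < N := by exact_mod_cast (by omega : 0 < N)
  obtain ⟨c, hc⟩ : ∃ c : ℕ → ℝ, c = fun j => ((arcSet (blk n) N j).card : ℝ) := ⟨_, rfl⟩
  have hc0 : ∀ j, 0 ≤ c j := fun j => by rw [hc]; exact Nat.cast_nonneg _
  obtain ⟨fl, hfl⟩ : ∃ fl : ℤ × ℤ → ℕ, fl = fun k => ⌊(N : ℝ) * xk k⌋₊ := ⟨_, rfl⟩
  have hmaps : ∀ k, fl k ∈ Finset.range N := by
    intro k
    rw [Finset.mem_range, hfl]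
    have h1 : xk k < 1 := Int.fract_lt_one _
    have h2 : 0 ≤ xk k := Int.fract_nonneg _
    rw [Nat.floor_lt (mul_nonneg hN0.le h2)]
    nlinarith
  have hmem : ∀ k j, k ∈ arcSet (blk n) N j ↔ k ∈ blk n ∧ fl k = j := by
    intro k j
    unfold arcSet
    rw [Finset.mem_filter, hfl]
  have hsum1 : ∑ j ∈ Finset.range N, c j ≤ 25 * 4 ^ n := by
    refine le_trans (le_of_eq ?_) (blk_card n)
    rw [Finset.card_eq_sum_card_fiberwise (f := fl) (t := Finset.range N) (fun k _ => hmaps k)]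
    push_cast
    refine Finset.sum_congr rfl fun j _ => ?_
    have h5 : (blk n).filter (fun k => fl k = j) = arcSet (blk n) N j := by
      ext k
      rw [hmem, Finset.mem_filter]
    rw [h5, hc]
  have hsum2 : ∑ j ∈ Finset.range N, c j ^ 2 ≤ ((pairs n (4 * 4 ^ n * (2 * π / N))).card : ℝ) := by
    rw [Finset.card_eq_sum_card_fiberwise (f := fun p : (ℤ × ℤ) × (ℤ × ℤ) => fl p.1)
      (t := Finset.range N) (fun p _ => hmaps p.1)]
    push_cast
    refine Finset.sum_le_sum fun j _ => ?_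
    have h1 : (arcSet (blk n) N j) ×ˢ (arcSet (blk n) N j) ⊆
        (pairs n (4 * 4 ^ n * (2 * π / N))).filter (fun p => fl p.1 = j) := by
      intro p hp
      rw [Finset.mem_product] at hp
      rw [Finset.mem_filter]
      refine ⟨?_, ((hmem _ _).1 hp.1).2⟩
      unfold pairs
      rw [Finset.mem_filter, Finset.mem_product]
      exact ⟨⟨((hmem _ _).1 hp.1).1, ((hmem _ _).1 hp.2).1⟩, cross_le_h75 hN hp.1 hp.2⟩
    have h2 := Finset.card_le_card h1
    rw [Finset.card_product] at h2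
    have h3 : c j ^ 2 = (((arcSet (blk n) N j).card * (arcSet (blk n) N j).card : ℕ) : ℝ) := by
      rw [hc]
      push_cast
      ring
    rw [h3]
    exact_mod_cast h2
  have hpq : Real.HolderConjugate 3 (3 / 2) := by
    rw [Real.holderConjugate_iff]
    norm_num
  have hH := Real.inner_le_Lp_mul_Lq_of_nonneg (Finset.range N) (f := fun j => c j ^ (1 / 3 : ℝ))
    (g := fun j => c j ^ (4 / 3 : ℝ)) hpq (fun j _ => Real.rpow_nonneg (hc0 j) _)
    (fun j _ => Real.rpow_nonneg (hc0 j) _)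
  have e1 : ∀ j, c j ^ (1 / 3 : ℝ) * c j ^ (4 / 3 : ℝ) = c j ^ (5 / 3 : ℝ) := by
    intro j
    rw [← Real.rpow_add_of_nonneg (hc0 j) (by norm_num) (by norm_num)]
    norm_num
  have e2 : ∀ j, (c j ^ (1 / 3 : ℝ)) ^ (3 : ℝ) = c j := by
    intro j
    rw [← Real.rpow_mul (hc0 j)]
    norm_num
  have e3 : ∀ j, (c j ^ (4 / 3 : ℝ)) ^ (3 / 2 : ℝ) = c j ^ 2 := by
    intro j
    rw [← Real.rpow_mul (hc0 j)]
    norm_num
  simp only [e1, e2, e3] at hH
  have hA0 : 0 ≤ ∑ j ∈ Finset.range N, c j := Finset.sum_nonneg fun j _ => hc0 j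
  have hB0 : 0 ≤ ∑ j ∈ Finset.range N, c j ^ 2 := Finset.sum_nonneg fun j _ => sq_nonneg _
  have hS0 : 0 ≤ ∑ j ∈ Finset.range N, c j ^ (5 / 3 : ℝ) :=
    Finset.sum_nonneg fun j _ => Real.rpow_nonneg (hc0 j) _
  have hcube := pow_le_pow_left₀ hS0 hH 3
  have e4 : (((∑ j ∈ Finset.range N, c j) ^ (1 / (3 : ℝ))) *
      (∑ j ∈ Finset.range N, c j ^ 2) ^ (1 / (3 / 2 : ℝ))) ^ 3 =
      (∑ j ∈ Finset.range N, c j) * (∑ j ∈ Finset.range N, c j ^ 2) ^ 2 := by
    rw [mul_pow]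
    congr 1
    · rw [← Real.rpow_natCast, ← Real.rpow_mul hA0]
      norm_num
    · rw [← Real.rpow_natCast, ← Real.rpow_mul hB0]
      norm_num
  rw [e4] at hcube
  have e5 : (∑ j ∈ Finset.range N, ((arcSet (blk n) N j).card : ℝ) ^ (5 / 3 : ℝ)) =
      ∑ j ∈ Finset.range N, c j ^ (5 / 3 : ℝ) := by rw [hc]
  rw [e5]
  refine hcube.trans ?_
  apply mul_le_mul hsum1 _ (by positivity) (by positivity)
  exact pow_le_pow_left₀ hB0 hsum2 2

end Pool.Agent.Helper22.AC
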