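import Pool.Agent.Helper22.AC.C2

/-!
# AC-C3: the number of pairs with a small determinant

PROOF. `K = 2^n`; all members of `blk n` are nonzero, with coordinates and norm `< 2K`, norm `≥ K`. Fix `k`, `g = gcd(k.1, k.2) ≥ 1`. For integers `t`
with `|t| ≤ T` the `k'` with `k.1 k'.2 - k.2 k'.1 = t` exist only if `g ∣ t`: at most `2T/g + 1` values of `t`; for one `t` two solutions differ by
a multiple of `k/g`, whose norm is `≥ K/g`, and have norm `< 2K`: at most `4g + 1` solutions (they are `k'₀ + l (k/g)`, `l` in an interval of length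
`≤ 4K/(K/g)`; in terms of the coordinate of `k` which is `≥ nk k/√2` one gets `≤ 6g + 1`, any constant is fine). So at most `C (T + g)` for this `k`.
`∑_{k ∈ blk n} g(k) ≤ ∑_{g ≤ 2K} g #{k ∈ blk n : g ∣ k} ≤ ∑_g g · 32 K²/g² ≤ 32 K² (1 + log (2K)) ≤ C_ε K^(2+ε)` (`k = g k''`, `k'' ≠ 0`,
`|k''.i| ≤ 2K/g`: `(4K/g + 1)² - 1 ≤ 32 K²/g²`).
Alternative: for each integer `t`, `|t| ≤ T`, `T ≤ 8K²` WLOG, the number of `(k, k')` in the square with `k.1 k'.2 - k.2 k'.1 = t` is `≤ C K^(2+ε)` by the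
divisor bound (`k.1 k'.2 = l`, `k.2 k'.1 = l - t`; the cases with `l = 0` or `l = t` apart).
-/

open MeasureTheory Real Set Filter Topology

set_option autoImplicit false

namespace Pool.Agent.Helper22.AC

open Pool.Agent.Helper22.AE

private lemma core {K : ℕ} (hK : 1 ≤ K) {a b t : ℤ} (hab : |b| ≤ |a|)
    (hn : (K : ℤ) ^ 2 ≤ a ^ 2 + b ^ 2) (S : Finset (ℤ × ℤ))
    (hS : ∀ s ∈ S, |s.1| ≤ 2 * K ∧ a * s.2 - b * s.1 = t) :
    S.card ≤ 17 * Int.gcd a b := by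
  have ha2 : b ^ 2 ≤ a ^ 2 := sq_le_sq.mpr hab
  have hK1 : (1 : ℤ) ≤ (K : ℤ) := by exact_mod_cast hK
  have ha0 : a ≠ 0 := by
    rintro rfl
    nlinarith
  have hg : 0 < Int.gcd a b := Int.gcd_pos_of_ne_zero_left b ha0
  obtain ⟨a', ha'⟩ := Int.gcd_dvd_left (a := a) (b := b)
  obtain ⟨b', hb'⟩ := Int.gcd_dvd_right (a := a) (b := b)
  set g : ℕ := Int.gcd a b with hgdef
  have hgz : (0 : ℤ) < (g : ℤ) := by exact_mod_cast hg
  have hcop : IsCoprime a' b' := by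
    have h1 : (g : ℤ) = a * Int.gcdA a b + b * Int.gcdB a b := Int.gcd_eq_gcd_ab a b
    refine ⟨Int.gcdA a b, Int.gcdB a b, ?_⟩
    have h2 : (g : ℤ) * (Int.gcdA a b * a' + Int.gcdB a b * b') = (g : ℤ) * 1 := by
      calc (g : ℤ) * (Int.gcdA a b * a' + Int.gcdB a b * b')
          = (g * a') * Int.gcdA a b + (g * b') * Int.gcdB a b := by ring
        _ = a * Int.gcdA a b + b * Int.gcdB a b := by rw [← ha', ← hb']
        _ = (g : ℤ) * 1 := by rw [← h1, mul_one]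
    exact mul_left_cancel₀ hgz.ne' h2
  have ha'0 : a' ≠ 0 := by
    rintro rfl
    exact ha0 (by rw [ha', mul_zero])
  have hKa : (K : ℤ) ≤ 2 * |a| := by
    have h1 : (K : ℤ) ^ 2 ≤ (2 * |a|) ^ 2 := by
      have : |a| ^ 2 = a ^ 2 := sq_abs a
      nlinarith
    exact (pow_le_pow_iff_left₀ (by positivity) (by positivity) (two_ne_zero)).mp h1
  rcases S.eq_empty_or_nonempty with rfl | ⟨s0, hs0⟩
  · simp
  have key : ∀ s ∈ S, a' ∣ s.1 - s0.1 := by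
    intro s hs
    have h1 : a * s.2 - b * s.1 = a * s0.2 - b * s0.1 := by rw [(hS s hs).2, (hS s0 hs0).2]
    have h2 : a' * (s.2 - s0.2) = b' * (s.1 - s0.1) := by
      have h3 : (g : ℤ) * (a' * (s.2 - s0.2)) = (g : ℤ) * (b' * (s.1 - s0.1)) := by
        calc (g : ℤ) * (a' * (s.2 - s0.2)) = (g * a') * (s.2 - s0.2) := by ring
          _ = a * (s.2 - s0.2) := by rw [← ha']
          _ = b * (s.1 - s0.1) := by linarith
          _ = (g * b') * (s.1 - s0.1) := by rw [← hb']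
          _ = (g : ℤ) * (b' * (s.1 - s0.1)) := by ring
      exact mul_left_cancel₀ hgz.ne' h3
    exact hcop.dvd_of_dvd_mul_left ⟨_, h2.symm⟩
  have hcard : S.card ≤ (Finset.Icc (-(8 * (g : ℤ))) (8 * (g : ℤ))).card := by
    refine Finset.card_le_card_of_injOn (fun s => (s.1 - s0.1) / a') ?_ ?_
    · intro s hs
      obtain ⟨l, hl⟩ := key s hs
      have h1 : (s.1 - s0.1) / a' = l := by
        rw [hl]; exact Int.mul_ediv_cancel_left l ha'0
      have h2 : |l| * |a'| ≤ 8 * g * |a'| := by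
        calc |l| * |a'| = |s.1 - s0.1| := by rw [hl, abs_mul]; ring
          _ ≤ |s.1| + |s0.1| := abs_sub _ _
          _ ≤ 2 * K + 2 * K := add_le_add (hS s hs).1 (hS s0 hs0).1
          _ ≤ 8 * |a| := by linarith
          _ = 8 * g * |a'| := by
            rw [ha', abs_mul, abs_of_pos hgz]; ring
      have h3 : |l| ≤ 8 * g := le_of_mul_le_mul_right h2 (abs_pos.mpr ha'0)
      simp only [Finset.coe_Icc, Set.mem_Icc]
      rw [h1]
      exact abs_le.mp h3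
    · intro s hs s' hs' hss
      obtain ⟨l, hl⟩ := key s hs
      obtain ⟨l', hl'⟩ := key s' hs'
      have h1 : (s.1 - s0.1) / a' = l := by
        rw [hl]; exact Int.mul_ediv_cancel_left l ha'0
      have h2 : (s'.1 - s0.1) / a' = l' := by
        rw [hl']; exact Int.mul_ediv_cancel_left l' ha'0
      have h3 : l = l' := by
        have : (s.1 - s0.1) / a' = (s'.1 - s0.1) / a' := hss
        rw [h1, h2] at this
        exact this
      have h4 : s.1 = s'.1 := by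
        have : s.1 - s0.1 = s'.1 - s0.1 := by rw [hl, hl', h3]
        linarith
      have h5 : a * s.2 = a * s'.2 := by
        have e1 := (hS s hs).2
        have e2 := (hS s' hs').2
        rw [h4] at e1
        linarith
      exact Prod.ext h4 (mul_left_cancel₀ ha0 h5)
  have hc : (Finset.Icc (-(8 * (g : ℤ))) (8 * (g : ℤ))).card = 16 * g + 1 := by
    rw [Int.card_Icc]
    omega
  omega

private lemma blk_mem {n : ℕ} {k : ℤ × ℤ} (hk : k ∈ blk n) :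
    |k.1| ≤ 2 * ((2 ^ n : ℕ) : ℤ) ∧ |k.2| ≤ 2 * ((2 ^ n : ℕ) : ℤ) ∧
      (((2 ^ n : ℕ) : ℤ)) ^ 2 ≤ k.1 ^ 2 + k.2 ^ 2 := by
  unfold blk at hk
  rw [Finset.mem_filter] at hk
  obtain ⟨hb, h1, _⟩ := hk
  unfold box at hb
  rw [Finset.mem_product, Finset.mem_Icc, Finset.mem_Icc] at hb
  have e : ((2 ^ (n + 1) : ℕ) : ℤ) = 2 * ((2 ^ n : ℕ) : ℤ) := by push_cast; ring
  rw [e] at hb
  refine ⟨abs_le.mpr hb.1, abs_le.mpr hb.2, ?_⟩
  have h2 : nk k ^ 2 = (k.1 : ℝ) ^ 2 + (k.2 : ℝ) ^ 2 := by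
    unfold nk cz
    rw [← Complex.normSq_eq_norm_sq, Complex.normSq_mk]
    ring
  have h3 : ((2 : ℝ) ^ n) ^ 2 ≤ (k.1 : ℝ) ^ 2 + (k.2 : ℝ) ^ 2 := by
    rw [← h2]
    exact pow_le_pow_left₀ (by positivity) h1 2
  have h4 : (((((2 ^ n : ℕ) : ℤ)) ^ 2 : ℤ) : ℝ) ≤ ((k.1 ^ 2 + k.2 ^ 2 : ℤ) : ℝ) := by
    push_cast
    exact h3
  exact_mod_cast h4

private lemma fib_card {n : ℕ} {k : ℤ × ℤ} (hk : k ∈ blk n) (t : ℤ) (S : Finset (ℤ × ℤ))
    (hS : ∀ s ∈ S, s ∈ blk n ∧ k.1 * s.2 - k.2 * s.1 = t) :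
    S.card ≤ 17 * Int.gcd k.1 k.2 := by
  obtain ⟨h1, h2, h3⟩ := blk_mem hk
  have hK : 1 ≤ 2 ^ n := Nat.one_le_two_pow
  rcases le_total |k.2| |k.1| with h | h
  · exact core hK h h3 S (fun s hs => ⟨(blk_mem (hS s hs).1).1, (hS s hs).2⟩)
  · have h4 : (S.image Prod.swap).card ≤ 17 * Int.gcd k.2 k.1 := by
      refine core (t := -t) hK h (by linarith) _ (fun s hs => ?_)
      rw [Finset.mem_image] at hs
      obtain ⟨r, hr, rfl⟩ := hs
      refine ⟨(blk_mem (hS r hr).1).2.1, ?_⟩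
      have := (hS r hr).2
      show k.2 * r.1 - k.1 * r.2 = -t
      linarith
    rw [Finset.card_image_of_injective _ Prod.swap_injective, Int.gcd_comm] at h4
    exact h4

private lemma card_box (N : ℕ) : (box N).card = (2 * N + 1) ^ 2 := by
  unfold box
  rw [Finset.card_product, Int.card_Icc]
  have : ((N : ℤ) + 1 - -(N : ℤ)).toNat = 2 * N + 1 := by omega
  rw [this]
  ring

private lemma gcd_mem {n : ℕ} {k : ℤ × ℤ} (hk : k ∈ blk n) :
    Int.gcd k.1 k.2 ∈ Finset.Icc 1 (2 * 2 ^ n) := by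
  obtain ⟨h1, h2, h3⟩ := blk_mem hk
  have hK : (1 : ℤ) ≤ ((2 ^ n : ℕ) : ℤ) := by exact_mod_cast Nat.one_le_two_pow
  rw [Finset.mem_Icc]
  by_cases h0 : k.1 = 0
  · have h4 : k.2 ≠ 0 := by
      intro h5
      rw [h0, h5] at h3
      nlinarith
    refine ⟨Int.gcd_pos_of_ne_zero_right _ h4, ?_⟩
    have h5 : Int.gcd k.1 k.2 ∣ k.2.natAbs := by
      have := Int.gcd_dvd_right (a := k.1) (b := k.2)
      exact Int.natCast_dvd.mp this
    have h6 := Nat.le_of_dvd (Int.natAbs_pos.mpr h4) h5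
    have h7 : ((k.2.natAbs : ℕ) : ℤ) ≤ 2 * ((2 ^ n : ℕ) : ℤ) := by
      rw [Int.natCast_natAbs]; exact h2
    have h8 : k.2.natAbs ≤ 2 * 2 ^ n := by exact_mod_cast h7
    omega
  · refine ⟨Int.gcd_pos_of_ne_zero_left _ h0, ?_⟩
    have h5 : Int.gcd k.1 k.2 ∣ k.1.natAbs := by
      have := Int.gcd_dvd_left (a := k.1) (b := k.2)
      exact Int.natCast_dvd.mp this
    have h6 := Nat.le_of_dvd (Int.natAbs_pos.mpr h0) h5
    have h7 : ((k.1.natAbs : ℕ) : ℤ) ≤ 2 * ((2 ^ n : ℕ) : ℤ) := by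
      rw [Int.natCast_natAbs]; exact h1
    have h8 : k.1.natAbs ≤ 2 * 2 ^ n := by exact_mod_cast h7
    omega

private lemma gcd_fib {n g : ℕ} (hg : g ∈ Finset.Icc 1 (2 * 2 ^ n)) :
    ((((blk n).filter (fun k => Int.gcd k.1 k.2 = g)).card : ℕ) : ℝ) ≤
      36 * ((2 : ℝ) ^ n) ^ 2 / (g : ℝ) ^ 2 := by
  rw [Finset.mem_Icc] at hg
  have hg0 : (0 : ℤ) < (g : ℤ) := by exact_mod_cast hg.1
  have h1 : ((blk n).filter (fun k => Int.gcd k.1 k.2 = g)).card ≤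
      (box (2 * 2 ^ n / g)).card := by
    refine Finset.card_le_card_of_injOn (fun k => (k.1 / g, k.2 / g)) ?_ ?_
    · intro k hk
      rw [Finset.mem_coe, Finset.mem_filter] at hk
      obtain ⟨hk, hkg⟩ := hk
      obtain ⟨h1, h2, _⟩ := blk_mem hk
      obtain ⟨x, hx⟩ := Int.gcd_dvd_left (a := k.1) (b := k.2)
      obtain ⟨y, hy⟩ := Int.gcd_dvd_right (a := k.1) (b := k.2)
      rw [hkg] at hx hy
      have aux : ∀ (u z : ℤ), u = g * z → |u| ≤ 2 * ((2 ^ n : ℕ) : ℤ) →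
          u / g ∈ Finset.Icc (-((2 * 2 ^ n / g : ℕ) : ℤ)) ((2 * 2 ^ n / g : ℕ) : ℤ) := by
        intro u z hu hle
        have e1 : u / g = z := by rw [hu]; exact Int.mul_ediv_cancel_left z hg0.ne'
        have e2 : z.natAbs ≤ 2 * 2 ^ n / g := by
          rw [Nat.le_div_iff_mul_le (by omega)]
          have : ((z.natAbs * g : ℕ) : ℤ) ≤ ((2 * 2 ^ n : ℕ) : ℤ) := by
            push_cast
            rw [hu, abs_mul, abs_of_pos hg0] at hle
            push_cast at hle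
            linarith
          exact_mod_cast this
        rw [e1, Finset.mem_Icc]
        have e3 : |z| ≤ ((2 * 2 ^ n / g : ℕ) : ℤ) := by
          rw [← Int.natCast_natAbs]
          exact_mod_cast e2
        exact abs_le.mp e3
      unfold box
      rw [Finset.mem_coe, Finset.mem_product]
      exact ⟨aux k.1 x hx h1, aux k.2 y hy h2⟩
    · intro k hk k' hk' hkk
      rw [Finset.mem_coe, Finset.mem_filter] at hk hk'
      obtain ⟨x, hx⟩ := Int.gcd_dvd_left (a := k.1) (b := k.2)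
      obtain ⟨y, hy⟩ := Int.gcd_dvd_right (a := k.1) (b := k.2)
      obtain ⟨x', hx'⟩ := Int.gcd_dvd_left (a := k'.1) (b := k'.2)
      obtain ⟨y', hy'⟩ := Int.gcd_dvd_right (a := k'.1) (b := k'.2)
      rw [hk.2] at hx hy
      rw [hk'.2] at hx' hy'
      have e1 : k.1 / g = x := by rw [hx]; exact Int.mul_ediv_cancel_left x hg0.ne'
      have e2 : k.2 / g = y := by rw [hy]; exact Int.mul_ediv_cancel_left y hg0.ne'
      have e3 : k'.1 / g = x' := by rw [hx']; exact Int.mul_ediv_cancel_left x' hg0.ne'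
      have e4 : k'.2 / g = y' := by rw [hy']; exact Int.mul_ediv_cancel_left y' hg0.ne'
      have h5 : ((k.1 / g, k.2 / g) : ℤ × ℤ) = (k'.1 / g, k'.2 / g) := hkk
      rw [Prod.mk.injEq, e1, e2, e3, e4] at h5
      refine Prod.ext ?_ ?_
      · rw [hx, hx', h5.1]
      · rw [hy, hy', h5.2]
  rw [card_box] at h1
  have hgr : (0 : ℝ) < (g : ℝ) := by exact_mod_cast hg.1
  have h2 : (((2 * 2 ^ n / g : ℕ) : ℝ)) ≤ 2 * 2 ^ n / g := by
    have := @Nat.cast_div_le ℝ _ _ _ (2 * 2 ^ n) g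
    push_cast at this
    exact this
  have h3 : (1 : ℝ) ≤ 2 * 2 ^ n / g := by
    rw [le_div_iff₀ hgr, one_mul]
    exact_mod_cast hg.2
  have h4 : (((2 * (2 * 2 ^ n / g) + 1) ^ 2 : ℕ) : ℝ) ≤ (3 * (2 * 2 ^ n / g)) ^ 2 := by
    push_cast
    refine pow_le_pow_left₀ (by positivity) ?_ 2
    have h5 : ((((2 * 2 ^ n : ℕ) / g : ℕ) : ℝ)) ≤ 2 * 2 ^ n / g := h2
    linarith
  calc ((((blk n).filter (fun k => Int.gcd k.1 k.2 = g)).card : ℕ) : ℝ)
      ≤ (((2 * (2 * 2 ^ n / g) + 1) ^ 2 : ℕ) : ℝ) := by exact_mod_cast h1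
    _ ≤ (3 * (2 * 2 ^ n / g)) ^ 2 := h4
    _ = 36 * ((2 : ℝ) ^ n) ^ 2 / (g : ℝ) ^ 2 := by
      field_simp
      ring

private lemma gcd_sum (n : ℕ) : (((∑ k ∈ blk n, Int.gcd k.1 k.2 : ℕ)) : ℝ) ≤
    36 * ((2 : ℝ) ^ n) ^ 2 * (1 + Real.log (2 * 2 ^ n)) := by
  have h1 : (∑ k ∈ blk n, Int.gcd k.1 k.2 : ℕ) =
      ∑ g ∈ Finset.Icc 1 (2 * 2 ^ n), ((blk n).filter (fun k => Int.gcd k.1 k.2 = g)).card * g := by
    rw [← Finset.sum_fiberwise_of_maps_to (t := Finset.Icc 1 (2 * 2 ^ n))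
      (g := fun k : ℤ × ℤ => Int.gcd k.1 k.2) (fun k hk => gcd_mem hk)]
    refine Finset.sum_congr rfl (fun g _ => ?_)
    rw [Finset.sum_congr rfl (g := fun _ => g) (fun k hk => (Finset.mem_filter.mp hk).2),
      Finset.sum_const, smul_eq_mul]
  rw [h1]
  push_cast
  calc ∑ g ∈ Finset.Icc (1 : ℕ) (2 * 2 ^ n),
        ((((blk n).filter (fun k => Int.gcd k.1 k.2 = g)).card : ℕ) : ℝ) * (g : ℝ)
      ≤ ∑ g ∈ Finset.Icc (1 : ℕ) (2 * 2 ^ n), 36 * ((2 : ℝ) ^ n) ^ 2 * ((g : ℝ))⁻¹ := by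
        refine Finset.sum_le_sum (fun g hg => ?_)
        have hgr : (0 : ℝ) < (g : ℝ) := by exact_mod_cast (Finset.mem_Icc.mp hg).1
        calc ((((blk n).filter (fun k => Int.gcd k.1 k.2 = g)).card : ℕ) : ℝ) * (g : ℝ)
            ≤ 36 * ((2 : ℝ) ^ n) ^ 2 / (g : ℝ) ^ 2 * g :=
              mul_le_mul_of_nonneg_right (gcd_fib hg) hgr.le
          _ = 36 * ((2 : ℝ) ^ n) ^ 2 * ((g : ℝ))⁻¹ := by field_simp
    _ = 36 * ((2 : ℝ) ^ n) ^ 2 * ∑ g ∈ Finset.Icc (1 : ℕ) (2 * 2 ^ n), ((g : ℝ))⁻¹ := by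
        rw [Finset.mul_sum]
    _ ≤ 36 * ((2 : ℝ) ^ n) ^ 2 * (1 + Real.log (2 * 2 ^ n)) := by
        refine mul_le_mul_of_nonneg_left ?_ (by positivity)
        have h2 := harmonic_le_one_add_log (2 * 2 ^ n)
        rw [harmonic_eq_sum_Icc] at h2
        push_cast at h2
        exact h2

theorem pairs_count {ε : ℝ} (hε : 0 < ε) : ∃ C : ℝ, 0 ≤ C ∧ ∀ (n : ℕ) (T : ℝ), 0 ≤ T →
    ((pairs n T).card : ℝ) ≤ C * ((2 : ℝ) ^ n) ^ (2 + ε) * (1 + T) := by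
  refine ⟨34 * 36 * (2 + 1 / ε), by positivity, ?_⟩
  intro n T hT
  have hK : (1 : ℝ) ≤ (2 : ℝ) ^ n := one_le_pow₀ (by norm_num)
  -- first step: by the value of the determinant
  have hmap : ∀ p ∈ pairs n T, ((p.1, p.1.1 * p.2.2 - p.1.2 * p.2.1) : (ℤ × ℤ) × ℤ) ∈
      blk n ×ˢ Finset.Icc (-⌊T⌋) ⌊T⌋ := by
    intro p hp
    unfold pairs at hp
    rw [Finset.mem_filter, Finset.mem_product] at hp
    obtain ⟨⟨h1, _⟩, h3⟩ := hp
    rw [Finset.mem_product]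
    refine ⟨h1, ?_⟩
    rw [Finset.mem_Icc]
    have h4 := abs_le.mp h3
    have h5 : p.1.1 * p.2.2 - p.1.2 * p.2.1 ≤ ⌊T⌋ := by
      rw [Int.le_floor]
      push_cast
      exact h4.2
    have h6 : -(p.1.1 * p.2.2 - p.1.2 * p.2.1) ≤ ⌊T⌋ := by
      rw [Int.le_floor]
      push_cast
      linarith [h4.1]
    exact ⟨by linarith, h5⟩
  have h1 : (pairs n T).card ≤ ∑ q ∈ blk n ×ˢ Finset.Icc (-⌊T⌋) ⌊T⌋, 17 * Int.gcd q.1.1 q.1.2 := by
    rw [Finset.card_eq_sum_card_fiberwise hmap]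
    refine Finset.sum_le_sum (fun q hq => ?_)
    rw [Finset.mem_product] at hq
    have h2 : ((pairs n T).filter (fun p =>
        ((p.1, p.1.1 * p.2.2 - p.1.2 * p.2.1) : (ℤ × ℤ) × ℤ) = q)).card =
        (((pairs n T).filter (fun p =>
        ((p.1, p.1.1 * p.2.2 - p.1.2 * p.2.1) : (ℤ × ℤ) × ℤ) = q)).image Prod.snd).card := by
      rw [Finset.card_image_of_injOn]
      intro p hp p' hp' hpp
      rw [Finset.mem_coe, Finset.mem_filter] at hp hp'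
      have e1 : p.1 = q.1 := congrArg Prod.fst hp.2
      have e2 : p'.1 = q.1 := congrArg Prod.fst hp'.2
      exact Prod.ext (e1.trans e2.symm) hpp
    rw [h2]
    refine fib_card hq.1 q.2 _ (fun s hs => ?_)
    rw [Finset.mem_image] at hs
    obtain ⟨p, hp, rfl⟩ := hs
    rw [Finset.mem_filter] at hp
    obtain ⟨hp, hpq⟩ := hp
    unfold pairs at hp
    rw [Finset.mem_filter, Finset.mem_product] at hp
    refine ⟨hp.1.2, ?_⟩
    have e1 : p.1 = q.1 := congrArg Prod.fst hpq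
    have e2 : p.1.1 * p.2.2 - p.1.2 * p.2.1 = q.2 := congrArg Prod.snd hpq
    rw [← e1, e2]
  have h2 : ∑ q ∈ blk n ×ˢ Finset.Icc (-⌊T⌋) ⌊T⌋, 17 * Int.gcd q.1.1 q.1.2 =
      (Finset.Icc (-⌊T⌋) ⌊T⌋).card * 17 * ∑ k ∈ blk n, Int.gcd k.1 k.2 := by
    rw [Finset.sum_product]
    simp only [Finset.sum_const, smul_eq_mul]
    rw [Finset.mul_sum]
    refine Finset.sum_congr rfl (fun k _ => by ring)
  have h3 : (((Finset.Icc (-⌊T⌋) ⌊T⌋).card : ℕ) : ℝ) ≤ 2 * (1 + T) := by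
    have hf : 0 ≤ ⌊T⌋ := Int.floor_nonneg.mpr hT
    rw [Int.card_Icc]
    have e : ((⌊T⌋ + 1 - -⌊T⌋).toNat : ℤ) = 2 * ⌊T⌋ + 1 := by
      rw [Int.toNat_of_nonneg (by linarith)]
      ring
    have e' : (((⌊T⌋ + 1 - -⌊T⌋).toNat : ℕ) : ℝ) = 2 * (⌊T⌋ : ℝ) + 1 := by
      have : ((((⌊T⌋ + 1 - -⌊T⌋).toNat : ℕ) : ℤ) : ℝ) = ((2 * ⌊T⌋ + 1 : ℤ) : ℝ) := by
        rw [e]
      push_cast at this
      exact this
    rw [e']
    have := Int.floor_le T
    linarith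
  have h4 : (1 : ℝ) + Real.log (2 * 2 ^ n) ≤ (2 + 1 / ε) * ((2 : ℝ) ^ n) ^ ε := by
    have e1 : Real.log (2 * 2 ^ n) = Real.log 2 + Real.log ((2 : ℝ) ^ n) :=
      Real.log_mul (by norm_num) (by positivity)
    have e2 : Real.log 2 ≤ 1 := by
      have := Real.log_two_lt_d9
      linarith
    have e3 : Real.log ((2 : ℝ) ^ n) ≤ ((2 : ℝ) ^ n) ^ ε / ε :=
      Real.log_le_rpow_div (by positivity) hε
    have e4 : (1 : ℝ) ≤ ((2 : ℝ) ^ n) ^ ε := Real.one_le_rpow hK hε.le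
    have e5 : (2 + 1 / ε) * ((2 : ℝ) ^ n) ^ ε = 2 * ((2 : ℝ) ^ n) ^ ε + ((2 : ℝ) ^ n) ^ ε / ε := by
      ring
    rw [e5]
    linarith
  have h5 : ((2 : ℝ) ^ n) ^ (2 + ε) = ((2 : ℝ) ^ n) ^ 2 * ((2 : ℝ) ^ n) ^ ε := by
    rw [Real.rpow_add (by positivity)]
    norm_num
  calc ((pairs n T).card : ℝ)
      ≤ (((Finset.Icc (-⌊T⌋) ⌊T⌋).card * 17 * ∑ k ∈ blk n, Int.gcd k.1 k.2 : ℕ) : ℝ) := by
        rw [← h2]
        exact_mod_cast h1
    _ = (((Finset.Icc (-⌊T⌋) ⌊T⌋).card : ℕ) : ℝ) * 17 *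
        (((∑ k ∈ blk n, Int.gcd k.1 k.2 : ℕ)) : ℝ) := by
        push_cast
        ring
    _ ≤ (2 * (1 + T)) * 17 * (36 * ((2 : ℝ) ^ n) ^ 2 * ((2 + 1 / ε) * ((2 : ℝ) ^ n) ^ ε)) := by
        refine mul_le_mul (mul_le_mul_of_nonneg_right h3 (by norm_num)) ?_ (by positivity)
          (by positivity)
        refine (gcd_sum n).trans ?_
        exact mul_le_mul_of_nonneg_left h4 (by positivity)
    _ = 34 * 36 * (2 + 1 / ε) * ((2 : ℝ) ^ n) ^ (2 + ε) * (1 + T) := by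
        rw [h5]
        ring

end Pool.Agent.Helper22.AC
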