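import Pool.Agent.Helper22.AC.B6
import Pool.Agent.Helper22.AC.C1
import Pool.Agent.Helper22.AC.C2

/-!
# AC-C4: from the slabs to the whole block

PROOF. `M`, `C` from `slab_dec`. `L = M^(2m)`; slab number `l`, `l < L`: `Bl = {k ∈ blk n : ⌊(nk k / 2^n - 1) L⌋₊ = l}` (`nk k / 2^n - 1 ∈ [0,1)`), so
`blk n` is the disjoint union of `L` slabs, `|nk k - nk k'| ≤ 2^n / L` inside a slab, `η = 1/L = (1/M)^(2m)`. `cs (blk n) = ∑_{l<L} cs Bl`,
`cs Bl = ∑_{j<8} cs (arcSet Bl 8 j)` (`cs_eight`), `n6_sum_le` twice, `slab_dec`, `n6_card`, and `arcSet Bl N r ⊆ arcSet (blk n) N r`: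
`n6 (cs (blk n)) ≤ L^(5/3) ∑_{l<L} 8^(5/3) ∑_{j<8} C^N₁ M^(ε N₁ m) ∑_{r<M^S} (#arcSet (blk n) (8M^S) (M^S j + r))^(5/3)`
`≤ L^(8/3) 8^(5/3) C^N₁ M^(ε N₁ m) ∑_{j < 8 M^S} (#arcSet (blk n) (8 M^S) j)^(5/3)`, `S = N₁ m` (`sum_range_mul'`).
-/

open MeasureTheory Real Set Filter Topology

set_option autoImplicit false

namespace Pool.Agent.Helper22.AC

open Pool.Agent.Helper22.AE

open Classical in
/-- the slab number `l` of `L` slabs of the block -/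
noncomputable def slab (n L l : ℕ) : Finset (ℤ × ℤ) :=
  (blk n).filter (fun k => ⌊(nk k / 2 ^ n - 1) * L⌋₊ = l)

theorem slab_sub (n L l : ℕ) : slab n L l ⊆ blk n := Finset.filter_subset _ _

theorem slab_lt {n L : ℕ} (hL : 0 < L) {k : ℤ × ℤ} (hk : k ∈ blk n) :
    ⌊(nk k / 2 ^ n - 1) * L⌋₊ < L := by
  have h1 : (2 : ℝ) ^ n ≤ nk k ∧ nk k < 2 ^ (n + 1) := (Finset.mem_filter.1 hk).2
  have h2 : (0 : ℝ) < 2 ^ n := by positivity
  have hL' : (0 : ℝ) < L := by exact_mod_cast hL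
  rw [Nat.floor_lt' hL.ne']
  have h3 : nk k / 2 ^ n < 2 := by
    rw [div_lt_iff₀ h2]
    have := h1.2
    rw [pow_succ] at this
    linarith
  nlinarith

theorem slab_close {n L l : ℕ} (hL : 0 < L) {k k' : ℤ × ℤ} (hk : k ∈ slab n L l) (hk' : k' ∈ slab n L l) :
    |nk k - nk k'| ≤ 1 / (L : ℝ) * 2 ^ n := by
  have h0 : (0 : ℝ) < 2 ^ n := by positivity
  have hL' : (0 : ℝ) < L := by exact_mod_cast hL
  have key : ∀ {k : ℤ × ℤ}, k ∈ slab n L l → (l : ℝ) ≤ (nk k / 2 ^ n - 1) * L ∧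
      (nk k / 2 ^ n - 1) * L < l + 1 := by
    intro k hk
    obtain ⟨h1, h2⟩ := Finset.mem_filter.1 hk
    have h3 : (2 : ℝ) ^ n ≤ nk k ∧ nk k < 2 ^ (n + 1) := (Finset.mem_filter.1 h1).2
    have h4 : 0 ≤ (nk k / 2 ^ n - 1) * L := by
      have : 1 ≤ nk k / 2 ^ n := by
        rw [le_div_iff₀ h0]
        linarith [h3.1]
      have h5 : 0 ≤ nk k / 2 ^ n - 1 := by linarith
      positivity
    rw [← h2]
    exact ⟨Nat.floor_le h4, Nat.lt_floor_add_one _⟩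
  obtain ⟨a1, a2⟩ := key hk
  obtain ⟨b1, b2⟩ := key hk'
  have h5 : |(nk k / 2 ^ n - 1) * L - (nk k' / 2 ^ n - 1) * L| ≤ 1 := by
    rw [abs_le]
    constructor <;> linarith
  have h6 : (nk k / 2 ^ n - 1) * L - (nk k' / 2 ^ n - 1) * L = (nk k - nk k') * (L / 2 ^ n) := by
    ring
  have h7 : (0 : ℝ) < L / 2 ^ n := by positivity
  rw [h6, abs_mul, abs_of_pos h7] at h5
  have h8 : (1 : ℝ) / L * 2 ^ n = 1 / (L / 2 ^ n) := by
    field_simp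
  rw [h8, le_div_iff₀ h7]
  exact h5

theorem cs_slab (n : ℕ) {L : ℕ} (hL : 0 < L) (a : ℤ × ℤ → ℂ) (γ : ℝ → ℝ) (q : (ℝ × ℝ) × ℝ) :
    cs (blk n) a γ q = ∑ l ∈ Finset.range L, cs (slab n L l) a γ q := by
  classical
  have h := Finset.sum_fiberwise_of_maps_to (s := blk n) (t := Finset.range L)
    (g := fun k : ℤ × ℤ => ⌊(nk k / 2 ^ n - 1) * L⌋₊)
    (fun k hk => Finset.mem_range.2 (slab_lt hL hk))
    (fun k => a k * ee (-((k.1 : ℝ) * q.1.1 + (k.2 : ℝ) * q.1.2 + q.2 * Fk γ k)))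
  unfold cs
  rw [← h]
  refine Finset.sum_congr rfl fun l _ => ?_
  refine Finset.sum_congr ?_ fun _ _ => rfl
  ext k
  simp only [slab, Finset.mem_filter]

theorem arcSet_mono {B B' : Finset (ℤ × ℤ)} (h : B ⊆ B') (N j : ℕ) : arcSet B N j ⊆ arcSet B' N j :=
  Finset.filter_subset_filter _ h

theorem blk_dec {c₁ c₂ ε : ℝ} (hc₁ : 0 < c₁) (hε : 0 < ε) : ∃ M : ℕ, 2 ≤ M ∧ ∃ C : ℝ, 1 ≤ C ∧
    ∀ (n m N₁ : ℕ) (X : ℝ) (v γ : ℝ → ℝ) (a : ℤ × ℤ → ℂ), 0 < X → IsWt X v → Adm c₁ c₂ γ → (∀ k, ‖a k‖ ≤ 1) →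
      1 / (2 ^ n * X) ≤ c₂ * (2 * π / (8 * (M : ℝ) ^ (N₁ * m))) ^ 2 →
      n6 (mu v) (cs (blk n) a γ) ≤ 32 * C ^ N₁ * (M : ℝ) ^ (16 / 3 * (m : ℝ) + ε * ((N₁ * m : ℕ) : ℝ)) *
        ∑ j ∈ Finset.range (8 * M ^ (N₁ * m)), ((arcSet (blk n) (8 * M ^ (N₁ * m)) j).card : ℝ) ^ (5 / 3 : ℝ) := by
  obtain ⟨M, hM, C, hC, hdec⟩ := slab_dec (c₂ := c₂) hc₁ hε
  refine ⟨M, hM, C, hC, ?_⟩
  intro n m N₁ X v γ a hX hv hA ha hK
  have hpr := mu_prob hv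
  have hM0 : (0 : ℝ) < M := by
    have : 0 < M := by omega
    exact_mod_cast this
  set L : ℕ := M ^ (2 * m) with hLdef
  have hL : 0 < L := Nat.pos_of_ne_zero (pow_ne_zero _ (by omega))
  have hLr : (L : ℝ) = (M : ℝ) ^ (2 * m) := by rw [hLdef]; push_cast; ring
  have hη : 1 / (L : ℝ) ≤ (1 / (M : ℝ)) ^ (2 * m) := by
    rw [hLr, one_div_pow]
  have hmeas : ∀ B : Finset (ℤ × ℤ), Measurable (cs B a γ) := fun B => (cs_cont B a γ).measurable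
  have hbd : ∀ B : Finset (ℤ × ℤ), ∃ K : ℝ, ∀ ω, ‖cs B a γ ω‖ ≤ K := fun B =>
    ⟨B.card, fun ω => cs_norm_le B ha γ ω⟩
  set S : ℕ := N₁ * m with hS
  set T : ℝ := ∑ j ∈ Finset.range (8 * M ^ S), ((arcSet (blk n) (8 * M ^ S) j).card : ℝ) ^ (5 / 3 : ℝ)
    with hT
  have hT0 : 0 ≤ T := Finset.sum_nonneg fun j _ => by positivity
  have h8 : ((8 : ℕ) : ℝ) ^ (5 / 3 : ℝ) = 32 := by
    have e1 : ((8 : ℕ) : ℝ) = (2 : ℝ) ^ (3 : ℝ) := by norm_num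
    rw [e1, ← Real.rpow_mul (by norm_num)]
    norm_num
  -- one slab
  have hone : ∀ l, n6 (mu v) (cs (slab n L l) a γ) ≤ 32 * (C ^ N₁ * (M : ℝ) ^ (ε * (S : ℝ)) * T) := by
    intro l
    have e1 : cs (slab n L l) a γ = fun ω => ∑ j ∈ Finset.range 8, cs (arcSet (slab n L l) 8 j) a γ ω := by
      funext q
      exact cs_eight _ a γ q
    have e2 := n6_sum_le (mu v) 8 (fun j => cs (arcSet (slab n L l) 8 j) a γ) (fun j => hmeas _)
      (fun j => hbd _)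
    rw [← e1, h8] at e2
    refine e2.trans (mul_le_mul_of_nonneg_left ?_ (by norm_num))
    have e3 : ∀ j ∈ Finset.range 8, n6 (mu v) (cs (arcSet (slab n L l) 8 j) a γ) ≤
        C ^ N₁ * (M : ℝ) ^ (ε * (S : ℝ)) *
          ∑ r ∈ Finset.range (M ^ S), ((arcSet (blk n) (8 * M ^ S) (M ^ S * j + r)).card : ℝ) ^ (5 / 3 : ℝ) := by
      intro j hj
      refine (hdec n m N₁ X (1 / (L : ℝ)) v γ a (slab n L l) hX hv hA ha (slab_sub n L l)
        (fun k hk k' hk' => slab_close hL hk hk') hη hK j (Finset.mem_range.1 hj)).trans ?_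
      refine mul_le_mul_of_nonneg_left ?_ (by positivity)
      refine Finset.sum_le_sum fun r _ => ?_
      refine (n6_card hv _ ha γ).trans ?_
      refine Real.rpow_le_rpow (by positivity) ?_ (by norm_num)
      exact_mod_cast Finset.card_le_card (arcSet_mono (slab_sub n L l) _ _)
    refine (Finset.sum_le_sum e3).trans ?_
    rw [← Finset.mul_sum, hT, sum_range_mul']
  have e1 : cs (blk n) a γ = fun ω => ∑ l ∈ Finset.range L, cs (slab n L l) a γ ω := by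
    funext q
    exact cs_slab n hL a γ q
  have e2 := n6_sum_le (mu v) L (fun l => cs (slab n L l) a γ) (fun l => hmeas _) (fun l => hbd _)
  rw [← e1] at e2
  refine e2.trans ?_
  have e3 : ∑ l ∈ Finset.range L, n6 (mu v) (cs (slab n L l) a γ) ≤
      (L : ℝ) * (32 * (C ^ N₁ * (M : ℝ) ^ (ε * (S : ℝ)) * T)) := by
    refine (Finset.sum_le_sum fun l _ => hone l).trans ?_
    rw [Finset.sum_const, Finset.card_range, nsmul_eq_mul]
  refine (mul_le_mul_of_nonneg_left e3 (by positivity)).trans (le_of_eq ?_)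
  have e4 : (L : ℝ) ^ (5 / 3 : ℝ) * (L : ℝ) = (M : ℝ) ^ (16 / 3 * (m : ℝ)) := by
    have e5 : (L : ℝ) = (M : ℝ) ^ (2 * (m : ℝ)) := by
      rw [hLr, ← Real.rpow_natCast]
      push_cast
      ring_nf
    rw [e5, ← Real.rpow_mul hM0.le, ← Real.rpow_add hM0]
    congr 1
    ring
  rw [Real.rpow_add hM0, ← e4]
  ring

end Pool.Agent.Helper22.AC
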