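import Pool.Agent.Helper22.AC.C3
import Pool.Agent.Helper22.AC.C4

/-!
# AC-C5: the sixth moment

PROOF. `K = 2^n`. WLOG `ε ≤ 1`; `e = ε/40`; `M`, `C` from `blk_dec` with `e` and `c₂' = max c₂ 2` (`Adm` is monotone in `c₂`), `N₁ = ⌈1/e⌉₊ ≥ 1`. Given
`n`, `X ≥ 1`: let `S*` be the largest `S` with `M^(2S) ≤ (π²/16) c₂' K X` and `M^S ≤ K²` (`S = 0` is allowed since `(π²/16) c₂' ≥ 1`, `K X ≥ 1`;
`Nat.findGreatest` or `Nat.log`), `m = S* / N₁` (natural division), `S = N₁ m`, `S* - N₁ < S ≤ S*`. `hKX` holds: `c₂' (2π/(8M^S))² = c₂' π²/(16 M^(2S))`.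
By maximality `M^(S*+1) > min (√((π²/16) c₂' K X)) (K²) ≥ min (√(K X)) (K²)`, so `M^S ≥ M^(-N₁) M^(S*+1) ≥ M^(-N₁) min (√(K X)) (K²)` and
`T = 4·4^n·2π/(8 M^S) = π K²/M^S ≤ π M^N₁ max (K^(3/2) X^(-1/2)) 1`.
`blk_dec`, cubed (`n6_cube`): `∫ ‖cs‖^6 d(mu v) ≤ 32³ C^(3N₁) M^(16 m + 3 e S) · 25 K² · (pairs n T)²`, `M^(16 m) ≤ M^(16 S*/N₁) ≤ K^(32/N₁) ≤ K^(32 e)`,
`M^(3 e S) ≤ K^(6e)`, `pairs ≤ C' K^(2+e) (1+T)` (`pairs_count`), `(1+T)² ≤ C'' (1 + K³/X)`. Total `≤ C''' K^(6 + 40 e) (1 + K³/X)`.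
Finally from `mu v` to Lebesgue measure: `exists_wt` gives `v` with `v ≥ c₀/X` on `[R₁, R₁+X]`:
`(c₀/X) ∫_{[0,1]²} ∫_{[R₁,R₁+X]} ‖cs‖^6 ≤ ∫ ‖cs‖^6 d(mu v)` (nonnegative integrand; `lintegral` or `setIntegral_mono`, the function is bounded and
continuous).
-/

open MeasureTheory Real Set Filter Topology

set_option autoImplicit false

namespace Pool.Agent.Helper22.AC

open Pool.Agent.Helper22.AE

private theorem c5_choice {M : ℕ} (hM : 2 ≤ M) {P Q : ℝ} (hP : 1 ≤ P) (hQ : 1 ≤ Q) :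
    ∃ S : ℕ, ((M : ℝ) ^ (2 * S) ≤ P ∧ (M : ℝ) ^ S ≤ Q) ∧
      (P < (M : ℝ) ^ (2 * (S + 1)) ∨ Q < (M : ℝ) ^ (S + 1)) := by
  by_contra hcon
  push Not at hcon
  have hall : ∀ S : ℕ, (M : ℝ) ^ (2 * S) ≤ P ∧ (M : ℝ) ^ S ≤ Q := by
    intro S
    induction S with
    | zero => simpa using ⟨hP, hQ⟩
    | succ S ih => exact hcon S ih
  have hM1 : (1 : ℝ) < M := by exact_mod_cast (by omega : 1 < M)
  obtain ⟨S, hS⟩ := pow_unbounded_of_one_lt Q hM1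
  linarith [(hall S).2]

private theorem c5_T {M N₁ m Sm : ℕ} (hM : 2 ≤ M) {K X P : ℝ} (hK : 1 ≤ K) (hX : 1 ≤ X) (hP : K * X ≤ P)
    (hS : Sm + 1 ≤ N₁ * m + N₁) (h : P < (M : ℝ) ^ (2 * (Sm + 1)) ∨ K ^ 2 < (M : ℝ) ^ (Sm + 1)) :
    (K ^ 2 / (M : ℝ) ^ (N₁ * m)) ^ 2 ≤ ((M : ℝ) ^ N₁) ^ 2 * (1 + K ^ 3 / X) := by
  have hM1 : (1 : ℝ) ≤ M := by exact_mod_cast (by omega : 1 ≤ M)
  have hK0 : 0 < K := by linarith
  have hX0 : 0 < X := by linarith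
  have hA : 0 < (M : ℝ) ^ (N₁ * m) := by positivity
  have hB : 0 < (M : ℝ) ^ N₁ := by positivity
  have hD : 0 < (M : ℝ) ^ (Sm + 1) := by positivity
  have hDAB : (M : ℝ) ^ (Sm + 1) ≤ (M : ℝ) ^ (N₁ * m) * (M : ℝ) ^ N₁ := by
    rw [← pow_add]
    exact pow_le_pow_right₀ hM1 hS
  have h1 : K ^ 2 / (M : ℝ) ^ (N₁ * m) ≤ K ^ 2 * (M : ℝ) ^ N₁ / (M : ℝ) ^ (Sm + 1) := by
    rw [div_le_div_iff₀ hA hD]
    calc K ^ 2 * (M : ℝ) ^ (Sm + 1) ≤ K ^ 2 * ((M : ℝ) ^ (N₁ * m) * (M : ℝ) ^ N₁) :=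
          mul_le_mul_of_nonneg_left hDAB (by positivity)
      _ = K ^ 2 * (M : ℝ) ^ N₁ * (M : ℝ) ^ (N₁ * m) := by ring
  have h2 : (K ^ 2 / (M : ℝ) ^ (N₁ * m)) ^ 2 ≤ (K ^ 2 * (M : ℝ) ^ N₁ / (M : ℝ) ^ (Sm + 1)) ^ 2 :=
    pow_le_pow_left₀ (by positivity) h1 2
  refine h2.trans ?_
  rcases h with h | h
  · have h3 : K * X < ((M : ℝ) ^ (Sm + 1)) ^ 2 := by
      rw [← pow_mul, mul_comm (Sm + 1) 2]
      linarith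
    have h4 : (K ^ 2 * (M : ℝ) ^ N₁ / (M : ℝ) ^ (Sm + 1)) ^ 2 ≤ ((M : ℝ) ^ N₁) ^ 2 * (K ^ 3 / X) := by
      rw [div_pow, mul_pow, div_le_iff₀ (by positivity)]
      have h5 : ((M : ℝ) ^ N₁) ^ 2 * (K ^ 3 / X) * (K * X) ≤
          ((M : ℝ) ^ N₁) ^ 2 * (K ^ 3 / X) * ((M : ℝ) ^ (Sm + 1)) ^ 2 :=
        mul_le_mul_of_nonneg_left h3.le (by positivity)
      have h6 : ((M : ℝ) ^ N₁) ^ 2 * (K ^ 3 / X) * (K * X) = (K ^ 2) ^ 2 * ((M : ℝ) ^ N₁) ^ 2 := by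
        field_simp
      rw [← h6]
      exact h5
    have h7 : 0 ≤ ((M : ℝ) ^ N₁) ^ 2 := by positivity
    nlinarith
  · have h3 : K ^ 2 * (M : ℝ) ^ N₁ / (M : ℝ) ^ (Sm + 1) ≤ (M : ℝ) ^ N₁ := by
      rw [div_le_iff₀ hD, mul_comm ((M : ℝ) ^ N₁)]
      exact mul_le_mul_of_nonneg_right h.le hB.le
    have h4 : (K ^ 2 * (M : ℝ) ^ N₁ / (M : ℝ) ^ (Sm + 1)) ^ 2 ≤ ((M : ℝ) ^ N₁) ^ 2 :=
      pow_le_pow_left₀ (by positivity) h3 2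
    have h5 : 0 ≤ ((M : ℝ) ^ N₁) ^ 2 * (K ^ 3 / X) := by positivity
    rw [mul_add, mul_one]
    linarith

private theorem c5_pow {M N₁ m : ℕ} (hM : 2 ≤ M) (hN : 1 ≤ N₁) {e K : ℝ} (he : 0 < e) (heN : 1 / (N₁ : ℝ) ≤ e)
    (hK : 1 ≤ K) (hA : (M : ℝ) ^ (N₁ * m) ≤ K ^ 2) :
    ((M : ℝ) ^ (16 / 3 * (m : ℝ) + e * ((N₁ * m : ℕ) : ℝ))) ^ 3 ≤ K ^ (38 * e) := by
  have hM0 : (0 : ℝ) < M := by exact_mod_cast (by omega : 0 < M)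
  have hN0 : (0 : ℝ) < N₁ := by exact_mod_cast hN
  have hK0 : 0 < K := by linarith
  have e1 : ((M : ℝ) ^ (16 / 3 * (m : ℝ) + e * ((N₁ * m : ℕ) : ℝ))) ^ 3 =
      ((M : ℝ) ^ (N₁ * m)) ^ (16 / (N₁ : ℝ) + 3 * e) := by
    rw [← Real.rpow_natCast ((M : ℝ) ^ (16 / 3 * (m : ℝ) + e * ((N₁ * m : ℕ) : ℝ))) 3, ← Real.rpow_mul hM0.le,
      ← Real.rpow_natCast (M : ℝ) (N₁ * m), ← Real.rpow_mul hM0.le]
    congr 1
    push_cast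
    field_simp
  rw [e1]
  have h1 : 0 ≤ 16 / (N₁ : ℝ) + 3 * e := by positivity
  have h2 : ((M : ℝ) ^ (N₁ * m)) ^ (16 / (N₁ : ℝ) + 3 * e) ≤ (K ^ 2) ^ (16 / (N₁ : ℝ) + 3 * e) :=
    Real.rpow_le_rpow (by positivity) hA h1
  refine h2.trans ?_
  rw [← Real.rpow_natCast K 2, ← Real.rpow_mul hK0.le]
  refine Real.rpow_le_rpow_of_exponent_le hK ?_
  have h3 : 16 / (N₁ : ℝ) = 16 * (1 / (N₁ : ℝ)) := by ring
  rw [h3]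
  push_cast
  linarith

private theorem c5_final {N₁ : ℕ} {C C' K e ε T Mx Sg pr Y Bq Z : ℝ} (hC : 0 ≤ C) (hK : 1 ≤ K)
    (he : 40 * e ≤ ε) (hMx : 0 ≤ Mx) (hSg : 0 ≤ Sg) (hY0 : 0 ≤ Y)
    (hY : Y ≤ 32 * C ^ N₁ * Mx * Sg) (hMx3 : Mx ^ 3 ≤ K ^ (38 * e)) (harcs : Sg ^ 3 ≤ 25 * K ^ 2 * pr ^ 2)
    (hpr0 : 0 ≤ pr) (hpr : pr ≤ C' * K ^ (2 + e) * (1 + T))
    (hT2 : (1 + T) ^ 2 ≤ Bq * Z) (hBq : 0 ≤ Bq) (hZ : 0 ≤ Z) :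
    Y ^ 3 ≤ 32768 * C ^ (3 * N₁) * 25 * C' ^ 2 * Bq * (K ^ (6 + ε) * Z) := by
  have hK0 : 0 < K := by linarith
  have hpr2 : pr ^ 2 ≤ C' ^ 2 * (K ^ (2 + e)) ^ 2 * (Bq * Z) := by
    calc pr ^ 2 ≤ (C' * K ^ (2 + e) * (1 + T)) ^ 2 := pow_le_pow_left₀ hpr0 hpr 2
      _ = C' ^ 2 * (K ^ (2 + e)) ^ 2 * (1 + T) ^ 2 := by ring
      _ ≤ C' ^ 2 * (K ^ (2 + e)) ^ 2 * (Bq * Z) := mul_le_mul_of_nonneg_left hT2 (by positivity)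
  have h1 : Y ^ 3 ≤ (32 * C ^ N₁ * Mx * Sg) ^ 3 := pow_le_pow_left₀ hY0 hY 3
  have h2 : (32 * C ^ N₁ * Mx * Sg) ^ 3 = 32768 * C ^ (3 * N₁) * (Mx ^ 3 * Sg ^ 3) := by
    rw [mul_comm 3 N₁, pow_mul]
    ring
  have h3 : Mx ^ 3 * Sg ^ 3 ≤ K ^ (38 * e) * (25 * K ^ 2 * (C' ^ 2 * (K ^ (2 + e)) ^ 2 * (Bq * Z))) := by
    refine mul_le_mul hMx3 (harcs.trans ?_) (by positivity) (by positivity)
    exact mul_le_mul_of_nonneg_left hpr2 (by positivity)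
  have h6 : K ^ (6 + 40 * e) = K ^ (38 * e) * K ^ 2 * (K ^ (2 + e)) ^ 2 := by
    rw [← Real.rpow_natCast K 2, ← Real.rpow_natCast (K ^ (2 + e)) 2, ← Real.rpow_mul hK0.le,
      ← Real.rpow_add hK0, ← Real.rpow_add hK0]
    congr 1
    push_cast
    ring
  have h7 : K ^ (6 + 40 * e) ≤ K ^ (6 + ε) :=
    Real.rpow_le_rpow_of_exponent_le hK (by linarith)
  have h8 : 0 ≤ C ^ (3 * N₁) := pow_nonneg hC _
  calc Y ^ 3 ≤ 32768 * C ^ (3 * N₁) * (Mx ^ 3 * Sg ^ 3) := h1.trans (le_of_eq h2)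
    _ ≤ 32768 * C ^ (3 * N₁) * (K ^ (38 * e) * (25 * K ^ 2 * (C' ^ 2 * (K ^ (2 + e)) ^ 2 * (Bq * Z)))) :=
        mul_le_mul_of_nonneg_left h3 (by positivity)
    _ = 32768 * C ^ (3 * N₁) * 25 * C' ^ 2 * Bq * (K ^ (6 + 40 * e) * Z) := by
        rw [h6]
        ring
    _ ≤ 32768 * C ^ (3 * N₁) * 25 * C' ^ 2 * Bq * (K ^ (6 + ε) * Z) :=
        mul_le_mul_of_nonneg_left (mul_le_mul_of_nonneg_right h7 hZ) (by positivity)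

private theorem c5_meas {X c₀ : ℝ} {v : ℝ → ℝ} (hv : IsWt X v) {R₁ : ℝ}
    (h0 : 0 ≤ c₀ / X) (h : ∀ R ∈ Icc R₁ (R₁ + X), c₀ / X ≤ v R) (f : (ℝ × ℝ) × ℝ → ℝ) (hf : Continuous f)
    (hf0 : ∀ q, 0 ≤ f q) {B : ℝ} (hfB : ∀ q, f q ≤ B) :
    c₀ / X * ∫ q in (Icc (0 : ℝ) 1 ×ˢ Icc (0 : ℝ) 1) ×ˢ Icc R₁ (R₁ + X), f q ≤ ∫ q, f q ∂(mu v) := by
  have hfin : IsProbabilityMeasure (mu v) := mu_prob hv
  have hle : (ENNReal.ofReal (c₀ / X)) • ((volume : Measure ((ℝ × ℝ) × ℝ)).restrict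
      ((Icc (0 : ℝ) 1 ×ˢ Icc (0 : ℝ) 1) ×ˢ Icc R₁ (R₁ + X))) ≤ mu v := by
    have e1 : (volume : Measure ((ℝ × ℝ) × ℝ)) = (volume : Measure (ℝ × ℝ)).prod (volume : Measure ℝ) := rfl
    rw [e1, ← Measure.prod_restrict, ← Measure.prod_smul_right]
    unfold mu
    refine Measure.prod_mono le_rfl ?_
    rw [← withDensity_const]
    refine le_trans (withDensity_mono (g := fun R => ENNReal.ofReal (v R)) ?_) ?_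
    · filter_upwards [ae_restrict_mem measurableSet_Icc] with R hR
      exact ENNReal.ofReal_le_ofReal (h R hR)
    · rw [← restrict_withDensity measurableSet_Icc]
      exact Measure.restrict_le_self
  have hint : Integrable f (mu v) :=
    Integrable.of_bound hf.aestronglyMeasurable B
      (Filter.Eventually.of_forall fun q => by rw [Real.norm_of_nonneg (hf0 q)]; exact hfB q)
  have h1 := integral_mono_measure hle (Filter.Eventually.of_forall hf0) hint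
  rw [integral_smul_measure, ENNReal.toReal_ofReal h0, smul_eq_mul] at h1
  exact h1

theorem sixth_moment {c₁ c₂ ε : ℝ} (hc₁ : 0 < c₁) (hε : 0 < ε) : ∃ C : ℝ, 0 ≤ C ∧
    ∀ (n : ℕ) (X : ℝ), 1 ≤ X → ∀ γ : ℝ → ℝ, Adm c₁ c₂ γ → ∀ a : ℤ × ℤ → ℂ, (∀ k, ‖a k‖ ≤ 1) → ∀ R₁ : ℝ,
      ∫ q in (Icc (0 : ℝ) 1 ×ˢ Icc (0 : ℝ) 1) ×ˢ Icc R₁ (R₁ + X), ‖cs (blk n) a γ q‖ ^ 6 ≤
        C * X * ((2 : ℝ) ^ n) ^ (6 + ε) * (1 + 8 ^ n / X) := by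
  set e : ℝ := min ε 1 / 40 with he
  have he0 : 0 < e := by
    rw [he]
    have : 0 < min ε 1 := lt_min hε one_pos
    positivity
  have heε : 40 * e ≤ ε := by
    rw [he]
    have := min_le_left ε 1
    linarith
  obtain ⟨M, hM, C, hC, hdec⟩ := blk_dec (c₁ := c₁) (c₂ := max c₂ 2) hc₁ he0
  obtain ⟨C', hC', hpairs⟩ := pairs_count he0
  obtain ⟨c₀, hc₀, hwt⟩ := exists_wt
  set N₁ : ℕ := ⌈1 / e⌉₊ with hN₁
  have hN1 : 1 ≤ N₁ := Nat.one_le_iff_ne_zero.2 (Nat.ceil_pos.2 (by positivity)).ne'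
  have hN0 : (0 : ℝ) < N₁ := by exact_mod_cast hN1
  have heN : 1 / (N₁ : ℝ) ≤ e := by
    have h1 : 1 / e ≤ (N₁ : ℝ) := Nat.le_ceil _
    rw [div_le_iff₀ he0] at h1
    rw [div_le_iff₀ hN0]
    linarith
  have hM1 : (1 : ℝ) ≤ M := by exact_mod_cast (by omega : 1 ≤ M)
  set D : ℝ := 32768 * C ^ (3 * N₁) * 25 * C' ^ 2 * (2 + 2 * π ^ 2 * ((M : ℝ) ^ N₁) ^ 2) with hD
  have hC0 : 0 ≤ C := by linarith
  have hD0 : 0 ≤ D := by positivity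
  refine ⟨D / c₀, by positivity, fun n X hX γ hγ a ha R₁ => ?_⟩
  have hX0 : 0 < X := by linarith
  set K : ℝ := (2 : ℝ) ^ n with hK
  have hK1 : 1 ≤ K := one_le_pow₀ (by norm_num)
  have hK0 : 0 < K := by linarith
  have h4 : (4 : ℝ) ^ n = K ^ 2 := by
    rw [hK, ← pow_mul, mul_comm, pow_mul]
    norm_num
  have h8 : (8 : ℝ) ^ n = K ^ 3 := by
    rw [hK, ← pow_mul, mul_comm, pow_mul]
    norm_num
  have hγ' : Adm c₁ (max c₂ 2) γ := ⟨hγ.smooth, hγ.per, hγ.lo, fun θ => (hγ.hi θ).trans (le_max_left _ _)⟩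
  obtain ⟨v, hv, hvlow⟩ := hwt X hX0 R₁
  -- the parameters
  have hπ : (1 : ℝ) ≤ π ^ 2 / 16 * max c₂ 2 := by
    have h1 : (2 : ℝ) ≤ max c₂ 2 := le_max_right _ _
    have h2 : (3 : ℝ) < π := Real.pi_gt_three
    have h3 : (9 : ℝ) ≤ π ^ 2 := by nlinarith
    nlinarith
  set P : ℝ := π ^ 2 / 16 * max c₂ 2 * (K * X) with hP
  have hKX1 : 1 ≤ K * X := by nlinarith
  have hPK : K * X ≤ P := by
    rw [hP]
    nlinarith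
  obtain ⟨Sm, ⟨hS1, hS2⟩, hS3⟩ := c5_choice hM (P := P) (Q := K ^ 2) (by linarith) (one_le_pow₀ hK1)
  set m : ℕ := Sm / N₁ with hm
  have hSle : N₁ * m ≤ Sm := Nat.mul_div_le Sm N₁
  have hSge : Sm + 1 ≤ N₁ * m + N₁ := by
    have h1 := Nat.div_add_mod Sm N₁
    rw [← hm] at h1
    have h2 := Nat.mod_lt Sm (show 0 < N₁ by omega)
    omega
  have hA0 : 0 < (M : ℝ) ^ (N₁ * m) := by positivity
  have hAK : (M : ℝ) ^ (N₁ * m) ≤ K ^ 2 := (pow_le_pow_right₀ hM1 hSle).trans hS2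
  have hAP : ((M : ℝ) ^ (N₁ * m)) ^ 2 ≤ P := by
    rw [← pow_mul, mul_comm (N₁ * m) 2]
    exact (pow_le_pow_right₀ hM1 (by omega)).trans hS1
  have hKX : 1 / (2 ^ n * X) ≤ max c₂ 2 * (2 * π / (8 * (M : ℝ) ^ (N₁ * m))) ^ 2 := by
    rw [← hK]
    have e1 : max c₂ 2 * (2 * π / (8 * (M : ℝ) ^ (N₁ * m))) ^ 2 =
        (π ^ 2 / 16 * max c₂ 2) / ((M : ℝ) ^ (N₁ * m)) ^ 2 := by
      field_simp
      ring
    rw [e1, div_le_div_iff₀ (by positivity) (by positivity), one_mul]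
    exact hAP
  have hdec' := hdec n m N₁ X v γ a hX0 hv hγ' ha hKX
  have harcs := arcs_count n (N := 8 * M ^ (N₁ * m)) (by
    have : 1 ≤ M ^ (N₁ * m) := Nat.one_le_pow _ _ (by omega)
    omega)
  set Sg : ℝ := ∑ j ∈ Finset.range (8 * M ^ (N₁ * m)),
    ((arcSet (blk n) (8 * M ^ (N₁ * m)) j).card : ℝ) ^ (5 / 3 : ℝ) with hSg
  set T : ℝ := 4 * 4 ^ n * (2 * π / ((8 * M ^ (N₁ * m) : ℕ) : ℝ)) with hT
  have hTe : T = π * (K ^ 2 / (M : ℝ) ^ (N₁ * m)) := by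
    rw [hT, h4]
    push_cast
    field_simp
    ring
  have hT0 : 0 ≤ T := by
    rw [hTe]
    positivity
  have hT2 : (1 + T) ^ 2 ≤ (2 + 2 * π ^ 2 * ((M : ℝ) ^ N₁) ^ 2) * (1 + K ^ 3 / X) := by
    have h1 := c5_T hM hK1 hX hPK hSge hS3
    have h2 : T ^ 2 ≤ π ^ 2 * (((M : ℝ) ^ N₁) ^ 2 * (1 + K ^ 3 / X)) := by
      rw [hTe, mul_pow]
      exact mul_le_mul_of_nonneg_left h1 (by positivity)
    have h3 : 0 ≤ K ^ 3 / X := by positivity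
    have h5 : (1 + T) ^ 2 ≤ 2 + 2 * T ^ 2 := by nlinarith [sq_nonneg (1 - T)]
    nlinarith
  have hpr := hpairs n T hT0
  rw [← hK] at hpr
  have hpw := c5_pow (M := M) (N₁ := N₁) (m := m) hM hN1 he0 heN hK1 hAK
  set Mx : ℝ := (M : ℝ) ^ (16 / 3 * (m : ℝ) + e * ((N₁ * m : ℕ) : ℝ)) with hMx
  have hMx0 : 0 ≤ Mx := by positivity
  have hSg0 : 0 ≤ Sg := Finset.sum_nonneg fun j _ => Real.rpow_nonneg (Nat.cast_nonneg _) _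
  -- the integral with respect to `mu v`
  have hJ : ∫ q, ‖cs (blk n) a γ q‖ ^ 6 ∂(mu v) ≤ D * (K ^ (6 + ε) * (1 + K ^ 3 / X)) := by
    rw [← n6_cube]
    rw [h4] at harcs
    exact c5_final hC0 hK1 heε hMx0 hSg0 (n6_nonneg _ _) hdec' hpw harcs (Nat.cast_nonneg _) hpr hT2
      (by positivity) (by positivity)
  have hI := c5_meas (B := ((blk n).card : ℝ) ^ 6) hv (by positivity) hvlow (fun q => ‖cs (blk n) a γ q‖ ^ 6)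
    ((cs_cont (blk n) a γ).norm.pow 6) (fun q => by positivity)
    (fun q => pow_le_pow_left₀ (norm_nonneg _) (cs_norm_le (blk n) ha γ q) 6)
  have hfin := hI.trans hJ
  rw [h8]
  have h9 : c₀ / X * (∫ q in (Icc (0 : ℝ) 1 ×ˢ Icc (0 : ℝ) 1) ×ˢ Icc R₁ (R₁ + X), ‖cs (blk n) a γ q‖ ^ 6) =
      (∫ q in (Icc (0 : ℝ) 1 ×ˢ Icc (0 : ℝ) 1) ×ˢ Icc R₁ (R₁ + X), ‖cs (blk n) a γ q‖ ^ 6) * (c₀ / X) :=
    mul_comm _ _
  rw [h9, ← le_div_iff₀ (by positivity)] at hfin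
  refine hfin.trans (le_of_eq ?_)
  field_simp

end Pool.Agent.Helper22.AC
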