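import Pool.Agent.Helper22.AC.D9

/-!
# AC-D10: the theorem

PROOF of `dim_exc`: for every `s` with `max .. < s ≤ 2` `main_null` and `dimH_le_of_unit`; let `s` tend to the maximum, which is `< 2`
because `4 - 6θ < 2 (2θ - 1)` and `6 - 9θ < 2 (1 - θ)` for `θ > 3/5`.
PROOF of `ae_exc`: for `θ_j = 3/5 + 1/(20 (j+1)) < 2/3` the exceptional set has `dimH < 2`, so `μH[2] = volume` of it is zero
(`hausdorffMeasure_of_dimH_lt`, `hausdorffMeasure_prod_real`); countable union over `j`; `Bd` is monotone in `θ` (`R ≥ 1`, replace `C` by `|C|`).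
-/

open MeasureTheory Real Set Filter Topology

set_option autoImplicit false

namespace Pool.Agent.Helper22.AC

open Pool.Agent.Helper22.AE

private theorem max_bd43 {θ : ℝ} (h1 : 3 / 5 < θ) (h2 : θ < 2 / 3) :
    0 < max ((4 - 6 * θ) / (2 * θ - 1)) ((6 - 9 * θ) / (1 - θ)) ∧
      max ((4 - 6 * θ) / (2 * θ - 1)) ((6 - 9 * θ) / (1 - θ)) < 2 := by
  constructor
  · refine lt_max_of_lt_right ?_
    apply div_pos <;> linarith
  · refine max_lt ?_ ?_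
    · rw [div_lt_iff₀ (by linarith)]
      linarith
    · rw [div_lt_iff₀ (by linarith)]
      linarith

theorem dim_exc {H : ℝ → ℝ} (hH : IsSupp H) (h3 : ContDiff ℝ 3 H) {θ : ℝ} (h1 : 3 / 5 < θ) (h2 : θ < 2 / 3) :
    dimH {c : ℝ × ℝ | ¬ Bd H c θ} ≤ ENNReal.ofReal (max ((4 - 6 * θ) / (2 * θ - 1)) ((6 - 9 * θ) / (1 - θ))) := by
  obtain ⟨hM0, hM2⟩ := max_bd43 h1 h2
  have hle1 := le_max_left ((4 - 6 * θ) / (2 * θ - 1)) ((6 - 9 * θ) / (1 - θ))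
  have hle2 := le_max_right ((4 - 6 * θ) / (2 * θ - 1)) ((6 - 9 * θ) / (1 - θ))
  obtain ⟨M, hM⟩ : ∃ M, M = max ((4 - 6 * θ) / (2 * θ - 1)) ((6 - 9 * θ) / (1 - θ)) := ⟨_, rfl⟩
  rw [← hM] at hM0 hM2 hle1 hle2 ⊢
  have hlim : Tendsto (fun k : ℕ => M + (2 - M) * (1 / ((k : ℝ) + 1))) atTop (𝓝 (M + (2 - M) * 0)) :=
    (tendsto_one_div_add_atTop_nhds_zero_nat.const_mul (2 - M)).const_add M
  rw [mul_zero, add_zero] at hlim
  have hlim2 := (ENNReal.continuous_ofReal.tendsto M).comp hlim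
  refine ge_of_tendsto' hlim2 fun k => ?_
  have hk : 0 < 1 / ((k : ℝ) + 1) := by positivity
  have hk1 : 1 / ((k : ℝ) + 1) ≤ 1 := by
    rw [div_le_one (by positivity)]
    have : (0 : ℝ) ≤ k := Nat.cast_nonneg k
    linarith
  have hs1 : M < M + (2 - M) * (1 / ((k : ℝ) + 1)) := by
    have : 0 < (2 - M) * (1 / ((k : ℝ) + 1)) := mul_pos (by linarith) hk
    linarith
  have hs2 : M + (2 - M) * (1 / ((k : ℝ) + 1)) ≤ 2 := by
    have : (2 - M) * (1 / ((k : ℝ) + 1)) ≤ (2 - M) * 1 :=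
      mul_le_mul_of_nonneg_left hk1 (by linarith)
    linarith
  exact dimH_le_of_unit (by linarith)
    (main_null hH h3 h1 h2 (lt_of_le_of_lt hle1 hs1) (lt_of_le_of_lt hle2 hs1) hs2)

theorem ae_exc {H : ℝ → ℝ} (hH : IsSupp H) (h3 : ContDiff ℝ 3 H) :
    ∀ᵐ c : ℝ × ℝ, ∀ ε : ℝ, 0 < ε → Bd H c (3 / 5 + ε) := by
  have hj : ∀ j : ℕ, ∀ᵐ c : ℝ × ℝ, Bd H c (3 / 5 + 1 / (20 * ((j : ℝ) + 1))) := by
    intro j
    have hj0 : (0 : ℝ) ≤ j := Nat.cast_nonneg j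
    have hp : 0 < 1 / (20 * ((j : ℝ) + 1)) := by positivity
    have hp2 : 1 / (20 * ((j : ℝ) + 1)) ≤ 1 / 20 := by
      apply one_div_le_one_div_of_le (by norm_num)
      linarith
    have h1 : (3 : ℝ) / 5 < 3 / 5 + 1 / (20 * ((j : ℝ) + 1)) := by linarith
    have h2 : 3 / 5 + 1 / (20 * ((j : ℝ) + 1)) < 2 / 3 := by linarith
    have hd := dim_exc hH h3 h1 h2
    obtain ⟨hM0, hM2⟩ := max_bd43 h1 h2
    have hlt : dimH {c : ℝ × ℝ | ¬ Bd H c (3 / 5 + 1 / (20 * ((j : ℝ) + 1)))} < ((2 : NNReal) : ENNReal) := by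
      refine lt_of_le_of_lt hd ?_
      have h2' : ((2 : NNReal) : ENNReal) = ENNReal.ofReal 2 := by
        rw [ENNReal.ofReal]
        simp
      rw [h2']
      exact (ENNReal.ofReal_lt_ofReal_iff (by norm_num)).2 hM2
    have h0 := hausdorffMeasure_of_dimH_lt hlt
    have h0' : (volume : Measure (ℝ × ℝ)) {c : ℝ × ℝ | ¬ Bd H c (3 / 5 + 1 / (20 * ((j : ℝ) + 1)))} = 0 := by
      rw [← hausdorffMeasure_prod_real]
      simpa using h0
    exact h0'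
  have hall := ae_all_iff.2 hj
  filter_upwards [hall] with c hc ε hε
  obtain ⟨j, hjε⟩ := exists_nat_one_div_lt hε
  obtain ⟨C, hC⟩ := hc j
  refine ⟨|C|, fun R hR => (hC R hR).trans ?_⟩
  have hj0 : (0 : ℝ) ≤ j := Nat.cast_nonneg j
  have he : 3 / 5 + 1 / (20 * ((j : ℝ) + 1)) ≤ 3 / 5 + ε := by
    have : 1 / (20 * ((j : ℝ) + 1)) ≤ 1 / ((j : ℝ) + 1) := by
      apply one_div_le_one_div_of_le (by positivity)
      linarith
    linarith
  calc C * R ^ (3 / 5 + 1 / (20 * ((j : ℝ) + 1))) ≤ |C| * R ^ (3 / 5 + 1 / (20 * ((j : ℝ) + 1))) :=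
        mul_le_mul_of_nonneg_right (le_abs_self C) (Real.rpow_nonneg (by linarith) _)
    _ ≤ |C| * R ^ (3 / 5 + ε) :=
        mul_le_mul_of_nonneg_left (Real.rpow_le_rpow_of_exponent_le hR he) (abs_nonneg C)

end Pool.Agent.Helper22.AC
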