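import Pool.Agent.Helper22.AC.Defs
import Pool.Agent.Helper22.AE.P3

/-!
# AC-D1a: Poisson summation and sandwich for a translate of the domain

The versions with centre `c` of `poisson_dom` (AE.P2) and `smc_le`, `le_smc` (AE.P3); their proofs can be copied (private lemmas of P2 and P3
have to be copied too; or make them non private).

PROOF of `poisson_c`: as `poisson_dom` with `f y = smf φ δ G (y 0 - c.1, y 1 - c.2)` (support in a larger box); its Fourier coefficient at `k` is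
`ee (-(k·c))` times the one for `c = 0` (translation invariance of the integral: `integral_sub_right_eq_self` on `Fin 2 → ℝ` or on `ℝ × ℝ`).
Summability: `ft_fhat_summable` (`‖ee‖ = 1`).
PROOF of `smcc_le`, `le_smcc`: the set of `k` with `(k.1 - c.1, k.2 - c.2) ∈ dom G` is finite; `0 ≤ smf ≤ 1`, `smf = 0` outside `dom G'`, `= 1` inside.
-/

open MeasureTheory Real Set Filter Topology

set_option autoImplicit false

namespace Pool.Agent.Helper22.AC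

open Pool.Agent.Helper22.AE

/-- the smoothed number of lattice points of `c + dom G` -/
noncomputable def smcc (φ : ℝ × ℝ → ℝ) (δ : ℝ) (G : ℝ → ℝ) (c : ℝ × ℝ) : ℝ :=
  ∑' k : ℤ × ℤ, smf φ δ G ((k.1 : ℝ) - c.1, (k.2 : ℝ) - c.2)

private lemma ee_cont2 (x y : ℝ) : Continuous fun p : ℝ × ℝ => ee (-(x * p.1 + y * p.2)) := by
  apply ee_cont.comp
  fun_prop

private lemma smf_cont12 {G : ℝ → ℝ} (hG : IsSupp G) {φ : ℝ × ℝ → ℝ} (hφ : IsBump φ) (δ : ℝ) :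
    Continuous (smf φ δ G) := by
  unfold smf
  refine continuous_parametric_integral_of_continuous (f := fun p q : ℝ × ℝ =>
    (δ ^ 2)⁻¹ * φ ((p.1 - q.1) / δ, (p.2 - q.2) / δ)) ?_ (dom_compact hG)
  apply Continuous.mul continuous_const
  apply hφ.cont.comp
  fun_prop

/-- the domain lies in a square -/
private lemma box12 {G : ℝ → ℝ} (hG : IsSupp G) : ∃ B : ℝ, 0 ≤ B ∧ ∀ q ∈ dom G, |q.1| ≤ B ∧ |q.2| ≤ B := by
  obtain ⟨B, hB⟩ := (dom_compact hG).isBounded.exists_norm_le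
  refine ⟨max B 0, le_max_right _ _, fun q hq => ?_⟩
  have h := hB q hq
  rw [Prod.norm_def] at h
  constructor
  · exact (le_max_left _ _).trans (h.trans (le_max_left _ _))
  · exact (le_max_right _ _).trans (h.trans (le_max_left _ _))

private lemma bump_zero12 {φ : ℝ × ℝ → ℝ} (hφ : IsBump φ) {δ : ℝ} (hδ : 0 < δ) {B : ℝ} {p q : ℝ × ℝ}
    (hq : |q.1| ≤ B ∧ |q.2| ≤ B) (hp : B + δ < |p.1| ∨ B + δ < |p.2|) :
    φ ((p.1 - q.1) / δ, (p.2 - q.2) / δ) = 0 := by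
  apply hφ.supp
  have key : ∀ a b : ℝ, |b| ≤ B → B + δ < |a| → 1 < ((a - b) / δ) ^ 2 := by
    intro a b hb ha
    have h1 : δ < |a - b| := by
      have := abs_sub_abs_le_abs_sub a b
      linarith
    have h2 : 1 < |(a - b) / δ| := by
      rw [abs_div, abs_of_pos hδ, lt_div_iff₀ hδ, one_mul]
      exact h1
    rw [← sq_abs]
    exact one_lt_pow₀ h2 (by norm_num)
  rcases hp with hp | hp
  · have := key p.1 q.1 hq.1 hp
    have h2 := sq_nonneg ((p.2 - q.2) / δ)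
    show 1 < ((p.1 - q.1) / δ) ^ 2 + ((p.2 - q.2) / δ) ^ 2
    linarith
  · have := key p.2 q.2 hq.2 hp
    have h2 := sq_nonneg ((p.1 - q.1) / δ)
    show 1 < ((p.1 - q.1) / δ) ^ 2 + ((p.2 - q.2) / δ) ^ 2
    linarith

private lemma inner12 (φ : ℝ × ℝ → ℝ) {δ : ℝ} (hδ : 0 < δ) (x y : ℝ) (q : ℝ × ℝ) :
    ∫ p : ℝ × ℝ, ee (-(x * p.1 + y * p.2)) *
      (((δ ^ 2)⁻¹ * φ ((p.1 - q.1) / δ, (p.2 - q.2) / δ) : ℝ) : ℂ) =
    ee (-(x * q.1 + y * q.2)) * fhat φ (δ * x) (δ * y) := by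
  have h1 := integral_add_left_eq_self (μ := (volume : Measure (ℝ × ℝ)))
    (fun p : ℝ × ℝ => ee (-(x * p.1 + y * p.2)) *
      (((δ ^ 2)⁻¹ * φ ((p.1 - q.1) / δ, (p.2 - q.2) / δ) : ℝ) : ℂ)) q
  have h2 := Measure.integral_comp_smul (volume : Measure (ℝ × ℝ))
    (fun p : ℝ × ℝ => ee (-(x * (q + p).1 + y * (q + p).2)) *
      (((δ ^ 2)⁻¹ * φ (((q + p).1 - q.1) / δ, ((q + p).2 - q.2) / δ) : ℝ) : ℂ)) δ
  rw [← h1]
  have hfin : Module.finrank ℝ (ℝ × ℝ) = 2 := by simp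
  rw [hfin, abs_of_pos (by positivity : 0 < (δ ^ 2)⁻¹)] at h2
  have h3 : (∫ p : ℝ × ℝ, ee (-(x * (q + p).1 + y * (q + p).2)) *
      (((δ ^ 2)⁻¹ * φ (((q + p).1 - q.1) / δ, ((q + p).2 - q.2) / δ) : ℝ) : ℂ)) =
      (δ ^ 2 : ℝ) • ∫ p : ℝ × ℝ, ee (-(x * (q + δ • p).1 + y * (q + δ • p).2)) *
      (((δ ^ 2)⁻¹ * φ (((q + δ • p).1 - q.1) / δ, ((q + δ • p).2 - q.2) / δ) : ℝ) : ℂ) := by
    rw [h2, smul_smul, mul_inv_cancel₀ (by positivity), one_smul]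
  rw [h3]
  unfold fhat
  rw [← integral_const_mul, ← integral_smul]
  congr 1
  funext p
  have e1 : ((q + δ • p).1 - q.1) / δ = p.1 := by
    simp only [Prod.fst_add, Prod.smul_fst, smul_eq_mul]
    field_simp
    ring
  have e2 : ((q + δ • p).2 - q.2) / δ = p.2 := by
    simp only [Prod.snd_add, Prod.smul_snd, smul_eq_mul]
    field_simp
    ring
  have e3 : -(x * (q + δ • p).1 + y * (q + δ • p).2) =
      -(x * q.1 + y * q.2) + -(δ * x * p.1 + δ * y * p.2) := by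
    simp only [Prod.fst_add, Prod.smul_fst, Prod.snd_add, Prod.smul_snd, smul_eq_mul]
    ring
  rw [e1, e2, e3, ee_add]
  have e4 : (((δ ^ 2)⁻¹ * φ (p.1, p.2) : ℝ) : ℂ) = ((δ ^ 2 : ℝ) : ℂ)⁻¹ * (φ p : ℂ) := by
    rw [Complex.ofReal_mul, Complex.ofReal_inv]
  rw [e4, Complex.real_smul]
  have h0 : ((δ ^ 2 : ℝ) : ℂ) ≠ 0 := by
    rw [Complex.ofReal_ne_zero]
    positivity
  field_simp

private lemma four12 {G : ℝ → ℝ} (hG : IsSupp G) {φ : ℝ × ℝ → ℝ} (hφ : IsBump φ) {δ : ℝ} (hδ : 0 < δ)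
    (k : ℤ × ℤ) :
    ∫ p : ℝ × ℝ, ee (-((k.1 : ℝ) * p.1 + (k.2 : ℝ) * p.2)) * ((smf φ δ G p : ℝ) : ℂ) =
      ft G k * fhat φ (δ * k.1) (δ * k.2) := by
  set F : (ℝ × ℝ) → (ℝ × ℝ) → ℂ := fun p q => ee (-((k.1 : ℝ) * p.1 + (k.2 : ℝ) * p.2)) *
      (((δ ^ 2)⁻¹ * φ ((p.1 - q.1) / δ, (p.2 - q.2) / δ) : ℝ) : ℂ) with hF
  have hFc : Continuous (Function.uncurry F) := by
    rw [hF]
    unfold Function.uncurry
    apply Continuous.mul
    · exact (ee_cont2 (k.1 : ℝ) (k.2 : ℝ)).comp continuous_fst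
    · apply Complex.continuous_ofReal.comp
      apply Continuous.mul continuous_const
      apply hφ.cont.comp
      fun_prop
  have h1 : ∀ p : ℝ × ℝ, ee (-((k.1 : ℝ) * p.1 + (k.2 : ℝ) * p.2)) * ((smf φ δ G p : ℝ) : ℂ) =
      ∫ q in dom G, F p q := by
    intro p
    rw [hF]
    unfold smf
    rw [← integral_complex_ofReal, ← integral_const_mul]
  simp_rw [h1]
  obtain ⟨B, hB0, hB⟩ := box12 hG
  have hint : Integrable (Function.uncurry F) ((volume : Measure (ℝ × ℝ)).prod (volume.restrict (dom G))) := by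
    have e : ((volume : Measure (ℝ × ℝ)).prod (volume.restrict (dom G))) =
        ((volume : Measure (ℝ × ℝ)).prod volume).restrict (Set.univ ×ˢ dom G) := by
      rw [← Measure.prod_restrict, Measure.restrict_univ]
    rw [e]
    have hK : IsCompact ((Icc (-(B + δ)) (B + δ) ×ˢ Icc (-(B + δ)) (B + δ)) ×ˢ dom G) :=
      (isCompact_Icc.prod isCompact_Icc).prod (dom_compact hG)
    have h2 : IntegrableOn (Function.uncurry F)
        ((Icc (-(B + δ)) (B + δ) ×ˢ Icc (-(B + δ)) (B + δ)) ×ˢ dom G)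
        ((volume : Measure (ℝ × ℝ)).prod volume) := hFc.continuousOn.integrableOn_compact hK
    refine h2.of_forall_sdiff_eq_zero (MeasurableSet.univ.prod (dom_compact hG).measurableSet) ?_
    rintro ⟨p, q⟩ ⟨hx1, hx2⟩
    have hq : q ∈ dom G := hx1.2
    have hp : ¬ (p ∈ Icc (-(B + δ)) (B + δ) ×ˢ Icc (-(B + δ)) (B + δ)) := fun hp => hx2 ⟨hp, hq⟩
    have hp2 : B + δ < |p.1| ∨ B + δ < |p.2| := by
      by_contra hcon
      rw [not_or, not_lt, not_lt, abs_le, abs_le] at hcon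
      exact hp ⟨hcon.1, hcon.2⟩
    show F p q = 0
    rw [hF]
    simp only [bump_zero12 hφ hδ (hB q hq) hp2, mul_zero, Complex.ofReal_zero]
  rw [integral_integral_swap hint]
  have h3 : ∀ q : ℝ × ℝ, ∫ p : ℝ × ℝ, F p q =
      ee (-((k.1 : ℝ) * q.1 + (k.2 : ℝ) * q.2)) * fhat φ (δ * k.1) (δ * k.2) :=
    fun q => inner12 φ hδ (k.1 : ℝ) (k.2 : ℝ) q
  simp_rw [h3]
  rw [integral_mul_const]
  rfl

private lemma four_c {G : ℝ → ℝ} (hG : IsSupp G) {φ : ℝ × ℝ → ℝ} (hφ : IsBump φ) {δ : ℝ} (hδ : 0 < δ)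
    (c : ℝ × ℝ) (k : ℤ × ℤ) :
    ∫ p : ℝ × ℝ, ee (-((k.1 : ℝ) * p.1 + (k.2 : ℝ) * p.2)) *
        ((smf φ δ G (p.1 - c.1, p.2 - c.2) : ℝ) : ℂ) =
      ft G k * fhat φ (δ * k.1) (δ * k.2) * ee (-((k.1 : ℝ) * c.1 + (k.2 : ℝ) * c.2)) := by
  rw [← four12 hG hφ hδ k, ← integral_mul_const]
  rw [← integral_sub_right_eq_self (μ := (volume : Measure (ℝ × ℝ)))
    (fun p : ℝ × ℝ => ee (-((k.1 : ℝ) * p.1 + (k.2 : ℝ) * p.2)) * ((smf φ δ G p : ℝ) : ℂ) *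
      ee (-((k.1 : ℝ) * c.1 + (k.2 : ℝ) * c.2))) c]
  congr 1
  funext p
  have e1 : p - c = (p.1 - c.1, p.2 - c.2) := rfl
  have e2 : -((k.1 : ℝ) * p.1 + (k.2 : ℝ) * p.2) =
      -((k.1 : ℝ) * (p.1 - c.1) + (k.2 : ℝ) * (p.2 - c.2)) +
        -((k.1 : ℝ) * c.1 + (k.2 : ℝ) * c.2) := by ring
  rw [e1, e2, ee_add]
  ring

theorem poisson_c {G : ℝ → ℝ} (hG : IsSupp G) {φ : ℝ × ℝ → ℝ} (hφ : IsBump φ) {δ : ℝ} (hδ : 0 < δ) (c : ℝ × ℝ) :
    HasSum (fun k : ℤ × ℤ => ft G k * fhat φ (δ * k.1) (δ * k.2) * ee (-((k.1 : ℝ) * c.1 + (k.2 : ℝ) * c.2)))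
      ((smcc φ δ G c : ℝ) : ℂ) := by
  obtain ⟨B, hB0, hB⟩ := box12 hG
  set f : (Fin 2 → ℝ) → ℂ := fun y => ((smf φ δ G (y 0 - c.1, y 1 - c.2) : ℝ) : ℂ) with hf
  have hfc : Continuous f := by
    rw [hf]
    apply Complex.continuous_ofReal.comp
    apply (smf_cont12 hG hφ δ).comp
    fun_prop
  have hf0 : ∀ y : Fin 2 → ℝ, (∃ i, B + δ + (|c.1| + |c.2|) < |y i|) → f y = 0 := by
    rintro y ⟨i, hi⟩
    rw [hf]
    have h1 : smf φ δ G (y 0 - c.1, y 1 - c.2) = 0 := by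
      unfold smf
      apply setIntegral_eq_zero_of_forall_eq_zero
      intro q hq
      have hp : B + δ < |(y 0 - c.1, y 1 - c.2).1| ∨ B + δ < |(y 0 - c.1, y 1 - c.2).2| := by
        have hc1 := abs_nonneg c.1
        have hc2 := abs_nonneg c.2
        fin_cases i
        · left
          have h := abs_sub_abs_le_abs_sub (y 0) c.1
          have hi' : B + δ + (|c.1| + |c.2|) < |y 0| := hi
          show B + δ < |y 0 - c.1|
          linarith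
        · right
          have h := abs_sub_abs_le_abs_sub (y 1) c.2
          have hi' : B + δ + (|c.1| + |c.2|) < |y 1| := hi
          show B + δ < |y 1 - c.2|
          linarith
      rw [bump_zero12 hφ hδ (hB q hq) hp, mul_zero]
    simp only [h1, Complex.ofReal_zero]
  have hcoef : ∀ k : Fin 2 → ℤ, ∫ y, Helper52.Circle.chr k y * f y =
      ft G (k 0, k 1) * fhat φ (δ * k 0) (δ * k 1) *
        ee (-((k 0 : ℝ) * c.1 + (k 1 : ℝ) * c.2)) := by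
    intro k
    rw [← four_c hG hφ hδ c (k 0, k 1)]
    have hmp := (volume_preserving_finTwoArrow ℝ).integral_comp' (f := MeasurableEquiv.finTwoArrow)
      (fun p : ℝ × ℝ => ee (-(((k 0, k 1).1 : ℝ) * p.1 + ((k 0, k 1).2 : ℝ) * p.2)) *
        ((smf φ δ G (p.1 - c.1, p.2 - c.2) : ℝ) : ℂ))
    rw [← hmp]
    congr 1
    funext y
    rw [hf]
    have e1 : (MeasurableEquiv.finTwoArrow y : ℝ × ℝ) = (y 0, y 1) := rfl
    rw [e1, Helper52.Circle.chr_eq]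
    unfold ee
    congr 2
    rw [Fin.sum_univ_two]
    push_cast
    ring
  have hs : Summable (fun k : Fin 2 → ℤ => ∫ y, Helper52.Circle.chr k y * f y) := by
    simp_rw [hcoef]
    have h1 : Summable (fun k : ℤ × ℤ => ft G k * fhat φ (δ * k.1) (δ * k.2) *
        ee (-((k.1 : ℝ) * c.1 + (k.2 : ℝ) * c.2))) := by
      apply Summable.of_norm
      refine (ft_fhat_summable hG hφ hδ).congr fun k => ?_
      rw [norm_mul _ (ee _), ee_norm, mul_one]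
    exact (finTwoArrowEquiv ℤ).summable_iff.mpr h1
  have hP := Helper52.Circle.poisson f hfc (B + δ + (|c.1| + |c.2|)) hf0 hs
  simp_rw [hcoef] at hP
  have h2 : (∑' v : Fin 2 → ℤ, f (Helper52.Circle.toR v)) = ((smcc φ δ G c : ℝ) : ℂ) := by
    unfold smcc
    rw [Complex.ofReal_tsum]
    exact (finTwoArrowEquiv ℤ).tsum_eq (fun k : ℤ × ℤ =>
      ((smf φ δ G ((k.1 : ℝ) - c.1, (k.2 : ℝ) - c.2) : ℝ) : ℂ))
  rw [h2] at hP
  exact (finTwoArrowEquiv ℤ).hasSum_iff.mp hP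

/-- a vector of length at most `δ` has scalar product at most `δ` with a unit vector -/
private lemma dot_le {x y δ : ℝ} (hδ : 0 < δ) (h : x ^ 2 + y ^ 2 ≤ δ ^ 2) (θ : ℝ) : x * cos θ + y * sin θ ≤ δ := by
  have h1 := sin_sq_add_cos_sq θ
  have h2 : (x * cos θ + y * sin θ) ^ 2 ≤ δ ^ 2 := by
    have h3 : (x * cos θ + y * sin θ) ^ 2 = (x ^ 2 + y ^ 2) * (sin θ ^ 2 + cos θ ^ 2) - (x * sin θ - y * cos θ) ^ 2 := by
      ring
    rw [h3, h1]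
    nlinarith [sq_nonneg (x * sin θ - y * cos θ)]
  exact (abs_le_of_sq_le_sq' h2 hδ.le).2

private lemma dom_move {G G' : ℝ → ℝ} {δ : ℝ} (hδ : 0 < δ) (h : ∀ θ, G θ + δ ≤ G' θ) {p q : ℝ × ℝ} (hq : q ∈ dom G)
    (hpq : ((p.1 - q.1) / δ) ^ 2 + ((p.2 - q.2) / δ) ^ 2 ≤ 1) : p ∈ dom G' := by
  intro θ
  have h1 : (p.1 - q.1) ^ 2 + (p.2 - q.2) ^ 2 ≤ δ ^ 2 := by
    rw [div_pow, div_pow, ← add_div, div_le_one (by positivity)] at hpq
    exact hpq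
  have h2 := dot_le hδ h1 θ
  have h3 := hq θ
  have h4 := h θ
  have h5 : p.1 * cos θ + p.2 * sin θ = (q.1 * cos θ + q.2 * sin θ) + ((p.1 - q.1) * cos θ + (p.2 - q.2) * sin θ) := by
    ring
  rw [h5]
  linarith

private lemma bump_le {φ : ℝ × ℝ → ℝ} (hφ : IsBump φ) {x y : ℝ} (h : φ (x, y) ≠ 0) : x ^ 2 + y ^ 2 ≤ 1 := by
  by_contra hcon
  push Not at hcon
  exact h (hφ.supp (x, y) hcon)

/-- the kernel around the point `p` -/
private lemma kern_eq (φ : ℝ × ℝ → ℝ) (δ : ℝ) (p q : ℝ × ℝ) :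
    (δ ^ 2)⁻¹ * φ ((p.1 - q.1) / δ, (p.2 - q.2) / δ) = (δ ^ 2)⁻¹ * φ (δ⁻¹ • (p - q)) := by
  congr 2
  ext
  · simp [div_eq_inv_mul]
  · simp [div_eq_inv_mul]

private lemma kern_int {φ : ℝ × ℝ → ℝ} (hφ : IsBump φ) {δ : ℝ} (hδ : 0 < δ) (p : ℝ × ℝ) :
    ∫ q : ℝ × ℝ, (δ ^ 2)⁻¹ * φ ((p.1 - q.1) / δ, (p.2 - q.2) / δ) = 1 := by
  simp_rw [kern_eq φ δ p]
  rw [MeasureTheory.integral_sub_left_eq_self (fun q : ℝ × ℝ => (δ ^ 2)⁻¹ * φ (δ⁻¹ • q)) volume p,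
    integral_const_mul, MeasureTheory.Measure.integral_comp_smul, hφ.int_one]
  simp
  field_simp

private lemma kern_integrable {φ : ℝ × ℝ → ℝ} (hφ : IsBump φ) {δ : ℝ} (hδ : 0 < δ) (p : ℝ × ℝ) :
    Integrable (fun q : ℝ × ℝ => (δ ^ 2)⁻¹ * φ ((p.1 - q.1) / δ, (p.2 - q.2) / δ)) := by
  by_contra hcon
  have h1 := kern_int hφ hδ p
  rw [integral_undef hcon] at h1
  exact zero_ne_one h1

private lemma kern_nonneg {φ : ℝ × ℝ → ℝ} (hφ : IsBump φ) {δ : ℝ} (hδ : 0 < δ) (p q : ℝ × ℝ) :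
    0 ≤ (δ ^ 2)⁻¹ * φ ((p.1 - q.1) / δ, (p.2 - q.2) / δ) :=
  mul_nonneg (by positivity) (hφ.nonneg _)

private lemma smf_nonneg {φ : ℝ × ℝ → ℝ} (hφ : IsBump φ) {δ : ℝ} (hδ : 0 < δ) (G : ℝ → ℝ) (p : ℝ × ℝ) :
    0 ≤ smf φ δ G p :=
  integral_nonneg (fun q => kern_nonneg hφ hδ p q)

private lemma smf_le_one {φ : ℝ × ℝ → ℝ} (hφ : IsBump φ) {δ : ℝ} (hδ : 0 < δ) (G : ℝ → ℝ) (p : ℝ × ℝ) :
    smf φ δ G p ≤ 1 := by
  rw [← kern_int hφ hδ p]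
  exact setIntegral_le_integral (kern_integrable hφ hδ p) (Filter.Eventually.of_forall (fun q => kern_nonneg hφ hδ p q))

private lemma smf_zero {G G' : ℝ → ℝ} {φ : ℝ × ℝ → ℝ} (hφ : IsBump φ) {δ : ℝ} (hδ : 0 < δ)
    (h : ∀ θ, G θ + δ ≤ G' θ) {p : ℝ × ℝ} (hp : p ∉ dom G') : smf φ δ G p = 0 := by
  apply setIntegral_eq_zero_of_forall_eq_zero
  intro q hq
  by_contra hne
  have h1 : φ ((p.1 - q.1) / δ, (p.2 - q.2) / δ) ≠ 0 := fun h0 => hne (by rw [h0, mul_zero])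
  exact hp (dom_move hδ h hq (bump_le hφ h1))

private lemma smf_one {G G' : ℝ → ℝ} {φ : ℝ × ℝ → ℝ} (hφ : IsBump φ) {δ : ℝ} (hδ : 0 < δ)
    (h : ∀ θ, G θ + δ ≤ G' θ) {p : ℝ × ℝ} (hp : p ∈ dom G) : smf φ δ G' p = 1 := by
  rw [← kern_int hφ hδ p]
  apply setIntegral_eq_integral_of_forall_compl_eq_zero
  intro q hq
  by_contra hne
  have h1 : φ ((p.1 - q.1) / δ, (p.2 - q.2) / δ) ≠ 0 := fun h0 => hne (by rw [h0, mul_zero])
  apply hq
  refine dom_move hδ h hp ?_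
  have h2 := bump_le hφ h1
  have e1 : ((q.1 - p.1) / δ) ^ 2 = ((p.1 - q.1) / δ) ^ 2 := by ring
  have e2 : ((q.2 - p.2) / δ) ^ 2 = ((p.2 - q.2) / δ) ^ 2 := by ring
  rw [e1, e2]
  exact h2

private lemma lat_finite_c (G : ℝ → ℝ) (c : ℝ × ℝ) :
    {k : ℤ × ℤ | ((k.1 : ℝ) - c.1, (k.2 : ℝ) - c.2) ∈ dom G}.Finite := by
  apply Set.Finite.subset (Set.Finite.prod (Set.finite_Icc (-⌈G π - c.1⌉) ⌈G 0 + c.1⌉)
    (Set.finite_Icc (-⌈G (-(π / 2)) - c.2⌉) ⌈G (π / 2) + c.2⌉))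
  intro k hk
  have hk' : ∀ θ : ℝ, ((k.1 : ℝ) - c.1) * cos θ + ((k.2 : ℝ) - c.2) * sin θ ≤ G θ := hk
  have h1 := hk' 0
  have h2 := hk' π
  have h3 := hk' (π / 2)
  have h4 := hk' (-(π / 2))
  simp only [cos_zero, sin_zero, cos_pi, sin_pi, cos_pi_div_two, sin_pi_div_two, cos_neg, sin_neg, mul_one,
    mul_zero, add_zero, zero_add, mul_neg] at h1 h2 h3 h4
  rw [Set.mem_prod, Set.mem_Icc, Set.mem_Icc]
  refine ⟨⟨?_, ?_⟩, ?_, ?_⟩
  · have : (-(⌈G π - c.1⌉ : ℝ)) ≤ k.1 := by linarith [Int.le_ceil (G π - c.1)]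
    exact_mod_cast this
  · have : (k.1 : ℝ) ≤ ⌈G 0 + c.1⌉ := by linarith [Int.le_ceil (G 0 + c.1)]
    exact_mod_cast this
  · have : (-(⌈G (-(π / 2)) - c.2⌉ : ℝ)) ≤ k.2 := by linarith [Int.le_ceil (G (-(π / 2)) - c.2)]
    exact_mod_cast this
  · have : (k.2 : ℝ) ≤ ⌈G (π / 2) + c.2⌉ := by linarith [Int.le_ceil (G (π / 2) + c.2)]
    exact_mod_cast this

private lemma lat_card_c (G : ℝ → ℝ) (c : ℝ × ℝ) :
    (Nat.card {k : ℤ × ℤ // ((k.1 : ℝ) - c.1, (k.2 : ℝ) - c.2) ∈ dom G} : ℝ)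
    = ∑ k ∈ (lat_finite_c G c).toFinset, (1 : ℝ) := by
  rw [Finset.sum_const, nsmul_eq_mul, mul_one]
  have h : Nat.card {k : ℤ × ℤ // ((k.1 : ℝ) - c.1, (k.2 : ℝ) - c.2) ∈ dom G} =
      (lat_finite_c G c).toFinset.card := by
    rw [← Set.ncard_eq_toFinset_card _ (lat_finite_c G c)]
    exact Nat.card_coe_set_eq {k : ℤ × ℤ | ((k.1 : ℝ) - c.1, (k.2 : ℝ) - c.2) ∈ dom G}
  rw [h]

theorem smcc_le {G G' : ℝ → ℝ} (hG : IsSupp G) (hG' : IsSupp G') {φ : ℝ × ℝ → ℝ} (hφ : IsBump φ) {δ : ℝ}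
    (hδ : 0 < δ) (h : ∀ θ, G θ + δ ≤ G' θ) (c : ℝ × ℝ) :
    smcc φ δ G c ≤ (Nat.card {k : ℤ × ℤ // ((k.1 : ℝ) - c.1, (k.2 : ℝ) - c.2) ∈ dom G'} : ℝ) := by
  rw [lat_card_c, smcc, tsum_eq_sum (s := (lat_finite_c G' c).toFinset)]
  · exact Finset.sum_le_sum fun k _ => smf_le_one hφ hδ G _
  · intro k hk
    apply smf_zero hφ hδ h
    intro hmem
    exact hk ((lat_finite_c G' c).mem_toFinset.2 hmem)

theorem le_smcc {G G' : ℝ → ℝ} (hG : IsSupp G) (hG' : IsSupp G') {φ : ℝ × ℝ → ℝ} (hφ : IsBump φ) {δ : ℝ}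
    (hδ : 0 < δ) (h : ∀ θ, G θ + δ ≤ G' θ) (c : ℝ × ℝ) :
    (Nat.card {k : ℤ × ℤ // ((k.1 : ℝ) - c.1, (k.2 : ℝ) - c.2) ∈ dom G} : ℝ) ≤ smcc φ δ G' c := by
  have h1 : ∑ k ∈ (lat_finite_c G c).toFinset, (1 : ℝ) =
      ∑ k ∈ (lat_finite_c G c).toFinset, smf φ δ G' ((k.1 : ℝ) - c.1, (k.2 : ℝ) - c.2) := by
    apply Finset.sum_congr rfl
    intro k hk
    exact (smf_one hφ hδ h ((lat_finite_c G c).mem_toFinset.1 hk)).symm
  rw [lat_card_c, h1, smcc]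
  apply Summable.sum_le_tsum
  · intro k _
    exact smf_nonneg hφ hδ G' _
  · apply summable_of_ne_finset_zero (s := (lat_finite_c (fun θ => G' θ + δ) c).toFinset)
    intro k hk
    apply smf_zero hφ hδ (G' := fun θ => G' θ + δ) (fun θ => le_refl _)
    intro hmem
    exact hk ((lat_finite_c (fun θ => G' θ + δ) c).mem_toFinset.2 hmem)

end Pool.Agent.Helper22.AC
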