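import Pool.Agent.Helper22.AC.Defs
import Pool.Agent.Helper22.AE.C2

/-!
# AC-D2: the block sum with general coefficients

PROOF: copy of `vk_bound` (AE.C2) with `u k` instead of `fhat φ (δ k.1) (δ k.2)`: insert `ft_polar` and `polar_ibp`, exchange the finite sum with the
integrals, take norms inside.
-/

open MeasureTheory Real Set Filter Topology

set_option autoImplicit false

namespace Pool.Agent.Helper22.AC

open Pool.Agent.Helper22.AE

private lemma d2_k0_cont {β : ℝ} (hβ : 0 < β) : Continuous (k0 β) := by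
  unfold k0
  exact continuous_const.div (by fun_prop) (fun α => by positivity)

private lemma d2_k0_nonneg {β : ℝ} (hβ : 0 < β) (α : ℝ) : 0 ≤ k0 β α := by
  unfold k0
  positivity

private lemma d2_fd_cont {β : ℝ} (hβ : 0 < β) : Continuous (fd β) := by
  unfold fd
  exact Continuous.div (by fun_prop) (by fun_prop) (fun α => by positivity)

private lemma d2_deriv_cd {G : ℝ → ℝ} (hG : ContDiff ℝ 2 G) : ContDiff ℝ 1 (deriv G) :=
  ((contDiff_succ_iff_deriv (n := 1)).1 hG).2.2

private lemma d2_rho_cont {G : ℝ → ℝ} (hG : ContDiff ℝ 2 G) : Continuous (rho G) := by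
  unfold rho
  exact hG.continuous.add ((d2_deriv_cd hG).continuous_deriv le_rfl)

private lemma d2_gph_cont {G : ℝ → ℝ} (hG : ContDiff ℝ 2 G) (k : ℤ × ℤ) : Continuous (gph G k) := by
  have h1 := hG.continuous
  have h2 := (d2_deriv_cd hG).continuous
  unfold gph
  fun_prop

private lemma d2_E_cont {G : ℝ → ℝ} (hG : ContDiff ℝ 2 G) (k : ℤ × ℤ) :
    Continuous (fun α : ℝ => ee (-(nk k * gph G k α))) := by
  have h1 := d2_gph_cont hG k
  have h2 := ee_cont
  fun_prop

private lemma d2_ne {n : ℕ} {k : ℤ × ℤ} (hk : k ∈ blk n) : k ≠ 0 := by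
  intro h0
  simp only [blk, Finset.mem_filter] at hk
  have h1 : nk k = 0 := by
    rw [h0]
    simp [nk, cz, Complex.ext_iff]
  have h2 : (0 : ℝ) < 2 ^ n := by positivity
  linarith [hk.2.1]

theorem vk_bound_u {G : ℝ → ℝ} (hG : IsSupp G) (u : ℤ × ℤ → ℂ) (n : ℕ) {β : ℝ} (hβ : 0 < β) :
    ‖∑ k ∈ blk n, ft G k * u k‖ ≤
      β * (∫ α in (-π)..π, k0 β α * ‖∑ k ∈ blk n, u k / (nk k : ℂ) *
        ((rho G (tk k + α) : ℝ) : ℂ) * ee (-(nk k * gph G k α))‖) +
      1 / β * (∫ α in (-π)..π, k0 β α * ‖∑ k ∈ blk n, u k / (nk k : ℂ) ^ 2 * ee (-(nk k * gph G k α))‖) := by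
  have hkc := d2_k0_cont hβ
  have hfc := d2_fd_cont hβ
  have hrc := d2_rho_cont hG.smooth
  have hEc := d2_E_cont hG.smooth
  have hpi := Real.pi_pos
  set S1 : ℝ → ℂ := fun α => ∑ k ∈ blk n, u k / (nk k : ℂ) *
        ((rho G (tk k + α) : ℝ) : ℂ) * ee (-(nk k * gph G k α)) with hS1
  set S2 : ℝ → ℂ := fun α => ∑ k ∈ blk n, u k / (nk k : ℂ) ^ 2 *
        ee (-(nk k * gph G k α)) with hS2
  have hS1c : Continuous S1 := by
    refine continuous_finsetSum _ (fun k _ => ?_)
    refine Continuous.mul (continuous_const.mul ?_) (hEc k)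
    exact Complex.continuous_ofReal.comp (hrc.comp (continuous_const.add continuous_id))
  have hS2c : Continuous S2 := by
    refine continuous_finsetSum _ (fun k _ => ?_)
    exact continuous_const.mul (hEc k)
  -- the exact formula
  have key : ∑ k ∈ blk n, ft G k * u k =
      -(1 / (2 * π * Complex.I)) * (∫ α in (-π)..π, ((β * k0 β α * cos α : ℝ) : ℂ) * S1 α) +
      (1 / (2 * π * Complex.I)) ^ 2 * (∫ α in (-π)..π, ((fd β α : ℝ) : ℂ) * S2 α) := by
    have e1 : (∫ α in (-π)..π, ((β * k0 β α * cos α : ℝ) : ℂ) * S1 α) =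
        ∑ k ∈ blk n, u k / (nk k : ℂ) *
          ∫ α in (-π)..π, ((β * k0 β α * cos α * rho G (tk k + α) : ℝ) : ℂ) * ee (-(nk k * gph G k α)) := by
      have h1 : ∀ α, ((β * k0 β α * cos α : ℝ) : ℂ) * S1 α = ∑ k ∈ blk n,
          u k / (nk k : ℂ) *
          (((β * k0 β α * cos α * rho G (tk k + α) : ℝ) : ℂ) * ee (-(nk k * gph G k α))) := by
        intro α
        rw [hS1]
        simp only [Finset.mul_sum]
        refine Finset.sum_congr rfl (fun k _ => ?_)
        push_cast
        ring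
      simp only [h1]
      rw [intervalIntegral.integral_finsetSum]
      · refine Finset.sum_congr rfl (fun k _ => ?_)
        rw [intervalIntegral.integral_const_mul]
      · intro k _
        refine Continuous.intervalIntegrable ?_ _ _
        refine continuous_const.mul (Continuous.mul ?_ (hEc k))
        refine Complex.continuous_ofReal.comp (Continuous.mul (by fun_prop) ?_)
        exact hrc.comp (continuous_const.add continuous_id)
    have e2 : (∫ α in (-π)..π, ((fd β α : ℝ) : ℂ) * S2 α) =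
        ∑ k ∈ blk n, u k / (nk k : ℂ) ^ 2 *
          ∫ α in (-π)..π, ((fd β α : ℝ) : ℂ) * ee (-(nk k * gph G k α)) := by
      have h1 : ∀ α, ((fd β α : ℝ) : ℂ) * S2 α = ∑ k ∈ blk n,
          u k / (nk k : ℂ) ^ 2 *
          (((fd β α : ℝ) : ℂ) * ee (-(nk k * gph G k α))) := by
        intro α
        rw [hS2]
        simp only [Finset.mul_sum]
        refine Finset.sum_congr rfl (fun k _ => ?_)
        ring
      simp only [h1]
      rw [intervalIntegral.integral_finsetSum]
      · refine Finset.sum_congr rfl (fun k _ => ?_)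
        rw [intervalIntegral.integral_const_mul]
      · intro k _
        refine Continuous.intervalIntegrable ?_ _ _
        exact continuous_const.mul ((Complex.continuous_ofReal.comp hfc).mul (hEc k))
    rw [e1, e2, Finset.mul_sum, Finset.mul_sum, ← Finset.sum_add_distrib]
    refine Finset.sum_congr rfl (fun k hk => ?_)
    have hk0 := d2_ne hk
    have hnk : (nk k : ℂ) ≠ 0 := by exact_mod_cast (nk_pos hk0).ne'
    have hpi' : (π : ℂ) ≠ 0 := by exact_mod_cast hpi.ne'
    have hI := Complex.I_ne_zero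
    rw [ft_polar hG hk0, polar_ibp hG hk0 hβ]
    field_simp
    ring
  have hn1 : ‖∫ α in (-π)..π, ((β * k0 β α * cos α : ℝ) : ℂ) * S1 α‖ ≤
      β * ∫ α in (-π)..π, k0 β α * ‖S1 α‖ := by
    rw [← intervalIntegral.integral_const_mul]
    refine (intervalIntegral.norm_integral_le_integral_norm (by linarith)).trans ?_
    refine intervalIntegral.integral_mono_on (by linarith) ?_ ?_ ?_
    · refine Continuous.intervalIntegrable ?_ _ _
      exact ((Complex.continuous_ofReal.comp (by fun_prop)).mul hS1c).norm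
    · refine Continuous.intervalIntegrable ?_ _ _
      exact continuous_const.mul (hkc.mul hS1c.norm)
    · intro α _
      have h0 := d2_k0_nonneg hβ α
      rw [norm_mul, Complex.norm_real, Real.norm_eq_abs, abs_mul, abs_mul, abs_of_pos hβ, abs_of_nonneg h0]
      have hc := Real.abs_cos_le_one α
      have h1 : β * k0 β α * |cos α| ≤ β * k0 β α * 1 :=
        mul_le_mul_of_nonneg_left hc (mul_nonneg hβ.le h0)
      calc β * k0 β α * |cos α| * ‖S1 α‖ ≤ (β * k0 β α * 1) * ‖S1 α‖ :=
            mul_le_mul_of_nonneg_right h1 (norm_nonneg _)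
        _ = β * (k0 β α * ‖S1 α‖) := by ring
  have hn2 : ‖∫ α in (-π)..π, ((fd β α : ℝ) : ℂ) * S2 α‖ ≤
      3 / β * ∫ α in (-π)..π, k0 β α * ‖S2 α‖ := by
    rw [← intervalIntegral.integral_const_mul]
    refine (intervalIntegral.norm_integral_le_integral_norm (by linarith)).trans ?_
    refine intervalIntegral.integral_mono_on (by linarith) ?_ ?_ ?_
    · refine Continuous.intervalIntegrable ?_ _ _
      exact ((Complex.continuous_ofReal.comp hfc).mul hS2c).norm
    · refine Continuous.intervalIntegrable ?_ _ _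
      exact continuous_const.mul (hkc.mul hS2c.norm)
    · intro α _
      rw [norm_mul, Complex.norm_real, Real.norm_eq_abs]
      calc |fd β α| * ‖S2 α‖ ≤ (3 / β * k0 β α) * ‖S2 α‖ :=
            mul_le_mul_of_nonneg_right (fd_le hβ α) (norm_nonneg _)
        _ = 3 / β * (k0 β α * ‖S2 α‖) := by ring
  have hI1 : 0 ≤ ∫ α in (-π)..π, k0 β α * ‖S1 α‖ :=
    intervalIntegral.integral_nonneg (by linarith)
      (fun α _ => mul_nonneg (d2_k0_nonneg hβ α) (norm_nonneg _))
  have hI2 : 0 ≤ ∫ α in (-π)..π, k0 β α * ‖S2 α‖ :=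
    intervalIntegral.integral_nonneg (by linarith)
      (fun α _ => mul_nonneg (d2_k0_nonneg hβ α) (norm_nonneg _))
  have hc1 : ‖-(1 / (2 * π * Complex.I))‖ ≤ 1 := by
    rw [norm_neg, norm_div, norm_mul, norm_mul, Complex.norm_I, Complex.norm_real, norm_one,
      Real.norm_eq_abs, abs_of_pos hpi, Complex.norm_ofNat, mul_one]
    rw [div_le_one (by positivity)]
    linarith [Real.pi_gt_three]
  have hc2 : ‖(1 / (2 * π * Complex.I)) ^ 2‖ * 3 ≤ 1 := by
    rw [norm_pow, norm_div, norm_mul, norm_mul, Complex.norm_I, Complex.norm_real, norm_one,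
      Real.norm_eq_abs, abs_of_pos hpi, Complex.norm_ofNat, mul_one]
    have h3 : 1 / (2 * π) ≤ 1 / 6 := one_div_le_one_div_of_le (by norm_num) (by linarith [Real.pi_gt_three])
    have h4 : 0 ≤ 1 / (2 * π) := by positivity
    nlinarith
  rw [key]
  refine (norm_add_le _ _).trans ?_
  rw [norm_mul, norm_mul]
  refine add_le_add ?_ ?_
  · calc ‖-(1 / (2 * π * Complex.I))‖ * ‖∫ α in (-π)..π, ((β * k0 β α * cos α : ℝ) : ℂ) * S1 α‖
        ≤ 1 * (β * ∫ α in (-π)..π, k0 β α * ‖S1 α‖) :=
          mul_le_mul hc1 hn1 (norm_nonneg _) zero_le_one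
      _ = β * ∫ α in (-π)..π, k0 β α * ‖S1 α‖ := one_mul _
  · calc ‖(1 / (2 * π * Complex.I)) ^ 2‖ * ‖∫ α in (-π)..π, ((fd β α : ℝ) : ℂ) * S2 α‖
        ≤ ‖(1 / (2 * π * Complex.I)) ^ 2‖ * (3 / β * ∫ α in (-π)..π, k0 β α * ‖S2 α‖) :=
          mul_le_mul_of_nonneg_left hn2 (norm_nonneg _)
      _ = (‖(1 / (2 * π * Complex.I)) ^ 2‖ * 3) * (1 / β * ∫ α in (-π)..π, k0 β α * ‖S2 α‖) := by ring
      _ ≤ 1 * (1 / β * ∫ α in (-π)..π, k0 β α * ‖S2 α‖) :=
          mul_le_mul_of_nonneg_right hc2 (by positivity)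
      _ = 1 / β * ∫ α in (-π)..π, k0 β α * ‖S2 α‖ := one_mul _

end Pool.Agent.Helper22.AC
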