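import Pool.Agent.Helper22.AC.D2
import Pool.Agent.Helper22.AE.C3
import Pool.Agent.Helper22.AE.C4
import Pool.Agent.Helper22.AE.G6
import Pool.Agent.Helper22.AE.P1
import Pool.Agent.Helper22.AE.D3

/-!
# AC-D3: the block sum in terms of sums with deterministic weights

PROOF of `VKc_le`. `K = 2^n`, `β = (R₀ K)^(-1/2)`, `G = R H + σ δ`. `vk_bound_u` with `u k = fhat φ (δ k.1) (δ k.2) ee (-(k·c))`.
`gph G k α = R gph H k α + σ δ cos α` (`gph_affine`), `gph H k α = ga H α (tk k)` (by definition), `rho G = R rho H + σ δ` (`rho_affine`). Put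
`w k = (K / nk k) fhat φ (δ k.1) (δ k.2) ee (-(nk k σ δ cos α))` for `k ∈ blk n`, zero otherwise (norm `≤ 1`: `nk k ≥ K`, `fhat_le_one`). Then
`∑ u/nk · rho G · E = (1/K) (R C₀ cs[w rho H(tk + α)/C₀] + σ δ cs[w])`, `∑ u/nk² · E = (1/K²) cs[w K/nk]` with `cs[·]` at `(c, R)` and `γ = ga H α`
(the phase of `cs` is `-(k·c + R nk k ga H α (tk k))`), `C₀ ≥ |rho H|` (`gph_bdd` in AE.C4). So with the three weights
`b 0 = w rho H(tk + α)/C₀`, `b 1 = w`, `b 2 = w K/nk`: `‖VKc‖ ≤ β (R C₀/K) ∫k0‖cs b0‖ + β (1/K) ∫k0 ‖cs b1‖ + (1/(β K²)) ∫k0‖cs b2‖`, and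
`β R/K ≤ 2 R₀^(1/2) K^(-3/2)`, `β/K ≤ R₀^(1/2)K^(-3/2)`, `1/(β K²) = R₀^(1/2) K^(-3/2)`. All weights are continuous in `α` and do not depend on
`R`, `c`. (Model: `base_types` in AE.C5.)
PROOF of `VKc_trivial`: `VKc_le`, `‖cs‖ ≤ #blk n ≤ 25·4^n` (`blk_card` in AE.D3), `∫ k0 ≤ 20` (`k0_int` in AE.C1).
-/

open MeasureTheory Real Set Filter Topology

set_option autoImplicit false

namespace Pool.Agent.Helper22.AC

open Pool.Agent.Helper22.AE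

private lemma d3_k0_cont {β : ℝ} (hβ : 0 < β) : Continuous (k0 β) := by
  unfold k0
  refine continuous_const.div (by fun_prop) fun α => ?_
  positivity

private lemma d3_k0_nonneg {β : ℝ} (hβ : 0 < β) (α : ℝ) : 0 ≤ k0 β α := by
  unfold k0
  positivity

private lemma d3_deriv {H : ℝ → ℝ} (hH : ContDiff ℝ 2 H) : ContDiff ℝ 1 (deriv H) := by
  have h := (contDiff_succ_iff_deriv (n := 1) (f := H)).1 (by
    rw [one_add_one_eq_two]; exact hH)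
  exact h.2.2

private lemma d3_rho_cont {H : ℝ → ℝ} (hH : ContDiff ℝ 2 H) : Continuous (rho H) := by
  have h2 : Continuous (deriv (deriv H)) := (d3_deriv hH).continuous_deriv (le_refl _)
  exact hH.continuous.add h2

private lemma d3_ga_cont {H : ℝ → ℝ} (hH : ContDiff ℝ 2 H) (t : ℝ) : Continuous fun α => ga H α t := by
  unfold ga
  have h1 := hH.continuous
  have h2 := (d3_deriv hH).continuous
  fun_prop

open Classical in
/-- the common weight -/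
private noncomputable def d3q (φ : ℝ × ℝ → ℝ) (n : ℕ) (δ σ α : ℝ) (k : ℤ × ℤ) : ℂ :=
  if k ∈ blk n then ((2 ^ n / nk k : ℝ) : ℂ) * fhat φ (δ * k.1) (δ * k.2) * ee (-(nk k * (σ * δ * cos α))) else 0

open Classical in
/-- the real multipliers -/
private noncomputable def d3m (H : ℝ → ℝ) (C₀ : ℝ) (n : ℕ) (i : Fin 3) (α : ℝ) (k : ℤ × ℤ) : ℝ :=
  match i with
  | 0 => rho H (tk k + α) / C₀
  | 1 => 1
  | 2 => if k ∈ blk n then 2 ^ n / nk k else 0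

private lemma d3_blk {n : ℕ} {k : ℤ × ℤ} (hk : k ∈ blk n) : (2 : ℝ) ^ n ≤ nk k := by
  unfold blk at hk
  rw [Finset.mem_filter] at hk
  exact hk.2.1

private lemma d3_ratio {n : ℕ} {k : ℤ × ℤ} (hk : k ∈ blk n) : 0 ≤ (2 : ℝ) ^ n / nk k ∧ (2 : ℝ) ^ n / nk k ≤ 1 := by
  have h1 := d3_blk hk
  have h2 : (0 : ℝ) < 2 ^ n := by positivity
  exact ⟨div_nonneg h2.le (h2.le.trans h1), (div_le_one (h2.trans_le h1)).2 h1⟩

private lemma d3q_norm {φ : ℝ × ℝ → ℝ} (hφ : IsBump φ) (n : ℕ) (δ σ α : ℝ) (k : ℤ × ℤ) :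
    ‖d3q φ n δ σ α k‖ ≤ 1 := by
  unfold d3q
  split_ifs with hk
  · obtain ⟨h1, h2⟩ := d3_ratio hk
    rw [norm_mul, norm_mul, ee_norm, mul_one, Complex.norm_real, Real.norm_eq_abs, abs_of_nonneg h1]
    exact mul_le_one₀ h2 (norm_nonneg _) (fhat_le_one hφ _ _)
  · rw [norm_zero]; exact zero_le_one

private lemma d3q_cont (φ : ℝ × ℝ → ℝ) (n : ℕ) (δ σ : ℝ) (k : ℤ × ℤ) :
    Continuous (fun α => d3q φ n δ σ α k) := by
  unfold d3q
  split_ifs with hk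
  · exact continuous_const.mul (ee_cont.comp (by fun_prop))
  · exact continuous_const

private lemma d3m_le {H : ℝ → ℝ} {C₀ : ℝ} (hC : 0 < C₀) (hb : ∀ θ, |rho H θ| ≤ C₀) (n : ℕ)
    (i : Fin 3) (α : ℝ) (k : ℤ × ℤ) : |d3m H C₀ n i α k| ≤ 1 := by
  fin_cases i
  · show |rho H (tk k + α) / C₀| ≤ 1
    rw [abs_div, abs_of_pos hC]
    exact (div_le_one hC).2 (hb _)
  · show |(1 : ℝ)| ≤ 1
    rw [abs_one]
  · show |(if k ∈ blk n then 2 ^ n / nk k else 0 : ℝ)| ≤ 1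
    split_ifs with hk
    · obtain ⟨h1, h2⟩ := d3_ratio hk
      rw [abs_of_nonneg h1]
      exact h2
    · rw [abs_zero]; exact zero_le_one

private lemma d3m_cont {H : ℝ → ℝ} (h0 : ContDiff ℝ 2 H) (C₀ : ℝ) (n : ℕ) (i : Fin 3) (k : ℤ × ℤ) :
    Continuous (fun α => d3m H C₀ n i α k) := by
  fin_cases i
  · show Continuous (fun α => rho H (tk k + α) / C₀)
    exact ((d3_rho_cont h0).comp (by fun_prop)).div_const _
  · exact continuous_const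
  · exact continuous_const

private lemma d3_cs_cont {H : ℝ → ℝ} (hH : ContDiff ℝ 2 H) (n : ℕ) {b : ℝ → ℤ × ℤ → ℂ}
    (hb : ∀ k, Continuous fun α => b α k) (q : (ℝ × ℝ) × ℝ) :
    Continuous fun α => cs (blk n) (b α) (ga H α) q := by
  unfold cs Fk
  refine continuous_finsetSum _ fun k _ => (hb k).mul (ee_cont.comp ?_)
  have h1 := d3_ga_cont hH (tk k)
  fun_prop

/-- the powers of `R₀` and `2^n` -/
private lemma d3_pow {R₀ : ℝ} (hR : 1 ≤ R₀) (n : ℕ) :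
    (R₀ * 2 ^ n) ^ (-(1 / 2 : ℝ)) * (R₀ / 2 ^ n) = R₀ ^ (1 / 2 : ℝ) * (2 : ℝ) ^ (-(3 / 2 : ℝ) * n) ∧
      1 / (R₀ * 2 ^ n) ^ (-(1 / 2 : ℝ)) * (1 / 4 ^ n) = R₀ ^ (1 / 2 : ℝ) * (2 : ℝ) ^ (-(3 / 2 : ℝ) * n) := by
  have hR0 : 0 < R₀ := by linarith
  have h2 : (0 : ℝ) < 2 := by norm_num
  have e1 : (R₀ * 2 ^ n) ^ (-(1 / 2 : ℝ)) = R₀ ^ (-(1 / 2 : ℝ)) * (2 : ℝ) ^ (-(1 / 2 : ℝ) * n) := by
    rw [Real.mul_rpow hR0.le (by positivity), ← Real.rpow_natCast (2 : ℝ) n, ← Real.rpow_mul h2.le]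
    congr 2
    ring
  have e2 : (1 : ℝ) / 2 ^ n = (2 : ℝ) ^ (-(n : ℝ)) := by
    rw [Real.rpow_neg h2.le, Real.rpow_natCast, one_div]
  have e3 : (1 : ℝ) / 4 ^ n = (2 : ℝ) ^ (-(2 * (n : ℝ))) := by
    rw [Real.rpow_neg h2.le, Real.rpow_mul h2.le, Real.rpow_natCast, one_div]
    norm_num
  have e4 : R₀ ^ (-(1 / 2 : ℝ)) * R₀ = R₀ ^ (1 / 2 : ℝ) := by
    conv_lhs => rw [← Real.rpow_one R₀, ← Real.rpow_mul hR0.le, ← Real.rpow_add hR0]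
    norm_num
  constructor
  · have e5 : R₀ / 2 ^ n = R₀ * (2 : ℝ) ^ (-(n : ℝ)) := by rw [div_eq_mul_one_div, e2]
    rw [e1, e5]
    calc R₀ ^ (-(1 / 2 : ℝ)) * (2 : ℝ) ^ (-(1 / 2 : ℝ) * n) * (R₀ * (2 : ℝ) ^ (-(n : ℝ)))
        = (R₀ ^ (-(1 / 2 : ℝ)) * R₀) * ((2 : ℝ) ^ (-(1 / 2 : ℝ) * n) * (2 : ℝ) ^ (-(n : ℝ))) := by ring
      _ = _ := by
        rw [e4, ← Real.rpow_add h2]
        congr 2
        ring
  · rw [e1, e3, one_div, mul_inv, ← Real.rpow_neg hR0.le, ← Real.rpow_neg h2.le, neg_neg, mul_assoc,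
      ← Real.rpow_add h2]
    congr 2
    ring

theorem VKc_le {H : ℝ → ℝ} (hH : IsSupp H) {φ : ℝ × ℝ → ℝ} (hφ : IsBump φ) : ∃ C : ℝ, 0 < C ∧
    ∀ R₀ : ℝ, 1 ≤ R₀ → ∀ n : ℕ, ∀ δ ∈ Icc (0 : ℝ) 1, ∀ σ : ℝ, (σ = 1 ∨ σ = -1) → ∃ b : Fin 3 → ℝ → ℤ × ℤ → ℂ,
      (∀ i k, Continuous fun α => b i α k) ∧ (∀ i α k, ‖b i α k‖ ≤ 1) ∧
      ∀ R ∈ Icc R₀ (2 * R₀), IsSupp (fun θ => R * H θ + σ * δ) → ∀ c : ℝ × ℝ,
        ‖VKc φ (fun θ => R * H θ + σ * δ) δ n c‖ ≤ C * R₀ ^ (1 / 2 : ℝ) * (2 : ℝ) ^ (-(3 / 2 : ℝ) * n) *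
          ∑ i, ∫ α in (-π)..π, k0 ((R₀ * 2 ^ n) ^ (-(1 / 2 : ℝ))) α * ‖cs (blk n) (b i α) (ga H α) (c, R)‖ := by
  obtain ⟨C₀, hC₀, hbd⟩ := gph_bdd hH.smooth hH.per
  have hrho : ∀ θ, |rho H θ| ≤ C₀ := fun θ => (hbd θ).2.2.1
  refine ⟨2 * (C₀ + 1), by positivity, ?_⟩
  intro R₀ hR₀ n δ hδ σ hσ
  have hσ1 : |σ * δ| ≤ 1 := by
    rw [abs_mul, abs_of_nonneg hδ.1]
    rcases hσ with h | h
    · rw [h, abs_one, one_mul]; exact hδ.2
    · rw [h, abs_neg, abs_one, one_mul]; exact hδ.2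
  let b : Fin 3 → ℝ → ℤ × ℤ → ℂ := fun i α k => d3q φ n δ σ α k * ((d3m H C₀ n i α k : ℝ) : ℂ)
  have hbc : ∀ i k, Continuous fun α => b i α k := fun i k =>
    (d3q_cont φ n δ σ k).mul (Complex.continuous_ofReal.comp (d3m_cont hH.smooth C₀ n i k))
  refine ⟨b, hbc, ?_, ?_⟩
  · intro i α k
    show ‖d3q φ n δ σ α k * ((d3m H C₀ n i α k : ℝ) : ℂ)‖ ≤ 1
    rw [norm_mul, Complex.norm_real, Real.norm_eq_abs]
    exact mul_le_one₀ (d3q_norm hφ n δ σ α k) (abs_nonneg _) (d3m_le hC₀ hrho n i α k)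
  intro R hR hG c
  have hR0 : 0 < R₀ := by linarith
  have hRp : 0 < R := hR0.trans_le hR.1
  set β : ℝ := (R₀ * 2 ^ n) ^ (-(1 / 2 : ℝ)) with hβ
  have hβ0 : 0 < β := by positivity
  set u : ℤ × ℤ → ℂ := fun k => fhat φ (δ * k.1) (δ * k.2) * ee (-((k.1 : ℝ) * c.1 + (k.2 : ℝ) * c.2)) with hu
  have hV : VKc φ (fun θ => R * H θ + σ * δ) δ n c =
      ∑ k ∈ blk n, ft (fun θ => R * H θ + σ * δ) k * u k := by
    unfold VKc
    exact Finset.sum_congr rfl fun k _ => mul_assoc _ _ _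
  have hnk : ∀ k ∈ blk n, (nk k : ℂ) ≠ 0 := by
    intro k hk
    have h1 := d3_blk hk
    have h2 : (0 : ℝ) < 2 ^ n := by positivity
    exact_mod_cast (h2.trans_le h1).ne'
  set S : Fin 3 → ℝ → ℝ := fun i α => ‖cs (blk n) (b i α) (ga H α) (c, R)‖ with hS
  have hSc : ∀ i, Continuous (S i) := fun i => (d3_cs_cont hH.smooth n (hbc i) (c, R)).norm
  have hS0 : ∀ i α, 0 ≤ S i α := fun i α => norm_nonneg _
  have hE : ∀ k α, ee (-(nk k * gph (fun θ => R * H θ + σ * δ) k α)) =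
      ee (-(nk k * (σ * δ * cos α))) * ee (-(R * (nk k * ga H α (tk k)))) := by
    intro k α
    rw [gph_affine hH.smooth, ← ee_add]
    congr 1
    show -(nk k * (R * ga H α (tk k) + σ * δ * cos α)) = _
    ring
  have hE2 : ∀ (k : ℤ × ℤ) (α : ℝ), ee (-((k.1 : ℝ) * c.1 + (k.2 : ℝ) * c.2 + R * Fk (ga H α) k)) =
      ee (-((k.1 : ℝ) * c.1 + (k.2 : ℝ) * c.2)) * ee (-(R * (nk k * ga H α (tk k)))) := by
    intro k α
    rw [← ee_add]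
    congr 1
    unfold Fk
    ring
  have hq : ∀ (α : ℝ), ∀ k ∈ blk n, d3q φ n δ σ α k = ((2 ^ n / nk k : ℝ) : ℂ) * fhat φ (δ * k.1) (δ * k.2) *
      ee (-(nk k * (σ * δ * cos α))) := by
    intro α k hk
    unfold d3q
    rw [if_pos hk]
  -- first sum
  have key1 : ∀ α, ∑ k ∈ blk n, u k / (nk k : ℂ) * ((rho (fun θ => R * H θ + σ * δ) (tk k + α) : ℝ) : ℂ) *
      ee (-(nk k * gph (fun θ => R * H θ + σ * δ) k α)) =
      (1 / 2 ^ n : ℂ) * (((R * C₀ : ℝ) : ℂ) * cs (blk n) (b 0 α) (ga H α) (c, R) +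
        ((σ * δ : ℝ) : ℂ) * cs (blk n) (b 1 α) (ga H α) (c, R)) := by
    intro α
    unfold cs
    rw [Finset.mul_sum, Finset.mul_sum, ← Finset.sum_add_distrib, Finset.mul_sum]
    refine Finset.sum_congr rfl fun k hk => ?_
    rw [hE k α]
    have hE2' := hE2 k α
    simp only at hE2' ⊢
    rw [hE2', rho_affine hH.smooth]
    have e0 : b 0 α k = d3q φ n δ σ α k * ((rho H (tk k + α) / C₀ : ℝ) : ℂ) := rfl
    have e1 : b 1 α k = d3q φ n δ σ α k * ((1 : ℝ) : ℂ) := rfl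
    rw [e0, e1, hq α k hk, hu]
    have h1 := hnk k hk
    have h2 : (C₀ : ℂ) ≠ 0 := by exact_mod_cast hC₀.ne'
    push_cast
    field_simp
  -- second sum
  have key2 : ∀ α, ∑ k ∈ blk n, u k / (nk k : ℂ) ^ 2 * ee (-(nk k * gph (fun θ => R * H θ + σ * δ) k α)) =
      (1 / 4 ^ n : ℂ) * cs (blk n) (b 2 α) (ga H α) (c, R) := by
    intro α
    unfold cs
    rw [Finset.mul_sum]
    refine Finset.sum_congr rfl fun k hk => ?_
    rw [hE k α]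
    have hE2' := hE2 k α
    simp only at hE2' ⊢
    rw [hE2']
    have e2 : b 2 α k = d3q φ n δ σ α k * ((2 ^ n / nk k : ℝ) : ℂ) := by
      show d3q φ n δ σ α k * (((if k ∈ blk n then 2 ^ n / nk k else 0 : ℝ)) : ℂ) = _
      rw [if_pos hk]
    rw [e2, hq α k hk, hu]
    have h1 := hnk k hk
    have h4 : (4 : ℂ) ^ n = 2 ^ n * 2 ^ n := by
      rw [← mul_pow]
      norm_num
    rw [h4]
    push_cast
    field_simp
  have hk0 := d3_k0_cont hβ0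
  have hint : ∀ i, IntervalIntegrable (fun α => k0 β α * S i α) volume (-π) π := fun i =>
    (hk0.mul (hSc i)).intervalIntegrable _ _
  have hI0 : ∀ i, 0 ≤ ∫ α in (-π)..π, k0 β α * S i α := fun i =>
    intervalIntegral.integral_nonneg (by linarith [pi_pos])
      (fun α _ => mul_nonneg (d3_k0_nonneg hβ0 α) (hS0 i α))
  have hππ : -π ≤ π := by linarith [pi_pos]
  -- bound of the first integral
  have B1 : (∫ α in (-π)..π, k0 β α * ‖∑ k ∈ blk n, u k / (nk k : ℂ) *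
      ((rho (fun θ => R * H θ + σ * δ) (tk k + α) : ℝ) : ℂ) *
      ee (-(nk k * gph (fun θ => R * H θ + σ * δ) k α))‖) ≤
      2 * (C₀ + 1) * (R₀ / 2 ^ n) * ((∫ α in (-π)..π, k0 β α * S 0 α) + ∫ α in (-π)..π, k0 β α * S 1 α) := by
    simp only [key1]
    rw [← intervalIntegral.integral_add (hint 0) (hint 1), ← intervalIntegral.integral_const_mul]
    refine intervalIntegral.integral_mono_on hππ ?_ ?_ fun α _ => ?_
    · apply Continuous.intervalIntegrable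
      have c0 := d3_cs_cont hH.smooth n (hbc 0) (c, R)
      have c1 := d3_cs_cont hH.smooth n (hbc 1) (c, R)
      exact hk0.mul (continuous_const.mul ((continuous_const.mul c0).add (continuous_const.mul c1))).norm
    · exact (((hk0.mul (hSc 0)).add (hk0.mul (hSc 1))).const_mul _).intervalIntegrable _ _
    · have n1 : ‖(1 / 2 ^ n : ℂ) * (((R * C₀ : ℝ) : ℂ) * cs (blk n) (b 0 α) (ga H α) (c, R) +
          ((σ * δ : ℝ) : ℂ) * cs (blk n) (b 1 α) (ga H α) (c, R))‖ ≤ 1 / 2 ^ n * (R * C₀ * S 0 α + 1 * S 1 α) := by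
        rw [norm_mul]
        have n2 : ‖(1 / 2 ^ n : ℂ)‖ = 1 / 2 ^ n := by
          rw [norm_div, norm_one, norm_pow, Complex.norm_two]
        rw [n2]
        refine mul_le_mul_of_nonneg_left ?_ (by positivity)
        refine (norm_add_le _ _).trans (add_le_add ?_ ?_)
        · rw [norm_mul, Complex.norm_real, Real.norm_eq_abs, abs_of_pos (mul_pos hRp hC₀)]
        · rw [norm_mul, Complex.norm_real, Real.norm_eq_abs]
          exact mul_le_mul_of_nonneg_right hσ1 (norm_nonneg _)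
      have hk := d3_k0_nonneg hβ0 α
      have s0 := hS0 0 α
      have s1 := hS0 1 α
      have hR2 : R ≤ 2 * R₀ := hR.2
      have n3 : R * C₀ * S 0 α + 1 * S 1 α ≤ 2 * (C₀ + 1) * R₀ * (S 0 α + S 1 α) := by
        have p1 : R * C₀ ≤ 2 * (C₀ + 1) * R₀ := by nlinarith
        have p2 : 1 ≤ 2 * (C₀ + 1) * R₀ := by nlinarith
        nlinarith [mul_le_mul_of_nonneg_right p1 s0, mul_le_mul_of_nonneg_right p2 s1]
      calc k0 β α * ‖(1 / 2 ^ n : ℂ) * (((R * C₀ : ℝ) : ℂ) * cs (blk n) (b 0 α) (ga H α) (c, R) +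
          ((σ * δ : ℝ) : ℂ) * cs (blk n) (b 1 α) (ga H α) (c, R))‖
          ≤ k0 β α * (1 / 2 ^ n * (2 * (C₀ + 1) * R₀ * (S 0 α + S 1 α))) :=
            mul_le_mul_of_nonneg_left (n1.trans (mul_le_mul_of_nonneg_left n3 (by positivity))) hk
        _ = 2 * (C₀ + 1) * (R₀ / 2 ^ n) * (k0 β α * S 0 α + k0 β α * S 1 α) := by ring
  -- bound of the second integral
  have B2 : (∫ α in (-π)..π, k0 β α * ‖∑ k ∈ blk n, u k / (nk k : ℂ) ^ 2 *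
      ee (-(nk k * gph (fun θ => R * H θ + σ * δ) k α))‖) = 1 / 4 ^ n * ∫ α in (-π)..π, k0 β α * S 2 α := by
    simp only [key2]
    rw [← intervalIntegral.integral_const_mul]
    refine intervalIntegral.integral_congr fun α _ => ?_
    simp only [hS]
    rw [norm_mul, norm_div, norm_one, norm_pow]
    have : ‖(4 : ℂ)‖ = 4 := by norm_num
    rw [this]
    ring
  have hmain := vk_bound_u hG u n hβ0
  rw [hV]
  refine hmain.trans ?_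
  rw [B2, Fin.sum_univ_three]
  obtain ⟨q1, q2⟩ := d3_pow hR₀ n
  set J0 := ∫ α in (-π)..π, k0 β α * S 0 α with hJ0
  set J1 := ∫ α in (-π)..π, k0 β α * S 1 α with hJ1
  set J2 := ∫ α in (-π)..π, k0 β α * S 2 α with hJ2
  have i0 : 0 ≤ J0 := hI0 0
  have i1 : 0 ≤ J1 := hI0 1
  have i2 : 0 ≤ J2 := hI0 2
  have hX : 0 ≤ R₀ ^ (1 / 2 : ℝ) * (2 : ℝ) ^ (-(3 / 2 : ℝ) * n) := by positivity
  calc β * (∫ α in (-π)..π, k0 β α * ‖∑ k ∈ blk n, u k / (nk k : ℂ) *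
      ((rho (fun θ => R * H θ + σ * δ) (tk k + α) : ℝ) : ℂ) *
      ee (-(nk k * gph (fun θ => R * H θ + σ * δ) k α))‖) + 1 / β * (1 / 4 ^ n * J2)
      ≤ β * (2 * (C₀ + 1) * (R₀ / 2 ^ n) * (J0 + J1)) + 1 / β * (1 / 4 ^ n * J2) :=
        add_le_add_left (mul_le_mul_of_nonneg_left B1 hβ0.le) _
    _ = 2 * (C₀ + 1) * (J0 + J1) * (β * (R₀ / 2 ^ n)) + (1 / β * (1 / 4 ^ n)) * J2 := by ring
    _ = (R₀ ^ (1 / 2 : ℝ) * (2 : ℝ) ^ (-(3 / 2 : ℝ) * n)) * (2 * (C₀ + 1) * (J0 + J1) + J2) := by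
        rw [q1, q2]; ring
    _ ≤ (R₀ ^ (1 / 2 : ℝ) * (2 : ℝ) ^ (-(3 / 2 : ℝ) * n)) * (2 * (C₀ + 1) * (J0 + J1 + J2)) := by
        refine mul_le_mul_of_nonneg_left ?_ hX
        nlinarith [mul_nonneg hC₀.le i2]
    _ = 2 * (C₀ + 1) * R₀ ^ (1 / 2 : ℝ) * (2 : ℝ) ^ (-(3 / 2 : ℝ) * n) * (J0 + J1 + J2) := by ring

theorem VKc_trivial {H : ℝ → ℝ} (hH : IsSupp H) {φ : ℝ × ℝ → ℝ} (hφ : IsBump φ) : ∃ C : ℝ, 0 < C ∧
    ∀ R₀ : ℝ, 1 ≤ R₀ → ∀ n : ℕ, ∀ δ ∈ Icc (0 : ℝ) 1, ∀ σ : ℝ, (σ = 1 ∨ σ = -1) →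
      ∀ R ∈ Icc R₀ (2 * R₀), IsSupp (fun θ => R * H θ + σ * δ) → ∀ c : ℝ × ℝ,
        ‖VKc φ (fun θ => R * H θ + σ * δ) δ n c‖ ≤ C * R₀ ^ (1 / 2 : ℝ) * (2 : ℝ) ^ ((n : ℝ) / 2) := by
  obtain ⟨C, hC, h⟩ := VKc_le hH hφ
  refine ⟨C * 1500, by positivity, ?_⟩
  intro R₀ hR₀ n δ hδ σ hσ R hR hG c
  obtain ⟨b, hb1, hb2, hb3⟩ := h R₀ hR₀ n δ hδ σ hσ
  refine (hb3 R hR hG c).trans ?_
  have hR0 : 0 < R₀ := by linarith
  set β : ℝ := (R₀ * 2 ^ n) ^ (-(1 / 2 : ℝ)) with hβ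
  have hβ0 : 0 < β := by positivity
  have hππ : -π ≤ π := by linarith [pi_pos]
  have hk0 := d3_k0_cont hβ0
  have hcs : ∀ i α, ‖cs (blk n) (b i α) (ga H α) (c, R)‖ ≤ 25 * 4 ^ n := by
    intro i α
    unfold cs
    refine (norm_sum_le _ _).trans ?_
    have h1 : ∀ k ∈ blk n, ‖b i α k * ee (-((k.1 : ℝ) * ((c, R) : (ℝ × ℝ) × ℝ).1.1 +
        (k.2 : ℝ) * ((c, R) : (ℝ × ℝ) × ℝ).1.2 + ((c, R) : (ℝ × ℝ) × ℝ).2 * Fk (ga H α) k))‖ ≤ 1 := by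
      intro k _
      rw [norm_mul, ee_norm, mul_one]
      exact hb2 i α k
    refine (Finset.sum_le_sum h1).trans ?_
    rw [Finset.sum_const, nsmul_eq_mul, mul_one]
    exact blk_card n
  have hI : ∀ i, (∫ α in (-π)..π, k0 β α * ‖cs (blk n) (b i α) (ga H α) (c, R)‖) ≤ 500 * 4 ^ n := by
    intro i
    have h1 : (∫ α in (-π)..π, k0 β α * ‖cs (blk n) (b i α) (ga H α) (c, R)‖) ≤
        ∫ α in (-π)..π, k0 β α * (25 * 4 ^ n) := by
      refine intervalIntegral.integral_mono_on hππ ?_ ?_ fun α _ => ?_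
      · exact (hk0.mul (d3_cs_cont hH.smooth n (hb1 i) (c, R)).norm).intervalIntegrable _ _
      · exact (hk0.mul continuous_const).intervalIntegrable _ _
      · exact mul_le_mul_of_nonneg_left (hcs i α) (d3_k0_nonneg hβ0 α)
    rw [intervalIntegral.integral_mul_const] at h1
    have h2 := k0_int hβ0
    have h3 : (∫ α in (-π)..π, k0 β α) * (25 * 4 ^ n) ≤ 20 * (25 * 4 ^ n) :=
      mul_le_mul_of_nonneg_right h2 (by positivity)
    linarith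
  have hsum : ∑ i : Fin 3, (∫ α in (-π)..π, k0 β α * ‖cs (blk n) (b i α) (ga H α) (c, R)‖) ≤ 1500 * 4 ^ n := by
    rw [Fin.sum_univ_three]
    have h0 := hI 0
    have h1 := hI 1
    have h2 := hI 2
    linarith
  have e4 : (4 : ℝ) ^ n = (2 : ℝ) ^ (2 * (n : ℝ)) := by
    rw [Real.rpow_mul (by norm_num), Real.rpow_natCast]
    norm_num
  calc C * R₀ ^ (1 / 2 : ℝ) * (2 : ℝ) ^ (-(3 / 2 : ℝ) * n) *
        ∑ i : Fin 3, (∫ α in (-π)..π, k0 β α * ‖cs (blk n) (b i α) (ga H α) (c, R)‖)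
      ≤ C * R₀ ^ (1 / 2 : ℝ) * (2 : ℝ) ^ (-(3 / 2 : ℝ) * n) * (1500 * 4 ^ n) :=
        mul_le_mul_of_nonneg_left hsum (by positivity)
    _ = C * 1500 * R₀ ^ (1 / 2 : ℝ) * ((2 : ℝ) ^ (-(3 / 2 : ℝ) * n) * (2 : ℝ) ^ (2 * (n : ℝ))) := by
        rw [e4]; ring
    _ = C * 1500 * R₀ ^ (1 / 2 : ℝ) * (2 : ℝ) ^ ((n : ℝ) / 2) := by
        rw [← Real.rpow_add (by norm_num)]
        congr 2
        ring

end Pool.Agent.Helper22.AC
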