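import Pool.Agent.Helper22.AC.Defs
import Pool.Agent.Helper22.AE.C1

/-!
# AC-D4: the phase functions `ga H α` are admissible for small `|sin α|`

PROOF. `H ∈ C³` and `2π`-periodic. `ga H α t = H(t+α) cos α - H'(t+α) sin α` is `C²` in `t`, `2π`-periodic, and
`rho (ga H α) t = rho H (t+α) cos α - (rho H)' (t+α) sin α`, where `rho H = H + H''` is `C¹` and periodic: `m ≤ rho H ≤ A`, `|(rho H)'| ≤ A` with
`m > 0` (continuous periodic functions; positivity `IsSupp.rho_pos`). If `|sin α| ≤ s₀ := min (1/2) (m/(4A))` then `|cos α| ≥ 3/4`, so for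
`cos α > 0`: `rho (ga H α) ≥ (3/4) m - A s₀ ≥ m/2 = c₁`, `≤ 2A = c₂`; for `cos α < 0` the same for `-ga H α`.
-/

open MeasureTheory Real Set Filter Topology

set_option autoImplicit false

namespace Pool.Agent.Helper22.AC

open Pool.Agent.Helper22.AE

private lemma per_min53 {f : ℝ → ℝ} (hf : Continuous f) (hp : Function.Periodic f (2 * π)) :
    ∃ x₀, ∀ x, f x₀ ≤ f x := by
  obtain ⟨x₀, -, h⟩ := (isCompact_Icc : IsCompact (Icc (0 : ℝ) (2 * π))).exists_isMinOn
    ⟨0, left_mem_Icc.2 (by positivity)⟩ hf.continuousOn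
  refine ⟨x₀, fun x => ?_⟩
  obtain ⟨y, hy, e⟩ := hp.exists_mem_Ico₀ (by positivity) x
  rw [e]
  exact h (Ico_subset_Icc_self hy)

private lemma per_bdd53 {f : ℝ → ℝ} (hf : Continuous f) (hp : Function.Periodic f (2 * π)) :
    ∃ A : ℝ, 0 ≤ A ∧ ∀ x, |f x| ≤ A := by
  have hp' : Function.Periodic (fun x => -|f x|) (2 * π) := fun x => by
    show -|f (x + 2 * π)| = -|f x|
    rw [hp x]
  obtain ⟨x₀, h⟩ := per_min53 (f := fun x => -|f x|) (by fun_prop) hp'
  exact ⟨|f x₀|, abs_nonneg _, fun x => by have := h x; linarith⟩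

private lemma per_deriv53 {f : ℝ → ℝ} {c : ℝ} (hp : Function.Periodic f c) :
    Function.Periodic (deriv f) c := by
  intro x
  have h : (fun y => f (y + c)) = f := funext fun y => hp y
  have h2 := deriv_comp_add_const f c x
  rw [h] at h2
  exact h2.symm

private lemma rho_ga53 {H : ℝ → ℝ} (h3 : ContDiff ℝ 3 H) (α t : ℝ) :
    rho (ga H α) t = rho H (t + α) * cos α - deriv (rho H) (t + α) * sin α := by
  have h3' : ContDiff ℝ (2 + 1) H := by
    have e : (2 + 1 : WithTop ℕ∞) = 3 := by norm_num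
    rw [e]
    exact h3
  have hd2 : ContDiff ℝ 2 (deriv H) := (contDiff_succ_iff_deriv.1 h3').2.2
  have hd2' : ContDiff ℝ (1 + 1) (deriv H) := by
    have e : (1 + 1 : WithTop ℕ∞) = 2 := by norm_num
    rw [e]
    exact hd2
  have hd1 : ContDiff ℝ 1 (deriv (deriv H)) := (contDiff_succ_iff_deriv.1 hd2').2.2
  have e0 : Differentiable ℝ H := h3.differentiable (by norm_num)
  have e1 : Differentiable ℝ (deriv H) := hd2.differentiable (by norm_num)
  have e2 : Differentiable ℝ (deriv (deriv H)) := hd1.differentiable (by norm_num)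
  have k1 : deriv (ga H α) = fun t => deriv H (t + α) * cos α - deriv (deriv H) (t + α) * sin α := by
    funext s
    have a1 : HasDerivAt (fun x => H (x + α)) (deriv H (s + α)) s :=
      (e0 (s + α)).hasDerivAt.comp_add_const s α
    have a2 : HasDerivAt (fun x => deriv H (x + α)) (deriv (deriv H) (s + α)) s :=
      (e1 (s + α)).hasDerivAt.comp_add_const s α
    exact ((a1.mul_const (cos α)).sub (a2.mul_const (sin α))).deriv
  have k2 : deriv (deriv (ga H α)) t =
      deriv (deriv H) (t + α) * cos α - deriv (deriv (deriv H)) (t + α) * sin α := by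
    rw [k1]
    have a1 : HasDerivAt (fun x => deriv H (x + α)) (deriv (deriv H) (t + α)) t :=
      (e1 (t + α)).hasDerivAt.comp_add_const t α
    have a2 : HasDerivAt (fun x => deriv (deriv H) (x + α)) (deriv (deriv (deriv H)) (t + α)) t :=
      (e2 (t + α)).hasDerivAt.comp_add_const t α
    exact ((a1.mul_const (cos α)).sub (a2.mul_const (sin α))).deriv
  have k3 : deriv (rho H) (t + α) = deriv H (t + α) + deriv (deriv (deriv H)) (t + α) := by
    have : HasDerivAt (rho H) (deriv H (t + α) + deriv (deriv (deriv H)) (t + α)) (t + α) :=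
      (e0 (t + α)).hasDerivAt.add (e2 (t + α)).hasDerivAt
    exact this.deriv
  rw [k3]
  unfold rho
  rw [k2]
  unfold ga
  ring

private lemma rho_neg53 (f : ℝ → ℝ) (t : ℝ) : rho (fun t => -f t) t = -rho f t := by
  unfold rho
  have h1 : deriv (fun t => -f t) = fun t => -deriv f t := by
    funext s
    exact deriv.fun_neg
  rw [h1]
  have h2 : deriv (fun t => -deriv f t) t = -deriv (deriv f) t := deriv.fun_neg
  rw [h2]
  ring

theorem adm_ga {H : ℝ → ℝ} (hH : IsSupp H) (h3 : ContDiff ℝ 3 H) : ∃ s₀ c₁ c₂ : ℝ, 0 < s₀ ∧ s₀ < 1 ∧ 0 < c₁ ∧ c₁ ≤ c₂ ∧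
    ∀ α : ℝ, |sin α| ≤ s₀ → Adm c₁ c₂ (ga H α) ∨ Adm c₁ c₂ (fun t => -ga H α t) := by
  have h3' : ContDiff ℝ (2 + 1) H := by
    have e : (2 + 1 : WithTop ℕ∞) = 3 := by norm_num
    rw [e]
    exact h3
  have hd2 : ContDiff ℝ 2 (deriv H) := (contDiff_succ_iff_deriv.1 h3').2.2
  have hd2' : ContDiff ℝ (1 + 1) (deriv H) := by
    have e : (1 + 1 : WithTop ℕ∞) = 2 := by norm_num
    rw [e]
    exact hd2
  have hd1 : ContDiff ℝ 1 (deriv (deriv H)) := (contDiff_succ_iff_deriv.1 hd2').2.2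
  have hρ1 : ContDiff ℝ 1 (rho H) := (hH.smooth.of_le (by norm_num)).add hd1
  have hρ1' : ContDiff ℝ (0 + 1) (rho H) := by
    have e : (0 + 1 : WithTop ℕ∞) = 1 := by norm_num
    rw [e]
    exact hρ1
  have hρc : Continuous (rho H) := hρ1.continuous
  have hρd : Continuous (deriv (rho H)) := (contDiff_succ_iff_deriv.1 hρ1').2.2.continuous
  have hρp : Function.Periodic (rho H) (2 * π) := fun x => by
    unfold rho
    rw [hH.per x, per_deriv53 (per_deriv53 hH.per) x]
  obtain ⟨x₀, hx₀⟩ := per_min53 hρc hρp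
  obtain ⟨A₁, hA₁, hA₁b⟩ := per_bdd53 hρc hρp
  obtain ⟨A₂, hA₂, hA₂b⟩ := per_bdd53 hρd (per_deriv53 hρp)
  set m : ℝ := rho H x₀ with hm
  have hm0 : 0 < m := hH.rho_pos x₀
  set A : ℝ := max A₁ A₂ with hA
  have hA1 : ∀ x, rho H x ≤ A := fun x => (le_abs_self _).trans ((hA₁b x).trans (le_max_left _ _))
  have hA2 : ∀ x, |deriv (rho H) x| ≤ A := fun x => (hA₂b x).trans (le_max_right _ _)
  have hmA : m ≤ A := hA1 x₀
  have hA0 : 0 < A := hm0.trans_le hmA
  refine ⟨min (1 / 2) (m / (4 * A)), m / 2, 2 * A, by positivity,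
    lt_of_le_of_lt (min_le_left _ _) (by norm_num), by positivity, by linarith, fun α hα => ?_⟩
  have hs1 : |sin α| ≤ 1 / 2 := hα.trans (min_le_left _ _)
  have hs2 : |sin α| ≤ m / (4 * A) := hα.trans (min_le_right _ _)
  have hs3 : A * |sin α| ≤ m / 4 := by
    rw [le_div_iff₀ (by positivity)] at hs2
    linarith
  have hsm : ContDiff ℝ 2 (ga H α) := by
    have b1 : ContDiff ℝ 2 (fun t => H (t + α)) :=
      hH.smooth.comp (contDiff_id.add contDiff_const)
    have b2 : ContDiff ℝ 2 (fun t => deriv H (t + α)) :=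
      hd2.comp (contDiff_id.add contDiff_const)
    exact (b1.mul contDiff_const).sub (b2.mul contDiff_const)
  have hper : Function.Periodic (ga H α) (2 * π) := fun t => by
    unfold ga
    rw [show t + 2 * π + α = t + α + 2 * π by ring, hH.per, per_deriv53 hH.per]
  have hcross : ∀ x, |deriv (rho H) x * sin α| ≤ m / 4 := fun x => by
    rw [abs_mul]
    exact (mul_le_mul_of_nonneg_right (hA2 x) (abs_nonneg _)).trans hs3
  have hc1 : 3 / 4 ≤ |cos α| := by
    have h1 := sin_sq_add_cos_sq α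
    have h2 : sin α ^ 2 ≤ 1 / 4 := by
      rw [← sq_abs]
      nlinarith [abs_nonneg (sin α)]
    by_contra h
    push Not at h
    have h4 : cos α ^ 2 < 9 / 16 := by
      rw [← sq_abs]
      nlinarith [abs_nonneg (cos α)]
    linarith
  have hc2 : |cos α| ≤ 1 := abs_cos_le_one α
  rcases le_total 0 (cos α) with hc | hc
  · left
    rw [abs_of_nonneg hc] at hc1 hc2
    refine ⟨hsm, hper, fun t => ?_, fun t => ?_⟩
    · rw [rho_ga53 h3]
      have h1 := (abs_le.1 (hcross (t + α))).2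
      have h2 : m ≤ rho H (t + α) := hx₀ _
      nlinarith
    · rw [rho_ga53 h3]
      have h1 := (abs_le.1 (hcross (t + α))).1
      have h2 : rho H (t + α) ≤ A := hA1 _
      have h3 : 0 < rho H (t + α) := hH.rho_pos _
      nlinarith
  · right
    rw [abs_of_nonpos hc] at hc1 hc2
    refine ⟨hsm.neg, fun t => by show -ga H α (t + 2 * π) = -ga H α t; rw [hper t], fun t => ?_,
      fun t => ?_⟩
    · rw [rho_neg53, rho_ga53 h3]
      have h1 := (abs_le.1 (hcross (t + α))).1
      have h2 : m ≤ rho H (t + α) := hx₀ _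
      nlinarith
    · rw [rho_neg53, rho_ga53 h3]
      have h1 := (abs_le.1 (hcross (t + α))).2
      have h2 : rho H (t + α) ≤ A := hA1 _
      have h3 : 0 < rho H (t + α) := hH.rho_pos _
      nlinarith

end Pool.Agent.Helper22.AC
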