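import Pool.Agent.Helper22.AC.B4

/-!
# AC-D5: the weights of the derivatives, continuity

`sw γ Λ n a e` are the weights `a k`, multiplied by `k.1 / 2^(n+1)` if `e.1`, by `k.2 / 2^(n+1)` if `e.2.1`, by `Fk γ k / (Λ 2^(n+1))` if
`e.2.2`, and by zero outside `blk n`.

PROOF of `sw_le`: on `blk n`: `|k.1|, |k.2| ≤ nk k < 2^(n+1)`, `|Fk γ k| ≤ Λ nk k ≤ Λ 2^(n+1)`. PROOF of `sw_cont`: product of continuous functions
(`if` with constant conditions), `Fk (γ α) k = nk k * γ α (tk k)`. PROOF of `cs_cont'`: finite sums of products, `ee_cont`. (`cs_cont` is in B4.)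
-/

open MeasureTheory Real Set Filter Topology

set_option autoImplicit false

namespace Pool.Agent.Helper22.AC

open Pool.Agent.Helper22.AE

open Classical in
/-- the weights of the derivatives -/
noncomputable def sw (γ : ℝ → ℝ) (Λ : ℝ) (n : ℕ) (a : ℤ × ℤ → ℂ) (e : Bool × Bool × Bool) (k : ℤ × ℤ) : ℂ :=
  if k ∈ blk n then
    a k * (((if e.1 then (k.1 : ℝ) / 2 ^ (n + 1) else 1) * (if e.2.1 then (k.2 : ℝ) / 2 ^ (n + 1) else 1) *
      (if e.2.2 then Fk γ k / (Λ * 2 ^ (n + 1)) else 1) : ℝ) : ℂ)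
  else 0

theorem sw_le {γ : ℝ → ℝ} {Λ : ℝ} (hΛ : 1 ≤ Λ) (hγ : ∀ t, |γ t| ≤ Λ) (n : ℕ) {a : ℤ × ℤ → ℂ} (ha : ∀ k, ‖a k‖ ≤ 1)
    (e : Bool × Bool × Bool) (k : ℤ × ℤ) : ‖sw γ Λ n a e k‖ ≤ 1 := by
  unfold sw
  by_cases hk : k ∈ blk n
  · rw [if_pos hk]
    unfold blk at hk
    rw [Finset.mem_filter] at hk
    obtain ⟨-, -, h1⟩ := hk
    have hp : (0 : ℝ) < 2 ^ (n + 1) := by positivity
    have hn0 : 0 ≤ nk k := norm_nonneg _
    have g1 : |(k.1 : ℝ)| ≤ nk k := Complex.abs_re_le_norm (cz k)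
    have g2 : |(k.2 : ℝ)| ≤ nk k := Complex.abs_im_le_norm (cz k)
    have f1 : |(if e.1 then (k.1 : ℝ) / 2 ^ (n + 1) else 1)| ≤ 1 := by
      split_ifs
      · rw [abs_div, abs_of_pos hp, div_le_one hp]
        linarith
      · rw [abs_one]
    have f2 : |(if e.2.1 then (k.2 : ℝ) / 2 ^ (n + 1) else 1)| ≤ 1 := by
      split_ifs
      · rw [abs_div, abs_of_pos hp, div_le_one hp]
        linarith
      · rw [abs_one]
    have f3 : |(if e.2.2 then Fk γ k / (Λ * 2 ^ (n + 1)) else 1)| ≤ 1 := by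
      split_ifs
      · have hq : 0 < Λ * 2 ^ (n + 1) := by positivity
        rw [abs_div, abs_of_pos hq, div_le_one hq]
        unfold Fk
        rw [abs_mul, abs_of_nonneg hn0]
        calc nk k * |γ (tk k)| ≤ 2 ^ (n + 1) * Λ :=
              mul_le_mul h1.le (hγ _) (abs_nonneg _) hp.le
          _ = Λ * 2 ^ (n + 1) := mul_comm _ _
      · rw [abs_one]
    rw [norm_mul, Complex.norm_real, Real.norm_eq_abs, abs_mul, abs_mul]
    have f12 := mul_le_one₀ f1 (abs_nonneg _) f2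
    have f123 := mul_le_one₀ f12 (abs_nonneg _) f3
    exact mul_le_one₀ (ha k) (mul_nonneg (mul_nonneg (abs_nonneg _) (abs_nonneg _)) (abs_nonneg _))
      f123
  · rw [if_neg hk, norm_zero]
    exact zero_le_one

theorem sw_cont {γ : ℝ → ℝ → ℝ} (Λ : ℝ) (n : ℕ) {a : ℝ → ℤ × ℤ → ℂ} (ha : ∀ k, Continuous fun α => a α k)
    (hγ : ∀ t, Continuous fun α => γ α t) (e : Bool × Bool × Bool) (k : ℤ × ℤ) :
    Continuous fun α => sw (γ α) Λ n (a α) e k := by
  by_cases hk : k ∈ blk n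
  · simp only [sw, if_pos hk]
    refine (ha k).mul (Complex.continuous_ofReal.comp ?_)
    refine (Continuous.mul ?_ ?_).mul ?_
    · split_ifs <;> exact continuous_const
    · split_ifs <;> exact continuous_const
    · split_ifs
      · unfold Fk
        exact (continuous_const.mul (hγ (tk k))).div_const _
      · exact continuous_const
  · simp only [sw, if_neg hk]
    exact continuous_const

/-- joint continuity in the parameter and the variables -/
theorem cs_cont' (B : Finset (ℤ × ℤ)) {γ : ℝ → ℝ → ℝ} {a : ℝ → ℤ × ℤ → ℂ} (ha : ∀ k, Continuous fun α => a α k)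
    (hγ : ∀ t, Continuous fun α => γ α t) :
    Continuous (fun p : ℝ × ((ℝ × ℝ) × ℝ) => cs B (a p.1) (γ p.1) p.2) := by
  unfold cs
  refine continuous_finsetSum _ fun k _ => ?_
  refine ((ha k).comp continuous_fst).mul (ee_cont.comp ?_)
  have h1 : Continuous fun p : ℝ × ((ℝ × ℝ) × ℝ) => Fk (γ p.1) k := by
    unfold Fk
    exact continuous_const.mul ((hγ (tk k)).comp continuous_fst)
  have h2 : Continuous fun p : ℝ × ((ℝ × ℝ) × ℝ) =>
      (k.1 : ℝ) * p.2.1.1 + (k.2 : ℝ) * p.2.1.2 := by fun_prop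
  have h3 : Continuous fun p : ℝ × ((ℝ × ℝ) × ℝ) => p.2.2 := by fun_prop
  exact (h2.add (h3.mul h1)).neg

end Pool.Agent.Helper22.AC
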