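import Pool.Agent.Helper22.AC.D5

/-!
# AC-D5b: Sobolev inequality on a box

PROOF of `sob1` (one variable): for a function `g` of class `C¹` and `t ∈ [u, u + h]`, `‖g t‖ ≤ h⁻¹ ∫_[u,u+h] ‖g‖ + ∫_[u,u+h] ‖g'‖`
(`‖g t‖ ≤ ‖g s‖ + ∫ ‖g'‖` for all `s` in the interval, average over `s`). For `g t = ∑ b k ee (-(t ξ k))` (finite sum), `|ξ k| ≤ L / h`:
`g' t = ∑ b k (-2 π i ξ k) ee (-(t ξ k))`, so with `b' k = b k · (ξ k h / L)`: `‖g t‖ ≤ h⁻¹ (∫ ‖∑ b k ee‖ + 2 π L ∫ ‖∑ b' k ee‖)`.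
PROOF of `sobolev_box`: apply `sob1` in the variables `c.1` (`h = 2^(-n)`, `ξ = k.1`, `L = 2`), then `c.2`, then `R` (`ξ = Fk γ k`, `L = 2 Λ`);
total constant `2^(3n) (4π)(4π)(4πΛ) ≤ 2000 Λ 2^(3n)`. On `blk n`: `|k.1|, |k.2| ≤ nk k < 2^(n+1)`, `|Fk γ k| ≤ Λ 2^(n+1)`. The iterated integrals
are the integral over the product (all functions are continuous: `integral_prod`, `setIntegral_prod`; `cs_cont`).
-/

open MeasureTheory Real Set Filter Topology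

set_option autoImplicit false

namespace Pool.Agent.Helper22.AC

open Pool.Agent.Helper22.AE

private lemma sob46 {κ : Type*} (S : Finset κ) (b : κ → ℂ) (ξ : κ → ℝ) {u h L : ℝ} (hh : 0 < h)
    (hL : 1 ≤ 2 * π * L) {t : ℝ} (ht : t ∈ Icc u (u + h)) :
    ‖∑ k ∈ S, b k * ee (-(t * ξ k))‖ ≤ h⁻¹ * (2 * π * L) * ∑ e : Bool,
      ∫ s in Icc u (u + h), ‖∑ k ∈ S, (b k * (((if e then ξ k * h / L else 1) : ℝ) : ℂ)) *
        ee (-(s * ξ k))‖ := by
  have hL0 : 0 < L := by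
    have hπ := Real.pi_pos
    by_contra hcon
    push Not at hcon
    nlinarith
  set g : ℝ → ℂ := fun s => ∑ k ∈ S, b k * ee (-(s * ξ k)) with hg
  set g1 : ℝ → ℂ := fun s => ∑ k ∈ S, (b k * ((ξ k * h / L : ℝ) : ℂ)) * ee (-(s * ξ k)) with hg1
  have hee : ∀ c : ℝ, Continuous fun s : ℝ => ee (-(s * c)) := fun c =>
    ee_cont.comp (by fun_prop)
  have hgc : Continuous g := continuous_finsetSum _ fun k _ => continuous_const.mul (hee _)
  have hg1c : Continuous g1 := continuous_finsetSum _ fun k _ => continuous_const.mul (hee _)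
  set D : ℝ → ℂ := fun s => (-(2 * π * Complex.I) * ((L / h : ℝ) : ℂ)) * g1 s with hD
  have hDc : Continuous D := continuous_const.mul hg1c
  have hder : ∀ s, HasDerivAt g (D s) s := by
    intro s
    have h1 : ∀ k ∈ S, HasDerivAt (fun s : ℝ => b k * ee (-(s * ξ k)))
        (b k * (2 * π * Complex.I * ee (-(s * ξ k)) * ((-(ξ k) : ℝ) : ℂ))) s := by
      intro k _
      apply HasDerivAt.const_mul
      have h2 : HasDerivAt (fun s : ℝ => -(s * ξ k)) (-(ξ k)) s := by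
        simpa using ((hasDerivAt_id s).mul_const (ξ k)).fun_neg
      have h3 := (ee_hasDerivAt (-(s * ξ k))).scomp s h2
      refine h3.congr_deriv ?_
      rw [Complex.real_smul, mul_comm]
    have h4 := HasDerivAt.fun_sum h1
    refine h4.congr_deriv ?_
    rw [hD, hg1]
    simp only
    rw [Finset.mul_sum]
    refine Finset.sum_congr rfl fun k _ => ?_
    have h5 : ((L / h : ℝ) : ℂ) * ((ξ k * h / L : ℝ) : ℂ) = ((ξ k : ℝ) : ℂ) := by
      rw [← Complex.ofReal_mul]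
      congr 1
      field_simp
    rw [Complex.ofReal_neg, ← h5]
    ring
  have hmeas : MeasurableSet (Icc u (u + h)) := measurableSet_Icc
  have hDi : IntegrableOn (fun s => ‖D s‖) (Icc u (u + h)) :=
    (hDc.norm.continuousOn).integrableOn_compact isCompact_Icc
  have hgi : IntegrableOn (fun s => ‖g s‖) (Icc u (u + h)) :=
    (hgc.norm.continuousOn).integrableOn_compact isCompact_Icc
  have hdiff : ∀ s ∈ Icc u (u + h), ‖g t‖ ≤ ‖g s‖ + ∫ r in Icc u (u + h), ‖D r‖ := by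
    intro s hs
    have h1 : ∫ r in s..t, D r = g t - g s :=
      intervalIntegral.integral_eq_sub_of_hasDerivAt (fun r _ => hder r)
        (hDc.intervalIntegrable _ _)
    have h2 : ‖g t - g s‖ ≤ ∫ r in Icc u (u + h), ‖D r‖ := by
      rw [← h1]
      refine (intervalIntegral.norm_integral_le_integral_norm_uIoc).trans ?_
      apply setIntegral_mono_set hDi
      · exact Filter.Eventually.of_forall fun r => norm_nonneg _
      · refine LE.le.eventuallyLE ?_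
        intro r hr
        rcases le_total s t with hst | hst
        · rw [uIoc_of_le hst] at hr
          exact ⟨hs.1.trans hr.1.le, hr.2.trans ht.2⟩
        · rw [uIoc_of_ge hst] at hr
          exact ⟨ht.1.trans hr.1.le, hr.2.trans hs.2⟩
    calc ‖g t‖ = ‖g s + (g t - g s)‖ := by congr 1; ring
      _ ≤ ‖g s‖ + ‖g t - g s‖ := norm_add_le _ _
      _ ≤ _ := by linarith
  have hvol : (volume (Icc u (u + h))).toReal = h := by
    rw [Real.volume_Icc, ENNReal.toReal_ofReal (by linarith)]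
    ring
  have hint : h * ‖g t‖ ≤ (∫ s in Icc u (u + h), ‖g s‖) + h * ∫ r in Icc u (u + h), ‖D r‖ := by
    have h1 : ∫ _s in Icc u (u + h), ‖g t‖ ≤
        ∫ s in Icc u (u + h), (‖g s‖ + ∫ r in Icc u (u + h), ‖D r‖) := by
      apply setIntegral_mono_on _ _ hmeas hdiff
      · exact integrableOn_const (by rw [Real.volume_Icc]; exact ENNReal.ofReal_ne_top)
      · exact hgi.add (integrableOn_const (by rw [Real.volume_Icc]; exact ENNReal.ofReal_ne_top))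
    rw [integral_add hgi (integrableOn_const (by
      rw [Real.volume_Icc]; exact ENNReal.ofReal_ne_top)), setIntegral_const, setIntegral_const,
      smul_eq_mul, smul_eq_mul, measureReal_def, hvol] at h1
    exact h1
  have hDn : ∀ r, ‖D r‖ = 2 * π * L * h⁻¹ * ‖g1 r‖ := by
    intro r
    rw [hD]
    simp only
    rw [norm_mul, norm_mul, norm_neg, norm_mul, norm_mul, Complex.norm_real, Complex.norm_real,
      Complex.norm_I, Real.norm_eq_abs, Real.norm_eq_abs, abs_of_pos Real.pi_pos,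
      abs_of_pos (by positivity : (0 : ℝ) < L / h)]
    simp only [Complex.norm_ofNat]
    ring
  have hDint : ∫ r in Icc u (u + h), ‖D r‖ = 2 * π * L * h⁻¹ * ∫ r in Icc u (u + h), ‖g1 r‖ := by
    rw [← integral_const_mul]
    exact integral_congr_ae (Filter.Eventually.of_forall hDn)
  have hgn : 0 ≤ ∫ s in Icc u (u + h), ‖g s‖ := integral_nonneg fun s => norm_nonneg _
  have hfin : ‖g t‖ ≤ h⁻¹ * (2 * π * L) * ((∫ r in Icc u (u + h), ‖g1 r‖) +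
      ∫ s in Icc u (u + h), ‖g s‖) := by
    rw [hDint] at hint
    have h1 : ‖g t‖ ≤ h⁻¹ * (∫ s in Icc u (u + h), ‖g s‖) +
        2 * π * L * h⁻¹ * ∫ r in Icc u (u + h), ‖g1 r‖ := by
      have h2 := mul_le_mul_of_nonneg_left hint (inv_nonneg.2 hh.le)
      rw [← mul_assoc, inv_mul_cancel₀ hh.ne', one_mul] at h2
      refine h2.trans (le_of_eq ?_)
      rw [mul_add, ← mul_assoc h⁻¹ h, inv_mul_cancel₀ hh.ne', one_mul]
    have h3 : h⁻¹ * (∫ s in Icc u (u + h), ‖g s‖) ≤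
        h⁻¹ * (2 * π * L) * ∫ s in Icc u (u + h), ‖g s‖ := by
      have h4 : h⁻¹ * (∫ s in Icc u (u + h), ‖g s‖) * 1 ≤
          h⁻¹ * (∫ s in Icc u (u + h), ‖g s‖) * (2 * π * L) :=
        mul_le_mul_of_nonneg_left hL (mul_nonneg (inv_nonneg.2 hh.le) hgn)
      linarith
    linarith
  rw [Fintype.sum_bool]
  simpa [hg, hg1] using hfin

/-- one more weight -/
private noncomputable def ww46 (f : ℤ × ℤ → ℝ) (a : ℤ × ℤ → ℂ) (e : Bool) (k : ℤ × ℤ) : ℂ :=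
  a k * (((if e then f k else 1) : ℝ) : ℂ)

private lemma st1_46 (B : Finset (ℤ × ℤ)) (γ : ℝ → ℝ) (n : ℕ) (a : ℤ × ℤ → ℂ) {u c : ℝ}
    (hc : c ∈ Icc u (u + 1 / 2 ^ n)) (c₂ R : ℝ) :
    ‖cs B a γ ((c, c₂), R)‖ ≤ 2 ^ n * (4 * π) * ∑ e : Bool, ∫ x in Icc u (u + 1 / 2 ^ n),
      ‖cs B (ww46 (fun k => (k.1 : ℝ) / 2 ^ (n + 1)) a e) γ ((x, c₂), R)‖ := by
  have hπ := Real.pi_gt_three
  have h1 := sob46 B (fun k => a k * ee (-((k.2 : ℝ) * c₂ + R * Fk γ k))) (fun k => (k.1 : ℝ))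
    (h := 1 / 2 ^ n) (L := 2) (by positivity) (by linarith) hc
  have h2 : ∀ (a' : ℤ × ℤ → ℂ) (x : ℝ), cs B a' γ ((x, c₂), R) =
      ∑ k ∈ B, (a' k * ee (-((k.2 : ℝ) * c₂ + R * Fk γ k))) * ee (-(x * (k.1 : ℝ))) := by
    intro a' x
    unfold cs
    refine Finset.sum_congr rfl fun k _ => ?_
    rw [mul_assoc, ← ee_add]
    congr 2
    ring
  rw [h2]
  refine h1.trans (le_of_eq ?_)
  congr 1
  · rw [one_div, inv_inv]
    ring
  · refine Finset.sum_congr rfl fun e _ => ?_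
    refine integral_congr_ae (Filter.Eventually.of_forall fun x => ?_)
    simp only
    rw [h2]
    congr 1
    refine Finset.sum_congr rfl fun k _ => ?_
    unfold ww46
    congr 1
    have h3 : (k.1 : ℝ) * (1 / 2 ^ n) / 2 = (k.1 : ℝ) / 2 ^ (n + 1) := by
      rw [pow_succ]
      field_simp
    rw [h3]
    ring

private lemma st2_46 (B : Finset (ℤ × ℤ)) (γ : ℝ → ℝ) (n : ℕ) (a : ℤ × ℤ → ℂ) {u c : ℝ}
    (hc : c ∈ Icc u (u + 1 / 2 ^ n)) (c₁ R : ℝ) :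
    ‖cs B a γ ((c₁, c), R)‖ ≤ 2 ^ n * (4 * π) * ∑ e : Bool, ∫ x in Icc u (u + 1 / 2 ^ n),
      ‖cs B (ww46 (fun k => (k.2 : ℝ) / 2 ^ (n + 1)) a e) γ ((c₁, x), R)‖ := by
  have hπ := Real.pi_gt_three
  have h1 := sob46 B (fun k => a k * ee (-((k.1 : ℝ) * c₁ + R * Fk γ k))) (fun k => (k.2 : ℝ))
    (h := 1 / 2 ^ n) (L := 2) (by positivity) (by linarith) hc
  have h2 : ∀ (a' : ℤ × ℤ → ℂ) (x : ℝ), cs B a' γ ((c₁, x), R) =
      ∑ k ∈ B, (a' k * ee (-((k.1 : ℝ) * c₁ + R * Fk γ k))) * ee (-(x * (k.2 : ℝ))) := by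
    intro a' x
    unfold cs
    refine Finset.sum_congr rfl fun k _ => ?_
    rw [mul_assoc, ← ee_add]
    congr 2
    ring
  rw [h2]
  refine h1.trans (le_of_eq ?_)
  congr 1
  · rw [one_div, inv_inv]
    ring
  · refine Finset.sum_congr rfl fun e _ => ?_
    refine integral_congr_ae (Filter.Eventually.of_forall fun x => ?_)
    simp only
    rw [h2]
    congr 1
    refine Finset.sum_congr rfl fun k _ => ?_
    unfold ww46
    congr 1
    have h3 : (k.2 : ℝ) * (1 / 2 ^ n) / 2 = (k.2 : ℝ) / 2 ^ (n + 1) := by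
      rw [pow_succ]
      field_simp
    rw [h3]
    ring

private lemma st3_46 (B : Finset (ℤ × ℤ)) (γ : ℝ → ℝ) {Λ : ℝ} (hΛ : 1 ≤ Λ) (n : ℕ)
    (a : ℤ × ℤ → ℂ) {v R : ℝ} (hR : R ∈ Icc v (v + 1 / 2 ^ n)) (c : ℝ × ℝ) :
    ‖cs B a γ (c, R)‖ ≤ 2 ^ n * (4 * π * Λ) * ∑ e : Bool, ∫ r in Icc v (v + 1 / 2 ^ n),
      ‖cs B (ww46 (fun k => Fk γ k / (Λ * 2 ^ (n + 1))) a e) γ (c, r)‖ := by
  have hπ := Real.pi_gt_three
  have h1 := sob46 B (fun k => a k * ee (-((k.1 : ℝ) * c.1 + (k.2 : ℝ) * c.2))) (fun k => Fk γ k)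
    (h := 1 / 2 ^ n) (L := 2 * Λ) (by positivity) (by nlinarith) hR
  have h2 : ∀ (a' : ℤ × ℤ → ℂ) (x : ℝ), cs B a' γ (c, x) =
      ∑ k ∈ B, (a' k * ee (-((k.1 : ℝ) * c.1 + (k.2 : ℝ) * c.2))) * ee (-(x * Fk γ k)) := by
    intro a' x
    unfold cs
    refine Finset.sum_congr rfl fun k _ => ?_
    rw [mul_assoc, ← ee_add]
    congr 2
    ring
  rw [h2]
  refine h1.trans (le_of_eq ?_)
  congr 1
  · rw [one_div, inv_inv]
    ring
  · refine Finset.sum_congr rfl fun e _ => ?_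
    refine integral_congr_ae (Filter.Eventually.of_forall fun x => ?_)
    simp only
    rw [h2]
    congr 1
    refine Finset.sum_congr rfl fun k _ => ?_
    unfold ww46
    congr 1
    have h3 : Fk γ k * (1 / 2 ^ n) / (2 * Λ) = Fk γ k / (Λ * 2 ^ (n + 1)) := by
      have : Λ ≠ 0 := by linarith
      rw [pow_succ]
      field_simp
    rw [h3]
    ring

private lemma cint46 (B : Finset (ℤ × ℤ)) (γ : ℝ → ℝ) (a : ℤ × ℤ → ℂ) {Ω : Type*}
    [MeasurableSpace Ω] (μ : Measure Ω) [IsFiniteMeasure μ] (φ : Ω → (ℝ × ℝ) × ℝ)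
    (hφ : Measurable φ) : Integrable (fun ω => ‖cs B a γ (φ ω)‖) μ := by
  have h1 : Measurable fun ω => ‖cs B a γ (φ ω)‖ :=
    ((cs_cont B a γ).measurable.comp hφ).norm
  refine Integrable.of_bound h1.aestronglyMeasurable (∑ k ∈ B, ‖a k‖) ?_
  refine Filter.Eventually.of_forall fun ω => ?_
  rw [norm_norm]
  unfold cs
  refine (norm_sum_le _ _).trans (Finset.sum_le_sum fun k _ => ?_)
  rw [norm_mul, ee_norm, mul_one]

private lemma st12_46 (B : Finset (ℤ × ℤ)) (γ : ℝ → ℝ) (n : ℕ) (a : ℤ × ℤ → ℂ) (u : ℝ × ℝ)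
    {c : ℝ × ℝ} (hc : c ∈ Icc u.1 (u.1 + 1 / 2 ^ n) ×ˢ Icc u.2 (u.2 + 1 / 2 ^ n)) (R : ℝ) :
    ‖cs B a γ (c, R)‖ ≤ (2 ^ n * (4 * π)) ^ 2 * ∑ e₁ : Bool, ∑ e₂ : Bool,
      ∫ p in Icc u.1 (u.1 + 1 / 2 ^ n) ×ˢ Icc u.2 (u.2 + 1 / 2 ^ n),
        ‖cs B (ww46 (fun k => (k.2 : ℝ) / 2 ^ (n + 1))
          (ww46 (fun k => (k.1 : ℝ) / 2 ^ (n + 1)) a e₁) e₂) γ (p, R)‖ := by
  have hπ := Real.pi_pos
  set K : ℝ := 2 ^ n * (4 * π) with hK
  have hK0 : 0 ≤ K := by positivity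
  have h1 := st1_46 B γ n a hc.1 c.2 R
  rw [← hK] at h1
  refine h1.trans ?_
  rw [pow_two, mul_assoc K K]
  apply mul_le_mul_of_nonneg_left _ hK0
  rw [Finset.mul_sum]
  refine Finset.sum_le_sum fun e₁ _ => ?_
  set a₁ := ww46 (fun k => (k.1 : ℝ) / 2 ^ (n + 1)) a e₁ with ha₁
  have hi : ∀ e₂ : Bool, Integrable (fun p : ℝ × ℝ =>
      ‖cs B (ww46 (fun k => (k.2 : ℝ) / 2 ^ (n + 1)) a₁ e₂) γ (p, R)‖)
      ((volume.restrict (Icc u.1 (u.1 + 1 / 2 ^ n))).prod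
        (volume.restrict (Icc u.2 (u.2 + 1 / 2 ^ n)))) := fun e₂ =>
    cint46 B γ _ _ (fun p : ℝ × ℝ => (p, R)) (by fun_prop)
  have h2 : ∫ x in Icc u.1 (u.1 + 1 / 2 ^ n), ‖cs B a₁ γ ((x, c.2), R)‖ ≤
      ∫ x in Icc u.1 (u.1 + 1 / 2 ^ n), K * ∑ e₂ : Bool, ∫ y in Icc u.2 (u.2 + 1 / 2 ^ n),
        ‖cs B (ww46 (fun k => (k.2 : ℝ) / 2 ^ (n + 1)) a₁ e₂) γ ((x, y), R)‖ := by
    apply integral_mono_of_nonneg
    · exact Filter.Eventually.of_forall fun x => norm_nonneg _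
    · apply Integrable.const_mul
      refine integrable_finsetSum _ fun e₂ _ => ?_
      exact (hi e₂).integral_prod_left
    · exact Filter.Eventually.of_forall fun x => st2_46 B γ n a₁ hc.2 x R
  refine h2.trans (le_of_eq ?_)
  rw [integral_const_mul]
  congr 1
  rw [integral_finsetSum _ fun e₂ _ => (hi e₂).integral_prod_left]
  refine Finset.sum_congr rfl fun e₂ _ => ?_
  rw [← integral_prod _ (hi e₂), Measure.prod_restrict]
  rfl

theorem sobolev_box {γ : ℝ → ℝ} {Λ : ℝ} (hΛ : 1 ≤ Λ) (hγ : ∀ t, |γ t| ≤ Λ) (n : ℕ) (a : ℤ × ℤ → ℂ) (u : ℝ × ℝ) (v : ℝ)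
    {c : ℝ × ℝ} (hc : c ∈ Icc u.1 (u.1 + 1 / 2 ^ n) ×ˢ Icc u.2 (u.2 + 1 / 2 ^ n)) {R : ℝ} (hR : R ∈ Icc v (v + 1 / 2 ^ n)) :
    ‖cs (blk n) a γ (c, R)‖ ≤ 2000 * Λ * 2 ^ (3 * n) * ∑ e : Bool × Bool × Bool,
      ∫ q in (Icc u.1 (u.1 + 1 / 2 ^ n) ×ˢ Icc u.2 (u.2 + 1 / 2 ^ n)) ×ˢ Icc v (v + 1 / 2 ^ n),
        ‖cs (blk n) (sw γ Λ n a e) γ q‖ := by
  have hπ := Real.pi_pos
  set K : ℝ := 2 ^ n * (4 * π) with hK
  have hK0 : 0 ≤ K := by positivity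
  set Q : Set (ℝ × ℝ) := Icc u.1 (u.1 + 1 / 2 ^ n) ×ˢ Icc u.2 (u.2 + 1 / 2 ^ n) with hQ
  have hQf : IsFiniteMeasure (volume.restrict Q) := by
    refine ⟨?_⟩
    rw [Measure.restrict_apply_univ]
    exact (isCompact_Icc.prod isCompact_Icc).measure_lt_top
  have h1 := st12_46 (blk n) γ n a u hc R
  have hcs : ∀ (e₁ e₂ e₃ : Bool) (q : (ℝ × ℝ) × ℝ),
      cs (blk n) (ww46 (fun k => Fk γ k / (Λ * 2 ^ (n + 1))) (ww46 (fun k => (k.2 : ℝ) / 2 ^ (n + 1))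
        (ww46 (fun k => (k.1 : ℝ) / 2 ^ (n + 1)) a e₁) e₂) e₃) γ q =
      cs (blk n) (sw γ Λ n a (e₁, e₂, e₃)) γ q := by
    intro e₁ e₂ e₃ q
    unfold cs
    refine Finset.sum_congr rfl fun k hk => ?_
    congr 1
    unfold sw ww46
    rw [if_pos hk]
    push_cast
    ring
  have hi : ∀ (a' : ℤ × ℤ → ℂ), Integrable (fun q : (ℝ × ℝ) × ℝ => ‖cs (blk n) a' γ q‖)
      ((volume.restrict Q).prod (volume.restrict (Icc v (v + 1 / 2 ^ n)))) := fun a' =>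
    cint46 (blk n) γ a' _ (fun q => q) measurable_id
  have h2 : ∀ e₁ e₂ : Bool, ∫ p in Q, ‖cs (blk n) (ww46 (fun k => (k.2 : ℝ) / 2 ^ (n + 1))
        (ww46 (fun k => (k.1 : ℝ) / 2 ^ (n + 1)) a e₁) e₂) γ (p, R)‖ ≤
      K * Λ * ∑ e₃ : Bool, ∫ q in Q ×ˢ Icc v (v + 1 / 2 ^ n),
        ‖cs (blk n) (sw γ Λ n a (e₁, e₂, e₃)) γ q‖ := by
    intro e₁ e₂
    set a₂ := ww46 (fun k => (k.2 : ℝ) / 2 ^ (n + 1))
        (ww46 (fun k => (k.1 : ℝ) / 2 ^ (n + 1)) a e₁) e₂ with ha₂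
    have h3 : ∫ p in Q, ‖cs (blk n) a₂ γ (p, R)‖ ≤ ∫ p in Q, K * Λ * ∑ e₃ : Bool,
        ∫ r in Icc v (v + 1 / 2 ^ n),
          ‖cs (blk n) (ww46 (fun k => Fk γ k / (Λ * 2 ^ (n + 1))) a₂ e₃) γ (p, r)‖ := by
      apply integral_mono_of_nonneg
      · exact Filter.Eventually.of_forall fun x => norm_nonneg _
      · apply Integrable.const_mul
        refine integrable_finsetSum _ fun e₃ _ => ?_
        exact (hi _).integral_prod_left
      · refine Filter.Eventually.of_forall fun p => ?_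
        refine (st3_46 (blk n) γ hΛ n a₂ hR p).trans (le_of_eq ?_)
        rw [hK]
        ring
    refine h3.trans (le_of_eq ?_)
    rw [integral_const_mul]
    congr 1
    rw [integral_finsetSum _ fun e₃ _ => (hi _).integral_prod_left]
    refine Finset.sum_congr rfl fun e₃ _ => ?_
    rw [← integral_prod _ (hi _), Measure.prod_restrict]
    refine integral_congr_ae (Filter.Eventually.of_forall fun q => ?_)
    simp only
    rw [hcs]
  refine h1.trans ?_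
  have h4 : ∑ e₁ : Bool, ∑ e₂ : Bool, ∫ p in Q, ‖cs (blk n) (ww46 (fun k => (k.2 : ℝ) / 2 ^ (n + 1))
        (ww46 (fun k => (k.1 : ℝ) / 2 ^ (n + 1)) a e₁) e₂) γ (p, R)‖ ≤
      K * Λ * ∑ e : Bool × Bool × Bool, ∫ q in Q ×ˢ Icc v (v + 1 / 2 ^ n),
        ‖cs (blk n) (sw γ Λ n a e) γ q‖ := by
    rw [Fintype.sum_prod_type, Finset.mul_sum]
    refine Finset.sum_le_sum fun e₁ _ => ?_
    rw [Fintype.sum_prod_type, Finset.mul_sum]
    exact Finset.sum_le_sum fun e₂ _ => h2 e₁ e₂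
  have h5 : 0 ≤ ∑ e : Bool × Bool × Bool, ∫ q in Q ×ˢ Icc v (v + 1 / 2 ^ n),
        ‖cs (blk n) (sw γ Λ n a e) γ q‖ :=
    Finset.sum_nonneg fun e _ => integral_nonneg fun q => norm_nonneg _
  calc K ^ 2 * ∑ e₁ : Bool, ∑ e₂ : Bool, ∫ p in Q, ‖cs (blk n) (ww46 (fun k => (k.2 : ℝ) / 2 ^ (n + 1))
        (ww46 (fun k => (k.1 : ℝ) / 2 ^ (n + 1)) a e₁) e₂) γ (p, R)‖
      ≤ K ^ 2 * (K * Λ * ∑ e : Bool × Bool × Bool, ∫ q in Q ×ˢ Icc v (v + 1 / 2 ^ n),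
        ‖cs (blk n) (sw γ Λ n a e) γ q‖) := mul_le_mul_of_nonneg_left h4 (by positivity)
    _ = (K ^ 3 * Λ) * ∑ e : Bool × Bool × Bool, ∫ q in Q ×ˢ Icc v (v + 1 / 2 ^ n),
        ‖cs (blk n) (sw γ Λ n a e) γ q‖ := by ring
    _ ≤ _ := by
        apply mul_le_mul_of_nonneg_right _ h5
        have h6 : K ^ 3 = (4 * π) ^ 3 * 2 ^ (3 * n) := by
          rw [hK, mul_pow, ← pow_mul, mul_comm n 3]
          ring
        have h7 : (4 * π) ^ 3 ≤ 2000 := by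
          have h8 : π < 3.1416 := Real.pi_lt_d4
          have h9 : (4 * π) ^ 3 ≤ (4 * 3.1416) ^ 3 := by
            apply pow_le_pow_left₀ (by positivity)
            linarith
          refine h9.trans ?_
          norm_num
        rw [h6]
        have h10 : (0 : ℝ) ≤ Λ * 2 ^ (3 * n) := by
          have : (0 : ℝ) ≤ Λ := by linarith
          positivity
        nlinarith

end Pool.Agent.Helper22.AC
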