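import Pool.Agent.Helper22.AC.D5
import Pool.Agent.Helper22.AE.C1

/-!
# AC-D6a: the boxes cover, Hoelder on a box, and the sum over the boxes

`bxs n p R₀ j = sq n p × [R₀ + j / 2^n, R₀ + (j+1) / 2^n]`.

PROOF of `sum_boxes`: for a continuous `f ≥ 0` on `(ℝ × ℝ) × ℝ`: the boxes with `p ∈ range (2^n) ×ˢ range (2^n)`, `j < m` have pairwise null
intersections (faces) and their union is `[0,1]² × [R₀, R₀ + m/2^n]`; so the sum of the integrals is (at most) the integral over the union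
(`setIntegral` of a finite union, or: replace `Icc` by `Ico` up to null sets, then disjoint union; one can also argue one variable at a time,
`intervalIntegral.sum_integral_adjacent_intervals`).
PROOF of `hoelder_box`: Hoelder with exponents 6/5, 6 (or Jensen for `x^6`) for the finite measure `k0 β α dα dq` on `[-π,π] × box` of total mass
`≤ 20 · 2^(-3n)` (`AE.k0_int`): `(∫ k0 ∫ |f|)^6 ≤ (20 · 2^(-3n))^5 ∫ k0 ∫ |f|^6`.
-/

open MeasureTheory Real Set Filter Topology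

set_option autoImplicit false

namespace Pool.Agent.Helper22.AC

open Pool.Agent.Helper22.AE

/-- the boxes of side `2^(-n)` in the variables `(c, R)` -/
def bxs (n : ℕ) (p : ℕ × ℕ) (R₀ : ℝ) (j : ℕ) : Set ((ℝ × ℝ) × ℝ) :=
  sq n p ×ˢ Icc (R₀ + j / 2 ^ n) (R₀ + (j + 1) / 2 ^ n)

private theorem ico_eq86 {a b : ℕ} {x c N : ℝ} (hN : 0 < N) (ha : x ∈ Ico (c + a / N) (c + (a + 1) / N))
    (hb : x ∈ Ico (c + b / N) (c + (b + 1) / N)) : a = b := by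
  have h1 : (a : ℝ) / N < (b + 1) / N := by linarith [ha.1, hb.2]
  have h2 : (b : ℝ) / N < (a + 1) / N := by linarith [hb.1, ha.2]
  rw [div_lt_div_iff_of_pos_right hN] at h1 h2
  have h3 : a < b + 1 := by exact_mod_cast h1
  have h4 : b < a + 1 := by exact_mod_cast h2
  omega

private def bq86 (n : ℕ) (R₀ : ℝ) (t : (ℕ × ℕ) × ℕ) : Set ((ℝ × ℝ) × ℝ) :=
  (Ico ((0 : ℝ) + t.1.1 / 2 ^ n) (0 + (t.1.1 + 1) / 2 ^ n) ×ˢ
    Ico ((0 : ℝ) + t.1.2 / 2 ^ n) (0 + (t.1.2 + 1) / 2 ^ n)) ×ˢ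
      Ico (R₀ + t.2 / 2 ^ n) (R₀ + (t.2 + 1) / 2 ^ n)

private theorem bq_ae86 (n : ℕ) (p : ℕ × ℕ) (R₀ : ℝ) (j : ℕ) :
    (bxs n p R₀ j : Set ((ℝ × ℝ) × ℝ)) =ᵐ[volume] bq86 n R₀ (p, j) := by
  unfold bxs bq86 sq
  simp only [zero_add]
  rw [Measure.volume_eq_prod, Measure.volume_eq_prod]
  exact Measure.set_prod_ae_eq (Measure.set_prod_ae_eq Ico_ae_eq_Icc.symm Ico_ae_eq_Icc.symm) Ico_ae_eq_Icc.symm

theorem sum_boxes {f : (ℝ × ℝ) × ℝ → ℝ} (hf : Continuous f) (h0 : ∀ q, 0 ≤ f q) (n m : ℕ) (R₀ : ℝ) :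
    ∑ p ∈ Finset.range (2 ^ n) ×ˢ Finset.range (2 ^ n), ∑ j ∈ Finset.range m, ∫ q in bxs n p R₀ j, f q ≤
      ∫ q in (Icc (0 : ℝ) 1 ×ˢ Icc (0 : ℝ) 1) ×ˢ Icc R₀ (R₀ + m / 2 ^ n), f q := by
  have hN : (0 : ℝ) < 2 ^ n := by positivity
  have hbig : IntegrableOn f ((Icc (0 : ℝ) 1 ×ˢ Icc (0 : ℝ) 1) ×ˢ Icc R₀ (R₀ + m / 2 ^ n)) :=
    hf.continuousOn.integrableOn_compact ((isCompact_Icc.prod isCompact_Icc).prod isCompact_Icc)
  have hsub : ∀ t ∈ (Finset.range (2 ^ n) ×ˢ Finset.range (2 ^ n)) ×ˢ Finset.range m,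
      bq86 n R₀ t ⊆ (Icc (0 : ℝ) 1 ×ˢ Icc (0 : ℝ) 1) ×ˢ Icc R₀ (R₀ + m / 2 ^ n) := by
    rintro ⟨⟨a, b⟩, j⟩ ht
    simp only [Finset.mem_product, Finset.mem_range] at ht
    obtain ⟨⟨ha, hb⟩, hj⟩ := ht
    rintro ⟨⟨x, y⟩, z⟩ ⟨⟨hx, hy⟩, hz⟩
    have ha' : ((a : ℝ) + 1) ≤ 2 ^ n := by exact_mod_cast ha
    have hb' : ((b : ℝ) + 1) ≤ 2 ^ n := by exact_mod_cast hb
    have hj' : ((j : ℝ) + 1) ≤ m := by exact_mod_cast hj
    have ha2 : ((a : ℝ) + 1) / 2 ^ n ≤ 1 := (div_le_one hN).2 ha'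
    have hb2 : ((b : ℝ) + 1) / 2 ^ n ≤ 1 := (div_le_one hN).2 hb'
    have hj2 : ((j : ℝ) + 1) / 2 ^ n ≤ m / 2 ^ n := div_le_div_of_nonneg_right hj' hN.le
    have ha3 : (0 : ℝ) ≤ a / 2 ^ n := by positivity
    have hb3 : (0 : ℝ) ≤ b / 2 ^ n := by positivity
    have hj3 : (0 : ℝ) ≤ j / 2 ^ n := by positivity
    simp only [mem_Ico] at hx hy hz
    refine ⟨⟨⟨?_, ?_⟩, ⟨?_, ?_⟩⟩, ⟨?_, ?_⟩⟩ <;> simp only <;> linarith [hx.1, hx.2, hy.1, hy.2, hz.1, hz.2]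
  have hmeas : ∀ t, MeasurableSet (bq86 n R₀ t) := fun t =>
    (measurableSet_Ico.prod measurableSet_Ico).prod measurableSet_Ico
  have hdis : Set.Pairwise (↑((Finset.range (2 ^ n) ×ˢ Finset.range (2 ^ n)) ×ˢ Finset.range m) : Set ((ℕ × ℕ) × ℕ))
      (Function.onFun Disjoint (bq86 n R₀)) := by
    rintro ⟨⟨a, b⟩, j⟩ _ ⟨⟨a', b'⟩, j'⟩ _ hne
    show Disjoint _ _
    rw [Set.disjoint_left]
    rintro ⟨⟨x, y⟩, z⟩ ⟨⟨hx, hy⟩, hz⟩ ⟨⟨hx', hy'⟩, hz'⟩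
    apply hne
    have e1 : a = a' := ico_eq86 hN hx hx'
    have e2 : b = b' := ico_eq86 hN hy hy'
    have e3 : j = j' := ico_eq86 hN hz hz'
    rw [e1, e2, e3]
  rw [← Finset.sum_product' (Finset.range (2 ^ n) ×ˢ Finset.range (2 ^ n)) (Finset.range m)
    (fun p j => ∫ q in bxs n p R₀ j, f q)]
  have h1 : ∀ t ∈ (Finset.range (2 ^ n) ×ˢ Finset.range (2 ^ n)) ×ˢ Finset.range m,
      ∫ q in bxs n t.1 R₀ t.2, f q = ∫ q in bq86 n R₀ t, f q := fun t _ =>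
    setIntegral_congr_set (bq_ae86 n t.1 R₀ t.2)
  rw [Finset.sum_congr rfl h1, ← integral_biUnion_finset _ (fun t _ => hmeas t) hdis
    (fun t ht => hbig.mono_set (hsub t ht))]
  exact setIntegral_mono_set hbig (ae_of_all _ h0) (LE.le.eventuallyLE (by
    intro q hq
    simp only [mem_iUnion] at hq
    obtain ⟨t, ht, hq⟩ := hq
    exact hsub t ht hq))

private theorem young86 {c g : ℝ} (hc : 0 ≤ c) (hg : 0 ≤ g) : 6 * c ^ 5 * g ≤ 5 * c ^ 6 + g ^ 6 := by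
  have h : 0 ≤ (g - c) ^ 2 * (g ^ 4 + 2 * c * g ^ 3 + 3 * c ^ 2 * g ^ 2 + 4 * c ^ 3 * g + 5 * c ^ 4) := by
    positivity
  nlinarith [h]

private theorem jens86 {X : Type*} [MeasurableSpace X] {μ : Measure X} {w g : X → ℝ} (hw : ∀ x, 0 ≤ w x)
    (hg : ∀ x, 0 ≤ g x) (i0 : Integrable w μ) (i1 : Integrable (fun x => w x * g x) μ)
    (i6 : Integrable (fun x => w x * g x ^ 6) μ) :
    (∫ x, w x * g x ∂μ) ^ 6 ≤ (∫ x, w x ∂μ) ^ 5 * ∫ x, w x * g x ^ 6 ∂μ := by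
  set W := ∫ x, w x ∂μ with hW
  set I := ∫ x, w x * g x ∂μ with hI
  set J := ∫ x, w x * g x ^ 6 ∂μ with hJ
  have hW0 : 0 ≤ W := integral_nonneg hw
  have hI0 : 0 ≤ I := integral_nonneg fun x => mul_nonneg (hw x) (hg x)
  have hJ0 : 0 ≤ J := integral_nonneg fun x => mul_nonneg (hw x) (pow_nonneg (hg x) 6)
  have key : ∀ c : ℝ, 0 ≤ c → 6 * c ^ 5 * I ≤ 5 * c ^ 6 * W + J := by
    intro c hc
    have h1 : 6 * c ^ 5 * I = ∫ x, 6 * c ^ 5 * (w x * g x) ∂μ := by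
      rw [integral_const_mul]
    have h2 : 5 * c ^ 6 * W + J = ∫ x, (5 * c ^ 6 * w x + w x * g x ^ 6) ∂μ := by
      rw [integral_add (i0.const_mul _) i6, integral_const_mul]
    rw [h1, h2]
    refine integral_mono (i1.const_mul _) ((i0.const_mul _).add i6) fun x => ?_
    have h3 := mul_le_mul_of_nonneg_left (young86 hc (hg x)) (hw x)
    show 6 * c ^ 5 * (w x * g x) ≤ 5 * c ^ 6 * w x + w x * g x ^ 6
    nlinarith [h3]
  rcases hW0.eq_or_lt with hz | hpos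
  · have hI' : I = 0 := by
      by_contra hne
      have hIp : 0 < I := lt_of_le_of_ne hI0 (Ne.symm hne)
      set c := max 1 ((J + 1) / I) with hc
      have hc1 : 1 ≤ c := le_max_left _ _
      have hc2 : (J + 1) / I ≤ c := le_max_right _ _
      have h4 := key c (by linarith)
      rw [← hz] at h4
      have h5 : c ≤ c ^ 5 := by
        calc c = c ^ 1 := (pow_one c).symm
          _ ≤ c ^ 5 := pow_le_pow_right₀ hc1 (by norm_num)
      have h6 : J + 1 ≤ c * I := (div_le_iff₀ hIp).1 hc2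
      have h7 : c * I ≤ c ^ 5 * I := mul_le_mul_of_nonneg_right h5 hI0
      nlinarith
    rw [hI', ← hz]
    simp
  · have h4 := key (I / W) (by positivity)
    have h5 : I ^ 6 / W ^ 5 ≤ J := by
      have e1 : 6 * (I / W) ^ 5 * I = 6 * (I ^ 6 / W ^ 5) := by
        field_simp
      have e2 : 5 * (I / W) ^ 6 * W = 5 * (I ^ 6 / W ^ 5) := by
        field_simp
      rw [e1, e2] at h4
      linarith
    rw [div_le_iff₀ (by positivity)] at h5
    linarith [h5, mul_comm J (W ^ 5)]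

private theorem k0_cont86 {β : ℝ} (hβ : 0 < β) : Continuous (fun α => k0 β α) := by
  unfold k0
  exact continuous_const.div (by fun_prop) (fun α => (by positivity : (0 : ℝ) < sin α ^ 2 + β ^ 2).ne')

theorem hoelder_box {β : ℝ} (hβ : 0 < β) (n : ℕ) (p : ℕ × ℕ) (R₀ : ℝ) (j : ℕ) {A : Set ℝ} (hA : MeasurableSet A)
    (hA' : A ⊆ Icc (-π) π) {f : ℝ × ((ℝ × ℝ) × ℝ) → ℝ} (hf : Continuous f) (h0 : ∀ q, 0 ≤ f q) :
    (∫ α in A, k0 β α * ∫ q in bxs n p R₀ j, f (α, q)) ^ 6 ≤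
      (20 / 2 ^ (3 * n)) ^ 5 * ∫ α in A, k0 β α * ∫ q in bxs n p R₀ j, f (α, q) ^ 6 := by
  have hB : IsCompact (bxs n p R₀ j) := by
    unfold bxs sq
    exact (isCompact_Icc.prod isCompact_Icc).prod isCompact_Icc
  have hk0 : ∀ α, 0 ≤ k0 β α := fun α => by
    unfold k0
    positivity
  have hF : ∀ h : ℝ × ((ℝ × ℝ) × ℝ) → ℝ, Continuous h → Continuous fun α => ∫ q in bxs n p R₀ j, h (α, q) := by
    intro h hh
    exact continuous_parametric_integral_of_continuous (f := fun α q => h (α, q)) hh hB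
  have hF0 : ∀ α, 0 ≤ ∫ q in bxs n p R₀ j, f (α, q) := fun α => integral_nonneg fun q => h0 _
  have hint : ∀ h : ℝ → ℝ, Continuous h → Integrable h (volume.restrict A) := fun h hh =>
    (hh.continuousOn.integrableOn_compact isCompact_Icc).mono_set hA'
  have hkc := k0_cont86 hβ
  have hf6 : Continuous fun q => f q ^ 6 := hf.pow 6
  have h1 := jens86 (μ := volume.restrict A) (w := fun α => k0 β α) (g := fun α => ∫ q in bxs n p R₀ j, f (α, q))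
    hk0 hF0 (hint _ hkc) (hint _ (hkc.mul (hF f hf))) (hint _ (hkc.mul ((hF f hf).pow 6)))
  have hV : volume.real (bxs n p R₀ j) = 1 / 2 ^ (3 * n) := by
    have hl : ∀ a : ℝ, ∀ b : ℕ, volume.real (Icc (a + (b : ℝ) / 2 ^ n) (a + ((b : ℝ) + 1) / 2 ^ n)) = 1 / 2 ^ n := by
      intro a b
      rw [Real.volume_real_Icc_of_le (by
        have : ((b : ℝ) + 1) / 2 ^ n = b / 2 ^ n + 1 / 2 ^ n := by ring
        have h : (0 : ℝ) ≤ 1 / 2 ^ n := by positivity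
        linarith)]
      ring
    have hl0 := hl 0
    simp only [zero_add] at hl0
    unfold bxs sq
    rw [Measure.volume_eq_prod, measureReal_prod_prod, Measure.volume_eq_prod, measureReal_prod_prod, hl0, hl0, hl]
    have e : (2 : ℝ) ^ (3 * n) = 2 ^ n * 2 ^ n * 2 ^ n := by
      rw [← pow_add, ← pow_add]
      congr 1
      ring
    rw [e]
    field_simp
  have h2 : ∀ α, (∫ q in bxs n p R₀ j, f (α, q)) ^ 6 ≤ (1 / 2 ^ (3 * n)) ^ 5 * ∫ q in bxs n p R₀ j, f (α, q) ^ 6 := by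
    intro α
    have hfα : Continuous fun q => f (α, q) := hf.comp (Continuous.prodMk continuous_const continuous_id)
    have i1 : Integrable (fun q => (1 : ℝ) * f (α, q)) (volume.restrict (bxs n p R₀ j)) :=
      (continuous_const.mul hfα).continuousOn.integrableOn_compact hB
    have i6 : Integrable (fun q => (1 : ℝ) * f (α, q) ^ 6) (volume.restrict (bxs n p R₀ j)) :=
      (continuous_const.mul (hfα.pow 6)).continuousOn.integrableOn_compact hB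
    have i0 : Integrable (fun _ : (ℝ × ℝ) × ℝ => (1 : ℝ)) (volume.restrict (bxs n p R₀ j)) :=
      continuous_const.continuousOn.integrableOn_compact hB
    have h3 := jens86 (μ := volume.restrict (bxs n p R₀ j)) (w := fun _ => (1 : ℝ)) (g := fun q => f (α, q))
      (fun _ => zero_le_one) (fun q => h0 _) i0 i1 i6
    have h4 : ∫ _ in bxs n p R₀ j, (1 : ℝ) = 1 / 2 ^ (3 * n) := by
      rw [setIntegral_const, hV, smul_eq_mul, mul_one]
    rw [h4] at h3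
    simpa only [one_mul] using h3
  have h5 : ∫ α in A, k0 β α ≤ 20 := by
    have h6 : ∫ α in A, k0 β α ≤ ∫ α in Icc (-π) π, k0 β α :=
      setIntegral_mono_set (hkc.continuousOn.integrableOn_compact isCompact_Icc) (ae_of_all _ hk0)
        (LE.le.eventuallyLE hA')
    have h7 : ∫ y in Icc (-π) π, k0 β y = ∫ y in (-π)..π, k0 β y := by
      rw [intervalIntegral.integral_of_le (by linarith [pi_pos]), integral_Icc_eq_integral_Ioc]
    rw [h7] at h6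
    exact h6.trans (k0_int hβ)
  have h8 : ∫ α in A, k0 β α * (∫ q in bxs n p R₀ j, f (α, q)) ^ 6 ≤
      (1 / 2 ^ (3 * n)) ^ 5 * ∫ α in A, k0 β α * ∫ q in bxs n p R₀ j, f (α, q) ^ 6 := by
    rw [← integral_const_mul]
    refine integral_mono (hint _ (hkc.mul ((hF f hf).pow 6)))
      (hint _ (continuous_const.mul (hkc.mul (hF (fun q => f q ^ 6) hf6)))) fun α => ?_
    show k0 β α * (∫ q in bxs n p R₀ j, f (α, q)) ^ 6 ≤
      (1 / 2 ^ (3 * n)) ^ 5 * (k0 β α * ∫ q in bxs n p R₀ j, f (α, q) ^ 6)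
    have h9 := mul_le_mul_of_nonneg_left (h2 α) (hk0 α)
    linarith [h9, mul_left_comm (k0 β α) ((1 / 2 ^ (3 * n) : ℝ) ^ 5) (∫ q in bxs n p R₀ j, f (α, q) ^ 6)]
  have hk5 : (∫ α in A, k0 β α) ^ 5 ≤ 20 ^ 5 := pow_le_pow_left₀ (integral_nonneg hk0) h5 5
  have hJ0 : 0 ≤ ∫ α in A, k0 β α * (∫ q in bxs n p R₀ j, f (α, q)) ^ 6 :=
    integral_nonneg fun α => mul_nonneg (hk0 α) (pow_nonneg (hF0 α) 6)
  calc (∫ α in A, k0 β α * ∫ q in bxs n p R₀ j, f (α, q)) ^ 6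
      ≤ (∫ α in A, k0 β α) ^ 5 * ∫ α in A, k0 β α * (∫ q in bxs n p R₀ j, f (α, q)) ^ 6 := h1
    _ ≤ 20 ^ 5 * ((1 / 2 ^ (3 * n)) ^ 5 * ∫ α in A, k0 β α * ∫ q in bxs n p R₀ j, f (α, q) ^ 6) :=
        mul_le_mul hk5 h8 hJ0 (by positivity)
    _ = (20 / 2 ^ (3 * n)) ^ 5 * ∫ α in A, k0 β α * ∫ q in bxs n p R₀ j, f (α, q) ^ 6 := by
        rw [← mul_assoc, ← mul_pow, mul_one_div]

end Pool.Agent.Helper22.AC
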