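import Pool.Agent.Helper22.AC.D5
import Pool.Agent.Helper22.AC.C5
import Pool.Agent.Helper22.AC.D4

/-!
# AC-D6b: the sixth moment for the phases `ga H α`

PROOF of `ga_bdd`: `|ga H α t| ≤ sup |H| + sup |H'|`, both finite by continuity and periodicity (take the maximum with 1).
PROOF of `ga_cont`: `H`, `deriv H` are continuous.
PROOF of `sixth_ga`: constants from `adm_ga` and `sixth_moment` (replace `C` by `max C 1`). If `Adm c₁ c₂ (ga H α)`: `sixth_moment`. If `Adm c₁ c₂ γ'`, `γ' = -ga H α`: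
`Fk (ga H α) k = - Fk γ' k`, so `cs B a (ga H α) (c, R) = cs B a γ' (c, -R)`; substitute `R ↦ -R` (measure preserving; the product set becomes
`[0,1]² × [-(R₁+X), -R₁]`) and use `sixth_moment` with `γ'` and `-(R₁ + X)` for `R₁`.
-/

open MeasureTheory Real Set Filter Topology

set_option autoImplicit false

namespace Pool.Agent.Helper22.AC

open Pool.Agent.Helper22.AE

private lemma per_bdd85 {f : ℝ → ℝ} (hf : Continuous f) (hp : Function.Periodic f (2 * π)) :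
    ∃ A : ℝ, 0 ≤ A ∧ ∀ x, |f x| ≤ A := by
  obtain ⟨x₀, -, h⟩ := (isCompact_Icc : IsCompact (Icc (0 : ℝ) (2 * π))).exists_isMaxOn
    ⟨0, left_mem_Icc.2 (by positivity)⟩ (hf.abs).continuousOn
  refine ⟨|f x₀|, abs_nonneg _, fun x => ?_⟩
  obtain ⟨y, hy, e⟩ := hp.exists_mem_Ico₀ (by positivity) x
  rw [e]
  exact h (Ico_subset_Icc_self hy)

private lemma per_deriv85 {f : ℝ → ℝ} {c : ℝ} (hp : Function.Periodic f c) :
    Function.Periodic (deriv f) c := by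
  intro x
  have h : (fun y => f (y + c)) = f := funext fun y => hp y
  have h2 := deriv_comp_add_const f c x
  rw [h] at h2
  exact h2.symm

private lemma deriv_cont85 {H : ℝ → ℝ} (hH : IsSupp H) : Continuous (deriv H) :=
  hH.smooth.continuous_deriv (by norm_num)

theorem ga_bdd {H : ℝ → ℝ} (hH : IsSupp H) : ∃ Λ : ℝ, 1 ≤ Λ ∧ ∀ α t : ℝ, |ga H α t| ≤ Λ := by
  obtain ⟨A₁, hA₁, h1⟩ := per_bdd85 hH.smooth.continuous hH.per
  obtain ⟨A₂, hA₂, h2⟩ := per_bdd85 (deriv_cont85 hH) (per_deriv85 hH.per)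
  refine ⟨max 1 (A₁ + A₂), le_max_left _ _, fun α t => ?_⟩
  refine le_trans ?_ (le_max_right _ _)
  unfold ga
  refine (abs_sub _ _).trans ?_
  rw [abs_mul, abs_mul]
  refine add_le_add ?_ ?_
  · calc |H (t + α)| * |cos α| ≤ A₁ * 1 :=
        mul_le_mul (h1 _) (abs_cos_le_one α) (abs_nonneg _) hA₁
      _ = A₁ := mul_one _
  · calc |deriv H (t + α)| * |sin α| ≤ A₂ * 1 :=
        mul_le_mul (h2 _) (abs_sin_le_one α) (abs_nonneg _) hA₂
      _ = A₂ := mul_one _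

theorem ga_cont {H : ℝ → ℝ} (hH : IsSupp H) (t : ℝ) : Continuous (fun α => ga H α t) := by
  have h1 : Continuous H := hH.smooth.continuous
  have h2 : Continuous (deriv H) := deriv_cont85 hH
  unfold ga
  exact ((h1.comp (continuous_const.add continuous_id)).mul continuous_cos).sub
    ((h2.comp (continuous_const.add continuous_id)).mul continuous_sin)

private lemma cs_neg85 (B : Finset (ℤ × ℤ)) (a : ℤ × ℤ → ℂ) (γ : ℝ → ℝ) (q : (ℝ × ℝ) × ℝ) :
    cs B a γ q = cs B a (fun t => -γ t) (q.1, -q.2) := by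
  unfold cs
  refine Finset.sum_congr rfl fun k _ => ?_
  congr 2
  unfold Fk
  ring

private lemma int_neg85 (f : (ℝ × ℝ) × ℝ → ℝ) (S : Set (ℝ × ℝ)) (u v : ℝ) :
    ∫ q in S ×ˢ Icc u v, f (q.1, -q.2) = ∫ q in S ×ˢ Icc (-v) (-u), f q := by
  let e : ((ℝ × ℝ) × ℝ) ≃ᵐ ((ℝ × ℝ) × ℝ) :=
    MeasurableEquiv.prodCongr (MeasurableEquiv.refl (ℝ × ℝ)) (MeasurableEquiv.neg ℝ)
  have he : ∀ q, e q = (q.1, -q.2) := fun q => rfl
  have hmp : MeasurePreserving e volume volume :=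
    (MeasurePreserving.id (volume : Measure (ℝ × ℝ))).prod
      (Measure.measurePreserving_neg (volume : Measure ℝ))
  have h := hmp.setIntegral_preimage_emb e.measurableEmbedding f (S ×ˢ Icc (-v) (-u))
  have hpre : e ⁻¹' (S ×ˢ Icc (-v) (-u)) = S ×ˢ Icc u v := by
    ext q
    rw [mem_preimage, he, mem_prod, mem_prod, mem_Icc, mem_Icc]
    simp only [neg_le_neg_iff]
    tauto
  rw [hpre] at h
  exact h

theorem sixth_ga {H : ℝ → ℝ} (hH : IsSupp H) (h3 : ContDiff ℝ 3 H) {ε : ℝ} (hε : 0 < ε) : ∃ s₀ C : ℝ, 0 < s₀ ∧ s₀ < 1 ∧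
    0 < C ∧ ∀ (n : ℕ) (X R₁ α : ℝ), 1 ≤ X → |sin α| ≤ s₀ → ∀ a : ℤ × ℤ → ℂ, (∀ k, ‖a k‖ ≤ 1) →
      ∫ q in (Icc (0 : ℝ) 1 ×ˢ Icc (0 : ℝ) 1) ×ˢ Icc R₁ (R₁ + X), ‖cs (blk n) a (ga H α) q‖ ^ 6 ≤
        C * X * ((2 : ℝ) ^ n) ^ (6 + ε) * (1 + 8 ^ n / X) := by
  obtain ⟨s₀, c₁, c₂, hs0, hs1, hc1, hc12, hadm⟩ := adm_ga hH h3
  obtain ⟨C, hC, hsix⟩ := sixth_moment (c₂ := c₂) hc1 hε
  refine ⟨s₀, max C 1, hs0, hs1, lt_of_lt_of_le one_pos (le_max_right _ _), ?_⟩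
  intro n X R₁ α hX hα a ha
  have hX0 : 0 < X := by linarith
  have hmono : C * X * ((2 : ℝ) ^ n) ^ (6 + ε) * (1 + 8 ^ n / X) ≤
      max C 1 * X * ((2 : ℝ) ^ n) ^ (6 + ε) * (1 + 8 ^ n / X) := by
    have h1 : 0 ≤ X * ((2 : ℝ) ^ n) ^ (6 + ε) * (1 + 8 ^ n / X) := by positivity
    have h2 := mul_le_mul_of_nonneg_right (le_max_left C 1) h1
    calc _ = C * (X * ((2 : ℝ) ^ n) ^ (6 + ε) * (1 + 8 ^ n / X)) := by ring
      _ ≤ _ := h2
      _ = _ := by ring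
  refine le_trans ?_ hmono
  rcases hadm α hα with h | h
  · exact hsix n X hX (ga H α) h a ha R₁
  · have h1 := hsix n X hX (fun t => -ga H α t) h a ha (-(R₁ + X))
    have e1 : -(R₁ + X) + X = -R₁ := by ring
    rw [e1] at h1
    refine le_trans (le_of_eq ?_) h1
    rw [← int_neg85 (fun q => ‖cs (blk n) a (fun t => -ga H α t) q‖ ^ 6)]
    refine integral_congr_ae (Filter.Eventually.of_forall fun q => ?_)
    simp only
    rw [cs_neg85]

end Pool.Agent.Helper22.AC
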