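import Pool.Agent.Helper22.AC.D5b
import Pool.Agent.Helper22.AC.D6a
import Pool.Agent.Helper22.AC.D6b
import Pool.Agent.Helper22.AC.D3

/-!
# AC-D6c: the block sums on a box

`Yb` is the sixth moment of the exponential sums over the box number `(p, j)`, averaged over the angle `α` with `|sin α| ≤ s₀`.

PROOF of `VKc_box`. `β = (R₀ 2^n)^(-1/2)`. By `VKc_le`, `‖VKc‖ ≤ C₁ R₀^(1/2) 2^(-3n/2) ∑ i ∫ k0 β α ‖cs (blk n) (b i α) (ga H α) (c, R)‖ dα`.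
(1) On `|sin α| > s₀`: `k0 β α ≤ β / s₀²` and `‖cs‖ ≤ card (blk n) ≤ 100 · 4^n`, contribution `≤ C R₀^(1/2) 2^(-3n/2) (2π)(β/s₀²) 4^n = C` because
`R₀^(1/2) 2^(n/2) β = 1`. (2) On `A = [-π, π] ∩ {|sin α| ≤ s₀}`: `sobolev_box` (with `u = (p.1/2^n, p.2/2^n)`, `v = R₀ + j/2^n`, so that the box is
`bxs n p R₀ j`; `Λ` bounds `|ga H α|`) gives `‖cs (b i α)‖ ≤ 2000 Λ 2^(3n) ∑ e ∫_box ‖cs (sw ..)‖`; multiply by `k0`, integrate over `A`, and by
`hoelder_box` (`f (α, q) = ‖cs (blk n) (sw (ga H α) Λ n (b i α) e) (ga H α) q‖`, continuous by `cs_cont'`, `sw_cont`, `ga_cont`) each of the 24 terms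
is `≤ (20/2^(3n))^(5/6) Yb^(1/6)`. Total: `C R₀^(1/2) 2^(-3n/2) 2^(3n) 2^(-5n/2) Yb^(1/6) = C R₀^(1/2) 2^(-3n/2) (2^(3n) Yb)^(1/6)`.
-/

open MeasureTheory Real Set Filter Topology

set_option autoImplicit false

namespace Pool.Agent.Helper22.AC

open Pool.Agent.Helper22.AE

/-- the sixth moment over a box, averaged over the angle -/
noncomputable def Yb (H : ℝ → ℝ) (Λ s₀ β : ℝ) (n : ℕ) (b : Fin 3 → ℝ → ℤ × ℤ → ℂ) (p : ℕ × ℕ) (R₀ : ℝ) (j : ℕ) : ℝ :=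
  ∑ i : Fin 3, ∑ e : Bool × Bool × Bool, ∫ α in Icc (-π) π ∩ {α | |sin α| ≤ s₀}, k0 β α *
    ∫ q in bxs n p R₀ j, ‖cs (blk n) (sw (ga H α) Λ n (b i α) e) (ga H α) q‖ ^ 6

private lemma root38 {N I Y : ℝ} (hN : 0 < N) (hY : 0 ≤ Y)
    (h : I ^ 6 ≤ (20 / N) ^ 5 * Y) : N * I ≤ 20 * (N * Y) ^ (1 / 6 : ℝ) := by
  have h0 : 0 ≤ N * Y := by positivity
  have h1 : ((N * Y) ^ (1 / 6 : ℝ)) ^ 6 = N * Y := by
    rw [← Real.rpow_natCast, ← Real.rpow_mul h0]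
    norm_num
  have h2 : (N * I) ^ 6 ≤ (20 * (N * Y) ^ (1 / 6 : ℝ)) ^ 6 := by
    rw [mul_pow, mul_pow 20, h1]
    calc N ^ 6 * I ^ 6 ≤ N ^ 6 * ((20 / N) ^ 5 * Y) := by gcongr
      _ = 20 ^ 5 * (N * Y) := by field_simp
      _ ≤ 20 ^ 6 * (N * Y) := by nlinarith
  exact le_of_pow_le_pow_left₀ (by norm_num) (by positivity) h2

private lemma k0_cont38 {β : ℝ} (hβ : 0 < β) : Continuous (fun α => k0 β α) := by
  unfold k0
  exact continuous_const.div (by fun_prop) (fun α => by positivity)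

private lemma k0_nn38 {β : ℝ} (hβ : 0 < β) (α : ℝ) : 0 ≤ k0 β α := by
  unfold k0
  positivity

private lemma cs_card38 (B : Finset (ℤ × ℤ)) {a : ℤ × ℤ → ℂ} (ha : ∀ k, ‖a k‖ ≤ 1) (γ : ℝ → ℝ)
    (q : (ℝ × ℝ) × ℝ) : ‖cs B a γ q‖ ≤ B.card := by
  unfold cs
  refine (norm_sum_le _ _).trans ?_
  calc ∑ k ∈ B, ‖a k * ee (-((k.1 : ℝ) * q.1.1 + (k.2 : ℝ) * q.1.2 + q.2 * Fk γ k))‖
      ≤ ∑ _k ∈ B, (1 : ℝ) := Finset.sum_le_sum fun k _ => by
        rw [norm_mul, ee_norm, mul_one]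
        exact ha k
    _ = B.card := by simp

theorem VKc_box {H : ℝ → ℝ} (hH : IsSupp H) {φ : ℝ × ℝ → ℝ} (hφ : IsBump φ) {Λ s₀ : ℝ} (hΛ : 1 ≤ Λ)
    (hΛ' : ∀ α t : ℝ, |ga H α t| ≤ Λ) (hs : 0 < s₀) : ∃ C : ℝ, 0 < C ∧ ∀ R₀ : ℝ, 1 ≤ R₀ → ∀ n : ℕ, ∀ δ ∈ Icc (0 : ℝ) 1,
      ∀ σ : ℝ, (σ = 1 ∨ σ = -1) → ∃ b : Fin 3 → ℝ → ℤ × ℤ → ℂ, (∀ i k, Continuous fun α => b i α k) ∧
        (∀ i α k, ‖b i α k‖ ≤ 1) ∧ ∀ p : ℕ × ℕ, ∀ c ∈ sq n p, ∀ j : ℕ, ∀ R ∈ Icc R₀ (2 * R₀),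
          R ∈ Icc (R₀ + j / 2 ^ n) (R₀ + (j + 1) / 2 ^ n) → IsSupp (fun θ => R * H θ + σ * δ) →
            ‖VKc φ (fun θ => R * H θ + σ * δ) δ n c‖ ≤ C * (R₀ ^ (1 / 2 : ℝ) * (2 : ℝ) ^ (-(3 / 2 : ℝ) * n) *
              (2 ^ (3 * n) * Yb H Λ s₀ ((R₀ * 2 ^ n) ^ (-(1 / 2 : ℝ))) n b p R₀ j) ^ (1 / 6 : ℝ) + 1) := by
  obtain ⟨C₀, hC₀, hV⟩ := VKc_le hH hφ
  have hπ := Real.pi_pos
  refine ⟨C₀ * (960000 * Λ + 150 * π / s₀ ^ 2), by positivity, ?_⟩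
  intro R₀ hR₀ n δ hδ σ hσ
  obtain ⟨b, hb1, hb2, hb3⟩ := hV R₀ hR₀ n δ hδ σ hσ
  refine ⟨b, hb1, hb2, ?_⟩
  intro p c hc j R hR hRj hsupp
  have hmain := hb3 R hR hsupp c
  have hR0 : 0 < R₀ := by linarith
  set β := (R₀ * 2 ^ n) ^ (-(1 / 2 : ℝ)) with hβ
  have hβ0 : 0 < β := by positivity
  set T := {α : ℝ | |sin α| ≤ s₀} with hT
  have hTm : MeasurableSet T :=
    (isClosed_le (continuous_abs.comp continuous_sin) continuous_const).measurableSet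
  set A := Icc (-π) π ∩ T with hA
  have hAm : MeasurableSet A := measurableSet_Icc.inter hTm
  have hAsub : A ⊆ Icc (-π) π := inter_subset_left
  set Y := Yb H Λ s₀ β n b p R₀ j with hY
  have hk := k0_cont38 hβ0
  have hFc : ∀ i, Continuous (fun α => ‖cs (blk n) (b i α) (ga H α) (c, R)‖) := fun i =>
    ((cs_cont' (blk n) (hb1 i) (ga_cont hH)).comp
      (Continuous.prodMk continuous_id continuous_const)).norm
  have hfc : ∀ (i : Fin 3) (e : Bool × Bool × Bool), Continuous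
      (fun z : ℝ × ((ℝ × ℝ) × ℝ) =>
        ‖cs (blk n) (sw (ga H z.1) Λ n (b i z.1) e) (ga H z.1) z.2‖) := fun i e =>
    (cs_cont' (blk n) (sw_cont Λ n (hb1 i) (ga_cont hH) e) (ga_cont hH)).norm
  have hbox : IsCompact (bxs n p R₀ j) := by
    unfold bxs sq
    exact (isCompact_Icc.prod isCompact_Icc).prod isCompact_Icc
  have hGc : ∀ (i : Fin 3) (e : Bool × Bool × Bool), Continuous (fun α : ℝ =>
      ∫ q in bxs n p R₀ j, ‖cs (blk n) (sw (ga H α) Λ n (b i α) e) (ga H α) q‖) := fun i e =>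
    continuous_parametric_integral_of_continuous (f := fun (α : ℝ) (q : (ℝ × ℝ) × ℝ) =>
      ‖cs (blk n) (sw (ga H α) Λ n (b i α) e) (ga H α) q‖) (hfc i e) hbox
  -- the terms of `Yb`
  have hYterm : ∀ (i : Fin 3) (e : Bool × Bool × Bool), 0 ≤ ∫ α in A, k0 β α *
      ∫ q in bxs n p R₀ j, ‖cs (blk n) (sw (ga H α) Λ n (b i α) e) (ga H α) q‖ ^ 6 := by
    intro i e
    refine setIntegral_nonneg hAm fun α _ => mul_nonneg (k0_nn38 hβ0 α) ?_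
    exact integral_nonneg fun q => by positivity
  have hY0 : 0 ≤ Y := Finset.sum_nonneg fun i _ => Finset.sum_nonneg fun e _ => hYterm i e
  have hYle : ∀ (i : Fin 3) (e : Bool × Bool × Bool), (∫ α in A, k0 β α *
      ∫ q in bxs n p R₀ j, ‖cs (blk n) (sw (ga H α) Λ n (b i α) e) (ga H α) q‖ ^ 6) ≤ Y := by
    intro i e
    refine le_trans ?_ (Finset.single_le_sum (f := fun i : Fin 3 => ∑ e : Bool × Bool × Bool,
      ∫ α in A, k0 β α * ∫ q in bxs n p R₀ j,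
        ‖cs (blk n) (sw (ga H α) Λ n (b i α) e) (ga H α) q‖ ^ 6)
      (fun i _ => Finset.sum_nonneg fun e _ => hYterm i e) (Finset.mem_univ i))
    exact Finset.single_le_sum (f := fun e : Bool × Bool × Bool =>
      ∫ α in A, k0 β α * ∫ q in bxs n p R₀ j,
        ‖cs (blk n) (sw (ga H α) Λ n (b i α) e) (ga H α) q‖ ^ 6)
      (fun e _ => hYterm i e) (Finset.mem_univ e)
  set N : ℝ := 2 ^ (3 * n) with hN
  have hN0 : 0 < N := by positivity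
  have hI : ∀ (i : Fin 3) (e : Bool × Bool × Bool), N * (∫ α in A, k0 β α *
      ∫ q in bxs n p R₀ j, ‖cs (blk n) (sw (ga H α) Λ n (b i α) e) (ga H α) q‖) ≤
      20 * (N * Y) ^ (1 / 6 : ℝ) := by
    intro i e
    apply root38 hN0 hY0
    have h := hoelder_box hβ0 n p R₀ j hAm hAsub (hfc i e) (fun z => norm_nonneg _)
    refine h.trans ?_
    exact mul_le_mul_of_nonneg_left (hYle i e) (by positivity)
  -- the part with small sine
  have hsmall : ∀ i, ∫ α in A, k0 β α * ‖cs (blk n) (b i α) (ga H α) (c, R)‖ ≤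
      320000 * Λ * (N * Y) ^ (1 / 6 : ℝ) := by
    intro i
    have h1 : ∀ α ∈ A, k0 β α * ‖cs (blk n) (b i α) (ga H α) (c, R)‖ ≤
        2000 * Λ * N * ∑ e : Bool × Bool × Bool, k0 β α *
          ∫ q in bxs n p R₀ j, ‖cs (blk n) (sw (ga H α) Λ n (b i α) e) (ga H α) q‖ := by
      intro α _
      have e1 : ∀ x : ℕ, ((x : ℝ) + 1) / 2 ^ n = (x : ℝ) / 2 ^ n + 1 / 2 ^ n := fun x => by
        rw [add_div]
      have hbx : bxs n p R₀ j = (Icc ((p.1 : ℝ) / 2 ^ n) ((p.1 : ℝ) / 2 ^ n + 1 / 2 ^ n) ×ˢ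
          Icc ((p.2 : ℝ) / 2 ^ n) ((p.2 : ℝ) / 2 ^ n + 1 / 2 ^ n)) ×ˢ
          Icc (R₀ + (j : ℝ) / 2 ^ n) (R₀ + (j : ℝ) / 2 ^ n + 1 / 2 ^ n) := by
        unfold bxs sq
        rw [e1, e1, e1, add_assoc]
      have h2 := sobolev_box hΛ (hΛ' α) n (b i α) ((p.1 : ℝ) / 2 ^ n, (p.2 : ℝ) / 2 ^ n)
        (R₀ + (j : ℝ) / 2 ^ n) (c := c) (by
          have := hc
          unfold sq at this
          rw [e1, e1] at this
          exact this) (R := R) (by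
          have := hRj
          rw [e1, ← add_assoc] at this
          exact this)
      rw [← hbx] at h2
      have h3 := mul_le_mul_of_nonneg_left h2 (k0_nn38 hβ0 α)
      refine h3.trans (le_of_eq ?_)
      rw [Finset.mul_sum, Finset.mul_sum, Finset.mul_sum]
      refine Finset.sum_congr rfl fun e _ => ?_
      ring
    have hint1 : IntegrableOn (fun α => k0 β α * ‖cs (blk n) (b i α) (ga H α) (c, R)‖) A :=
      ((hk.mul (hFc i)).integrableOn_Icc).mono_set hAsub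
    have hint2 : ∀ e : Bool × Bool × Bool, IntegrableOn (fun α => k0 β α *
        ∫ q in bxs n p R₀ j, ‖cs (blk n) (sw (ga H α) Λ n (b i α) e) (ga H α) q‖) A := fun e =>
      ((hk.mul (hGc i e)).integrableOn_Icc).mono_set hAsub
    have hint3 : IntegrableOn (fun α => 2000 * Λ * N * ∑ e : Bool × Bool × Bool, k0 β α *
        ∫ q in bxs n p R₀ j, ‖cs (blk n) (sw (ga H α) Λ n (b i α) e) (ga H α) q‖) A :=
      (integrable_finsetSum _ fun e _ => hint2 e).const_mul _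
    have h4 := setIntegral_mono_on hint1 hint3 hAm h1
    refine h4.trans ?_
    rw [integral_const_mul, integral_finsetSum _ (fun e _ => hint2 e)]
    calc 2000 * Λ * N * ∑ e : Bool × Bool × Bool, ∫ α in A, k0 β α *
          ∫ q in bxs n p R₀ j, ‖cs (blk n) (sw (ga H α) Λ n (b i α) e) (ga H α) q‖
        = 2000 * Λ * ∑ e : Bool × Bool × Bool, N * ∫ α in A, k0 β α *
          ∫ q in bxs n p R₀ j, ‖cs (blk n) (sw (ga H α) Λ n (b i α) e) (ga H α) q‖ := by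
          rw [← Finset.mul_sum]
          ring
      _ ≤ 2000 * Λ * ∑ _e : Bool × Bool × Bool, 20 * (N * Y) ^ (1 / 6 : ℝ) := by
          exact mul_le_mul_of_nonneg_left (Finset.sum_le_sum fun e _ => hI i e) (by positivity)
      _ = 320000 * Λ * (N * Y) ^ (1 / 6 : ℝ) := by
          rw [Finset.sum_const, Finset.card_univ]
          simp only [Fintype.card_prod, Fintype.card_bool, nsmul_eq_mul]
          push_cast
          ring
  -- the part with large sine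
  have hlarge : ∀ i, ∫ α in Icc (-π) π \ T, k0 β α * ‖cs (blk n) (b i α) (ga H α) (c, R)‖ ≤
      β / s₀ ^ 2 * (25 * 4 ^ n) * (2 * π) := by
    intro i
    have h1 : ∀ α ∈ Icc (-π) π \ T, ‖k0 β α * ‖cs (blk n) (b i α) (ga H α) (c, R)‖‖ ≤
        β / s₀ ^ 2 * (25 * 4 ^ n) := by
      intro α hα
      have h2 : s₀ < |sin α| := not_le.1 hα.2
      have h3 : k0 β α ≤ β / s₀ ^ 2 := by
        unfold k0
        apply div_le_div_of_nonneg_left hβ0.le (by positivity)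
        have h4 : s₀ ^ 2 ≤ sin α ^ 2 := by
          rw [← sq_abs (sin α)]
          exact pow_le_pow_left₀ hs.le h2.le 2
        nlinarith [sq_nonneg β]
      rw [Real.norm_of_nonneg (mul_nonneg (k0_nn38 hβ0 α) (norm_nonneg _))]
      exact mul_le_mul h3 ((cs_card38 _ (hb2 i α) _ _).trans (blk_card n)) (norm_nonneg _)
        (by positivity)
    have h2 : volume (Icc (-π) π \ T) < ⊤ :=
      lt_of_le_of_lt (measure_mono sdiff_subset) (by rw [Real.volume_Icc]; exact ENNReal.ofReal_lt_top)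
    have h3 := norm_setIntegral_le_of_norm_le_const h2 h1
    have h4 : volume.real (Icc (-π) π \ T) ≤ 2 * π := by
      have h5 : volume.real (Icc (-π) π \ T) ≤ volume.real (Icc (-π) π) :=
        measureReal_mono sdiff_subset (by rw [Real.volume_Icc]; exact ENNReal.ofReal_ne_top)
      rw [Real.volume_real_Icc_of_le (by linarith)] at h5
      linarith
    calc ∫ α in Icc (-π) π \ T, k0 β α * ‖cs (blk n) (b i α) (ga H α) (c, R)‖
        ≤ ‖∫ α in Icc (-π) π \ T, k0 β α * ‖cs (blk n) (b i α) (ga H α) (c, R)‖‖ := Real.le_norm_self _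
      _ ≤ β / s₀ ^ 2 * (25 * 4 ^ n) * volume.real (Icc (-π) π \ T) := h3
      _ ≤ β / s₀ ^ 2 * (25 * 4 ^ n) * (2 * π) := by gcongr
  have hsum : ∀ i, ∫ α in (-π)..π, k0 β α * ‖cs (blk n) (b i α) (ga H α) (c, R)‖ ≤
      320000 * Λ * (N * Y) ^ (1 / 6 : ℝ) + β / s₀ ^ 2 * (25 * 4 ^ n) * (2 * π) := by
    intro i
    rw [intervalIntegral.integral_of_le (by linarith), ← integral_Icc_eq_integral_Ioc]
    have hsp := integral_inter_add_sdiff (μ := volume) (s := Icc (-π) π)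
      (f := fun α => k0 β α * ‖cs (blk n) (b i α) (ga H α) (c, R)‖) hTm
      (hk.mul (hFc i)).integrableOn_Icc
    rw [← hsp]
    exact add_le_add (hsmall i) (hlarge i)
  have hpow : R₀ ^ (1 / 2 : ℝ) * (2 : ℝ) ^ (-(3 / 2 : ℝ) * n) * (β * 4 ^ n) = 1 := by
    rw [hβ, Real.mul_rpow hR0.le (by positivity)]
    have e1 : ((2 : ℝ) ^ n) ^ (-(1 / 2 : ℝ)) = (2 : ℝ) ^ (-(1 / 2 : ℝ) * n) := by
      rw [← Real.rpow_natCast, ← Real.rpow_mul (by norm_num)]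
      congr 1
      ring
    have e2 : (4 : ℝ) ^ n = (2 : ℝ) ^ ((2 : ℝ) * n) := by
      rw [Real.rpow_mul (by norm_num), Real.rpow_natCast]
      norm_num
    rw [e1, e2]
    calc R₀ ^ (1 / 2 : ℝ) * (2 : ℝ) ^ (-(3 / 2 : ℝ) * n) *
          (R₀ ^ (-(1 / 2 : ℝ)) * (2 : ℝ) ^ (-(1 / 2 : ℝ) * n) * (2 : ℝ) ^ ((2 : ℝ) * n))
        = (R₀ ^ (1 / 2 : ℝ) * R₀ ^ (-(1 / 2 : ℝ))) * ((2 : ℝ) ^ (-(3 / 2 : ℝ) * n) *
          (2 : ℝ) ^ (-(1 / 2 : ℝ) * n) * (2 : ℝ) ^ ((2 : ℝ) * n)) := by ring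
      _ = 1 := by
          rw [← Real.rpow_add hR0, ← Real.rpow_add (by norm_num), ← Real.rpow_add (by norm_num)]
          have e3 : (1 / 2 : ℝ) + -(1 / 2 : ℝ) = 0 := by ring
          have e4 : -(3 / 2 : ℝ) * n + -(1 / 2 : ℝ) * n + (2 : ℝ) * n = 0 := by ring
          rw [e3, e4, Real.rpow_zero, Real.rpow_zero, one_mul]
  set Q := R₀ ^ (1 / 2 : ℝ) * (2 : ℝ) ^ (-(3 / 2 : ℝ) * n) with hQ
  have hQ0 : 0 ≤ Q := by positivity
  set Z := (N * Y) ^ (1 / 6 : ℝ) with hZ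
  have hZ0 : 0 ≤ Z := by positivity
  have hfin : ‖VKc φ (fun θ => R * H θ + σ * δ) δ n c‖ ≤
      C₀ * Q * (3 * (320000 * Λ * Z + β / s₀ ^ 2 * (25 * 4 ^ n) * (2 * π))) := by
    refine hmain.trans ?_
    rw [mul_assoc C₀ (R₀ ^ (1 / 2 : ℝ))]
    apply mul_le_mul_of_nonneg_left _ (by positivity)
    calc ∑ i, ∫ α in (-π)..π, k0 β α * ‖cs (blk n) (b i α) (ga H α) (c, R)‖
        ≤ ∑ _i : Fin 3, (320000 * Λ * Z + β / s₀ ^ 2 * (25 * 4 ^ n) * (2 * π)) :=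
          Finset.sum_le_sum fun i _ => hsum i
      _ = 3 * (320000 * Λ * Z + β / s₀ ^ 2 * (25 * 4 ^ n) * (2 * π)) := by
          rw [Finset.sum_const, Finset.card_univ, Fintype.card_fin, nsmul_eq_mul]
          norm_num
  refine hfin.trans ?_
  have e5 : C₀ * Q * (3 * (320000 * Λ * Z + β / s₀ ^ 2 * (25 * 4 ^ n) * (2 * π))) =
      C₀ * (960000 * Λ * (Q * Z) + 150 * π / s₀ ^ 2 * (Q * (β * 4 ^ n))) := by
    field_simp
    ring
  rw [e5, hpow, mul_one, mul_assoc C₀]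
  apply mul_le_mul_of_nonneg_left _ hC₀.le
  have h6 : 0 ≤ 150 * π / s₀ ^ 2 * (Q * Z) := by positivity
  have h7 : 0 ≤ 960000 * Λ := by positivity
  nlinarith

end Pool.Agent.Helper22.AC
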