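import Pool.Agent.Helper22.AC.Defs

/-!
# AC-D7: the exponents

PROOF of `exps`. `G₁ = s (2θ - 1) - (4 - 6θ) > 0`, `G₂ = (6θ - 3) - (3 - s)(1 - θ) > 0` (from the two lower bounds for `s`). Take
`e = e2 = ε = t`, `η = t` with `t > 0` at most `G₁/24, G₂/24, (2θ - 1)/4, s/2, θ/2, 1/10`. The first expression is
`-G₁ + 6 t + 2 t s + t (2θ - 1) - 2 t² ≤ -G₁ + 12 t`, the second `-G₂ + 6 t + (3 - s) t + t (1 - θ) + t² ≤ -G₂ + 12 t` (`0 ≤ s ≤ 2`).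
PROOF of `term_le`. `x = 2^N ≥ 1`, `K = 2^n` with `x^(2θ-1-2e) ≤ K ≤ 2 x^(1-θ+e2)`. `K^ε x^(4-6θ+6e) K^(-s) ≤ x^(4-6θ+6e-(s-ε)(2θ-1-2e)) ≤ x^(-η)` and
`K^(3+ε) x^(3-6θ+6e) K^(-s) ≤ 2^(3+ε-s) x^(3-6θ+6e+(3+ε-s)(1-θ+e2)) ≤ 16 x^(-η)` (`3 + ε - s ≤ 4` as `ε ≤ 1`).
PROOF of `series`. There are at most `2 N + 3` numbers `n` with `2^n ≤ 2 · 2^(N (1-θ+e2))`, so the `N`-th sum is `≤ (2N+3) · 17 · 2^(-η N)`; summable
(polynomial times geometric).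
-/

open MeasureTheory Real Set Filter Topology

set_option autoImplicit false

namespace Pool.Agent.Helper22.AC

open Pool.Agent.Helper22.AE

theorem exps {θ s : ℝ} (h1 : 3 / 5 < θ) (h2 : θ < 2 / 3) (hs : (4 - 6 * θ) / (2 * θ - 1) < s)
    (hs' : (6 - 9 * θ) / (1 - θ) < s) (hs2 : s ≤ 2) : ∃ e e2 ε η : ℝ, 0 < e ∧ 0 < e2 ∧ 0 < ε ∧ ε ≤ 1 ∧ 0 < η ∧
      2 * e < 2 * θ - 1 ∧ ε < s ∧ 1 - θ + e2 < 1 ∧
      4 - 6 * θ + 6 * e - (s - ε) * (2 * θ - 1 - 2 * e) ≤ -η ∧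
      3 - 6 * θ + 6 * e + (3 + ε - s) * (1 - θ + e2) ≤ -η := by
  have ha : 0 < 2 * θ - 1 := by linarith
  have hb : 0 < 1 - θ := by linarith
  rw [div_lt_iff₀ ha] at hs
  rw [div_lt_iff₀ hb] at hs'
  have hs0 : 0 < s := by
    by_contra h
    have : s * (2 * θ - 1) ≤ 0 := mul_nonpos_of_nonpos_of_nonneg (not_lt.1 h) ha.le
    linarith
  set G1 := s * (2 * θ - 1) - (4 - 6 * θ) with hG1
  set G2 := s * (1 - θ) - (6 - 9 * θ) with hG2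
  have hG1p : 0 < G1 := by rw [hG1]; linarith
  have hG2p : 0 < G2 := by rw [hG2]; linarith
  obtain ⟨t, ht0, ht1, ht2, ht3, ht4, ht5, ht6⟩ : ∃ t : ℝ, 0 < t ∧ t ≤ G1 / 24 ∧ t ≤ G2 / 24 ∧
      t ≤ (2 * θ - 1) / 4 ∧ t ≤ s / 2 ∧ t ≤ θ / 2 ∧ t ≤ 1 / 10 := by
    refine ⟨min (min (G1 / 24) (G2 / 24)) (min (min ((2 * θ - 1) / 4) (s / 2))
      (min (θ / 2) (1 / 10))), ?_, ?_, ?_, ?_, ?_, ?_, ?_⟩
    · refine lt_min (lt_min ?_ ?_) (lt_min (lt_min ?_ ?_) (lt_min ?_ ?_)) <;> linarith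
    · exact (min_le_left _ _).trans (min_le_left _ _)
    · exact (min_le_left _ _).trans (min_le_right _ _)
    · exact (min_le_right _ _).trans ((min_le_left _ _).trans (min_le_left _ _))
    · exact (min_le_right _ _).trans ((min_le_left _ _).trans (min_le_right _ _))
    · exact (min_le_right _ _).trans ((min_le_right _ _).trans (min_le_left _ _))
    · exact (min_le_right _ _).trans ((min_le_right _ _).trans (min_le_right _ _))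
  have hts : t * s ≤ 2 * t := by nlinarith
  have hts0 : 0 ≤ t * s := (mul_pos ht0 hs0).le
  have htt : t * (2 * θ - 1) ≤ t := by nlinarith
  have htθ : 0 ≤ t * θ := (mul_pos ht0 (by linarith)).le
  have htt2 : 0 ≤ t * t := (mul_pos ht0 ht0).le
  have htt3 : t * t ≤ t := by nlinarith
  refine ⟨t, t, t, t, ht0, ht0, ht0, by linarith, ht0, by linarith, by linarith, by linarith,
    ?_, ?_⟩
  · have e1 : 4 - 6 * θ + 6 * t - (s - t) * (2 * θ - 1 - 2 * t) =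
        -G1 + 6 * t + 2 * (t * s) + t * (2 * θ - 1) - 2 * (t * t) := by rw [hG1]; ring
    rw [e1]
    linarith
  · have e1 : 3 - 6 * θ + 6 * t + (3 + t - s) * (1 - θ + t) =
        -G2 + 6 * t + 3 * t - t * s + t - t * θ + t * t := by rw [hG2]; ring
    rw [e1]
    linarith

/-- the numbers `n` in the middle range for `R₀ = 2^N` -/
noncomputable def midr (θ e e2 : ℝ) (N : ℕ) : Finset ℕ :=
  (Finset.range (2 * N + 3)).filter (fun n => ((2 : ℝ) ^ N) ^ (2 * θ - 1 - 2 * e) ≤ 2 ^ n ∧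
    (2 : ℝ) ^ n ≤ 2 * ((2 : ℝ) ^ N) ^ (1 - θ + e2))

theorem term_le {θ s e e2 ε η : ℝ} (he2 : 0 < e2) (hε : 0 < ε) (hε1 : ε ≤ 1) (hs : ε < s) (hs2 : s ≤ 2)
    (hθ : θ < 1) (h1 : 2 * e < 2 * θ - 1)
    (h2 : 4 - 6 * θ + 6 * e - (s - ε) * (2 * θ - 1 - 2 * e) ≤ -η)
    (h3 : 3 - 6 * θ + 6 * e + (3 + ε - s) * (1 - θ + e2) ≤ -η) {N n : ℕ} (hn : n ∈ midr θ e e2 N) :
    ((2 : ℝ) ^ n) ^ ε * (((2 : ℝ) ^ N) ^ (4 - 6 * θ + 6 * e) + 8 ^ n * ((2 : ℝ) ^ N) ^ (3 - 6 * θ + 6 * e)) *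
      ((2 : ℝ) ^ n) ^ (-s) ≤ 17 * ((2 : ℝ) ^ N) ^ (-η) := by
  obtain ⟨hn1, hn2⟩ := (Finset.mem_filter.1 hn).2
  set x : ℝ := (2 : ℝ) ^ N with hx
  set K : ℝ := (2 : ℝ) ^ n with hK
  have hx1 : 1 ≤ x := one_le_pow₀ (by norm_num)
  have hx0 : 0 < x := by linarith
  have hK0 : 0 < K := by rw [hK]; positivity
  have h8 : (8 : ℝ) ^ n = K ^ (3 : ℝ) := by
    rw [hK]
    have : (8 : ℝ) = 2 ^ 3 := by norm_num
    rw [this, ← pow_mul, mul_comm, pow_mul]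
    norm_cast
  have ea : K ^ ε * x ^ (4 - 6 * θ + 6 * e) * K ^ (-s) =
      x ^ (4 - 6 * θ + 6 * e) * K ^ (-(s - ε)) := by
    have : -(s - ε) = ε + -s := by ring
    rw [this, Real.rpow_add hK0]
    ring
  have eb : K ^ ε * (8 ^ n * x ^ (3 - 6 * θ + 6 * e)) * K ^ (-s) =
      x ^ (3 - 6 * θ + 6 * e) * K ^ (3 + ε - s) := by
    have : 3 + ε - s = 3 + ε + -s := by ring
    rw [this, Real.rpow_add hK0, Real.rpow_add hK0, h8]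
    ring
  have ha : K ^ (-(s - ε)) ≤ (x ^ (2 * θ - 1 - 2 * e)) ^ (-(s - ε)) :=
    Real.rpow_le_rpow_of_nonpos (Real.rpow_pos_of_pos hx0 _) hn1 (by linarith)
  have ha' : x ^ (4 - 6 * θ + 6 * e) * K ^ (-(s - ε)) ≤ x ^ (-η) := by
    refine (mul_le_mul_of_nonneg_left ha (Real.rpow_nonneg hx0.le _)).trans ?_
    rw [← Real.rpow_mul hx0.le, ← Real.rpow_add hx0]
    refine Real.rpow_le_rpow_of_exponent_le hx1 ?_
    linarith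
  have hb : K ^ (3 + ε - s) ≤ (2 * x ^ (1 - θ + e2)) ^ (3 + ε - s) :=
    Real.rpow_le_rpow hK0.le hn2 (by linarith)
  have h16 : (2 : ℝ) ^ (3 + ε - s) ≤ 16 := by
    have h4 : (2 : ℝ) ^ (3 + ε - s) ≤ (2 : ℝ) ^ (4 : ℝ) :=
      Real.rpow_le_rpow_of_exponent_le (by norm_num) (by linarith)
    have h5 : (2 : ℝ) ^ (4 : ℝ) = 16 := by
      norm_cast
    linarith
  have hb' : x ^ (3 - 6 * θ + 6 * e) * K ^ (3 + ε - s) ≤ 16 * x ^ (-η) := by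
    refine (mul_le_mul_of_nonneg_left hb (Real.rpow_nonneg hx0.le _)).trans ?_
    rw [Real.mul_rpow (by norm_num) (Real.rpow_nonneg hx0.le _), ← Real.rpow_mul hx0.le]
    have h6 : x ^ (3 - 6 * θ + 6 * e) * ((2 : ℝ) ^ (3 + ε - s) * x ^ ((1 - θ + e2) * (3 + ε - s))) =
        (2 : ℝ) ^ (3 + ε - s) * x ^ (3 - 6 * θ + 6 * e + (1 - θ + e2) * (3 + ε - s)) := by
      rw [Real.rpow_add hx0 (3 - 6 * θ + 6 * e) ((1 - θ + e2) * (3 + ε - s))]; ring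
    rw [h6]
    refine mul_le_mul h16 (Real.rpow_le_rpow_of_exponent_le hx1 ?_) (Real.rpow_nonneg hx0.le _)
      (by norm_num)
    linarith
  have e3 : K ^ ε * (x ^ (4 - 6 * θ + 6 * e) + 8 ^ n * x ^ (3 - 6 * θ + 6 * e)) * K ^ (-s) =
      K ^ ε * x ^ (4 - 6 * θ + 6 * e) * K ^ (-s) +
      K ^ ε * (8 ^ n * x ^ (3 - 6 * θ + 6 * e)) * K ^ (-s) := by ring
  rw [e3, ea, eb]
  linarith

theorem series {θ s e e2 ε η : ℝ} (he2 : 0 < e2) (hε : 0 < ε) (hε1 : ε ≤ 1) (hs : ε < s) (hs2 : s ≤ 2)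
    (hθ : θ < 1) (hη : 0 < η) (h1 : 2 * e < 2 * θ - 1)
    (h2 : 4 - 6 * θ + 6 * e - (s - ε) * (2 * θ - 1 - 2 * e) ≤ -η)
    (h3 : 3 - 6 * θ + 6 * e + (3 + ε - s) * (1 - θ + e2) ≤ -η) :
    Summable (fun N : ℕ => ∑ n ∈ midr θ e e2 N,
      ((2 : ℝ) ^ n) ^ ε * (((2 : ℝ) ^ N) ^ (4 - 6 * θ + 6 * e) + 8 ^ n * ((2 : ℝ) ^ N) ^ (3 - 6 * θ + 6 * e)) *
        ((2 : ℝ) ^ n) ^ (-s)) := by
  set r : ℝ := (2 : ℝ) ^ (-η) with hr
  have hr0 : 0 ≤ r := by rw [hr]; positivity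
  have hr1 : r < 1 := by
    rw [hr]
    exact Real.rpow_lt_one_of_one_lt_of_neg (by norm_num) (by linarith)
  have hnorm : ‖r‖ < 1 := by rwa [Real.norm_eq_abs, abs_of_nonneg hr0]
  have hs1 := summable_pow_mul_geometric_of_norm_lt_one 1 hnorm
  have hs0 := summable_pow_mul_geometric_of_norm_lt_one 0 hnorm
  have hsum : Summable (fun N : ℕ => 34 * ((N : ℝ) ^ 1 * r ^ N) + 51 * ((N : ℝ) ^ 0 * r ^ N)) :=
    (hs1.mul_left 34).add (hs0.mul_left 51)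
  refine Summable.of_nonneg_of_le (fun N => Finset.sum_nonneg fun n _ => by positivity)
    (fun N => ?_) hsum
  have h4 : ∀ n ∈ midr θ e e2 N, ((2 : ℝ) ^ n) ^ ε * (((2 : ℝ) ^ N) ^ (4 - 6 * θ + 6 * e) +
      8 ^ n * ((2 : ℝ) ^ N) ^ (3 - 6 * θ + 6 * e)) * ((2 : ℝ) ^ n) ^ (-s) ≤
      17 * ((2 : ℝ) ^ N) ^ (-η) :=
    fun n hn => term_le he2 hε hε1 hs hs2 hθ h1 h2 h3 hn
  refine (Finset.sum_le_card_nsmul _ _ _ h4).trans ?_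
  have h5 : ((2 : ℝ) ^ N) ^ (-η) = r ^ N := by
    rw [hr, ← Real.rpow_natCast, ← Real.rpow_natCast, ← Real.rpow_mul (by norm_num),
      ← Real.rpow_mul (by norm_num), mul_comm]
  have h6 : (midr θ e e2 N).card ≤ 2 * N + 3 := by
    refine (Finset.card_filter_le _ _).trans ?_
    rw [Finset.card_range]
  have h7 : ((midr θ e e2 N).card : ℝ) ≤ 2 * N + 3 := by exact_mod_cast h6
  rw [nsmul_eq_mul, h5, pow_one, pow_zero]
  have h8 : 0 ≤ 17 * r ^ N := by positivity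
  calc ((midr θ e e2 N).card : ℝ) * (17 * r ^ N) ≤ (2 * N + 3) * (17 * r ^ N) :=
        mul_le_mul_of_nonneg_right h7 h8
    _ = 34 * ((N : ℝ) * r ^ N) + 51 * (1 * r ^ N) := by ring

end Pool.Agent.Helper22.AC
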