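import Pool.Agent.Helper22.AC.Defs

/-!
# AC-D8: Hausdorff measure of limsup sets of squares

PROOF of `limsup_null`. For every `M` the set is covered by the squares `sq q.1 q.2`, `q ∈ F N`, `N ≥ M` (countably many). The diameter of
`sq n p` (maximum norm on `ℝ × ℝ`) is `1/2^n`, its power `s` is `(2^n)^(-s)`. The sum over `N ≥ M` tends to zero (tail of a convergent series), in
particular every single term is small for large `N`, so the diameters tend to zero uniformly. `hausdorffMeasure_le_liminf_tsum` with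
`β = ℕ`, `ι M = {x : ℕ × (ℕ × (ℕ × ℕ)) // M ≤ x.1 ∧ x.2 ∈ F x.1}`.
-/

open MeasureTheory Real Set Filter Topology

set_option autoImplicit false

namespace Pool.Agent.Helper22.AC

open Pool.Agent.Helper22.AE

private theorem ediam_sq11 (n : ℕ) (p : ℕ × ℕ) :
    Metric.ediam (sq n p) ≤ ENNReal.ofReal (1 / 2 ^ n) := by
  refine Metric.ediam_le fun x hx y hy => ?_
  have h2 : (0 : ℝ) < 2 ^ n := by positivity
  have key : ∀ (m : ℕ) (u w : ℝ), u ∈ Icc ((m : ℝ) / 2 ^ n) (((m : ℝ) + 1) / 2 ^ n) →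
      w ∈ Icc ((m : ℝ) / 2 ^ n) (((m : ℝ) + 1) / 2 ^ n) → edist u w ≤ ENNReal.ofReal (1 / 2 ^ n) := by
    intro m u w hu hw
    rw [edist_dist]
    apply ENNReal.ofReal_le_ofReal
    rw [Real.dist_eq, abs_le]
    have e : ((m : ℝ) + 1) / 2 ^ n = (m : ℝ) / 2 ^ n + 1 / 2 ^ n := by ring
    rw [e] at hu hw
    constructor <;> linarith [hu.1, hu.2, hw.1, hw.2]
  rw [Prod.edist_eq]
  exact max_le (key _ _ _ hx.1 hy.1) (key _ _ _ hx.2 hy.2)

theorem limsup_null {s : ℝ} (hs : 0 < s) (F : ℕ → Finset (ℕ × (ℕ × ℕ)))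
    (hF : Summable (fun N => ∑ q ∈ F N, ((2 : ℝ) ^ q.1) ^ (-s))) :
    μH[s] {c : ℝ × ℝ | ∃ᶠ N in atTop, ∃ q ∈ F N, c ∈ sq q.1 q.2} = 0 := by
  set a : ℕ → ℝ := fun N => ∑ q ∈ F N, ((2 : ℝ) ^ q.1) ^ (-s) with ha
  have hterm : ∀ n : ℕ, 0 < ((2 : ℝ) ^ n) ^ (-s) := fun n => Real.rpow_pos_of_pos (by positivity) _
  have ha0 : ∀ N, 0 ≤ a N := fun N => Finset.sum_nonneg fun q _ => (hterm q.1).le
  set t : ℕ → ℝ := fun M => ∑' N, a (N + M) with ht
  have hsum : ∀ M, Summable fun N => a (N + M) := fun M => (summable_nat_add_iff M).2 hF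
  have ht0 : Tendsto t atTop (𝓝 0) := tendsto_sum_nat_add a
  have htn : ∀ M, 0 ≤ t M := fun M => tsum_nonneg fun N => ha0 _
  have hle : ∀ M N, ∀ q ∈ F (N + M), ((2 : ℝ) ^ q.1) ^ (-s) ≤ t M := by
    intro M N q hq
    have h1 : ((2 : ℝ) ^ q.1) ^ (-s) ≤ a (N + M) :=
      Finset.single_le_sum (f := fun q : ℕ × (ℕ × ℕ) => ((2 : ℝ) ^ q.1) ^ (-s))
        (fun q _ => (hterm q.1).le) hq
    exact h1.trans ((hsum M).le_tsum N fun j _ => ha0 _)
  have hkey := MeasureTheory.Measure.hausdorffMeasure_le_liminf_tsum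
    (ι := fun M : ℕ => Σ N : ℕ, {q // q ∈ F (N + M)}) s
    {c : ℝ × ℝ | ∃ᶠ N in atTop, ∃ q ∈ F N, c ∈ sq q.1 q.2} (l := atTop)
    (fun M => ENNReal.ofReal ((t M) ^ (1 / s)))
    (by
      rw [← ENNReal.ofReal_zero]
      refine ENNReal.tendsto_ofReal ?_
      have h1 := ht0.rpow_const (p := 1 / s) (Or.inr (by positivity))
      rwa [Real.zero_rpow (by positivity)] at h1)
    (fun M i => sq i.2.1.1 i.2.1.2)
    (Eventually.of_forall fun M i => by
      refine (ediam_sq11 _ _).trans (ENNReal.ofReal_le_ofReal ?_)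
      have h1 := hle M i.1 i.2.1 i.2.2
      have h2 : (0 : ℝ) < 2 ^ i.2.1.1 := by positivity
      have h3 : (1 / (2 : ℝ) ^ i.2.1.1) = (((2 : ℝ) ^ i.2.1.1) ^ (-s)) ^ (1 / s) := by
        rw [← Real.rpow_mul h2.le, neg_mul, mul_one_div_cancel hs.ne', Real.rpow_neg_one, one_div]
      rw [h3]
      exact Real.rpow_le_rpow (hterm _).le h1 (by positivity))
    (Eventually.of_forall fun M c hc => by
      obtain ⟨N, hN, q, hq, hcq⟩ := Filter.frequently_atTop.1 hc M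
      refine Set.mem_iUnion.2 ⟨⟨N - M, ⟨q, ?_⟩⟩, hcq⟩
      rwa [Nat.sub_add_cancel hN])
  have hbound : ∀ M : ℕ, (∑' i : (Σ N : ℕ, {q // q ∈ F (N + M)}),
      Metric.ediam (sq i.2.1.1 i.2.1.2) ^ s) ≤ ENNReal.ofReal (t M) := by
    intro M
    calc (∑' i : (Σ N : ℕ, {q // q ∈ F (N + M)}), Metric.ediam (sq i.2.1.1 i.2.1.2) ^ s) ≤
        ∑' i : (Σ N : ℕ, {q // q ∈ F (N + M)}), ENNReal.ofReal (((2 : ℝ) ^ i.2.1.1) ^ (-s)) := by
          refine ENNReal.tsum_le_tsum fun i => ?_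
          refine (ENNReal.rpow_le_rpow (ediam_sq11 _ _) hs.le).trans (le_of_eq ?_)
          have h2 : (0 : ℝ) < 2 ^ i.2.1.1 := by positivity
          rw [ENNReal.ofReal_rpow_of_pos (by positivity), one_div, Real.inv_rpow h2.le,
            Real.rpow_neg h2.le]
      _ = ∑' N : ℕ, ENNReal.ofReal (a (N + M)) := by
          rw [ENNReal.tsum_sigma']
          refine tsum_congr fun N => ?_
          rw [tsum_fintype, ha]
          simp only
          rw [ENNReal.ofReal_sum_of_nonneg fun q _ => (hterm q.1).le,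
            ← Finset.sum_coe_sort (F (N + M)) fun q => ENNReal.ofReal (((2 : ℝ) ^ q.1) ^ (-s))]
      _ = ENNReal.ofReal (t M) := (ENNReal.ofReal_tsum_of_nonneg (fun N => ha0 _) (hsum M)).symm
  have hlim : Tendsto (fun M => ENNReal.ofReal (t M)) atTop (𝓝 0) := by
    rw [← ENNReal.ofReal_zero]
    exact ENNReal.tendsto_ofReal ht0
  have hfin : liminf (fun M : ℕ => ∑' i : (Σ N : ℕ, {q // q ∈ F (N + M)}),
      Metric.ediam (sq i.2.1.1 i.2.1.2) ^ s) atTop ≤ 0 := by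
    rw [← hlim.liminf_eq]
    exact liminf_le_liminf (Eventually.of_forall hbound)
  exact le_antisymm (hkey.trans hfin) zero_le

end Pool.Agent.Helper22.AC
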