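import Pool.Agent.Helper22.AC.Defs

/-!
# AC-D8b: periodicity in the centre

PROOF of `Bd_add_int`: the bijection `k ↦ k + m` of `ℤ × ℤ` gives `cntc H (c + m) R = cntc H c R` (`Nat.card_congr`).
PROOF of `dimH_le_of_unit`: the exceptional set is the union of the countably many translates `m + (E ∩ [0,1]²)` (for `c` take `m = ⌊c⌋`,
`Bd_add_int`), each has `dimH ≤ s` (`dimH_le_of_hausdorffMeasure_ne_top`, `IsometryEquiv.dimH_image` or `dimH_preimage`), `dimH_iUnion`.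
-/

open MeasureTheory Real Set Filter Topology

set_option autoImplicit false

namespace Pool.Agent.Helper22.AC

open Pool.Agent.Helper22.AE

private lemma cntc_add53 (H : ℝ → ℝ) (c : ℝ × ℝ) (m : ℤ × ℤ) (R : ℝ) :
    cntc H (c + ((m.1 : ℝ), (m.2 : ℝ))) R = cntc H c R := by
  unfold cntc
  congr 1
  refine Nat.card_congr ((Equiv.subRight m).subtypeEquiv fun k => ?_)
  have h1 : (((Equiv.subRight m) k).1 : ℝ) - c.1 = (k.1 : ℝ) - (c + ((m.1 : ℝ), (m.2 : ℝ))).1 := by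
    simp only [Equiv.subRight_apply, Prod.fst_sub, Prod.fst_add]
    push_cast
    ring
  have h2 : (((Equiv.subRight m) k).2 : ℝ) - c.2 = (k.2 : ℝ) - (c + ((m.1 : ℝ), (m.2 : ℝ))).2 := by
    simp only [Equiv.subRight_apply, Prod.snd_sub, Prod.snd_add]
    push_cast
    ring
  rw [h1, h2]

theorem Bd_add_int {H : ℝ → ℝ} {c : ℝ × ℝ} {θ : ℝ} (m : ℤ × ℤ) : Bd H (c + ((m.1 : ℝ), (m.2 : ℝ))) θ ↔ Bd H c θ := by
  unfold Bd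
  simp only [cntc_add53]

theorem dimH_le_of_unit {H : ℝ → ℝ} {θ s : ℝ} (hs : 0 ≤ s)
    (h : μH[s] {c : ℝ × ℝ | c ∈ Icc (0 : ℝ) 1 ×ˢ Icc (0 : ℝ) 1 ∧ ¬ Bd H c θ} = 0) :
    dimH {c : ℝ × ℝ | ¬ Bd H c θ} ≤ ENNReal.ofReal s := by
  set E₁ : Set (ℝ × ℝ) := {c : ℝ × ℝ | c ∈ Icc (0 : ℝ) 1 ×ˢ Icc (0 : ℝ) 1 ∧ ¬ Bd H c θ} with hE₁
  have h1 : dimH E₁ ≤ ENNReal.ofReal s := by
    have h2 : dimH E₁ ≤ (s.toNNReal : ENNReal) := by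
      apply dimH_le_of_hausdorffMeasure_ne_top
      rw [Real.coe_toNNReal s hs, h]
      exact ENNReal.zero_ne_top
    exact h2
  have hsub : {c : ℝ × ℝ | ¬ Bd H c θ} ⊆
      ⋃ m : ℤ × ℤ, (IsometryEquiv.addRight (((m.1 : ℝ), (m.2 : ℝ)) : ℝ × ℝ)) '' E₁ := by
    intro c hc
    rw [mem_iUnion]
    refine ⟨(⌊c.1⌋, ⌊c.2⌋), (c.1 - ⌊c.1⌋, c.2 - ⌊c.2⌋), ⟨⟨⟨?_, ?_⟩, ⟨?_, ?_⟩⟩, ?_⟩, ?_⟩
    · exact sub_nonneg.2 (Int.floor_le _)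
    · show c.1 - ⌊c.1⌋ ≤ 1
      linarith [Int.lt_floor_add_one c.1]
    · exact sub_nonneg.2 (Int.floor_le _)
    · show c.2 - ⌊c.2⌋ ≤ 1
      linarith [Int.lt_floor_add_one c.2]
    · intro hB
      apply hc
      rw [← Bd_add_int (⌊c.1⌋, ⌊c.2⌋)] at hB
      have e : ((c.1 - ⌊c.1⌋, c.2 - ⌊c.2⌋) : ℝ × ℝ) + (((⌊c.1⌋ : ℤ) : ℝ), ((⌊c.2⌋ : ℤ) : ℝ)) = c := by
        ext
        · simp
        · simp
      rwa [e] at hB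
    · show ((c.1 - ⌊c.1⌋, c.2 - ⌊c.2⌋) : ℝ × ℝ) + (((⌊c.1⌋ : ℤ) : ℝ), ((⌊c.2⌋ : ℤ) : ℝ)) = c
      ext
      · simp
      · simp
  refine (dimH_mono hsub).trans ?_
  rw [dimH_iUnion]
  refine iSup_le fun m => ?_
  rw [IsometryEquiv.dimH_image]
  exact h1

end Pool.Agent.Helper22.AC
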