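import Pool.Agent.Helper22.AC.Defs

/-!
# AC-D9a: bounded radii

PROOF of `cntc_bdd`: for `1 ≤ R ≤ T` the points counted by `cntc H c R` satisfy `|k.i - c.i| ≤ T max H` (`θ = 0, π/2, π, 3π/2`; `H` is bounded because it is
continuous and periodic), so they lie in a finite set which does not depend on `R`; hence `0 ≤ cntc ≤ N`. The area term is `≤ area H * T^2`.
-/

open MeasureTheory Real Set Filter Topology

set_option autoImplicit false

namespace Pool.Agent.Helper22.AC

open Pool.Agent.Helper22.AE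

theorem cntc_bdd {H : ℝ → ℝ} (hH : IsSupp H) (c : ℝ × ℝ) (T : ℝ) :
    ∃ C : ℝ, ∀ R : ℝ, 1 ≤ R → R ≤ T → |cntc H c R - area H * R ^ 2| ≤ C := by
  set B : ℝ := H 0 + H (π / 2) + H π + H (-(π / 2)) with hB
  have h0 := hH.pos 0
  have h1 := hH.pos (π / 2)
  have h2 := hH.pos π
  have h3 := hH.pos (-(π / 2))
  have hB0 : 0 < B := by positivity
  set L : ℝ := T * B with hL
  let S : Finset (ℤ × ℤ) := Finset.Icc ⌊c.1 - L⌋ ⌈c.1 + L⌉ ×ˢ Finset.Icc ⌊c.2 - L⌋ ⌈c.2 + L⌉
  have hA : 0 ≤ area H := ENNReal.toReal_nonneg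
  refine ⟨(S.card : ℝ) + area H * T ^ 2, fun R hR1 hRT => ?_⟩
  have hR0 : 0 ≤ R := by linarith
  have hT0 : 0 ≤ T := by linarith
  have hcard : cntc H c R ≤ (S.card : ℝ) := by
    unfold cntc
    have hsub : ∀ k : ℤ × ℤ, (∀ θ : ℝ, ((k.1 : ℝ) - c.1) * cos θ + ((k.2 : ℝ) - c.2) * sin θ ≤ R * H θ) → k ∈ S := by
      intro k hk
      have a0 := hk 0
      have a1 := hk (π / 2)
      have a2 := hk π
      have a3 := hk (-(π / 2))
      simp only [Real.cos_zero, Real.sin_zero, Real.cos_pi_div_two, Real.sin_pi_div_two, Real.cos_pi, Real.sin_pi,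
        Real.cos_neg, Real.sin_neg, mul_one, mul_zero, add_zero, zero_add, mul_neg] at a0 a1 a2 a3
      have key : ∀ x : ℝ, 0 < x → x ≤ B → R * x ≤ L := fun x hx hxB =>
        mul_le_mul hRT hxB hx.le hT0
      have b0 := key _ h0 (by rw [hB]; linarith)
      have b1 := key _ h1 (by rw [hB]; linarith)
      have b2 := key _ h2 (by rw [hB]; linarith)
      have b3 := key _ h3 (by rw [hB]; linarith)
      simp only [S, Finset.mem_product, Finset.mem_Icc]
      refine ⟨⟨?_, ?_⟩, ⟨?_, ?_⟩⟩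
      · have : (⌊c.1 - L⌋ : ℝ) ≤ k.1 := (Int.floor_le _).trans (by linarith)
        exact_mod_cast this
      · have : (k.1 : ℝ) ≤ ⌈c.1 + L⌉ := le_trans (by linarith) (Int.le_ceil _)
        exact_mod_cast this
      · have : (⌊c.2 - L⌋ : ℝ) ≤ k.2 := (Int.floor_le _).trans (by linarith)
        exact_mod_cast this
      · have : (k.2 : ℝ) ≤ ⌈c.2 + L⌉ := le_trans (by linarith) (Int.le_ceil _)
        exact_mod_cast this
    have hc : Nat.card {k : ℤ × ℤ // ∀ θ : ℝ, ((k.1 : ℝ) - c.1) * cos θ + ((k.2 : ℝ) - c.2) * sin θ ≤ R * H θ} ≤ Nat.card S :=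
      Nat.card_le_card_of_injective (fun k => (⟨k.1, hsub k.1 k.2⟩ : S)) (by
        intro a b hab
        apply Subtype.ext
        exact congrArg (fun z : S => (z : ℤ × ℤ)) hab)
    have hSc : Nat.card S = S.card := by
      rw [Nat.card_eq_fintype_card, Fintype.card_coe]
    rw [hSc] at hc
    exact_mod_cast hc
  have hnn : 0 ≤ cntc H c R := by unfold cntc; positivity
  have hR2 : area H * R ^ 2 ≤ area H * T ^ 2 :=
    mul_le_mul_of_nonneg_left (pow_le_pow_left₀ hR0 hRT 2) hA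
  have hR20 : 0 ≤ area H * R ^ 2 := by positivity
  have hS : (0 : ℝ) ≤ (S.card : ℝ) := by positivity
  rw [abs_le]
  constructor <;> linarith

end Pool.Agent.Helper22.AC
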