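import Pool.Agent.Helper22.AC.Defs

/-!
# AC-E2a: exponents for the measure of the bad radii

PROOF of `exps2`. Take `t > 0` small and `θ' = θ - t`, `e = e2 = ε' = t`. The two expressions are `5 - 8θ + O(t)`:
`4 - 6θ' + 6e - (1 - ε')(2θ' - 1 - 2e) = 5 - 8θ' + 8e + ε'(2θ' - 1 - 2e) ≤ 5 - 8θ + 8t + 8t + t` and
`3 - 6θ' + 6e + (2 + ε')(1 - θ' + e2) = 5 - 8θ' + 6e + 2 e2 + ε'(1 - θ' + e2) ≤ 5 - 8θ + 8t + 8t + 2t`; so `t ≤ ε/36`, `t ≤ (2θ - 1)/10`,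
`t ≤ 1/10` suffice.
PROOF of `term2_le`. `x = 2^N ≥ 1`, `K = 2^n ≥ x^(2θ'-1-2e)`, `K ≤ 2 x^(1-θ'+e2)`:
`K^ε' x^(4-6θ'+6e) / K = x^(4-6θ'+6e) K^(-(1-ε')) ≤ x^(E)`, `K^ε' 8^n x^(3-6θ'+6e) / K = x^(3-6θ'+6e) K^(2+ε') ≤ 2^(2+ε') x^(E) ≤ 8 x^E`.
-/

open MeasureTheory Real Set Filter Topology

set_option autoImplicit false

namespace Pool.Agent.Helper22.AC

theorem exps2 {θ ε : ℝ} (h1 : 1 / 2 < θ) (h2 : θ < 2 / 3) (hε : 0 < ε) : ∃ θ' e e2 ε' : ℝ, 0 < e ∧ 0 < e2 ∧ 0 < ε' ∧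
    ε' ≤ 1 ∧ 1 / 2 < θ' ∧ θ' < θ ∧ 2 * e < 2 * θ' - 1 ∧ 1 - θ' + e2 < 1 ∧
    4 - 6 * θ' + 6 * e - (1 - ε') * (2 * θ' - 1 - 2 * e) ≤ 5 - 8 * θ + ε / 2 ∧
    3 - 6 * θ' + 6 * e + (2 + ε') * (1 - θ' + e2) ≤ 5 - 8 * θ + ε / 2 := by
  obtain ⟨t, ht0, ht1, ht2, ht3⟩ : ∃ t : ℝ, 0 < t ∧ t ≤ ε / 36 ∧ t ≤ (2 * θ - 1) / 10 ∧ t ≤ 1 / 10 :=
    ⟨min (ε / 36) (min ((2 * θ - 1) / 10) (1 / 10)),
      lt_min (by linarith) (lt_min (by linarith) (by norm_num)), min_le_left _ _,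
      (min_le_right _ _).trans (min_le_left _ _), (min_le_right _ _).trans (min_le_right _ _)⟩
  refine ⟨θ - t, t, t, t, ht0, ht0, ht0, by linarith, by linarith, by linarith, by linarith,
    by linarith, ?_, ?_⟩
  · have h3 : t * (2 * θ - 1 - 4 * t) ≤ t * 1 := mul_le_mul_of_nonneg_left (by linarith) ht0.le
    have h4 : 4 - 6 * (θ - t) + 6 * t - (1 - t) * (2 * (θ - t) - 1 - 2 * t) =
        5 - 8 * θ + 16 * t + t * (2 * θ - 1 - 4 * t) := by ring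
    rw [h4]
    linarith
  · have h3 : t * (1 - θ + 2 * t) ≤ t * 1 := mul_le_mul_of_nonneg_left (by linarith) ht0.le
    have h4 : 3 - 6 * (θ - t) + 6 * t + (2 + t) * (1 - (θ - t) + t) =
        5 - 8 * θ + 16 * t + t * (1 - θ + 2 * t) := by ring
    rw [h4]
    linarith

theorem term2_le {θ' e e2 ε' E : ℝ} (he2 : 0 < e2) (hε : 0 < ε') (hε1 : ε' ≤ 1) (hθ : θ' < 1)
    (h1 : 2 * e < 2 * θ' - 1) (h2 : 4 - 6 * θ' + 6 * e - (1 - ε') * (2 * θ' - 1 - 2 * e) ≤ E)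
    (h3 : 3 - 6 * θ' + 6 * e + (2 + ε') * (1 - θ' + e2) ≤ E) {N n : ℕ}
    (hn : ((2 : ℝ) ^ N) ^ (2 * θ' - 1 - 2 * e) ≤ 2 ^ n) (hn' : (2 : ℝ) ^ n ≤ 2 * ((2 : ℝ) ^ N) ^ (1 - θ' + e2)) :
    ((2 : ℝ) ^ n) ^ ε' * (((2 : ℝ) ^ N) ^ (4 - 6 * θ' + 6 * e) + 8 ^ n * ((2 : ℝ) ^ N) ^ (3 - 6 * θ' + 6 * e)) / 2 ^ n ≤
      9 * ((2 : ℝ) ^ N) ^ E := by
  have h8 : (8 : ℝ) ^ n = ((2 : ℝ) ^ n) ^ 3 := by
    rw [← pow_mul, mul_comm n 3, pow_mul]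
    norm_num
  rw [h8]
  have hx1 : (1 : ℝ) ≤ (2 : ℝ) ^ N := one_le_pow₀ (by norm_num)
  have hK0 : (0 : ℝ) < (2 : ℝ) ^ n := by positivity
  generalize (2 : ℝ) ^ N = x at *
  generalize (2 : ℝ) ^ n = K at *
  have hx0 : 0 < x := by linarith
  have hA : K ^ (ε' - 1) * x ^ (4 - 6 * θ' + 6 * e) ≤ x ^ E := by
    calc K ^ (ε' - 1) * x ^ (4 - 6 * θ' + 6 * e)
        ≤ (x ^ (2 * θ' - 1 - 2 * e)) ^ (ε' - 1) * x ^ (4 - 6 * θ' + 6 * e) :=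
          mul_le_mul_of_nonneg_right
            (Real.rpow_le_rpow_of_nonpos (Real.rpow_pos_of_pos hx0 _) hn (by linarith))
            (Real.rpow_nonneg hx0.le _)
      _ = x ^ (4 - 6 * θ' + 6 * e - (1 - ε') * (2 * θ' - 1 - 2 * e)) := by
          rw [← Real.rpow_mul hx0.le, ← Real.rpow_add hx0]
          congr 1
          ring
      _ ≤ x ^ E := Real.rpow_le_rpow_of_exponent_le hx1 h2
  have hB : K ^ (2 + ε') * x ^ (3 - 6 * θ' + 6 * e) ≤ 8 * x ^ E := by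
    calc K ^ (2 + ε') * x ^ (3 - 6 * θ' + 6 * e)
        ≤ (2 * x ^ (1 - θ' + e2)) ^ (2 + ε') * x ^ (3 - 6 * θ' + 6 * e) :=
          mul_le_mul_of_nonneg_right (Real.rpow_le_rpow hK0.le hn' (by linarith))
            (Real.rpow_nonneg hx0.le _)
      _ = 2 ^ (2 + ε') * x ^ (3 - 6 * θ' + 6 * e + (2 + ε') * (1 - θ' + e2)) := by
          rw [Real.mul_rpow (by norm_num) (Real.rpow_nonneg hx0.le _), ← Real.rpow_mul hx0.le,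
            mul_assoc, ← Real.rpow_add hx0]
          congr 2
          ring
      _ ≤ 2 ^ (3 : ℝ) * x ^ E :=
          mul_le_mul (Real.rpow_le_rpow_of_exponent_le (by norm_num) (by linarith))
            (Real.rpow_le_rpow_of_exponent_le hx1 h3) (Real.rpow_nonneg hx0.le _) (by positivity)
      _ = 8 * x ^ E := by norm_num
  have h4 : K ^ (ε' - 1) = K ^ ε' / K := by
    rw [Real.rpow_sub hK0, Real.rpow_one]
  have h5 : K ^ (2 + ε') = K ^ ε' * K ^ 3 / K := by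
    rw [Real.rpow_add hK0, Real.rpow_two]
    field_simp
  rw [h4] at hA
  rw [h5] at hB
  calc K ^ ε' * (x ^ (4 - 6 * θ' + 6 * e) + K ^ 3 * x ^ (3 - 6 * θ' + 6 * e)) / K
      = K ^ ε' / K * x ^ (4 - 6 * θ' + 6 * e) + K ^ ε' * K ^ 3 / K * x ^ (3 - 6 * θ' + 6 * e) := by
        ring
    _ ≤ x ^ E + 8 * x ^ E := add_le_add hA hB
    _ = 9 * x ^ E := by ring

end Pool.Agent.Helper22.AC
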