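import Pool.Agent.Helper22.AC.D1
import Pool.Agent.Helper22.AC.D3
import Pool.Agent.Helper22.AC.D8b
import Pool.Agent.Helper22.AC.E1
import Pool.Agent.Helper22.AC.E2a
import Pool.Agent.Helper22.AE.P1

/-!
# AC-E2: the measure of the bad radii in a dyadic block

PROOF (twin of D9). Parameters `θ', e, e2, ε'` from `exps2`; `φ` from `exists_bump`; `τ = 1 - θ'`, `R₀ = 2^N`, `δ = R₀^(-τ)`; `n1` minimal with
`R₀^(τ+e2) ≤ 2^n1` (so `2^n1 ≤ 2 R₀^(τ+e2)`, `n1 ≤ N + 2`). For `n < n1` with `2^n ≥ R₀^(2θ'-1-2e)` let `lam = R₀^(θ'-e-1/2) 2^(3n/2)` and `S n` the set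
of `bad_radii` (constant `C₁`, with `ε'`): `card (S n) ≤ C₁ (2^n)^ε' (R₀^(4-6θ'+6e) + 8^n R₀^(3-6θ'+6e))`. If `R ∈ [R₀, 2R₀]` is in none of the intervals
`[R₀ + j/2^n, R₀ + (j+1)/2^n]`, `j ∈ S n`, then for every `c ∈ [0,1]²`: `errc_le_blocks` gives `|E| ≤ C R₀^θ' + ∑_{n<n1} ‖VKc‖`, where
`‖VKc‖ ≤ C R₀^(1/2) 2^(n/2) ≤ C R₀^(θ'-e)` for `2^n < R₀^(2θ'-1-2e)` (`VKc_trivial`), `‖VKc‖ ≤ C₁ (R₀^(θ'-e) + 1)` for the others. Total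
`≤ C R₀^θ' + C (N + 2) (R₀^(θ'-e) + 1) ≤ R₀^θ ≤ R^θ` for `N ≥ N₀` (`θ' < θ`). By periodicity (`Nat.card` bijection as in `Bd_add_int`: prove
`cntc H (c + m) R = cntc H c R`, or use `Int.fract` of the coordinates) the same holds for all `c ∈ ℝ²`.
So the bad set is covered by these intervals, of total length `≤ ∑_n card (S n) / 2^n ≤ (N + 2) C₁ · 9 R₀^(5-8θ+ε/2)` (`term2_le`)
`≤ C R₀^(5-8θ+ε)`.
-/

open MeasureTheory Real Set Filter Topology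

set_option autoImplicit false

namespace Pool.Agent.Helper22.AC

open Pool.Agent.Helper22.AE

private lemma h92_pow (N : ℕ) (x : ℝ) : ((2 : ℝ) ^ N) ^ x = (2 : ℝ) ^ ((N : ℝ) * x) := by
  rw [← Real.rpow_natCast 2 N, ← Real.rpow_mul (by norm_num)]

private lemma h92_card (N n : ℕ) {θ e ε : ℝ} :
    (((2 : ℝ) ^ N) ^ (θ - e - 1 / 2) * (2 : ℝ) ^ ((3 / 2 : ℝ) * n)) ^ (-(6 : ℝ)) * ((2 : ℝ) ^ n) ^ (9 + ε) *
      ((2 : ℝ) ^ N + 8 ^ n) =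
    ((2 : ℝ) ^ n) ^ ε * (((2 : ℝ) ^ N) ^ (4 - 6 * θ + 6 * e) + 8 ^ n * ((2 : ℝ) ^ N) ^ (3 - 6 * θ + 6 * e)) := by
  have h2 : (0 : ℝ) < 2 := by norm_num
  have e1 : (((2 : ℝ) ^ N) ^ (θ - e - 1 / 2) * (2 : ℝ) ^ ((3 / 2 : ℝ) * n)) ^ (-(6 : ℝ)) * ((2 : ℝ) ^ n) ^ (9 + ε) =
      ((2 : ℝ) ^ n) ^ ε * ((2 : ℝ) ^ N) ^ (3 - 6 * θ + 6 * e) := by
    rw [h92_pow, h92_pow, h92_pow, h92_pow, ← Real.rpow_add h2, ← Real.rpow_mul h2.le, ← Real.rpow_add h2, ← Real.rpow_add h2]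
    congr 1
    ring
  have e2 : ((2 : ℝ) ^ N) ^ (4 - 6 * θ + 6 * e) = ((2 : ℝ) ^ N) ^ (3 - 6 * θ + 6 * e) * (2 : ℝ) ^ N := by
    have h3 : (4 - 6 * θ + 6 * e) = (3 - 6 * θ + 6 * e) + 1 := by ring
    rw [h3, Real.rpow_add (by positivity), Real.rpow_one]
  rw [e1, e2]
  ring

private lemma h92_N (N : ℕ) {e : ℝ} (he : 0 < e) : (N : ℝ) * ((2 : ℝ) ^ N) ^ (-e) ≤ 1 / (e * Real.log 2) := by
  have hl : 0 < Real.log 2 := Real.log_pos (by norm_num)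
  have h1 : (N : ℝ) * (e * Real.log 2) ≤ ((2 : ℝ) ^ N) ^ e := by
    rw [h92_pow, Real.rpow_def_of_pos (by norm_num)]
    have := Real.add_one_le_exp (Real.log 2 * ((N : ℝ) * e))
    linarith
  have h2 : 0 < ((2 : ℝ) ^ N) ^ e := by positivity
  rw [Real.rpow_neg (by positivity), le_div_iff₀ (by positivity), mul_right_comm, ← div_eq_mul_inv, div_le_one h2]
  exact h1

private lemma h92_cntc (H : ℝ → ℝ) (c : ℝ × ℝ) (m : ℤ × ℤ) (R : ℝ) :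
    cntc H (c + ((m.1 : ℝ), (m.2 : ℝ))) R = cntc H c R := by
  unfold cntc
  congr 1
  refine Nat.card_congr ((Equiv.subRight m).subtypeEquiv fun k => ?_)
  have h1 : (((Equiv.subRight m) k).1 : ℝ) - c.1 = (k.1 : ℝ) - (c + ((m.1 : ℝ), (m.2 : ℝ))).1 := by
    simp only [Equiv.subRight_apply, Prod.fst_sub, Prod.fst_add]
    push_cast
    ring
  have h2 : (((Equiv.subRight m) k).2 : ℝ) - c.2 = (k.2 : ℝ) - (c + ((m.1 : ℝ), (m.2 : ℝ))).2 := by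
    simp only [Equiv.subRight_apply, Prod.snd_sub, Prod.snd_add]
    push_cast
    ring
  rw [h1, h2]

/-- reduction to the unit square -/
private lemma h92_frac (H : ℝ → ℝ) (c : ℝ × ℝ) (R : ℝ) :
    ∃ c' ∈ Icc (0 : ℝ) 1 ×ˢ Icc (0 : ℝ) 1, cntc H c' R = cntc H c R := by
  refine ⟨(Int.fract c.1, Int.fract c.2), ⟨⟨Int.fract_nonneg _, (Int.fract_lt_one _).le⟩,
    ⟨Int.fract_nonneg _, (Int.fract_lt_one _).le⟩⟩, ?_⟩
  have h := h92_cntc H (Int.fract c.1, Int.fract c.2) (⌊c.1⌋, ⌊c.2⌋) R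
  rw [← h]
  congr 1
  ext
  · simp [Int.fract_add_floor]
  · simp [Int.fract_add_floor]

/-- the levels -/
private noncomputable def h92_mid (θ e e2 : ℝ) (N : ℕ) : Finset ℕ :=
  (Finset.range N).filter fun n => ((2 : ℝ) ^ N) ^ (2 * θ - 1 - 2 * e) ≤ 2 ^ n ∧ (2 : ℝ) ^ n ≤ 2 * ((2 : ℝ) ^ N) ^ (1 - θ + e2)

theorem meas_block {H : ℝ → ℝ} (hH : IsSupp H) (h3 : ContDiff ℝ 3 H) {θ ε : ℝ} (h1 : 1 / 2 < θ) (h2 : θ < 2 / 3)
    (hε : 0 < ε) : ∃ (C : ℝ) (N₀ : ℕ), 0 ≤ C ∧ ∀ N : ℕ, N₀ ≤ N →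
      volume {R : ℝ | R ∈ Icc ((2 : ℝ) ^ N) (2 * 2 ^ N) ∧ ∃ c : ℝ × ℝ, R ^ θ < |cntc H c R - area H * R ^ 2|} ≤
        ENNReal.ofReal (C * ((2 : ℝ) ^ N) ^ (5 - 8 * θ + ε)) := by
  classical
  obtain ⟨θ', e, e2, ε', he, he2, hε', hε1, hθ1, hθ2, h2e, hτ1, hE1, hE2⟩ := exps2 h1 h2 hε
  obtain ⟨φ, hφ⟩ := exists_bump
  obtain ⟨C1, hC1, HB⟩ := bad_radii hH h3 hφ hε'
  obtain ⟨C2, hC2, HT⟩ := VKc_trivial hH hφ
  obtain ⟨C3, R1, hR1, HD⟩ := errc_le_blocks hH hφ (τ := 1 - θ') (e2 := e2) (by linarith) (by linarith) he2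
  have hR : ∀ N : ℕ, (1 : ℝ) ≤ 2 ^ N := fun N => one_le_pow₀ (by norm_num)
  have hδ : ∀ N : ℕ, ((2 : ℝ) ^ N) ^ (-(1 - θ')) ∈ Icc (0 : ℝ) 1 := fun N =>
    ⟨by positivity, Real.rpow_le_one_of_one_le_of_nonpos (hR N) (by linarith)⟩
  have hlam : ∀ N n : ℕ, 0 < ((2 : ℝ) ^ N) ^ (θ' - e - 1 / 2) * (2 : ℝ) ^ ((3 / 2 : ℝ) * n) := fun N n => by positivity
  choose S hS2 hS3 using fun (N n : ℕ) => HB ((2 : ℝ) ^ N) (hR N) n _ (hδ N) _ (hlam N n)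
  obtain ⟨N2, hN2⟩ := pow_unbounded_of_one_lt R1 (by norm_num : (1 : ℝ) < 2)
  have hlog : 0 < Real.log 2 := Real.log_pos (by norm_num)
  obtain ⟨K, hK⟩ : ∃ K : ℝ, K = |C3| + (C2 + 2 * C1) * (1 / (e * Real.log 2)) := ⟨_, rfl⟩
  have hK0 : 0 ≤ K := by rw [hK]; positivity
  -- the second threshold
  obtain ⟨N3, hN3⟩ : ∃ N3 : ℕ, ∀ N, N3 ≤ N → K ≤ ((2 : ℝ) ^ N) ^ (θ - θ') := by
    have ht : 0 < θ - θ' := by linarith
    have h2' : (1 : ℝ) < 2 ^ (θ - θ') := Real.one_lt_rpow (by norm_num) ht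
    obtain ⟨N3, hN3⟩ := pow_unbounded_of_one_lt K h2'
    refine ⟨N3, fun N hN => ?_⟩
    have h5 : ((2 : ℝ) ^ N) ^ (θ - θ') = ((2 : ℝ) ^ (θ - θ')) ^ N := by
      rw [← Real.rpow_natCast, ← Real.rpow_natCast, ← Real.rpow_mul (by norm_num), ← Real.rpow_mul (by norm_num), mul_comm]
    rw [h5]
    exact hN3.le.trans (pow_le_pow_right₀ h2'.le hN)
  -- one dyadic range
  have main : ∀ N, max N2 N3 ≤ N → ∀ R ∈ Icc ((2 : ℝ) ^ N) (2 * 2 ^ N),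
      (∀ n ∈ h92_mid θ' e e2 N, ∀ j ∈ S N n, R ∉ Icc ((2 : ℝ) ^ N + (j : ℝ) / 2 ^ n) (2 ^ N + ((j : ℝ) + 1) / 2 ^ n)) →
        ∀ c : ℝ × ℝ, |cntc H c R - area H * R ^ 2| ≤ R ^ θ := by
    intro N hN R hRm hgood c₀
    obtain ⟨c, hc, hcc⟩ := h92_frac H c₀ R
    rw [← hcc]
    have hR1N : R1 ≤ (2 : ℝ) ^ N := by
      have : (2 : ℝ) ^ N2 ≤ 2 ^ N := pow_le_pow_right₀ (by norm_num) ((le_max_left _ _).trans hN)
      linarith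
    have hex : ∃ n1 : ℕ, ((2 : ℝ) ^ N) ^ (1 - θ' + e2) ≤ 2 ^ n1 := by
      refine ⟨N, ?_⟩
      calc ((2 : ℝ) ^ N) ^ (1 - θ' + e2) ≤ ((2 : ℝ) ^ N) ^ (1 : ℝ) := Real.rpow_le_rpow_of_exponent_le (hR N) hτ1.le
        _ = 2 ^ N := Real.rpow_one _
    obtain ⟨n1, hn1d⟩ : ∃ n1, n1 = Nat.find hex := ⟨_, rfl⟩
    have hn1 : ((2 : ℝ) ^ N) ^ (1 - θ' + e2) ≤ 2 ^ n1 := by rw [hn1d]; exact Nat.find_spec hex
    have hn1N : n1 ≤ N := by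
      rw [hn1d]
      apply Nat.find_min' hex
      calc ((2 : ℝ) ^ N) ^ (1 - θ' + e2) ≤ ((2 : ℝ) ^ N) ^ (1 : ℝ) := Real.rpow_le_rpow_of_exponent_le (hR N) hτ1.le
        _ = 2 ^ N := Real.rpow_one _
    have hmin : ∀ n < n1, (2 : ℝ) ^ n < ((2 : ℝ) ^ N) ^ (1 - θ' + e2) := by
      intro n hn
      rw [hn1d] at hn
      exact not_le.1 (Nat.find_min hex hn)
    obtain ⟨σ, hσ, hsupp, hle⟩ := HD ((2 : ℝ) ^ N) hR1N R hRm c n1 hn1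
    have h11 : 1 - (1 - θ') = θ' := by ring
    rw [h11] at hle
    have hblock : ∀ n ∈ Finset.range n1, ‖VKc φ (fun t => R * H t + σ * ((2 : ℝ) ^ N) ^ (-(1 - θ'))) (((2 : ℝ) ^ N) ^ (-(1 - θ'))) n c‖ ≤
        (C2 + 2 * C1) * ((2 : ℝ) ^ N) ^ (θ' - e) := by
      intro n hn
      rw [Finset.mem_range] at hn
      have hone : 1 ≤ ((2 : ℝ) ^ N) ^ (θ' - e) := Real.one_le_rpow (hR N) (by linarith)
      by_cases hcase : (2 : ℝ) ^ n < ((2 : ℝ) ^ N) ^ (2 * θ' - 1 - 2 * e)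
      · have h5 := HT ((2 : ℝ) ^ N) (hR N) n _ (hδ N) σ hσ R hRm hsupp c
        refine h5.trans ?_
        have h6 : (2 : ℝ) ^ ((n : ℝ) / 2) ≤ ((2 : ℝ) ^ N) ^ (θ' - 1 / 2 - e) := by
          have e3 : (2 : ℝ) ^ ((n : ℝ) / 2) = ((2 : ℝ) ^ n) ^ (1 / 2 : ℝ) := by
            rw [h92_pow]
            congr 1
            ring
          have e4 : ((2 : ℝ) ^ N) ^ (θ' - 1 / 2 - e) = (((2 : ℝ) ^ N) ^ (2 * θ' - 1 - 2 * e)) ^ (1 / 2 : ℝ) := by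
            rw [← Real.rpow_mul (by positivity)]
            congr 1
            ring
          rw [e3, e4]
          exact Real.rpow_le_rpow (by positivity) hcase.le (by norm_num)
        calc C2 * ((2 : ℝ) ^ N) ^ (1 / 2 : ℝ) * (2 : ℝ) ^ ((n : ℝ) / 2) ≤ C2 * ((2 : ℝ) ^ N) ^ (1 / 2 : ℝ) * ((2 : ℝ) ^ N) ^ (θ' - 1 / 2 - e) :=
              mul_le_mul_of_nonneg_left h6 (by positivity)
          _ = C2 * ((2 : ℝ) ^ N) ^ (θ' - e) := by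
              rw [mul_assoc, ← Real.rpow_add (by positivity)]
              congr 2
              ring
          _ ≤ (C2 + 2 * C1) * ((2 : ℝ) ^ N) ^ (θ' - e) := mul_le_mul_of_nonneg_right (by linarith) (by positivity)
      · have hmid : n ∈ h92_mid θ' e e2 N := by
          unfold h92_mid
          rw [Finset.mem_filter, Finset.mem_range]
          refine ⟨by omega, not_lt.1 hcase, ?_⟩
          have h7 := (hmin n hn).le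
          have h8 : 0 ≤ ((2 : ℝ) ^ N) ^ (1 - θ' + e2) := by positivity
          linarith
        have h9 := hS3 N n R hRm (hgood n hmid) c hc σ hσ hsupp
        refine h9.trans ?_
        have e5 : ((2 : ℝ) ^ N) ^ (1 / 2 : ℝ) * (2 : ℝ) ^ (-(3 / 2 : ℝ) * n) *
            (((2 : ℝ) ^ N) ^ (θ' - e - 1 / 2) * (2 : ℝ) ^ ((3 / 2 : ℝ) * n)) = ((2 : ℝ) ^ N) ^ (θ' - e) := by
          have h20 : (0 : ℝ) < 2 := by norm_num
          rw [h92_pow, h92_pow, h92_pow, ← Real.rpow_add h20, ← Real.rpow_add h20, ← Real.rpow_add h20]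
          congr 1
          ring
        rw [e5]
        calc C1 * (((2 : ℝ) ^ N) ^ (θ' - e) + 1) ≤ C1 * (((2 : ℝ) ^ N) ^ (θ' - e) + ((2 : ℝ) ^ N) ^ (θ' - e)) :=
              mul_le_mul_of_nonneg_left (by linarith) hC1.le
          _ = 2 * C1 * ((2 : ℝ) ^ N) ^ (θ' - e) := by ring
          _ ≤ (C2 + 2 * C1) * ((2 : ℝ) ^ N) ^ (θ' - e) := mul_le_mul_of_nonneg_right (by linarith) (by positivity)
    have hsum2 := Finset.sum_le_sum hblock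
    rw [Finset.sum_const, Finset.card_range, nsmul_eq_mul] at hsum2
    have hfin : (n1 : ℝ) * ((C2 + 2 * C1) * ((2 : ℝ) ^ N) ^ (θ' - e)) ≤ (C2 + 2 * C1) * (1 / (e * Real.log 2)) * ((2 : ℝ) ^ N) ^ θ' := by
      have h10 : ((2 : ℝ) ^ N) ^ (θ' - e) = ((2 : ℝ) ^ N) ^ (-e) * ((2 : ℝ) ^ N) ^ θ' := by
        rw [← Real.rpow_add (by positivity)]
        congr 1
        ring
      have h12 := h92_N N he
      have h13 : (n1 : ℝ) ≤ N := by exact_mod_cast hn1N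
      calc (n1 : ℝ) * ((C2 + 2 * C1) * ((2 : ℝ) ^ N) ^ (θ' - e)) ≤ (N : ℝ) * ((C2 + 2 * C1) * ((2 : ℝ) ^ N) ^ (θ' - e)) :=
            mul_le_mul_of_nonneg_right h13 (by positivity)
        _ = (C2 + 2 * C1) * ((N : ℝ) * ((2 : ℝ) ^ N) ^ (-e)) * ((2 : ℝ) ^ N) ^ θ' := by rw [h10]; ring
        _ ≤ (C2 + 2 * C1) * (1 / (e * Real.log 2)) * ((2 : ℝ) ^ N) ^ θ' := by
            apply mul_le_mul_of_nonneg_right _ (by positivity)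
            exact mul_le_mul_of_nonneg_left h12 (by positivity)
    have h14 : C3 * ((2 : ℝ) ^ N) ^ θ' ≤ |C3| * ((2 : ℝ) ^ N) ^ θ' := mul_le_mul_of_nonneg_right (le_abs_self _) (by positivity)
    have h15 : |cntc H c R - area H * R ^ 2| ≤ K * ((2 : ℝ) ^ N) ^ θ' := by
      rw [hK, add_mul]
      linarith
    have h16 := hN3 N ((le_max_right _ _).trans hN)
    calc |cntc H c R - area H * R ^ 2| ≤ K * ((2 : ℝ) ^ N) ^ θ' := h15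
      _ ≤ ((2 : ℝ) ^ N) ^ (θ - θ') * ((2 : ℝ) ^ N) ^ θ' := mul_le_mul_of_nonneg_right h16 (by positivity)
      _ = ((2 : ℝ) ^ N) ^ θ := by
          rw [← Real.rpow_add (by positivity)]
          congr 1
          ring
      _ ≤ R ^ θ := Real.rpow_le_rpow (by positivity) hRm.1 (by linarith)
  refine ⟨9 * C1 * (1 / (ε / 2 * Real.log 2)), max N2 N3, by positivity, fun N hN => ?_⟩
  -- the covering
  have hcover : {R : ℝ | R ∈ Icc ((2 : ℝ) ^ N) (2 * 2 ^ N) ∧ ∃ c : ℝ × ℝ, R ^ θ < |cntc H c R - area H * R ^ 2|} ⊆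
      ⋃ n ∈ h92_mid θ' e e2 N, ⋃ j ∈ S N n, Icc ((2 : ℝ) ^ N + (j : ℝ) / 2 ^ n) (2 ^ N + ((j : ℝ) + 1) / 2 ^ n) := by
    rintro R ⟨hRm, c, hc⟩
    by_contra hcon
    have hgood : ∀ n ∈ h92_mid θ' e e2 N, ∀ j ∈ S N n,
        R ∉ Icc ((2 : ℝ) ^ N + (j : ℝ) / 2 ^ n) (2 ^ N + ((j : ℝ) + 1) / 2 ^ n) := by
      intro n hn j hj hmem
      apply hcon
      simp only [mem_iUnion]
      exact ⟨n, hn, j, hj, hmem⟩
    exact absurd (main N hN R hRm hgood c) (not_le.2 hc)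
  have hvol : ∀ n j : ℕ, volume (Icc ((2 : ℝ) ^ N + (j : ℝ) / 2 ^ n) (2 ^ N + ((j : ℝ) + 1) / 2 ^ n)) =
      ENNReal.ofReal (1 / 2 ^ n) := by
    intro n j
    rw [Real.volume_Icc]
    congr 1
    ring
  have hterm : ∀ n ∈ h92_mid θ' e e2 N, ((S N n).card : ℝ) * (1 / 2 ^ n) ≤ 9 * C1 * ((2 : ℝ) ^ N) ^ (5 - 8 * θ + ε / 2) := by
    intro n hn
    unfold h92_mid at hn
    rw [Finset.mem_filter] at hn
    have h4 := hS2 N n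
    rw [mul_assoc, mul_assoc, ← mul_assoc (_ ^ (-(6:ℝ))), h92_card] at h4
    have h5 := term2_le he2 hε' hε1 (by linarith) h2e hE1 hE2 hn.2.1 hn.2.2
    have h6 : (0 : ℝ) < 1 / 2 ^ n := by positivity
    calc ((S N n).card : ℝ) * (1 / 2 ^ n) ≤ (C1 * (((2 : ℝ) ^ n) ^ ε' * (((2 : ℝ) ^ N) ^ (4 - 6 * θ' + 6 * e) +
          8 ^ n * ((2 : ℝ) ^ N) ^ (3 - 6 * θ' + 6 * e)))) * (1 / 2 ^ n) := mul_le_mul_of_nonneg_right h4 h6.le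
      _ = C1 * (((2 : ℝ) ^ n) ^ ε' * (((2 : ℝ) ^ N) ^ (4 - 6 * θ' + 6 * e) +
          8 ^ n * ((2 : ℝ) ^ N) ^ (3 - 6 * θ' + 6 * e)) / 2 ^ n) := by ring
      _ ≤ C1 * (9 * ((2 : ℝ) ^ N) ^ (5 - 8 * θ + ε / 2)) := mul_le_mul_of_nonneg_left h5 hC1.le
      _ = 9 * C1 * ((2 : ℝ) ^ N) ^ (5 - 8 * θ + ε / 2) := by ring
  have hreal : ∑ n ∈ h92_mid θ' e e2 N, ((S N n).card : ℝ) * (1 / 2 ^ n) ≤
      9 * C1 * (1 / (ε / 2 * Real.log 2)) * ((2 : ℝ) ^ N) ^ (5 - 8 * θ + ε) := by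
    have hcard : ((h92_mid θ' e e2 N).card : ℝ) ≤ N := by
      have : (h92_mid θ' e e2 N).card ≤ N := by
        unfold h92_mid
        exact (Finset.card_filter_le _ _).trans (by rw [Finset.card_range])
      exact_mod_cast this
    calc ∑ n ∈ h92_mid θ' e e2 N, ((S N n).card : ℝ) * (1 / 2 ^ n)
        ≤ ∑ n ∈ h92_mid θ' e e2 N, 9 * C1 * ((2 : ℝ) ^ N) ^ (5 - 8 * θ + ε / 2) := Finset.sum_le_sum hterm
      _ = ((h92_mid θ' e e2 N).card : ℝ) * (9 * C1 * ((2 : ℝ) ^ N) ^ (5 - 8 * θ + ε / 2)) := by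
          rw [Finset.sum_const, nsmul_eq_mul]
      _ ≤ (N : ℝ) * (9 * C1 * ((2 : ℝ) ^ N) ^ (5 - 8 * θ + ε / 2)) :=
          mul_le_mul_of_nonneg_right hcard (by positivity)
      _ = 9 * C1 * ((N : ℝ) * ((2 : ℝ) ^ N) ^ (-(ε / 2))) * ((2 : ℝ) ^ N) ^ (5 - 8 * θ + ε) := by
          have h7 : ((2 : ℝ) ^ N) ^ (5 - 8 * θ + ε / 2) = ((2 : ℝ) ^ N) ^ (-(ε / 2)) * ((2 : ℝ) ^ N) ^ (5 - 8 * θ + ε) := by
            rw [← Real.rpow_add (by positivity)]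
            congr 1
            ring
          rw [h7]
          ring
      _ ≤ 9 * C1 * (1 / (ε / 2 * Real.log 2)) * ((2 : ℝ) ^ N) ^ (5 - 8 * θ + ε) := by
          apply mul_le_mul_of_nonneg_right _ (by positivity)
          exact mul_le_mul_of_nonneg_left (h92_N N (by linarith)) (by positivity)
  calc volume {R : ℝ | R ∈ Icc ((2 : ℝ) ^ N) (2 * 2 ^ N) ∧ ∃ c : ℝ × ℝ, R ^ θ < |cntc H c R - area H * R ^ 2|}
      ≤ volume (⋃ n ∈ h92_mid θ' e e2 N, ⋃ j ∈ S N n,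
          Icc ((2 : ℝ) ^ N + (j : ℝ) / 2 ^ n) (2 ^ N + ((j : ℝ) + 1) / 2 ^ n)) := measure_mono hcover
    _ ≤ ∑ n ∈ h92_mid θ' e e2 N, volume (⋃ j ∈ S N n,
          Icc ((2 : ℝ) ^ N + (j : ℝ) / 2 ^ n) (2 ^ N + ((j : ℝ) + 1) / 2 ^ n)) := measure_biUnion_finset_le _ _
    _ ≤ ∑ n ∈ h92_mid θ' e e2 N, ∑ j ∈ S N n,
          volume (Icc ((2 : ℝ) ^ N + (j : ℝ) / 2 ^ n) (2 ^ N + ((j : ℝ) + 1) / 2 ^ n)) :=
        Finset.sum_le_sum fun n _ => measure_biUnion_finset_le _ _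
    _ = ∑ n ∈ h92_mid θ' e e2 N, ENNReal.ofReal (((S N n).card : ℝ) * (1 / 2 ^ n)) := by
        refine Finset.sum_congr rfl fun n _ => ?_
        simp only [hvol]
        rw [Finset.sum_const, nsmul_eq_mul, ENNReal.ofReal_mul (Nat.cast_nonneg _), ENNReal.ofReal_natCast]
    _ = ENNReal.ofReal (∑ n ∈ h92_mid θ' e e2 N, ((S N n).card : ℝ) * (1 / 2 ^ n)) := by
        rw [ENNReal.ofReal_sum_of_nonneg]
        intro n _
        positivity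
    _ ≤ ENNReal.ofReal (9 * C1 * (1 / (ε / 2 * Real.log 2)) * ((2 : ℝ) ^ N) ^ (5 - 8 * θ + ε)) :=
        ENNReal.ofReal_le_ofReal hreal

end Pool.Agent.Helper22.AC
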