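import Pool.Agent.Helper22.AC.E2

/-!
# AC-E3: almost all radii, all centres

PROOF of `all_centres`: `C₁, N₀` from `meas_block`. If `2^N ≤ X < 2^(N+1)`, `N ≥ N₀`, then `[X, 2X] ⊆ [2^N, 2·2^N] ∪ [2^(N+1), 2·2^(N+1)]`, and
`(2^N)^E, (2^(N+1))^E ≤ 2^|E| X^E` for `E = 5 - 8θ + ε`. If `X < 2^N₀` the measure is at most `X ≤ 2^N₀ ≤ C X^E` with `C = 2^N₀ · 2^(N₀ |E|)`.
PROOF of `finite_bad`: `θ > 5/8`; choose `ε` with `5 - 8θ + ε < 0` and sum the geometric series of `meas_block`; the part `[1, 2^N₀]` has finite measure.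
-/

open MeasureTheory Real Set Filter Topology

set_option autoImplicit false

namespace Pool.Agent.Helper22.AC

open Pool.Agent.Helper22.AE

private theorem pw_h75 {X t E : ℝ} (hX : 0 < X) (ht : 0 < t) (h1 : X ≤ 2 * t) (h2 : t ≤ 2 * X) :
    t ^ E ≤ 2 ^ |E| * X ^ E := by
  have h3 : t ^ E = (t / X) ^ E * X ^ E := by
    rw [← Real.mul_rpow (div_nonneg ht.le hX.le) hX.le, div_mul_cancel₀ _ hX.ne']
  rw [h3]
  refine mul_le_mul_of_nonneg_right ?_ (Real.rpow_nonneg hX.le _)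
  have h4 : t / X ≤ 2 := by rwa [div_le_iff₀ hX]
  have h5 : 1 / 2 ≤ t / X := by
    rw [le_div_iff₀ hX]
    linarith
  have h6 : 0 < t / X := div_pos ht hX
  rcases le_total 0 E with hE | hE
  · rw [abs_of_nonneg hE]
    exact Real.rpow_le_rpow h6.le h4 hE
  · rw [abs_of_nonpos hE]
    have h7 : (t / X) ^ E ≤ (1 / 2 : ℝ) ^ E := Real.rpow_le_rpow_of_nonpos (by norm_num) h5 hE
    have h8 : (1 / 2 : ℝ) ^ E = 2 ^ (-E) := by
      rw [one_div, Real.inv_rpow (by norm_num), Real.rpow_neg (by norm_num)]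
    rwa [h8] at h7

theorem all_centres {H : ℝ → ℝ} (hH : IsSupp H) (h3 : ContDiff ℝ 3 H) {θ ε : ℝ} (h1 : 1 / 2 < θ) (h2 : θ < 2 / 3)
    (hε : 0 < ε) : ∃ C : ℝ, ∀ X : ℝ, 1 ≤ X →
      volume {R : ℝ | R ∈ Icc X (2 * X) ∧ ∃ c : ℝ × ℝ, R ^ θ < |cntc H c R - area H * R ^ 2|} ≤
        ENNReal.ofReal (C * X ^ (5 - 8 * θ + ε)) := by
  obtain ⟨C₁, N₀, hC₁, hblk⟩ := meas_block hH h3 h1 h2 hε
  obtain ⟨E, hE⟩ : ∃ E : ℝ, E = 5 - 8 * θ + ε := ⟨_, rfl⟩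
  rw [← hE] at hblk ⊢
  obtain ⟨A, hA⟩ : ∃ A : ℝ, A = (2 : ℝ) ^ N₀ := ⟨_, rfl⟩
  have hA0 : 0 < A := by rw [hA]; positivity
  refine ⟨A * A ^ |E| + 2 * C₁ * 2 ^ |E|, fun X hX => ?_⟩
  have hX0 : 0 < X := by linarith
  have hXE : 0 < X ^ E := Real.rpow_pos_of_pos hX0 _
  rcases lt_or_ge X A with hXA | hXA
  · have e1 : volume {R : ℝ | R ∈ Icc X (2 * X) ∧ ∃ c : ℝ × ℝ,
        R ^ θ < |cntc H c R - area H * R ^ 2|} ≤ volume (Icc X (2 * X)) :=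
      measure_mono fun R hR => hR.1
    refine e1.trans ?_
    rw [Real.volume_Icc]
    apply ENNReal.ofReal_le_ofReal
    have e2 : A ^ (-|E|) ≤ X ^ E := by
      have e3 : X ^ (-|E|) ≤ X ^ E := Real.rpow_le_rpow_of_exponent_le hX (neg_abs_le E)
      refine le_trans ?_ e3
      exact Real.rpow_le_rpow_of_nonpos hX0 hXA.le (neg_nonpos.2 (abs_nonneg _))
    have e4 : A * A ^ |E| * A ^ (-|E|) = A := by
      rw [mul_assoc, ← Real.rpow_add hA0, add_neg_cancel, Real.rpow_zero, mul_one]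
    have e5 : A * A ^ |E| * A ^ (-|E|) ≤ A * A ^ |E| * X ^ E :=
      mul_le_mul_of_nonneg_left e2 (by positivity)
    have e6 : 0 ≤ 2 * C₁ * 2 ^ |E| * X ^ E := by positivity
    calc 2 * X - X = X := by ring
      _ ≤ A := hXA.le
      _ ≤ A * A ^ |E| * X ^ E := by rw [e4] at e5; exact e5
      _ ≤ (A * A ^ |E| + 2 * C₁ * 2 ^ |E|) * X ^ E := by rw [add_mul]; linarith
  · obtain ⟨N, hN1, hN2⟩ := exists_nat_pow_near hX (one_lt_two : (1 : ℝ) < 2)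
    have hNN : N₀ ≤ N := by
      have h5 : (2 : ℝ) ^ N₀ < 2 ^ (N + 1) := by
        rw [← hA]
        exact lt_of_le_of_lt hXA hN2
      have h6 := (pow_lt_pow_iff_right₀ (one_lt_two : (1 : ℝ) < 2)).1 h5
      omega
    have hsub : {R : ℝ | R ∈ Icc X (2 * X) ∧ ∃ c : ℝ × ℝ,
        R ^ θ < |cntc H c R - area H * R ^ 2|} ⊆
        {R : ℝ | R ∈ Icc ((2 : ℝ) ^ N) (2 * 2 ^ N) ∧ ∃ c : ℝ × ℝ,
          R ^ θ < |cntc H c R - area H * R ^ 2|} ∪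
        {R : ℝ | R ∈ Icc ((2 : ℝ) ^ (N + 1)) (2 * 2 ^ (N + 1)) ∧ ∃ c : ℝ × ℝ,
          R ^ θ < |cntc H c R - area H * R ^ 2|} := by
      rintro R ⟨⟨hR1, hR2⟩, hR3⟩
      rcases le_total R (2 * 2 ^ N) with h | h
      · left
        exact ⟨⟨hN1.trans hR1, h⟩, hR3⟩
      · right
        refine ⟨⟨?_, by linarith⟩, hR3⟩
        rw [pow_succ]
        linarith
    refine (measure_mono hsub).trans ((measure_union_le _ _).trans ?_)
    refine (add_le_add (hblk N hNN) (hblk (N + 1) (by omega))).trans ?_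
    have g1 : 0 ≤ C₁ * ((2 : ℝ) ^ N) ^ E := by positivity
    have g2 : 0 ≤ C₁ * ((2 : ℝ) ^ (N + 1)) ^ E := by positivity
    rw [← ENNReal.ofReal_add g1 g2]
    apply ENNReal.ofReal_le_ofReal
    have g3 : ((2 : ℝ) ^ N) ^ E ≤ 2 ^ |E| * X ^ E := by
      apply pw_h75 hX0 (by positivity)
      · rw [pow_succ] at hN2
        linarith
      · linarith
    have g4 : ((2 : ℝ) ^ (N + 1)) ^ E ≤ 2 ^ |E| * X ^ E := by
      apply pw_h75 hX0 (by positivity)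
      · linarith
      · rw [pow_succ]
        linarith
    have g5 := mul_le_mul_of_nonneg_left g3 hC₁
    have g6 := mul_le_mul_of_nonneg_left g4 hC₁
    have g7 : 0 ≤ A * A ^ |E| * X ^ E := by positivity
    calc C₁ * ((2 : ℝ) ^ N) ^ E + C₁ * ((2 : ℝ) ^ (N + 1)) ^ E
        ≤ C₁ * (2 ^ |E| * X ^ E) + C₁ * (2 ^ |E| * X ^ E) := add_le_add g5 g6
      _ ≤ A * A ^ |E| * X ^ E + (C₁ * (2 ^ |E| * X ^ E) + C₁ * (2 ^ |E| * X ^ E)) := by linarith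
      _ = (A * A ^ |E| + 2 * C₁ * 2 ^ |E|) * X ^ E := by ring

theorem finite_bad {H : ℝ → ℝ} (hH : IsSupp H) (h3 : ContDiff ℝ 3 H) {θ : ℝ} (h1 : 5 / 8 < θ) (h2 : θ < 2 / 3) :
    volume {R : ℝ | 1 ≤ R ∧ ∃ c : ℝ × ℝ, R ^ θ < |cntc H c R - area H * R ^ 2|} < ⊤ := by
  obtain ⟨C₁, N₀, hC₁, hblk⟩ := meas_block hH h3 (θ := θ) (ε := (8 * θ - 5) / 2) (by linarith) h2
    (by linarith)
  obtain ⟨E, hE⟩ : ∃ E : ℝ, E = 5 - 8 * θ + (8 * θ - 5) / 2 := ⟨_, rfl⟩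
  rw [← hE] at hblk
  have hE0 : E < 0 := by rw [hE]; linarith
  have hsub : {R : ℝ | 1 ≤ R ∧ ∃ c : ℝ × ℝ, R ^ θ < |cntc H c R - area H * R ^ 2|} ⊆
      Icc 1 ((2 : ℝ) ^ N₀) ∪ ⋃ k : ℕ, {R : ℝ | R ∈ Icc ((2 : ℝ) ^ (N₀ + k)) (2 * 2 ^ (N₀ + k)) ∧
        ∃ c : ℝ × ℝ, R ^ θ < |cntc H c R - area H * R ^ 2|} := by
    rintro R ⟨hR1, hR2⟩
    rcases le_total R ((2 : ℝ) ^ N₀) with h | h
    · left
      exact ⟨hR1, h⟩
    · right
      obtain ⟨N, hN1, hN2⟩ := exists_nat_pow_near hR1 (one_lt_two : (1 : ℝ) < 2)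
      have hNN : N₀ ≤ N := by
        have h6 := (pow_lt_pow_iff_right₀ (one_lt_two : (1 : ℝ) < 2)).1 (lt_of_le_of_lt h hN2)
        omega
      obtain ⟨k, rfl⟩ := Nat.exists_eq_add_of_le hNN
      rw [mem_iUnion]
      refine ⟨k, ⟨hN1, ?_⟩, hR2⟩
      rw [pow_succ] at hN2
      linarith
  refine lt_of_le_of_lt ((measure_mono hsub).trans (measure_union_le _ _)) ?_
  rw [ENNReal.add_lt_top]
  constructor
  · rw [Real.volume_Icc]
    exact ENNReal.ofReal_lt_top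
  · refine lt_of_le_of_lt (measure_iUnion_le _) ?_
    have g1 : ∀ k : ℕ, C₁ * ((2 : ℝ) ^ (N₀ + k)) ^ E = C₁ * ((2 : ℝ) ^ E) ^ N₀ * ((2 : ℝ) ^ E) ^ k := by
      intro k
      rw [← Real.rpow_pow_comm (by norm_num), pow_add]
      ring
    have hs : Summable fun k : ℕ => C₁ * ((2 : ℝ) ^ E) ^ N₀ * ((2 : ℝ) ^ E) ^ k :=
      (summable_geometric_of_lt_one (by positivity)
        (Real.rpow_lt_one_of_one_lt_of_neg one_lt_two hE0)).mul_left _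
    have g2 : ∑' k : ℕ, volume {R : ℝ | R ∈ Icc ((2 : ℝ) ^ (N₀ + k)) (2 * 2 ^ (N₀ + k)) ∧
        ∃ c : ℝ × ℝ, R ^ θ < |cntc H c R - area H * R ^ 2|} ≤
        ∑' k : ℕ, ENNReal.ofReal (C₁ * ((2 : ℝ) ^ E) ^ N₀ * ((2 : ℝ) ^ E) ^ k) := by
      refine ENNReal.tsum_le_tsum fun k => ?_
      rw [← g1]
      exact hblk (N₀ + k) (Nat.le_add_right _ _)
    refine lt_of_le_of_lt g2 ?_
    rw [← ENNReal.ofReal_tsum_of_nonneg (fun k => by positivity) hs]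
    exact ENNReal.ofReal_lt_top

end Pool.Agent.Helper22.AC
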